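import Pool.Agent.Lib.MP_2392aa_gt.L.ArBas

/-!
MP_2392aa_gt, formal linearization, module ArGen (about 280 lines): generation of `GL_m(D)` by
elementary and block diagonal matrices (Gauss elimination over a division ring).

PROOF of `gen_I` (`e = prj δ {i0}`). Let `A = mt g`, blocks `A_ij ∈ D` (rational blocks form a division
ring: `rat_inv_block`). The block column `(A_(i i0))_i` is not zero (`A` is invertible, `δ` nonempty). If
`A_(i0 i0) = 0` choose `j` with `A_(j i0) ≠ 0` and replace `g` by `tw (om (bl i0 j 1)) * g`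
(`om (bl i0 j 1) ∈ uT e`): now `A_(i0 i0) ≠ 0`. Multiply from the left by `tw (- ∑_(j ≠ i0) om (bl j i0
(A_(j i0) A_(i0 i0)⁻¹)))` (in `uS e`): now `A_(j i0) = 0` for `j ≠ i0`. Multiply from the right by
`tw (- ∑_(j ≠ i0) om (bl i0 j (A_(i0 i0)⁻¹ A_(i0 j))))` (in `uT e`): now `A_(i0 j) = 0` for `j ≠ i0`, so the
element commutes with `e`. All factors are in `GQ` (`gq_tw`, `rat_iff`).
`gen_B` (`δ = Unit`: the blocks are real numbers; the rational blocks form a field `K ⊆ ℝ`): `A` is an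
invertible matrix over `μ` with entries in the field `K`, its inverse too. By
`Matrix.Pivot.exists_list_transvec_mul_diagonal_mul_list_transvec` over the field `K` (a `Subfield ℝ`,
or directly by elimination) `A` is a product of transvections over `K` and a diagonal matrix over `K`.
-/

open scoped ContDiff Topology
open LatN (DivO blo blkO unitI En)

namespace LatLin

section
variable {μ δ : Type*} [Fintype μ] [DecidableEq μ] [Fintype δ] [DecidableEq δ]
  {D0 : Subring (Matrix δ δ ℝ)}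

/-! ### auxiliary facts -/

private def RB (D0 : Subring (Matrix δ δ ℝ)) (x : Matrix δ δ ℝ) : Prop :=
  ∃ M : ℕ, M ≠ 0 ∧ (M : ℝ) • x ∈ D0

private theorem rb_zero (D0 : Subring (Matrix δ δ ℝ)) : RB D0 0 :=
  ⟨1, one_ne_zero, by simpa using D0.zero_mem⟩

private theorem rb_one (D0 : Subring (Matrix δ δ ℝ)) : RB D0 1 :=
  ⟨1, one_ne_zero, by simpa using D0.one_mem⟩

private theorem rb_mul {D0 : Subring (Matrix δ δ ℝ)} {x y : Matrix δ δ ℝ} (hx : RB D0 x)
    (hy : RB D0 y) : RB D0 (x * y) := by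
  obtain ⟨M, hM, h1⟩ := hx
  obtain ⟨N, hN, h2⟩ := hy
  refine ⟨M * N, mul_ne_zero hM hN, ?_⟩
  have h : ((M * N : ℕ) : ℝ) • (x * y) = ((M : ℝ) • x) * ((N : ℝ) • y) := by
    rw [smul_mul_smul_comm]
    push_cast
    rfl
  rw [h]
  exact D0.mul_mem h1 h2

private theorem rb_nsmul {D0 : Subring (Matrix δ δ ℝ)} {x : Matrix δ δ ℝ} (N : ℕ) (hx : x ∈ D0) :
    (N : ℝ) • x ∈ D0 := by
  have h : (N : ℝ) • x = N • x := by
    rw [Nat.cast_smul_eq_nsmul]
  rw [h]
  exact D0.nsmul_mem hx N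

private theorem rb_add {D0 : Subring (Matrix δ δ ℝ)} {x y : Matrix δ δ ℝ} (hx : RB D0 x)
    (hy : RB D0 y) : RB D0 (x + y) := by
  obtain ⟨M, hM, h1⟩ := hx
  obtain ⟨N, hN, h2⟩ := hy
  refine ⟨M * N, mul_ne_zero hM hN, ?_⟩
  have h : ((M * N : ℕ) : ℝ) • (x + y) = (N : ℝ) • ((M : ℝ) • x) + (M : ℝ) • ((N : ℝ) • y) := by
    rw [smul_smul, smul_smul, smul_add]
    push_cast
    rw [mul_comm (N : ℝ) (M : ℝ)]
  rw [h]
  exact D0.add_mem (rb_nsmul N h1) (rb_nsmul M h2)

private theorem rb_neg {D0 : Subring (Matrix δ δ ℝ)} {x : Matrix δ δ ℝ} (hx : RB D0 x) :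
    RB D0 (-x) := by
  obtain ⟨M, hM, h1⟩ := hx
  refine ⟨M, hM, ?_⟩
  rw [smul_neg]
  exact D0.neg_mem h1

private theorem mt_mul {ν : Type*} [Fintype ν] [DecidableEq ν] (g h : GE (En ν)) :
    mt ((g * h : GE (En ν)) : En ν →L[ℝ] En ν)
      = mt (g : En ν →L[ℝ] En ν) * mt (h : En ν →L[ℝ] En ν) := by
  unfold mt
  rw [← map_mul]
  rfl

private theorem mt_one {ν : Type*} [Fintype ν] [DecidableEq ν] :
    mt ((1 : GE (En ν)) : En ν →L[ℝ] En ν) = 1 := by
  have h : ((1 : GE (En ν)) : En ν →L[ℝ] En ν) = 1 := rfl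
  unfold mt
  rw [h, map_one]

private theorem mt_inj {ν : Type*} [Fintype ν] [DecidableEq ν] {g h : GE (En ν)}
    (e : mt (g : En ν →L[ℝ] En ν) = mt (h : En ν →L[ℝ] En ν)) : g = h := by
  have h1 := congrArg om e
  rw [om_mt, om_mt] at h1
  ext x
  exact congrArg (fun f : En ν →L[ℝ] En ν => f x) h1 ▸ rfl

private theorem om_sq {ν : Type*} [Fintype ν] [DecidableEq ν] {X : Matrix ν ν ℝ}
    (h : X * X = 0) : om X ∘L om X = 0 := by
  rw [← om_comp, h]
  unfold om
  rw [map_zero]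

private theorem mt_tw {ν : Type*} [Fintype ν] [DecidableEq ν] {X : Matrix ν ν ℝ}
    (h : X * X = 0) : mt ((tw (om X) : GE (En ν)) : En ν →L[ℝ] En ν) = 1 + X := by
  have h1 : ((tw (om X) : GE (En ν)) : En ν →L[ℝ] En ν) = 1 + om X := by
    ext1 x
    exact tw_apply (om_sq h) x
  rw [h1]
  unfold mt
  rw [map_add, map_one]
  congr 1
  exact mt_om X

private theorem coe_apply {ν : Type*} [Fintype ν] [DecidableEq ν] (g : GE (En ν)) (x : En ν)
    (p : ν) : g x p = ∑ q, mt (g : En ν →L[ℝ] En ν) p q * x q := by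
  rw [← om_apply, om_mt]
  rfl

private theorem mem_uT {i0 : μ} {X : Matrix (μ × δ) (μ × δ) ℝ}
    (h : ∀ p q, ¬ (p.1 = i0 ∧ q.1 ≠ i0) → X p q = 0) : om X ∈ uT (prj δ {i0}) := by
  refine ⟨fun x => ?_, fun x => ?_⟩
  · ext p
    rw [prj_apply]
    by_cases hp : p.1 ∈ ({i0} : Finset μ)
    · rw [if_pos hp]
    · rw [if_neg hp, om_apply]
      symm
      refine Finset.sum_eq_zero fun q _ => ?_
      rw [h p q (fun hc => hp (by simpa using hc.1)), zero_mul]
  · ext p
    rw [om_apply]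
    refine Finset.sum_eq_zero fun q _ => ?_
    rw [prj_apply]
    by_cases hq : q.1 ∈ ({i0} : Finset μ)
    · rw [h p q (fun hc => hc.2 (by simpa using hq)), zero_mul]
    · rw [if_neg hq, mul_zero]

private theorem mem_uS {i0 : μ} {X : Matrix (μ × δ) (μ × δ) ℝ}
    (h : ∀ p q, ¬ (p.1 ≠ i0 ∧ q.1 = i0) → X p q = 0) : om X ∈ uS (prj δ {i0}) := by
  refine ⟨fun x => ?_, fun x => ?_⟩
  · ext p
    rw [prj_apply]
    by_cases hp : p.1 ∈ ({i0} : Finset μ)
    · rw [if_pos hp, om_apply]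
      refine Finset.sum_eq_zero fun q _ => ?_
      rw [h p q (fun hc => hc.1 (by simpa using hp)), zero_mul]
    · rw [if_neg hp]
      rfl
  · ext p
    rw [om_apply, om_apply]
    refine Finset.sum_congr rfl fun q _ => ?_
    rw [prj_apply]
    by_cases hq : q.1 ∈ ({i0} : Finset μ)
    · rw [if_pos hq]
    · rw [h p q (fun hc => hq (by simpa using hc.2)), zero_mul, zero_mul]

private theorem sq_uT {i0 : μ} {X : Matrix (μ × δ) (μ × δ) ℝ}
    (h : ∀ p q, ¬ (p.1 = i0 ∧ q.1 ≠ i0) → X p q = 0) : X * X = 0 := by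
  ext p q
  rw [Matrix.mul_apply, Matrix.zero_apply]
  refine Finset.sum_eq_zero fun r _ => ?_
  by_cases hr : r.1 = i0
  · rw [h p r (fun hc => hc.2 hr), zero_mul]
  · rw [h r q (fun hc => hr hc.1), mul_zero]

private theorem sq_uS {i0 : μ} {X : Matrix (μ × δ) (μ × δ) ℝ}
    (h : ∀ p q, ¬ (p.1 ≠ i0 ∧ q.1 = i0) → X p q = 0) : X * X = 0 := by
  ext p q
  rw [Matrix.mul_apply, Matrix.zero_apply]
  refine Finset.sum_eq_zero fun r _ => ?_
  by_cases hr : r.1 = i0
  · rw [h r q (fun hc => hc.1 hr), mul_zero]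
  · rw [h p r (fun hc => hr hc.2), zero_mul]

/-- generators: rational points of the two unipotent groups of the block `i0`, and block diagonal
rational points -/
def GenI (D0 : Subring (Matrix δ δ ℝ)) (i0 : μ) : Set (GE (En (μ × δ))) :=
  {g | g ∈ GQ μ D0 ∧ (g ∈ tws (uT (prj δ {i0})) ∨ g ∈ tws (uS (prj δ {i0})) ∨
    ∀ x, prj δ {i0} (g x) = g (prj δ {i0} x))}

private theorem gen_L {i0 : μ} {X : Matrix (μ × δ) (μ × δ) ℝ}
    (h : ∀ p q, ¬ (p.1 ≠ i0 ∧ q.1 = i0) → X p q = 0) (hr : Rat D0 X) :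
    tw (om X) ∈ Subgroup.closure (GenI D0 i0) :=
  Subgroup.subset_closure ⟨gq_tw (sq_uS h) hr, Or.inr (Or.inl ⟨om X, mem_uS h, rfl⟩)⟩

private theorem gen_R {i0 : μ} {X : Matrix (μ × δ) (μ × δ) ℝ}
    (h : ∀ p q, ¬ (p.1 = i0 ∧ q.1 ≠ i0) → X p q = 0) (hr : Rat D0 X) :
    tw (om X) ∈ Subgroup.closure (GenI D0 i0) :=
  Subgroup.subset_closure ⟨gq_tw (sq_uT h) hr, Or.inl ⟨om X, mem_uT h, rfl⟩⟩

private theorem step_main (hD : DivO δ D0) (i0 : μ) {g : GE (En (μ × δ))} (hg : g ∈ GQ μ D0)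
    (h00 : blo (mt (g : En (μ × δ) →L[ℝ] En (μ × δ))) i0 i0 ≠ 0) :
    g ∈ Subgroup.closure (GenI D0 i0) := by
  obtain ⟨A, hA⟩ : ∃ A, A = mt (g : En (μ × δ) →L[ℝ] En (μ × δ)) := ⟨_, rfl⟩
  rw [← hA] at h00
  have hr : ∀ i j, RB D0 (blo A i j) := by
    rw [hA]
    exact rat_iff.1 hg.1
  obtain ⟨hdet, hinv⟩ := rat_inv_block hD h00 (hr i0 i0)
  have hu : IsUnit (blo A i0 i0).det := isUnit_iff_ne_zero.2 hdet
  obtain ⟨B, hB⟩ : ∃ B, B = (blo A i0 i0)⁻¹ := ⟨_, rfl⟩
  have hinvB : RB D0 B := by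
    rw [hB]
    exact hinv
  have hBA : B * blo A i0 i0 = 1 := by
    rw [hB]
    exact Matrix.nonsing_inv_mul _ hu
  have hAB : blo A i0 i0 * B = 1 := by
    rw [hB]
    exact Matrix.mul_nonsing_inv _ hu
  obtain ⟨X, hX⟩ : ∃ X : Matrix (μ × δ) (μ × δ) ℝ, X = fun p q =>
    if p.1 ≠ i0 ∧ q.1 = i0 then (-(blo A p.1 i0 * B)) p.2 q.2 else 0 := ⟨_, rfl⟩
  obtain ⟨Y, hY⟩ : ∃ Y : Matrix (μ × δ) (μ × δ) ℝ, Y = fun p q =>
    if p.1 = i0 ∧ q.1 ≠ i0 then (-(B * blo A i0 q.1)) p.2 q.2 else 0 := ⟨_, rfl⟩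
  have hX0 : ∀ p q, ¬ (p.1 ≠ i0 ∧ q.1 = i0) → X p q = 0 := by
    intro p q h
    rw [hX]
    exact if_neg h
  have hX1 : ∀ p q, (p.1 ≠ i0 ∧ q.1 = i0) → X p q = (-(blo A p.1 i0 * B)) p.2 q.2 := by
    intro p q h
    rw [hX]
    exact if_pos h
  have hY0 : ∀ p q, ¬ (p.1 = i0 ∧ q.1 ≠ i0) → Y p q = 0 := by
    intro p q h
    rw [hY]
    exact if_neg h
  have hY1 : ∀ p q, (p.1 = i0 ∧ q.1 ≠ i0) → Y p q = (-(B * blo A i0 q.1)) p.2 q.2 := by
    intro p q h
    rw [hY]
    exact if_pos h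
  have hXr : Rat D0 X := by
    refine rat_iff.2 fun i j => ?_
    by_cases h : i ≠ i0 ∧ j = i0
    · have h1 : blo X i j = -(blo A i i0 * B) := by
        ext a b
        exact hX1 (i, a) (j, b) h
      rw [h1]
      exact rb_neg (rb_mul (hr i i0) hinvB)
    · have h1 : blo X i j = 0 := by
        ext a b
        exact hX0 (i, a) (j, b) h
      rw [h1]
      exact rb_zero D0
  have hYr : Rat D0 Y := by
    refine rat_iff.2 fun i j => ?_
    by_cases h : i = i0 ∧ j ≠ i0
    · have h1 : blo Y i j = -(B * blo A i0 j) := by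
        ext a b
        exact hY1 (i, a) (j, b) h
      rw [h1]
      exact rb_neg (rb_mul hinvB (hr i0 j))
    · have h1 : blo Y i j = 0 := by
        ext a b
        exact hY0 (i, a) (j, b) h
      rw [h1]
      exact rb_zero D0
  have hLg : tw (om X) ∈ Subgroup.closure (GenI D0 i0) := gen_L hX0 hXr
  have hRg : tw (om Y) ∈ Subgroup.closure (GenI D0 i0) := gen_R hY0 hYr
  have hmt : mt ((tw (om X) * g * tw (om Y) : GE (En (μ × δ))) : En (μ × δ) →L[ℝ] En (μ × δ))
      = (1 + X) * A * (1 + Y) := by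
    rw [mt_mul, mt_mul, mt_tw (sq_uS hX0), mt_tw (sq_uT hY0), hA]
  obtain ⟨C, hC⟩ : ∃ C, C = (1 + X) * A := ⟨_, rfl⟩
  have hC1 : ∀ p q, p.1 = i0 → C p q = A p q := by
    intro p q hp
    have h1 : (X * A) p q = 0 := by
      rw [Matrix.mul_apply]
      refine Finset.sum_eq_zero fun r _ => ?_
      rw [hX0 p r (fun hc => hc.1 hp), zero_mul]
    rw [hC, add_mul, one_mul, Matrix.add_apply, h1, add_zero]
  have hC2 : ∀ p q, p.1 ≠ i0 → q.1 = i0 → C p q = 0 := by
    intro p q hp hq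
    have h1 : (X * A) p q = -(blo A p.1 i0 p.2 q.2) := by
      rw [Matrix.mul_apply, Fintype.sum_prod_type, Finset.sum_eq_single i0]
      · have h2 : ∑ y, X p (i0, y) * A (i0, y) q
            = ((-(blo A p.1 i0 * B)) * blo A i0 i0) p.2 q.2 := by
          rw [Matrix.mul_apply]
          refine Finset.sum_congr rfl fun y _ => ?_
          rw [hX1 p (i0, y) ⟨hp, rfl⟩]
          have h3 : A (i0, y) q = blo A i0 i0 y q.2 := by
            unfold blo
            rw [← hq]
          rw [h3]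
        rw [h2, neg_mul, mul_assoc, hBA, mul_one]
        rfl
      · intro b _ hb
        refine Finset.sum_eq_zero fun y _ => ?_
        rw [hX0 p (b, y) (fun hc => hb hc.2), zero_mul]
      · intro h
        exact absurd (Finset.mem_univ i0) h
    rw [hC, add_mul, one_mul, Matrix.add_apply, h1]
    unfold blo
    rw [← hq]
    exact add_neg_cancel _
  have hD1 : ∀ p q, q.1 = i0 → (C * (1 + Y)) p q = C p q := by
    intro p q hq
    have h1 : (C * Y) p q = 0 := by
      rw [Matrix.mul_apply]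
      refine Finset.sum_eq_zero fun r _ => ?_
      rw [hY0 r q (fun hc => hc.2 hq), mul_zero]
    rw [mul_add, mul_one, Matrix.add_apply, h1, add_zero]
  have hD2 : ∀ p q, p.1 = i0 → q.1 ≠ i0 → (C * (1 + Y)) p q = 0 := by
    intro p q hp hq
    have h1 : (C * Y) p q = -(blo A i0 q.1 p.2 q.2) := by
      rw [Matrix.mul_apply, Fintype.sum_prod_type, Finset.sum_eq_single i0]
      · have h2 : ∑ y, C p (i0, y) * Y (i0, y) q
            = (blo A i0 i0 * (-(B * blo A i0 q.1))) p.2 q.2 := by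
          rw [Matrix.mul_apply]
          refine Finset.sum_congr rfl fun y _ => ?_
          rw [hY1 (i0, y) q ⟨rfl, hq⟩, hC1 p _ hp]
          have h3 : A p (i0, y) = blo A i0 i0 p.2 y := by
            unfold blo
            rw [← hp]
          rw [h3]
        rw [h2, mul_neg, ← mul_assoc, hAB, one_mul]
        rfl
      · intro b _ hb
        refine Finset.sum_eq_zero fun y _ => ?_
        rw [hY0 (b, y) q (fun hc => hb hc.1), mul_zero]
      · intro h
        exact absurd (Finset.mem_univ i0) h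
    rw [mul_add, mul_one, Matrix.add_apply, h1, hC1 p q hp]
    unfold blo
    rw [← hp]
    exact add_neg_cancel _
  have hMg : tw (om X) * g * tw (om Y) ∈ Subgroup.closure (GenI D0 i0) := by
    refine Subgroup.subset_closure ⟨gq_mul (gq_mul (gq_tw (sq_uS hX0) hXr) hg)
      (gq_tw (sq_uT hY0) hYr), Or.inr (Or.inr fun x => ?_)⟩
    ext p
    rw [prj_apply, coe_apply, coe_apply, hmt, ← hC]
    by_cases hp : p.1 ∈ ({i0} : Finset μ)
    · rw [if_pos hp]
      refine Finset.sum_congr rfl fun q _ => ?_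
      rw [prj_apply]
      by_cases hq : q.1 ∈ ({i0} : Finset μ)
      · rw [if_pos hq]
      · rw [if_neg hq, hD2 p q (by simpa using hp) (by simpa using hq), zero_mul, zero_mul]
    · rw [if_neg hp]
      symm
      refine Finset.sum_eq_zero fun q _ => ?_
      rw [prj_apply]
      by_cases hq : q.1 ∈ ({i0} : Finset μ)
      · rw [if_pos hq, hD1 p q (by simpa using hq), hC2 p q (by simpa using hp)
          (by simpa using hq), zero_mul]
      · rw [if_neg hq, mul_zero]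
  have hfin : g = (tw (om X))⁻¹ * (tw (om X) * g * tw (om Y)) * (tw (om Y))⁻¹ := by group
  rw [hfin]
  exact Subgroup.mul_mem _ (Subgroup.mul_mem _ (Subgroup.inv_mem _ hLg) hMg)
    (Subgroup.inv_mem _ hRg)

theorem gen_I (hD : DivO δ D0) [Nonempty δ] (i0 : μ) {g : GE (En (μ × δ))} (hg : g ∈ GQ μ D0) :
    g ∈ Subgroup.closure (GenI D0 i0) := by
  by_cases h00 : blo (mt (g : En (μ × δ) →L[ℝ] En (μ × δ))) i0 i0 = 0
  swap
  · exact step_main hD i0 hg h00
  obtain ⟨A, hA⟩ : ∃ A, A = mt (g : En (μ × δ) →L[ℝ] En (μ × δ)) := ⟨_, rfl⟩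
  obtain ⟨j, hj⟩ : ∃ j, blo A j i0 ≠ 0 := by
    by_contra hcon
    push Not at hcon
    have h1 : mt ((g⁻¹ : GE (En (μ × δ))) : En (μ × δ) →L[ℝ] En (μ × δ)) * A = 1 := by
      rw [hA, ← mt_mul, inv_mul_cancel, mt_one]
    obtain ⟨a⟩ := ‹Nonempty δ›
    have h2 := congrFun (congrFun h1 (i0, a)) (i0, a)
    rw [Matrix.mul_apply, Matrix.one_apply_eq] at h2
    have h3 : ∑ q, mt ((g⁻¹ : GE (En (μ × δ))) : En (μ × δ) →L[ℝ] En (μ × δ)) (i0, a) q
        * A q (i0, a) = 0 := by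
      refine Finset.sum_eq_zero fun q _ => ?_
      have h4 : A q (i0, a) = blo A q.1 i0 q.2 a := rfl
      rw [h4, hcon q.1, Matrix.zero_apply, mul_zero]
    rw [h3] at h2
    exact zero_ne_one h2
  have hji : j ≠ i0 := by
    rintro rfl
    rw [← hA] at h00
    exact hj h00
  obtain ⟨X, hX⟩ : ∃ X : Matrix (μ × δ) (μ × δ) ℝ, X = bl i0 j 1 := ⟨_, rfl⟩
  have hX0 : ∀ p q, ¬ (p.1 = i0 ∧ q.1 ≠ i0) → X p q = 0 := by
    intro p q h
    rw [hX]
    refine if_neg fun hc => h ⟨hc.1, ?_⟩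
    rw [hc.2]
    exact hji
  have hXb : ∀ i k, blo X i k = if i = i0 ∧ k = j then 1 else 0 := by
    intro i k
    rw [hX]
    ext a b
    by_cases h : i = i0 ∧ k = j
    · rw [if_pos h]
      exact if_pos h
    · rw [if_neg h]
      exact if_neg h
  have hXr : Rat D0 X := by
    refine rat_iff.2 fun i k => ?_
    rw [hXb]
    by_cases h : i = i0 ∧ k = j
    · rw [if_pos h]
      exact rb_one D0
    · rw [if_neg h]
      exact rb_zero D0
  have hXg : tw (om X) ∈ Subgroup.closure (GenI D0 i0) := gen_R hX0 hXr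
  have hmt : mt ((tw (om X) * g : GE (En (μ × δ))) : En (μ × δ) →L[ℝ] En (μ × δ))
      = A + X * A := by
    rw [mt_mul, mt_tw (sq_uT hX0), ← hA, add_mul, one_mul]
  have hblo : blo (A + X * A) i0 i0 = blo A j i0 := by
    ext a b
    have h1 : (X * A) (i0, a) (i0, b) = blo A j i0 a b := by
      rw [Matrix.mul_apply, Fintype.sum_prod_type, Finset.sum_eq_single j]
      · rw [Finset.sum_eq_single a]
        · rw [hX]
          have h2 : (bl i0 j (1 : Matrix δ δ ℝ)) (i0, a) (j, a) = 1 := by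
            unfold bl
            rw [if_pos ⟨rfl, rfl⟩, Matrix.one_apply_eq]
          rw [h2, one_mul]
          rfl
        · intro c _ hc
          have h2 : X (i0, a) (j, c) = 0 := by
            rw [hX]
            unfold bl
            rw [if_pos ⟨rfl, rfl⟩, Matrix.one_apply_ne (Ne.symm hc)]
          rw [h2, zero_mul]
        · intro h
          exact absurd (Finset.mem_univ a) h
      · intro k _ hk
        refine Finset.sum_eq_zero fun c _ => ?_
        have h2 : X (i0, a) (k, c) = 0 := by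
          rw [hX]
          unfold bl
          rw [if_neg (fun hc => hk hc.2)]
        rw [h2, zero_mul]
      · intro h
        exact absurd (Finset.mem_univ j) h
    have h3 : A (i0, a) (i0, b) = 0 := by
      have h4 := congrFun (congrFun h00 a) b
      rw [← hA] at h4
      exact h4
    change A (i0, a) (i0, b) + (X * A) (i0, a) (i0, b) = _
    rw [h1, h3, zero_add]
  have hmain : tw (om X) * g ∈ Subgroup.closure (GenI D0 i0) := by
    refine step_main hD i0 (gq_mul (gq_tw (sq_uT hX0) hXr) hg) ?_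
    rw [hmt, hblo]
    exact hj
  have hfin : g = (tw (om X))⁻¹ * (tw (om X) * g) := by group
  rw [hfin]
  exact Subgroup.mul_mem _ (Subgroup.inv_mem _ hXg) hmain

private def sc (r : ℝ) : Matrix Unit Unit ℝ := fun _ _ => r

private theorem sc_mul (r t : ℝ) : sc (r * t) = sc r * sc t := by
  ext a b
  rw [Matrix.mul_apply, Fintype.sum_unique]
  rfl

private theorem sc_one : sc 1 = 1 := by
  ext a b
  rw [Subsingleton.elim a b, Matrix.one_apply_eq]
  rfl

private theorem sc_inv {r : ℝ} (h : r ≠ 0) : sc r⁻¹ = (sc r)⁻¹ := by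
  symm
  apply Matrix.inv_eq_right_inv
  rw [← sc_mul, mul_inv_cancel₀ h, sc_one]

/-- the field of the rational blocks of size one -/
private noncomputable def KF {D0 : Subring (Matrix Unit Unit ℝ)} (hD : DivO Unit D0) :
    Subfield ℝ where
  carrier := {r | RB D0 (sc r)}
  mul_mem' := by
    intro a b ha hb
    change RB D0 (sc (a * b))
    rw [sc_mul]
    exact rb_mul ha hb
  one_mem' := by
    change RB D0 (sc 1)
    rw [sc_one]
    exact rb_one D0
  add_mem' := by
    intro a b ha hb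
    exact rb_add ha hb
  zero_mem' := rb_zero D0
  neg_mem' := by
    intro a ha
    exact rb_neg ha
  inv_mem' := by
    intro a ha
    by_cases h : a = 0
    · rw [h, inv_zero]
      exact rb_zero D0
    · change RB D0 (sc a⁻¹)
      rw [sc_inv h]
      refine (rat_inv_block hD (x := sc a) ?_ ha).2
      intro hc
      exact h (congrFun (congrFun hc ()) ())

private def em {K : Subfield ℝ} (M : Matrix μ μ K) : Matrix (μ × Unit) (μ × Unit) ℝ :=
  fun p q => (M p.1 q.1 : ℝ)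

private theorem em_mul {K : Subfield ℝ} (M N : Matrix μ μ K) : em (M * N) = em M * em N := by
  ext p q
  rw [Matrix.mul_apply, Fintype.sum_prod_type]
  unfold em
  rw [Matrix.mul_apply]
  push_cast
  refine Finset.sum_congr rfl fun k _ => ?_
  rw [Fintype.sum_unique]

private theorem em_one {K : Subfield ℝ} : em (1 : Matrix μ μ K) = 1 := by
  ext ⟨p, a⟩ ⟨q, b⟩
  unfold em
  by_cases h : p = q
  · subst h
    rw [Subsingleton.elim a b, Matrix.one_apply_eq, Matrix.one_apply_eq]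
    rfl
  · rw [Matrix.one_apply_ne h, Matrix.one_apply_ne (fun hc => h (congrArg Prod.fst hc))]
    rfl

private theorem em_diag {K : Subfield ℝ} (d : μ → K) :
    em (Matrix.diagonal d) = Matrix.diagonal fun p => ((d p.1 : K) : ℝ) := by
  ext ⟨p, a⟩ ⟨q, b⟩
  unfold em
  by_cases h : p = q
  · subst h
    rw [Subsingleton.elim a b, Matrix.diagonal_apply_eq, Matrix.diagonal_apply_eq]
  · rw [Matrix.diagonal_apply_ne _ h,
      Matrix.diagonal_apply_ne _ (fun hc => h (congrArg Prod.fst hc))]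
    rfl

private theorem em_trans {K : Subfield ℝ} (i j : μ) (c : K) :
    em (Matrix.transvection i j c) = 1 + bl i j (sc (c : ℝ)) := by
  have h1 : em (Matrix.transvection i j c)
      = em (1 : Matrix μ μ K) + em (Matrix.single i j c) := by
    ext p q
    unfold em Matrix.transvection
    rw [Matrix.add_apply, Matrix.add_apply]
    push_cast
    rfl
  rw [h1, em_one]
  congr 1
  ext p q
  unfold em bl
  by_cases h : p.1 = i ∧ q.1 = j
  · rw [if_pos h, h.1, h.2, Matrix.single_apply_same]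
    rfl
  · rw [if_neg h, Matrix.single_apply_of_ne]
    · rfl
    · rintro ⟨h2, h3⟩
      exact h ⟨h2.symm, h3.symm⟩

private theorem bl_sq {i j : μ} (h : i ≠ j) (x : Matrix δ δ ℝ) : bl i j x * bl i j x = 0 := by
  ext p q
  rw [Matrix.mul_apply, Matrix.zero_apply]
  refine Finset.sum_eq_zero fun r _ => ?_
  unfold bl
  by_cases hr : r.1 = j
  · rw [if_neg (fun hc : r.1 = i ∧ q.1 = j => h (hc.1.symm.trans hr)), mul_zero]
  · rw [if_neg (fun hc : p.1 = i ∧ r.1 = j => hr hc.2), zero_mul]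

private theorem bl_rat {D0 : Subring (Matrix δ δ ℝ)} {i j : μ} {x : Matrix δ δ ℝ}
    (h : RB D0 x) : Rat D0 (bl i j x) := by
  refine rat_iff.2 fun k l => ?_
  by_cases hk : k = i ∧ l = j
  · have h1 : blo (bl i j x) k l = x := by
      ext a b
      unfold blo bl
      rw [if_pos hk]
    rw [h1]
    exact h
  · have h1 : blo (bl i j x) k l = 0 := by
      ext a b
      unfold blo bl
      rw [if_neg hk]
      rfl
    rw [h1]
    exact rb_zero D0

/-- elementary and diagonal rational matrices -/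
def GenB {μ : Type*} [Fintype μ] [DecidableEq μ] (D0 : Subring (Matrix Unit Unit ℝ)) :
    Set (GE (En (μ × Unit))) :=
  {g | g ∈ GQ μ D0 ∧ ((∃ i j, i ≠ j ∧ ∃ x, g = tw (om (bl i j x))) ∨
    ∃ d, mt (g : En (μ × Unit) →L[ℝ] En (μ × Unit)) = Matrix.diagonal d)}

private theorem gen_list {D0 : Subring (Matrix Unit Unit ℝ)} (hD : DivO Unit D0)
    (L : List (Matrix.TransvectionStruct μ (KF hD))) :
    ∃ h : GE (En (μ × Unit)), h ∈ GQ μ D0 ∧ h ∈ Subgroup.closure (GenB (μ := μ) D0) ∧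
      mt (h : En (μ × Unit) →L[ℝ] En (μ × Unit))
        = em (L.map Matrix.TransvectionStruct.toMatrix).prod := by
  induction L with
  | nil =>
    refine ⟨1, ?_, Subgroup.one_mem _, ?_⟩
    · refine ⟨?_, ?_⟩
      · rw [mt_one]
        exact rat_one D0
      · rw [_root_.inv_one, mt_one]
        exact rat_one D0
    · rw [mt_one, List.map_nil, List.prod_nil, em_one]
  | cons t L ih =>
    obtain ⟨h, h1, h2, h3⟩ := ih
    have hq : tw (om (bl t.i t.j (sc (t.c : ℝ)))) ∈ GQ μ D0 :=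
      gq_tw (bl_sq t.hij _) (bl_rat t.c.2)
    refine ⟨tw (om (bl t.i t.j (sc (t.c : ℝ)))) * h, gq_mul hq h1, Subgroup.mul_mem _
      (Subgroup.subset_closure ⟨hq, Or.inl ⟨t.i, t.j, t.hij, _, rfl⟩⟩) h2, ?_⟩
    rw [mt_mul, mt_tw (bl_sq t.hij _), h3, List.map_cons, List.prod_cons, em_mul]
    congr 1
    exact (em_trans t.i t.j t.c).symm

theorem gen_B {μ : Type*} [Fintype μ] [DecidableEq μ] {D0 : Subring (Matrix Unit Unit ℝ)}
    (hD : DivO Unit D0) {g : GE (En (μ × Unit))} (hg : g ∈ GQ μ D0) :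
    g ∈ Subgroup.closure (GenB (μ := μ) D0) := by
  obtain ⟨A, hA⟩ : ∃ A, A = mt (g : En (μ × Unit) →L[ℝ] En (μ × Unit)) := ⟨_, rfl⟩
  have hr : ∀ i j, RB D0 (blo A i j) := by
    rw [hA]
    exact rat_iff.1 hg.1
  obtain ⟨A', hA'⟩ : ∃ A' : Matrix μ μ (KF hD),
      A' = fun i j => ⟨A (i, ()) (j, ()), hr i j⟩ := ⟨_, rfl⟩
  have hem : em A' = A := by
    rw [hA']
    rfl
  obtain ⟨L, L', D, hL⟩ := Matrix.Pivot.exists_list_transvec_mul_diagonal_mul_list_transvec A'
  obtain ⟨h, h1, h2, h3⟩ := gen_list hD L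
  obtain ⟨h', h1', h2', h3'⟩ := gen_list hD L'
  have hA2 : A = mt (h : En (μ × Unit) →L[ℝ] En (μ × Unit))
      * (Matrix.diagonal fun p => ((D p.1 : KF hD) : ℝ))
      * mt (h' : En (μ × Unit) →L[ℝ] En (μ × Unit)) := by
    rw [h3, h3', ← em_diag, ← em_mul, ← em_mul, ← hL, hem]
  have hm : mt ((h⁻¹ * g * h'⁻¹ : GE (En (μ × Unit))) : En (μ × Unit) →L[ℝ] En (μ × Unit))
      = Matrix.diagonal fun p => ((D p.1 : KF hD) : ℝ) := by
    have e1 : mt ((h⁻¹ : GE (En (μ × Unit))) : En (μ × Unit) →L[ℝ] En (μ × Unit))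
        * mt (h : En (μ × Unit) →L[ℝ] En (μ × Unit)) = 1 := by
      rw [← mt_mul, inv_mul_cancel, mt_one]
    have e2 : mt (h' : En (μ × Unit) →L[ℝ] En (μ × Unit))
        * mt ((h'⁻¹ : GE (En (μ × Unit))) : En (μ × Unit) →L[ℝ] En (μ × Unit)) = 1 := by
      rw [← mt_mul, mul_inv_cancel, mt_one]
    rw [mt_mul, mt_mul, ← hA, hA2]
    simp only [mul_assoc]
    rw [e2, mul_one, ← mul_assoc, e1, one_mul]
  have hfin : g = h * (h⁻¹ * g * h'⁻¹) * h' := by group
  rw [hfin]
  refine Subgroup.mul_mem _ (Subgroup.mul_mem _ h2 (Subgroup.subset_closure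
    ⟨gq_mul (gq_mul (gq_inv h1) hg) (gq_inv h1'), Or.inr ⟨_, hm⟩⟩)) h2'

end
end LatLin
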