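import Pool.Agent.Lib.MP_2392aa_gt.L.Uni

/-!
MP_2392aa_gt, formal linearization, module Inv (about 250 lines): invariants of degree at least two.

PROOFS.
`inv_TS` (`V` = range of `e`, `N` = kernel, both not zero; for `a ∈ uT e` or `uS e`:
`pi k (tw a) w = w` by `pi_of_xd`, i.e. `w (x + a x) = w x + a (w x)`). For `y ∈ N`: `a ∈ uS e` kills
`y`, so `a (w y) = 0` for all `a ∈ uS e`, hence `e (w y) = 0` (`a = ro (e (w y)) n`, `n ∈ N` nonzero). For
`a = ro q v ∈ uT e` (`q ∈ N`, `v ∈ V`) with `q ⟂ y`: `a (w y) = 0`, so `⟪q, w y⟫ = 0` for all `q ∈ N`,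
`q ⟂ y`: `w y = f(y) y` for `y ≠ 0`. Similarly `w z = g(z) z` for `z ∈ V`, `z ≠ 0`. For `y, z ≠ 0`:
`a := ‖y‖⁻² • ro y z ∈ uT e`: `w (y + z) = w (y + a y) = w y + a (w y) = f(y) (y + z)`, and
symmetrically `= g(z) (y + z)`. So `f(y) = g(z) =: c` for all nonzero `y`, `z`, and `w (y + z) = c (y + z)`.
`w (2 x) = 2 ^ k w x` gives `c = 0` (`k ≥ 2`). So `w x = 0` if both components are nonzero; in general by
continuity (or: `w y = f(y) y = 0`).
`inv_blocks`: let `hw : w (ℓ x) = ℓ (w x)` for transvections `ℓ` of the blocks. Fix `i`. For `j ≠ i` the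
component `e i (w x)` is invariant under the transvections of block `j`, so as a function of `e j x` it
is constant on nonzero vectors (transitivity, see LemT (F1)), so constant (continuity). Hence
`e i (w x) = e i (w (e i x))` (change the components one after the other to `0`:
`x = ∑ j, e j x`). `z ↦ e i (w z)` on the range `V_i` is equivariant: `= c z` (LemT (F2)); degree
`k ≥ 2` forces `c = 0` (evaluate at `2 z`).
`inv_one` (`N = ℝ v`, `‖v‖ = 1`, `V` = range of `e` big, `x = t v + z`, `t = ⟪v, x⟫`, `z = e x`):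
`⟪v, w x⟫` is invariant in `z`, so equals `⟪v, w (t v)⟫ = t ^ k ⟪v, w v⟫`; `e (w (t v + z))` is
equivariant in `z`: `= c(t) z` for `z ≠ 0`, and homogeneity gives `c(λ t) = λ ^ (k - 1) c(t)` for
`λ ≠ 0`, so `c(t) = t ^ (k - 1) c(1)` for `t ≠ 0`, and for `t = 0`: `c(0) = λ ^ (k-1) c(0)`, `k ≥ 2`:
`c(0) = 0`. For `z = 0`: `e (w (t v))` is fixed by all transvections of `V`, so it is `0` (choose `q`
with `⟪q, e (w (t v))⟫ ≠ 0` and `u ≠ 0`, `u ⟂ q`).
-/

open scoped ContDiff Topology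

namespace LatLin

section aux
variable {E : Type*} [NormedAddCommGroup E] [InnerProductSpace ℝ E] {k : ℕ}

/-- transitivity of the transvections on pairs which are not proportional -/
private theorem iv_trans_pair {e : E →L[ℝ] E} {z z' : E} (hz : e z = z)
    (hz' : e z' = z') (hz0 : z ≠ 0) (hne : ∀ a : ℝ, z' ≠ a • z) :
    ∃ q u : E, inner ℝ q u = (0 : ℝ) ∧ e q = q ∧ e u = u ∧ z + (inner ℝ q z : ℝ) • u = z' := by
  set a : ℝ := inner ℝ z z' / inner ℝ z z with ha
  set w : E := z' - a • z with hw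
  have hzz : (inner ℝ z z : ℝ) ≠ 0 := fun h => hz0 (inner_self_eq_zero.1 h)
  have hw0 : w ≠ 0 := fun h => hne a (sub_eq_zero.1 h)
  have hww : (inner ℝ w w : ℝ) ≠ 0 := fun h => hw0 (inner_self_eq_zero.1 h)
  have hzw : (inner ℝ z w : ℝ) = 0 := by
    rw [hw, inner_sub_right, inner_smul_right, ha, div_mul_cancel₀ _ hzz, sub_self]
  have hwz : (inner ℝ w z : ℝ) = 0 := by rw [real_inner_comm, hzw]
  have hz'e : z' = a • z + w := by rw [hw]; abel
  have hew : e w = w := by rw [hw, map_sub, map_smul, hz, hz']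
  have h1 : (inner ℝ ((inner ℝ z z : ℝ)⁻¹ • z + ((1 - a) * (inner ℝ w w : ℝ)⁻¹) • w) z : ℝ) = 1 := by
    rw [inner_add_left, real_inner_smul_left, real_inner_smul_left, hwz, mul_zero, add_zero,
      inv_mul_cancel₀ hzz]
  have h2 : (inner ℝ ((inner ℝ z z : ℝ)⁻¹ • z + ((1 - a) * (inner ℝ w w : ℝ)⁻¹) • w) z' : ℝ) = 1 := by
    rw [hz'e, inner_add_right, inner_smul_right, h1, inner_add_left, real_inner_smul_left,
      real_inner_smul_left, hzw, mul_zero, zero_add, mul_assoc, inv_mul_cancel₀ hww]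
    ring
  refine ⟨(inner ℝ z z : ℝ)⁻¹ • z + ((1 - a) * (inner ℝ w w : ℝ)⁻¹) • w, z' - z, ?_, ?_, ?_, ?_⟩
  · rw [inner_sub_right, h1, h2, sub_self]
  · rw [map_add, map_smul, map_smul, hz, hew]
  · rw [map_sub, hz, hz']
  · rw [h1, one_smul]
    abel

/-- a function invariant under transvections is constant off zero -/
private theorem iv_f1 {X : Type*} {e : E →L[ℝ] E} (hbig : Big e) (h : E → X)
    (hinv : ∀ q u z : E, inner ℝ q u = (0 : ℝ) → e q = q → e u = u → e z = z →
      h (z + (inner ℝ q z : ℝ) • u) = h z) {z z' : E} (hz : e z = z) (hz' : e z' = z')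
    (hz0 : z ≠ 0) (hz0' : z' ≠ 0) : h z = h z' := by
  by_cases hne : ∀ a : ℝ, z' ≠ a • z
  · obtain ⟨q, u, hqu, hq, hu, hzz⟩ := iv_trans_pair hz hz' hz0 hne
    rw [← hzz, hinv q u z hqu hq hu hz]
  · push Not at hne
    obtain ⟨a, rfl⟩ := hne
    have ha : a ≠ 0 := fun h => hz0' (by rw [h, zero_smul])
    obtain ⟨w, hw, hw0, hwz⟩ := hbig z
    have h1 : ∀ b : ℝ, w ≠ b • z := by
      intro b hb
      rw [hb, real_inner_smul_left] at hwz
      have hzz : (inner ℝ z z : ℝ) ≠ 0 := fun h => hz0 (inner_self_eq_zero.1 h)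
      rcases mul_eq_zero.1 hwz with hb0 | h0
      · exact hw0 (by rw [hb, hb0, zero_smul])
      · exact hzz h0
    have h2 : ∀ b : ℝ, w ≠ b • (a • z) := by
      intro b hb
      rw [smul_smul] at hb
      exact h1 _ hb
    obtain ⟨q, u, hqu, hq, hu, hzz⟩ := iv_trans_pair hz hw hz0 h1
    obtain ⟨q', u', hqu', hq', hu', hzz'⟩ := iv_trans_pair hz' hw hz0' h2
    rw [← hinv q u z hqu hq hu hz, hzz, ← hzz', hinv q' u' _ hqu' hq' hu' hz']

/-- an equivariant map is a scalar off zero -/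
private theorem iv_f2 {e : E →L[ℝ] E} (hbig : Big e) (r : E → E)
    (hr : ∀ q u z : E, inner ℝ q u = (0 : ℝ) → e q = q → e u = u → e z = z →
      r (z + (inner ℝ q z : ℝ) • u) = r z + (inner ℝ q (r z) : ℝ) • u)
    (hV : ∀ z, e z = z → e (r z) = r z) : ∃ c : ℝ, ∀ z, e z = z → z ≠ 0 → r z = c • z := by
  have h1 : ∀ z, e z = z → z ≠ 0 → r z = (inner ℝ z (r z) / inner ℝ z z : ℝ) • z := by
    intro z hz hz0
    have hzz : (inner ℝ z z : ℝ) ≠ 0 := fun h => hz0 (inner_self_eq_zero.1 h)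
    set c : ℝ := inner ℝ z (r z) / inner ℝ z z with hc
    have hq1 : (inner ℝ (r z - c • z) z : ℝ) = 0 := by
      rw [inner_sub_left, real_inner_smul_left, hc, div_mul_cancel₀ _ hzz, real_inner_comm, sub_self]
    have hq2 : e (r z - c • z) = r z - c • z := by
      rw [map_sub, map_smul, hz, hV z hz]
    have h2 := hr (r z - c • z) z z hq1 hq2 hz hz
    rw [hq1, zero_smul, add_zero] at h2
    have h3 : (inner ℝ (r z - c • z) (r z) : ℝ) • z = 0 := by
      have := h2.symm
      rwa [add_eq_left] at this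
    have h4 : (inner ℝ (r z - c • z) (r z) : ℝ) = 0 := (smul_eq_zero.1 h3).resolve_right hz0
    have h5 : (inner ℝ (r z - c • z) (r z - c • z) : ℝ) = 0 := by
      rw [inner_sub_right, inner_smul_right, h4, hq1, mul_zero, sub_zero]
    exact sub_eq_zero.1 (inner_self_eq_zero.1 h5)
  obtain ⟨z0, hz0, hz00, -⟩ := hbig 0
  refine ⟨inner ℝ z0 (r z0) / inner ℝ z0 z0, fun z hz hzne => ?_⟩
  have h2 : (inner ℝ z (r z) / inner ℝ z z : ℝ) = inner ℝ z0 (r z0) / inner ℝ z0 z0 := by
    refine iv_f1 hbig (fun z => (inner ℝ z (r z) / inner ℝ z z : ℝ)) ?_ hz hz0 hzne hz00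
    intro q u z hqu hq hu hz
    by_cases hzz0 : z = 0
    · rw [hzz0, inner_zero_right, zero_smul, add_zero]
    have hl : z + (inner ℝ q z : ℝ) • u ≠ 0 := by
      intro h
      have h3 : (inner ℝ q (z + (inner ℝ q z : ℝ) • u) : ℝ) = inner ℝ q z := by
        rw [inner_add_right, inner_smul_right, hqu, mul_zero, add_zero]
      rw [h, inner_zero_right] at h3
      rw [← h3, zero_smul, add_zero] at h
      exact hzz0 h
    have hll : (inner ℝ (z + (inner ℝ q z : ℝ) • u) (z + (inner ℝ q z : ℝ) • u) : ℝ) ≠ 0 :=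
      fun h => hl (inner_self_eq_zero.1 h)
    have h3 := hr q u z hqu hq hu hz
    have h4 := h1 z hz hzz0
    set c : ℝ := inner ℝ z (r z) / inner ℝ z z with hc
    have h5 : r (z + (inner ℝ q z : ℝ) • u) = c • (z + (inner ℝ q z : ℝ) • u) := by
      rw [h3, h4, inner_smul_right, smul_add, smul_smul]
    show (inner ℝ (z + (inner ℝ q z : ℝ) • u) (r (z + (inner ℝ q z : ℝ) • u)) /
      inner ℝ (z + (inner ℝ q z : ℝ) • u) (z + (inner ℝ q z : ℝ) • u) : ℝ) = c
    rw [h5, inner_smul_right, mul_div_assoc, div_self hll, mul_one]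
  rw [h1 z hz hzne, h2]

omit [InnerProductSpace ℝ E] in
private theorem iv_limit {g : ℝ → E} (hg : Continuous g) {c : E} (h : ∀ t : ℝ, t ≠ 0 → g t = c) :
    g 0 = c := by
  have h1 : Filter.Tendsto g (𝓝[≠] (0 : ℝ)) (𝓝 (g 0)) :=
    (hg.tendsto 0).mono_left nhdsWithin_le_nhds
  have h2 : Filter.Tendsto g (𝓝[≠] (0 : ℝ)) (𝓝 c) := by
    refine tendsto_const_nhds.congr' ?_
    filter_upwards [self_mem_nhdsWithin] with t ht
    exact (h t ht).symm
  exact tendsto_nhds_unique h1 h2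

private theorem iv_cont (p : HM E k) : Continuous p.1 := p.2.1.continuous

/-- invariance under `1 + a` -/
private theorem iv_tw {a : E →L[ℝ] E} (ha : a ∘L a = 0) (w : HM E k) (hw : pi k (tw a) w = w)
    (x : E) : w.1 (x + a x) = w.1 x + a (w.1 x) := by
  have h1 : (pi k (tw a) w).1 (x + a x) = w.1 (x + a x) := by rw [hw]
  have h2 : a (a x) = 0 := by simpa using congrArg (fun f => f x) ha
  rw [← h1, pi_apply, tw_inv_apply ha, map_add, h2, add_zero, add_sub_cancel_right, tw_apply ha]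

private theorem iv_tv {q u : E} (h : inner ℝ q u = (0 : ℝ)) (w : HM E k)
    (hw : pi k (tv q u) w = w) (x : E) :
    w.1 (x + (inner ℝ q x : ℝ) • u) = w.1 x + (inner ℝ q (w.1 x) : ℝ) • u := by
  have h1 := iv_tw (ro_sq h) w hw x
  rw [ro_apply, ro_apply] at h1
  exact h1

private theorem iv_zero (hk : 2 ≤ k) (w : HM E k) : w.1 0 = 0 := by
  have h1 := w.2.2 0 0
  rwa [zero_smul, zero_pow (by omega), zero_smul] at h1

/-- first half of `inv_TS` -/
private theorem iv_half {e : E →L[ℝ] E} (he : IsPr e) (w : E → E) {v n : E} (hv0 : v ≠ 0)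
    (hv : e v = v) (hn0 : n ≠ 0) (hn : e n = 0)
    (h1 : ∀ q u x : E, e q = 0 → e u = u →
      w (x + (inner ℝ q x : ℝ) • u) = w x + (inner ℝ q (w x) : ℝ) • u)
    (h2 : ∀ q u x : E, e q = q → e u = 0 →
      w (x + (inner ℝ q x : ℝ) • u) = w x + (inner ℝ q (w x) : ℝ) • u)
    {y : E} (hy : e y = 0) (hy0 : y ≠ 0) : ∃ c : ℝ, ∀ z, e z = z → w (y + z) = c • (y + z) := by
  have hyy : (inner ℝ y y : ℝ) ≠ 0 := fun h => hy0 (inner_self_eq_zero.1 h)
  -- `w y` is in the kernel
  have hwy : e (w y) = 0 := by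
    have hq : e (e (w y)) = e (w y) := he.idem _
    have h3 := h2 (e (w y)) n y hq hn
    have h4 : (inner ℝ (e (w y)) y : ℝ) = 0 := by rw [he.sym, hy, inner_zero_right]
    rw [h4, zero_smul, add_zero] at h3
    have h5 : (inner ℝ (e (w y)) (w y) : ℝ) • n = 0 := by
      have := h3.symm
      rwa [add_eq_left] at this
    have h6 : (inner ℝ (e (w y)) (w y) : ℝ) = 0 := (smul_eq_zero.1 h5).resolve_right hn0
    have h7 : (inner ℝ (e (w y)) (e (w y)) : ℝ) = 0 := by rw [← he.sym, hq, h6]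
    exact inner_self_eq_zero.1 h7
  set c : ℝ := inner ℝ y (w y) / inner ℝ y y with hc
  have hq1 : (inner ℝ (w y - c • y) y : ℝ) = 0 := by
    rw [inner_sub_left, real_inner_smul_left, hc, div_mul_cancel₀ _ hyy, real_inner_comm, sub_self]
  have hq2 : e (w y - c • y) = 0 := by rw [map_sub, map_smul, hy, hwy, smul_zero, sub_zero]
  have hwc : w y = c • y := by
    have h3 := h1 (w y - c • y) v y hq2 hv
    rw [hq1, zero_smul, add_zero] at h3
    have h5 : (inner ℝ (w y - c • y) (w y) : ℝ) • v = 0 := by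
      have := h3.symm
      rwa [add_eq_left] at this
    have h6 : (inner ℝ (w y - c • y) (w y) : ℝ) = 0 := (smul_eq_zero.1 h5).resolve_right hv0
    have h7 : (inner ℝ (w y - c • y) (w y - c • y) : ℝ) = 0 := by
      rw [inner_sub_right, inner_smul_right, h6, hq1, mul_zero, sub_zero]
    exact sub_eq_zero.1 (inner_self_eq_zero.1 h7)
  refine ⟨c, fun z hz => ?_⟩
  have hqy : e ((inner ℝ y y : ℝ)⁻¹ • y) = 0 := by rw [map_smul, hy, smul_zero]
  have h3 := h1 ((inner ℝ y y : ℝ)⁻¹ • y) z y hqy hz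
  rw [real_inner_smul_left, inv_mul_cancel₀ hyy, one_smul, hwc, inner_smul_right,
    real_inner_smul_left, inv_mul_cancel₀ hyy, mul_one] at h3
  rw [h3, smul_add]

/-- a map homogeneous of degree at least two which is linear on a line vanishes there -/
private theorem iv_deg (hk : 2 ≤ k) {c : ℝ} {x : E} (hx : x ≠ 0)
    (h : c • ((2 : ℝ) • x) = (2 : ℝ) ^ k • (c • x)) : c = 0 := by
  have h1 : (c * 2 - 2 ^ k * c) • x = 0 := by
    rw [sub_smul, ← smul_smul, ← smul_smul, h, sub_self]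
  have h2 := (smul_eq_zero.1 h1).resolve_right hx
  have h3 : (2 : ℝ) ^ k ≠ 2 := by
    have h4 : (2 : ℝ) ^ 2 ≤ 2 ^ k := pow_le_pow_right₀ (by norm_num) hk
    intro h5
    rw [h5] at h4
    norm_num at h4
  have h4 : (2 - (2 : ℝ) ^ k) * c = 0 := by linarith
  rcases mul_eq_zero.1 h4 with h5 | h5
  · exact absurd (sub_eq_zero.1 h5).symm h3
  · exact h5

end aux

section
variable {E : Type*} [NormedAddCommGroup E] [InnerProductSpace ℝ E] [FiniteDimensional ℝ E] {k : ℕ}

theorem inv_TS (hk : 2 ≤ k) {e : E →L[ℝ] E} (he : IsPr e) (hV : ∃ v, v ≠ 0 ∧ e v = v)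
    (hN : ∃ v, v ≠ 0 ∧ e v = 0) (w : HM E k) (hT : w ∈ kil k (uT e)) (hS : w ∈ kil k (uS e)) :
    w = 0 := by
  obtain ⟨v, hv0, hv⟩ := hV
  obtain ⟨n, hn0, hn⟩ := hN
  have h1 : ∀ q u x : E, e q = 0 → e u = u →
      w.1 (x + (inner ℝ q x : ℝ) • u) = w.1 x + (inner ℝ q (w.1 x) : ℝ) • u := by
    intro q u x hq hu
    have ha : ro q u ∈ uT e := by
      refine ⟨fun x => ?_, fun x => ?_⟩
      · rw [ro_apply, map_smul, hu]
      · rw [ro_apply, ← he.sym, hq, inner_zero_left, zero_smul]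
    have h2 := iv_tw (uT_sq ha) w (pi_of_xd (uT_sq ha) w (hT _ ha)) x
    rwa [ro_apply, ro_apply] at h2
  have h2 : ∀ q u x : E, e q = q → e u = 0 →
      w.1 (x + (inner ℝ q x : ℝ) • u) = w.1 x + (inner ℝ q (w.1 x) : ℝ) • u := by
    intro q u x hq hu
    have ha : ro q u ∈ uS e := by
      refine ⟨fun x => ?_, fun x => ?_⟩
      · rw [ro_apply, map_smul, hu, smul_zero]
      · rw [ro_apply, ro_apply, ← he.sym, hq]
    have h2 := iv_tw (uS_sq ha) w (pi_of_xd (uS_sq ha) w (hS _ ha)) x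
    rwa [ro_apply, ro_apply] at h2
  -- the complementary projection
  set e' : E →L[ℝ] E := ContinuousLinearMap.id ℝ E - e with he'
  have hap : ∀ x, e' x = x - e x := fun x => rfl
  have hpr : IsPr e' := by
    refine ⟨fun x => ?_, fun x y => ?_⟩
    · rw [hap, hap, map_sub, he.idem, sub_self, sub_zero]
    · rw [hap, hap, inner_sub_left, inner_sub_right, he.sym]
  have hN' : ∀ x, e' x = x ↔ e x = 0 := fun x => by rw [hap, sub_eq_self]
  have hV' : ∀ x, e' x = 0 ↔ e x = x := fun x => by rw [hap, sub_eq_zero, eq_comm]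
  have hA : ∀ y : E, e y = 0 → y ≠ 0 → ∃ c : ℝ, ∀ z, e z = z → w.1 (y + z) = c • (y + z) :=
    fun y hy hy0 => iv_half he w.1 hv0 hv hn0 hn h1 h2 hy hy0
  have hB : ∀ z : E, e z = z → z ≠ 0 → ∃ c : ℝ, ∀ y, e y = 0 → w.1 (z + y) = c • (z + y) := by
    intro z hz hz0
    obtain ⟨c, hc⟩ := iv_half hpr w.1 hn0 ((hN' n).2 hn) hv0 ((hV' v).2 hv)
      (fun q u x hq hu => h2 q u x ((hV' q).1 hq) ((hN' u).1 hu))
      (fun q u x hq hu => h1 q u x ((hN' q).1 hq) ((hV' u).1 hu)) ((hV' z).2 hz) hz0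
    exact ⟨c, fun y hy => hc y ((hN' y).2 hy)⟩
  have hsum : ∀ y z : E, e y = 0 → e z = z → y ≠ 0 → y + z ≠ 0 := by
    intro y z hy hz hy0 h
    have h3 : e (y + z) = 0 := by rw [h, map_zero]
    rw [map_add, hy, hz, zero_add] at h3
    rw [h3, add_zero] at h
    exact hy0 h
  -- both constants vanish
  have hA0 : ∀ y : E, e y = 0 → y ≠ 0 → ∀ z, e z = z → w.1 (y + z) = 0 := by
    intro y hy hy0
    obtain ⟨c, hc⟩ := hA y hy hy0
    have hy2 : e ((2 : ℝ) • y) = 0 := by rw [map_smul, hy, smul_zero]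
    have hy20 : (2 : ℝ) • y ≠ 0 := smul_ne_zero two_ne_zero hy0
    obtain ⟨c2, hc2⟩ := hA _ hy2 hy20
    obtain ⟨d, hd⟩ := hB v hv hv0
    have e1 : c = d := by
      have h3 := hc v hv
      rw [add_comm, hd y hy, add_comm] at h3
      have h4 : (d - c) • (y + v) = 0 := by rw [sub_smul, h3, sub_self]
      have h5 := (smul_eq_zero.1 h4).resolve_right (hsum y v hy hv hy0)
      linarith
    have e2 : c2 = d := by
      have h3 := hc2 v hv
      rw [add_comm, hd _ hy2, add_comm] at h3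
      have h4 : (d - c2) • ((2 : ℝ) • y + v) = 0 := by rw [sub_smul, h3, sub_self]
      have h5 := (smul_eq_zero.1 h4).resolve_right (hsum _ v hy2 hv hy20)
      linarith
    have h3 : c = 0 := by
      have h4 := hc 0 (map_zero _)
      have h5 := hc2 0 (map_zero _)
      rw [add_zero] at h4 h5
      rw [w.2.2, h4, e2, ← e1] at h5
      exact iv_deg hk hy0 h5.symm
    intro z hz
    rw [hc z hz, h3, zero_smul]
  have hB0 : ∀ z : E, e z = z → z ≠ 0 → w.1 z = 0 := by
    intro z hz hz0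
    obtain ⟨d, hd⟩ := hB z hz hz0
    have h3 := hd n hn
    rw [add_comm, hA0 n hn hn0 z hz] at h3
    have h4 : d = 0 := (smul_eq_zero.1 h3.symm).resolve_right (hsum n z hn hz hn0)
    have h5 := hd 0 (map_zero _)
    rwa [add_zero, h4, zero_smul] at h5
  apply Subtype.ext
  funext x
  show w.1 x = 0
  by_cases hx : x - e x = 0
  · have hx' : e x = x := (sub_eq_zero.1 hx).symm
    by_cases hx0 : x = 0
    · rw [hx0]
      exact iv_zero hk w
    · exact hB0 x hx' hx0
  · have h3 : e (x - e x) = 0 := by rw [map_sub, he.idem, sub_self]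
    have h4 := hA0 (x - e x) h3 hx (e x) (he.idem x)
    rwa [sub_add_cancel] at h4

theorem inv_blocks (hk : 2 ≤ k) {J : Type*} [Fintype J] (e : J → E →L[ℝ] E) (he : ∀ i, IsPr (e i))
    (hbig : ∀ i, Big (e i)) (horth : ∀ i j, i ≠ j → ∀ x, e i (e j x) = 0)
    (hsum : ∀ x, ∑ i, e i x = x) (w : HM E k)
    (hw : ∀ (i : J) (q u : E), inner ℝ q u = (0 : ℝ) → e i q = q → e i u = u →
      pi k (tv q u) w = w) : w = 0 := by
  classical
  have hinv : ∀ (i : J) (q u x : E), inner ℝ q u = (0 : ℝ) → e i q = q → e i u = u →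
      w.1 (x + (inner ℝ q x : ℝ) • u) = w.1 x + (inner ℝ q (w.1 x) : ℝ) • u :=
    fun i q u x hqu hq hu => iv_tv hqu w (hw i q u hqu hq hu) x
  -- the component `i` does not depend on the component `j`
  have h1 : ∀ i j : J, i ≠ j → ∀ x, e i (w.1 x) = e i (w.1 (x - e j x)) := by
    intro i j hij x
    set x' : E := x - e j x with hx'
    have hjx : e j x' = 0 := by rw [hx', map_sub, (he j).idem, sub_self]
    set h : E → E := fun z => e i (w.1 (x' + z)) with hh
    have hconst : ∀ {z z' : E}, e j z = z → e j z' = z' → z ≠ 0 → z' ≠ 0 → h z = h z' := by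
      intro z z' hz hz' hz0 hz0'
      refine iv_f1 (hbig j) h ?_ hz hz' hz0 hz0'
      intro q u y hqu hq hu hy
      have h2 : (inner ℝ q (x' + y) : ℝ) = inner ℝ q y := by
        rw [inner_add_right, ← hq, (he j).sym, hjx, inner_zero_right, zero_add]
      have h3 := hinv j q u (x' + y) hqu hq hu
      rw [h2] at h3
      show e i (w.1 (x' + (y + (inner ℝ q y : ℝ) • u))) = e i (w.1 (x' + y))
      rw [← add_assoc, h3, map_add, map_smul, ← hu, horth i j hij, smul_zero, add_zero]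
    have hlim : ∀ z, e j z = z → z ≠ 0 → h 0 = h z := by
      intro z hz hz0
      have hcont : Continuous fun t : ℝ => h (t • z) := by
        have := iv_cont w
        fun_prop
      have h3 := iv_limit hcont (c := h z) (fun t ht =>
        hconst (by rw [map_smul, hz]) hz (smul_ne_zero ht hz0) hz0)
      rwa [zero_smul] at h3
    have hx : x = x' + e j x := by rw [hx']; abel
    by_cases hz0 : e j x = 0
    · rw [hx', hz0, sub_zero]
    · have h3 := hlim (e j x) ((he j).idem x) hz0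
      have h4 : h 0 = e i (w.1 x') := by
        show e i (w.1 (x' + 0)) = _
        rw [add_zero]
      have h5 : h (e j x) = e i (w.1 x) := by
        show e i (w.1 (x' + e j x)) = _
        rw [← hx]
      rw [← h5, ← h3, h4]
  have h2 : ∀ (i : J) (S : Finset J), i ∉ S → ∀ x,
      e i (w.1 x) = e i (w.1 (x - ∑ j ∈ S, e j x)) := by
    intro i S
    induction S using Finset.induction_on with
    | empty =>
      intro _ x
      rw [Finset.sum_empty, sub_zero]
    | insert j S hj ih =>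
      intro hi x
      have hij : i ≠ j := fun h => hi (by rw [h]; exact Finset.mem_insert_self _ _)
      rw [ih (fun h => hi (Finset.mem_insert_of_mem h)) x, h1 i j hij (x - ∑ l ∈ S, e l x)]
      have h3 : e j (x - ∑ l ∈ S, e l x) = e j x := by
        rw [map_sub, map_sum, Finset.sum_eq_zero, sub_zero]
        intro l hl
        exact horth j l (fun h => hj (h ▸ hl)) x
      rw [h3, Finset.sum_insert hj, sub_sub, add_comm (∑ l ∈ S, e l x)]
  have h3 : ∀ (i : J) (x : E), e i (w.1 x) = e i (w.1 (e i x)) := by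
    intro i x
    rw [h2 i (Finset.univ.erase i) (Finset.notMem_erase i _) x]
    have h4 := hsum x
    rw [← Finset.add_sum_erase _ _ (Finset.mem_univ i)] at h4
    have h5 : x - ∑ j ∈ Finset.univ.erase i, e j x = e i x := by
      rw [sub_eq_iff_eq_add]
      exact h4.symm
    rw [h5]
  have h4 : ∀ (i : J) (z : E), e i z = z → e i (w.1 z) = 0 := by
    intro i z hz
    obtain ⟨c, hc⟩ := iv_f2 (hbig i) (fun z => e i (w.1 z)) (by
      intro q u z hqu hq hu hz
      show e i (w.1 (z + (inner ℝ q z : ℝ) • u)) = e i (w.1 z) + (inner ℝ q (e i (w.1 z)) : ℝ) • u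
      rw [hinv i q u z hqu hq hu, map_add, map_smul, hu, ← (he i).sym, hq])
      (fun z hz => (he i).idem _)
    by_cases hz0 : z = 0
    · rw [hz0, iv_zero hk w, map_zero]
    · have h5 := hc ((2 : ℝ) • z) (by rw [map_smul, hz]) (smul_ne_zero two_ne_zero hz0)
      have h6 := hc z hz hz0
      rw [w.2.2, map_smul, h6] at h5
      rw [h6, iv_deg hk hz0 h5.symm, zero_smul]
  apply Subtype.ext
  funext x
  show w.1 x = 0
  rw [← hsum (w.1 x)]
  refine Finset.sum_eq_zero fun i _ => ?_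
  rw [h3 i x]
  exact h4 i _ ((he i).idem x)

theorem inv_one (hk : 2 ≤ k) {e : E →L[ℝ] E} (he : IsPr e) (hbig : Big e) (v : E) (hv : ‖v‖ = 1)
    (hev : ∀ x, x = (inner ℝ v x : ℝ) • v + e x) (w : HM E k)
    (hw : ∀ q u : E, inner ℝ q u = (0 : ℝ) → e q = q → e u = u → pi k (tv q u) w = w) :
    ∃ c c' : ℝ, ∀ x : E, w.1 x = (c * (inner ℝ v x : ℝ) ^ k) • v +
      (c' * (inner ℝ v x : ℝ) ^ (k - 1)) • e x := by
  have hvv : (inner ℝ v v : ℝ) = 1 := by rw [real_inner_self_eq_norm_sq, hv, one_pow]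
  have hev0 : e v = 0 := by
    have h1 := hev v
    rw [hvv, one_smul] at h1
    have h2 := h1.symm
    rwa [add_eq_left] at h2
  have hve : ∀ z, e z = z → (inner ℝ v z : ℝ) = 0 := by
    intro z hz
    rw [← hz, ← he.sym, hev0, inner_zero_left]
  have hqv : ∀ z, e z = z → (inner ℝ z v : ℝ) = 0 := by
    intro z hz
    rw [real_inner_comm, hve z hz]
  have hinv : ∀ (q u x : E), inner ℝ q u = (0 : ℝ) → e q = q → e u = u →
      w.1 (x + (inner ℝ q x : ℝ) • u) = w.1 x + (inner ℝ q (w.1 x) : ℝ) • u :=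
    fun q u x hqu hq hu => iv_tv hqu w (hw q u hqu hq hu) x
  have hinv' : ∀ (t : ℝ) (q u z : E), inner ℝ q u = (0 : ℝ) → e q = q → e u = u →
      w.1 (t • v + (z + (inner ℝ q z : ℝ) • u)) =
        w.1 (t • v + z) + (inner ℝ q (w.1 (t • v + z)) : ℝ) • u := by
    intro t q u z hqu hq hu
    have h1 := hinv q u (t • v + z) hqu hq hu
    have h2 : (inner ℝ q (t • v + z) : ℝ) = inner ℝ q z := by
      rw [inner_add_right, inner_smul_right, hqv q hq, mul_zero, zero_add]
    rw [h2] at h1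
    rw [← add_assoc, h1]
  obtain ⟨z0, hz0, hz00, -⟩ := hbig 0
  have hcw := iv_cont w
  -- the component along `v`
  have hs : ∀ (t : ℝ) (z : E), e z = z → (inner ℝ v (w.1 (t • v + z)) : ℝ) =
      inner ℝ v (w.1 v) * t ^ k := by
    intro t z hz
    have hconst : ∀ {z z' : E}, e z = z → e z' = z' → z ≠ 0 → z' ≠ 0 →
        (inner ℝ v (w.1 (t • v + z)) : ℝ) = inner ℝ v (w.1 (t • v + z')) := by
      intro z z' hz hz' hz0 hz0'
      refine iv_f1 hbig (fun z => (inner ℝ v (w.1 (t • v + z)) : ℝ)) ?_ hz hz' hz0 hz0'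
      intro q u y hqu hq hu hy
      show (inner ℝ v (w.1 (t • v + (y + (inner ℝ q y : ℝ) • u))) : ℝ) =
        inner ℝ v (w.1 (t • v + y))
      rw [hinv' t q u y hqu hq hu, inner_add_right, inner_smul_right, hve u hu, mul_zero, add_zero]
    have h0 : (inner ℝ v (w.1 (t • v)) : ℝ) = inner ℝ v (w.1 v) * t ^ k := by
      rw [w.2.2, inner_smul_right, mul_comm]
    by_cases hz' : z = 0
    · rw [hz', add_zero, h0]
    · have hcont : Continuous fun s : ℝ => w.1 (t • v + s • z) := by fun_prop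
      have hcont2 : Continuous fun s : ℝ =>
          (inner ℝ v (w.1 (t • v + s • z)) : ℝ) • z := by fun_prop
      have h3 := iv_limit hcont2 (c := (inner ℝ v (w.1 (t • v + z)) : ℝ) • z) (fun s hs => by
        rw [hconst (z := s • z) (z' := z) (by rw [map_smul, hz]) hz (smul_ne_zero hs hz') hz'])
      rw [zero_smul, add_zero, h0] at h3
      have h4 : (inner ℝ v (w.1 v) * t ^ k - inner ℝ v (w.1 (t • v + z)) : ℝ) • z = 0 := by
        rw [sub_smul, h3, sub_self]
      have h5 := (smul_eq_zero.1 h4).resolve_right hz'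
      linarith
  -- the component in the range
  have hr : ∀ t : ℝ, ∃ c : ℝ, ∀ z, e z = z → z ≠ 0 → e (w.1 (t • v + z)) = c • z := by
    intro t
    refine iv_f2 hbig (fun z => e (w.1 (t • v + z))) ?_ (fun z _ => he.idem _)
    intro q u z hqu hq hu hz
    show e (w.1 (t • v + (z + (inner ℝ q z : ℝ) • u))) =
      e (w.1 (t • v + z)) + (inner ℝ q (e (w.1 (t • v + z))) : ℝ) • u
    rw [hinv' t q u z hqu hq hu, map_add, map_smul, hu, ← he.sym, hq]
  choose c hc using hr
  have hc1 : ∀ t : ℝ, c t = c 1 * t ^ (k - 1) := by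
    intro t
    by_cases ht : t = 0
    · rw [ht, zero_pow (by omega), mul_zero]
      have h1 := hc 0 ((2 : ℝ) • z0) (by rw [map_smul, hz0]) (smul_ne_zero two_ne_zero hz00)
      have h2 := hc 0 z0 hz0 hz00
      rw [zero_smul, zero_add] at h1 h2
      rw [w.2.2, map_smul, h2] at h1
      exact iv_deg hk hz00 h1.symm
    · have h1 := hc t (t • z0) (by rw [map_smul, hz0]) (smul_ne_zero ht hz00)
      have h2 := hc 1 z0 hz0 hz00
      rw [one_smul] at h2
      rw [← smul_add, w.2.2, map_smul, h2, smul_smul, smul_smul] at h1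
      have h3 : (t ^ k * c 1 - c t * t) • z0 = 0 := by rw [sub_smul, h1, sub_self]
      have h4 := (smul_eq_zero.1 h3).resolve_right hz00
      obtain ⟨j, rfl⟩ : ∃ j, k = j + 1 := ⟨k - 1, by omega⟩
      rw [Nat.add_sub_cancel]
      rw [pow_succ] at h4
      have h5 : (c t - c 1 * t ^ j) * t = 0 := by linarith
      have h6 := (mul_eq_zero.1 h5).resolve_right ht
      linarith
  have hrz : ∀ (t : ℝ) (z : E), e z = z → e (w.1 (t • v + z)) = c t • z := by
    intro t z hz
    by_cases hz' : z = 0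
    · rw [hz', add_zero, smul_zero]
      have hcont : Continuous fun s : ℝ => e (w.1 (t • v + s • z0)) - (s * c t) • z0 := by fun_prop
      have h3 := iv_limit hcont (c := 0) (fun s hs => by
        rw [hc t (s • z0) (by rw [map_smul, hz0]) (smul_ne_zero hs hz00), smul_smul, mul_comm,
          sub_self])
      rwa [zero_smul, add_zero, zero_mul, zero_smul, sub_zero] at h3
    · exact hc t z hz hz'
  refine ⟨inner ℝ v (w.1 v), c 1, fun x => ?_⟩
  have hx := hev x
  have h1 := hs (inner ℝ v x) (e x) (he.idem x)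
  have h2 := hrz (inner ℝ v x) (e x) (he.idem x)
  rw [← hx] at h1 h2
  rw [← hc1, ← h1, ← h2]
  exact hev (w.1 x)

end
end LatLin
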