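import Pool.Agent.Lib.MP_2392aa_gt.L.Fix
import Pool.Agent.Lib.MP_2392aa_gt.L.Inv

/-!
MP_2392aa_gt, formal linearization, module Delta (about 200 lines): comparison of the fixed points of
two opposite unipotent groups.

PROOF. `B := kil k (uT e) ⊔ kil k (uS e)`. An element `g ∈ blk e'` with `e'` inside `V` or inside `N`
(`Ins`) preserves range and kernel of `e`, so conjugation by `g` preserves `uT e` and `uS e`, and
`pi k g` preserves `kil k (uT e)`, `kil k (uS e)` (`pi_xd`) and `B`. For `γ ∈ G ∩ blk e'`: with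
`α1 := pi k γ a0 + b γ - a0`: for `g ∈ G ∩ tws (uT e)`, `g' := γ⁻¹ g γ ∈ G ∩ tws (uT e)`:
`b (γ g') = b (g γ)`, i.e. `b γ + γ b g' = b g + g b γ`; with `b g = a0 - g a0`, `b g' = a0 - g' a0`:
`b γ + γ a0 - g γ a0 = a0 - g a0 + g b γ`, i.e. `g α1 = α1`. So `α1 ∈ kil k (uT e)` (`kil_of_lat`).
Similarly `α2 := pi k γ b0 + b γ - b0 ∈ kil k (uS e)`. So `pi k γ (a0 - b0) - (a0 - b0) = α1 - α2 ∈ B`.
`Dn G (ε i)` (`X = HM E k`, `prep_pi`) gives `pi k (tv q u) (a0 - b0) - (a0 - b0) ∈ B` for all `q, u` in the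
range of `ε i`, `⟪q, u⟫ = 0`, all `i`. `cr_HM` with `P` = all these pairs gives `y ∈ B` such that
`a0 - b0 - y` is fixed by all of them; `y = α + α'`.
`triv_T`, `triv_S`: `pi_of_xd`: elements of `kil k (uT e)` are fixed by `tw a`, `a ∈ uT e`.
-/

open scoped ContDiff Topology

namespace LatLin

universe u
variable {E : Type u} [NormedAddCommGroup E] [InnerProductSpace ℝ E] [FiniteDimensional ℝ E] {k : ℕ}

/-- the block `e'` is inside the range or inside the kernel of `e` -/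
def Ins (e e' : E →L[ℝ] E) : Prop := (∀ x, e (e' x) = e' x) ∨ ∀ x, e (e' x) = 0

omit [FiniteDimensional ℝ E] in
private theorem tw_cj (g : GE E) {a : E →L[ℝ] E} (h : a ∘L a = 0) :
    tw (((g⁻¹ : GE E) : E →L[ℝ] E) ∘L a ∘L (g : E →L[ℝ] E)) = g⁻¹ * tw a * g := by
  have e1 : ∀ y, a (a y) = 0 := fun y => by simpa using congrArg (fun f => f y) h
  have e2 : ∀ y : E, (g⁻¹ : GE E) (g y) = y := fun y => g.symm_apply_apply y
  have e3 : ∀ y : E, g ((g⁻¹ : GE E) y) = y := fun y => g.apply_symm_apply y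
  have h0 : (((g⁻¹ : GE E) : E →L[ℝ] E) ∘L a ∘L (g : E →L[ℝ] E)) ∘L
      (((g⁻¹ : GE E) : E →L[ℝ] E) ∘L a ∘L (g : E →L[ℝ] E)) = 0 := by
    ext y
    show (g⁻¹ : GE E) (a (g ((g⁻¹ : GE E) (a (g y))))) = 0
    rw [e3, e1, map_zero]
  ext x
  rw [tw_apply h0]
  show x + (g⁻¹ : GE E) (a (g x)) = (g⁻¹ : GE E) (tw a (g x))
  rw [tw_apply h, map_add, e2]

omit [FiniteDimensional ℝ E] in
private theorem com_inv {e : E →L[ℝ] E} {g : GE E} (h : ∀ x, e (g x) = g (e x)) (x : E) :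
    e ((g⁻¹ : GE E) x) = (g⁻¹ : GE E) (e x) := by
  have e2 : ∀ y : E, (g⁻¹ : GE E) (g y) = y := fun y => g.symm_apply_apply y
  have e3 : ∀ y : E, g ((g⁻¹ : GE E) y) = y := fun y => g.apply_symm_apply y
  have h1 := h ((g⁻¹ : GE E) x)
  rw [e3] at h1
  rw [h1, e2]

omit [FiniteDimensional ℝ E] in
private theorem cj_T {e : E →L[ℝ] E} {g : GE E} (h : ∀ x, e (g x) = g (e x)) (a : E →L[ℝ] E)
    (ha : a ∈ uT e) : ((g⁻¹ : GE E) : E →L[ℝ] E) ∘L a ∘L (g : E →L[ℝ] E) ∈ uT e := by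
  refine ⟨fun x => ?_, fun x => ?_⟩
  · show e ((g⁻¹ : GE E) (a (g x))) = (g⁻¹ : GE E) (a (g x))
    rw [com_inv h, ha.1]
  · show (g⁻¹ : GE E) (a (g (e x))) = 0
    rw [← h, ha.2, map_zero]

omit [FiniteDimensional ℝ E] in
private theorem cj_S {e : E →L[ℝ] E} {g : GE E} (h : ∀ x, e (g x) = g (e x)) (a : E →L[ℝ] E)
    (ha : a ∈ uS e) : ((g⁻¹ : GE E) : E →L[ℝ] E) ∘L a ∘L (g : E →L[ℝ] E) ∈ uS e := by
  refine ⟨fun x => ?_, fun x => ?_⟩
  · show e ((g⁻¹ : GE E) (a (g x))) = 0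
    rw [com_inv h, ha.1, map_zero]
  · show (g⁻¹ : GE E) (a (g (e x))) = (g⁻¹ : GE E) (a (g x))
    rw [← h, ha.2]

omit [FiniteDimensional ℝ E] in
private theorem pr_T {e : E →L[ℝ] E} (a : E →L[ℝ] E) (ha : a ∈ uT e) (a' : E →L[ℝ] E)
    (ha' : a' ∈ uT e) : a ∘L a' = 0 := by
  ext x
  show a (a' x) = 0
  rw [← ha'.1 x, ha.2]

omit [FiniteDimensional ℝ E] in
private theorem pr_S {e : E →L[ℝ] E} (a : E →L[ℝ] E) (ha : a ∈ uS e) (a' : E →L[ℝ] E)
    (ha' : a' ∈ uS e) : a ∘L a' = 0 := by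
  ext x
  show a (a' x) = 0
  rw [← ha.2 (a' x), ha'.1, map_zero]

/-- the defect of a trivialization under an element which normalizes -/
private theorem defect (G : Subgroup (GE E)) (b : GE E → HM E k) (hb : IsCoc G b)
    (u : Submodule ℝ (E →L[ℝ] E)) (hu : ∀ a ∈ u, ∀ a' ∈ u, a ∘L a' = 0) (hL : Lat G u)
    (w : HM E k) (hw : Triv b w {g | g ∈ G ∧ g ∈ tws u}) {g : GE E} (hg : g ∈ G)
    (hn : ∀ a ∈ u, ((g⁻¹ : GE E) : E →L[ℝ] E) ∘L a ∘L (g : E →L[ℝ] E) ∈ u) :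
    pi k g w + b g - w ∈ kil k u := by
  refine kil_of_lat G u hu hL _ ?_
  rintro _ hT ⟨a, ha, rfl⟩
  have h1 := tw_cj g (hu a ha a ha)
  have hT' : g⁻¹ * tw a * g ∈ G := G.mul_mem (G.mul_mem (G.inv_mem hg) hT) hg
  have h2 : b (tw a) = w - pi k (tw a) w := hw _ ⟨hT, a, ha, rfl⟩
  have h3 : b (g⁻¹ * tw a * g) = w - pi k (g⁻¹ * tw a * g) w :=
    hw _ ⟨hT', _, hn a ha, h1.symm⟩
  have h4 : g * (g⁻¹ * tw a * g) = tw a * g := by group
  have h5 := hb g hg _ hT'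
  rw [h4, hb _ hT g hg, h2, h3, map_sub] at h5
  have h6 : pi k g (pi k (g⁻¹ * tw a * g) w) = pi k (tw a) (pi k g w) := by
    have h7 : pi k g (pi k (g⁻¹ * tw a * g) w) = pi k (g * (g⁻¹ * tw a * g)) w := by
      rw [map_mul (pi k) g]
      rfl
    rw [h7, h4, map_mul]
    rfl
  rw [h6] at h5
  rw [map_sub, map_add]
  have h8 : pi k (tw a) (pi k g w) + pi k (tw a) (b g) - pi k (tw a) w =
      (w - pi k (tw a) w + pi k (tw a) (b g)) - w + pi k (tw a) (pi k g w) := by abel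
  rw [h8, h5]
  abel

private theorem kil_st {u : Submodule ℝ (E →L[ℝ] E)} {g : GE E}
    (hn : ∀ a ∈ u, ((g⁻¹ : GE E) : E →L[ℝ] E) ∘L a ∘L (g : E →L[ℝ] E) ∈ u) (y : HM E k)
    (hy : y ∈ kil k u) : pi k g y ∈ kil k u := by
  intro a ha
  rw [← pi_xd, hy _ (hn a ha), map_zero]

/-- the elements of the block commute with `e` -/
private theorem blk_com {e e' : E →L[ℝ] E} (he : IsPr e) (he' : IsPr e') (h : Ins e e') {g : GE E}
    (hg : g ∈ blk e') (x : E) : e (g x) = g (e x) := by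
  have h0 : ∀ y, g y = g (e' y) + (y - e' y) := by
    intro y
    have h1 : g (y - e' y) = y - e' y := hg.2 _ (by rw [map_sub, he'.idem, sub_self])
    rw [← h1, ← map_add, add_sub_cancel]
  rcases h with h | h
  · have h1 : ∀ y, e' (e y) = e' y := by
      intro y
      refine ext_inner_right ℝ fun z => ?_
      rw [he'.sym, he.sym, h, ← he'.sym]
    rw [h0 x, h0 (e x), h1, map_add, map_sub, h]
    congr 1
    rw [← hg.1 x, h, hg.1]
  · have h1 : ∀ y, e' (e y) = 0 := by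
      intro y
      refine ext_inner_right ℝ fun z => ?_
      rw [he'.sym, he.sym, h, inner_zero_right, inner_zero_left]
    rw [h0 x, h0 (e x), h1, map_add, map_sub, h, map_zero, ← hg.1 x, h, zero_add]

omit [FiniteDimensional ℝ E] in
private theorem tv_blk {e' : E →L[ℝ] E} (he' : IsPr e') {q v : E} (h : inner ℝ q v = (0 : ℝ))
    (hq : e' q = q) (hv : e' v = v) : tv q v ∈ blk e' := by
  refine ⟨fun x => ?_, fun x hx => ?_⟩
  · rw [tv_apply h, map_add, map_smul, he'.idem, hv]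
  · rw [tv_apply h, ← hq, he'.sym, hx, inner_zero_right, zero_smul, add_zero]

theorem triv_T {e : E →L[ℝ] E} (G : Subgroup (GE E)) (b : GE E → HM E k) (w α : HM E k)
    (hw : Triv b w {g | g ∈ G ∧ g ∈ tws (uT e)}) (hα : α ∈ kil k (uT e)) :
    Triv b (w + α) {g | g ∈ G ∧ g ∈ tws (uT e)} := by
  rintro _ ⟨hG, a, ha, rfl⟩
  rw [hw _ ⟨hG, a, ha, rfl⟩, map_add, pi_of_xd (uT_sq ha) α (hα a ha)]
  abel

theorem triv_S {e : E →L[ℝ] E} (G : Subgroup (GE E)) (b : GE E → HM E k) (w α : HM E k)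
    (hw : Triv b w {g | g ∈ G ∧ g ∈ tws (uS e)}) (hα : α ∈ kil k (uS e)) :
    Triv b (w + α) {g | g ∈ G ∧ g ∈ tws (uS e)} := by
  rintro _ ⟨hG, a, ha, rfl⟩
  rw [hw _ ⟨hG, a, ha, rfl⟩, map_add, pi_of_xd (uS_sq ha) α (hα a ha)]
  abel

/-- if a cocycle is trivial on both unipotent groups then it is trivial on the elements which
normalize both -/
theorem triv_L (hk : 2 ≤ k) {e : E →L[ℝ] E} (he : IsPr e) (hV : ∃ v, v ≠ 0 ∧ e v = v)
    (hN : ∃ v, v ≠ 0 ∧ e v = 0) (G : Subgroup (GE E)) (b : GE E → HM E k) (hb : IsCoc G b)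
    (hT : Lat G (uT e)) (hS : Lat G (uS e)) (w : HM E k)
    (hwT : Triv b w {g | g ∈ G ∧ g ∈ tws (uT e)}) (hwS : Triv b w {g | g ∈ G ∧ g ∈ tws (uS e)}) :
    Triv b w {g | g ∈ G ∧ ∀ x, e (g x) = g (e x)} := by
  rintro g ⟨hg, hc⟩
  have h1 := defect G b hb (uT e) pr_T hT w hwT hg (cj_T hc)
  have h2 := defect G b hb (uS e) pr_S hS w hwS hg (cj_S hc)
  have h3 := inv_TS hk he hV hN _ h1 h2
  have h4 : b g = (pi k g w + b g - w) + (w - pi k g w) := by abel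
  rw [h4, h3, zero_add]

theorem delta {e : E →L[ℝ] E} (he : IsPr e) (G : Subgroup (GE E)) (b : GE E → HM E k)
    (hb : IsCoc G b) (hT : Lat G (uT e)) (hS : Lat G (uS e)) (a0 b0 : HM E k)
    (ha : Triv b a0 {g | g ∈ G ∧ g ∈ tws (uT e)}) (hb0 : Triv b b0 {g | g ∈ G ∧ g ∈ tws (uS e)})
    {J : Type*} (ε : J → E →L[ℝ] E) (hε : ∀ i, IsPr (ε i)) (hin : ∀ i, Ins e (ε i))
    (hD : ∀ i, Dn G (ε i)) :
    ∃ α ∈ kil k (uT e), ∃ α' ∈ kil k (uS e), ∀ (i : J) (q u : E), inner ℝ q u = (0 : ℝ) →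
      ε i q = q → ε i u = u → pi k (tv q u) (a0 - b0 - α - α') = a0 - b0 - α - α' := by
  have hst : ∀ g : GE E, (∀ x, e (g x) = g (e x)) →
      ∀ y ∈ kil k (uT e) ⊔ kil k (uS e), pi k g y ∈ kil k (uT e) ⊔ kil k (uS e) := by
    intro g hg y hy
    obtain ⟨y1, hy1, y2, hy2, rfl⟩ := Submodule.mem_sup.1 hy
    rw [map_add]
    exact Submodule.add_mem_sup (kil_st (cj_T hg) y1 hy1) (kil_st (cj_S hg) y2 hy2)
  have hdef : ∀ g ∈ G, (∀ x, e (g x) = g (e x)) →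
      pi k g (a0 - b0) - (a0 - b0) ∈ kil k (uT e) ⊔ kil k (uS e) := by
    intro g hg hc
    have h1 := defect G b hb (uT e) pr_T hT a0 ha hg (cj_T hc)
    have h2 := defect G b hb (uS e) pr_S hS b0 hb0 hg (cj_S hc)
    have h3 : pi k g (a0 - b0) - (a0 - b0) =
        (pi k g a0 + b g - a0) + -(pi k g b0 + b g - b0) := by
      rw [map_sub]
      abel
    rw [h3]
    exact Submodule.add_mem_sup h1 (Submodule.neg_mem _ h2)
  have hcom : ∀ i, ∀ g ∈ blk (ε i), ∀ x, e (g x) = g (e x) := fun i g hg =>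
    blk_com he (hε i) (hin i) hg
  have hmain : ∀ (i : J) (q v : E), inner ℝ q v = (0 : ℝ) → ε i q = q → ε i v = v →
      pi k (tv q v) (a0 - b0) - (a0 - b0) ∈ kil k (uT e) ⊔ kil k (uS e) := by
    intro i q v h hq hv
    exact hD i (HM E k) (pi k) prep_pi _ (fun g hg => hst g (hcom i g hg)) (a0 - b0)
      (fun g hg hg' => hdef g hg (hcom i g hg')) q v h hq hv
  obtain ⟨y, hy, hy'⟩ := cr_HM
    {p : E × E | inner ℝ p.1 p.2 = (0 : ℝ) ∧ ∃ i, ε i p.1 = p.1 ∧ ε i p.2 = p.2}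
    (fun p hp => hp.1)
    (fun p hp => ⟨by rw [real_inner_comm]; exact hp.1, hp.2.imp fun i hi => ⟨hi.2, hi.1⟩⟩)
    (kil k (uT e) ⊔ kil k (uS e))
    (fun p hp y hy => by
      obtain ⟨h, i, hq, hv⟩ := hp
      exact hst _ (hcom i _ (tv_blk (hε i) h hq hv)) y hy)
    (a0 - b0)
    (fun p hp => by
      obtain ⟨h, i, hq, hv⟩ := hp
      exact hmain i _ _ h hq hv)
  obtain ⟨α, hα, α', hα', rfl⟩ := Submodule.mem_sup.1 hy
  refine ⟨α, hα, α', hα', fun i q v h hq hv => ?_⟩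
  have h1 := hy' (q, v) ⟨h, i, hq, hv⟩
  rw [← sub_sub] at h1
  exact h1

end LatLin
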