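import Pool.Agent.Lib.MP_2392aa_gt.L.Defs

/-!
MP_2392aa_gt, formal linearization, module Scheme (about 200 lines): vanishing of the cohomology of a
group which is covered by commensurating elements.

NOTATION. For `q ∈ GE E`: `cjG q G = q⁻¹ G q`, `cjb q b g = q⁻¹ (b (q g q⁻¹))`, a cocycle on `cjG q G` if
`b` is one on `G`. `𝒰` is a family of subsets (unipotent groups). Let `w(G, b)` be the unique
element with `Triv b w (G ∩ U)` for all `U ∈ 𝒰` (`h1`; uniqueness from `h2`: the difference of two is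
fixed by all `G ∩ U`).
CLAIM. For `q` in the closure of `Gen`, all `G ∈ 𝒞` and cocycles `b`: `cjG q G ∈ 𝒞` and
`q w(cjG q G, cjb q b) = w(G, b)`. Proof: `Subgroup.closure_induction`. Generators: put
`w := w(G, b)`, `b' g := b g - (w - g w)` (a cocycle which vanishes on all `G ∩ U`),
`w' := q w(cjG q G, cjb q b) - w`. For `U ∈ 𝒰` and `g ∈ cjG q G ∩ U`:
`cjb q b g = v - g v`, `v := w(cjG q G, cjb q b)`, i.e. `b (q g q⁻¹) = q v - (q g q⁻¹) q v`, so
`b' (q g q⁻¹) = w' - (q g q⁻¹) w'`. By `h3`: `w' = 0`. Products: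
`cjG (q1 q2) G = cjG q2 (cjG q1 G)`, same for `cjb`. Inverses: apply the claim for `q` to
`(cjG q⁻¹ G, cjb q⁻¹ b)`; here `cjG q⁻¹ G ∈ 𝒞` by `hinv` (for this reason the induction hypothesis
should contain: `cjG q G ∈ 𝒞` and `cjG q⁻¹ G ∈ 𝒞` for all `G ∈ 𝒞`).
END. For `γ ∈ G`: `cjG γ G = G` and `cjb γ b g = b g + γ⁻¹ b γ - g γ⁻¹ b γ` (cocycle identity), so
`w(G, cjb γ b) = w(G, b) + γ⁻¹ b γ`, and the claim says `γ w(G, b) + b γ = w(G, b)`.
-/

open scoped ContDiff Topology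

namespace LatLin

section
variable {E : Type*} [NormedAddCommGroup E] [InnerProductSpace ℝ E] {k : ℕ}

/-- `q⁻¹ G q` -/
def cjG (q : GE E) (G : Subgroup (GE E)) : Subgroup (GE E) :=
  G.map (MulAut.conj q⁻¹).toMonoidHom

theorem mem_cjG {q g : GE E} {G : Subgroup (GE E)} : g ∈ cjG q G ↔ q * g * q⁻¹ ∈ G := by
  constructor
  · rintro ⟨h, hh, rfl⟩
    simpa [mul_assoc] using hh
  · intro h
    exact ⟨q * g * q⁻¹, h, by simp [mul_assoc]⟩

private theorem sch_mul (g h : GE E) (w : HM E k) :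
    pi k (g * h) w = pi k g (pi k h w) := by
  rw [map_mul, Module.End.mul_apply]

private theorem sch_one (w : HM E k) : pi k (1 : GE E) w = w := by
  rw [map_one, Module.End.one_apply]

private theorem sch_inv (g : GE E) (w : HM E k) : pi k g⁻¹ (pi k g w) = w := by
  rw [← sch_mul, inv_mul_cancel, sch_one]

private theorem sch_inv' (g : GE E) (w : HM E k) : pi k g (pi k g⁻¹ w) = w := by
  rw [← sch_mul, mul_inv_cancel, sch_one]

/-- `q⁻¹ (b (q g q⁻¹))` -/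
private def cjb (q : GE E) (b : GE E → HM E k) : GE E → HM E k :=
  fun g => pi k q⁻¹ (b (q * g * q⁻¹))

private theorem sch_coc {q : GE E} {G : Subgroup (GE E)} {b : GE E → HM E k} (hb : IsCoc G b) :
    IsCoc (cjG q G) (cjb q b) := by
  intro g hg h hh
  rw [mem_cjG] at hg hh
  unfold cjb
  have h1 : q * (g * h) * q⁻¹ = (q * g * q⁻¹) * (q * h * q⁻¹) := by group
  rw [h1, hb _ hg _ hh, map_add, ← sch_mul, ← sch_mul]
  congr 3
  group

private theorem cjG_mul (q1 q2 : GE E) (G : Subgroup (GE E)) :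
    cjG q2 (cjG q1 G) = cjG (q1 * q2) G := by
  ext g
  rw [mem_cjG, mem_cjG, mem_cjG]
  have h1 : q1 * (q2 * g * q2⁻¹) * q1⁻¹ = q1 * q2 * g * (q1 * q2)⁻¹ := by group
  rw [h1]

private theorem cjG_one (G : Subgroup (GE E)) : cjG 1 G = G := by
  ext g
  rw [mem_cjG, one_mul, inv_one, mul_one]

private theorem cjb_mul (q1 q2 : GE E) (b : GE E → HM E k) :
    cjb q2 (cjb q1 b) = cjb (q1 * q2) b := by
  funext g
  unfold cjb
  rw [← sch_mul]
  have h1 : q1 * (q2 * g * q2⁻¹) * q1⁻¹ = q1 * q2 * g * (q1 * q2)⁻¹ := by group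
  have h2 : q2⁻¹ * q1⁻¹ = (q1 * q2)⁻¹ := by group
  rw [h1, h2]

private theorem cjb_one (b : GE E → HM E k) : cjb 1 b = b := by
  funext g
  unfold cjb
  rw [one_mul, inv_one, mul_one, sch_one]

private theorem sch_b1 {G : Subgroup (GE E)} {b : GE E → HM E k} (hb : IsCoc G b) : b 1 = 0 := by
  have h1 := hb 1 G.one_mem 1 G.one_mem
  rw [mul_one, sch_one] at h1
  exact left_eq_add.1 h1

private theorem sch_binv {G : Subgroup (GE E)} {b : GE E → HM E k} (hb : IsCoc G b) {g : GE E}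
    (hg : g ∈ G) : b g⁻¹ = -pi k g⁻¹ (b g) := by
  have h1 := hb g⁻¹ (G.inv_mem hg) g hg
  rw [inv_mul_cancel, sch_b1 hb] at h1
  exact eq_neg_of_add_eq_zero_left h1.symm

/-- the claim for `q` -/
private def SchP (𝒞 : Set (Subgroup (GE E))) (𝒰 : Set (Set (GE E))) (k : ℕ) (q : GE E) : Prop :=
  ∀ G ∈ 𝒞, cjG q G ∈ 𝒞 ∧ cjG q⁻¹ G ∈ 𝒞 ∧ ∀ b : GE E → HM E k, IsCoc G b → ∀ w v : HM E k,
    (∀ U ∈ 𝒰, Triv b w {g | g ∈ G ∧ g ∈ U}) →
    (∀ U ∈ 𝒰, Triv (cjb q b) v {g | g ∈ cjG q G ∧ g ∈ U}) → pi k q v = w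

private theorem sch_uniq {𝒞 : Set (Subgroup (GE E))} {𝒰 : Set (Set (GE E))}
    (h2 : ∀ G ∈ 𝒞, ∀ w : HM E k, (∀ U ∈ 𝒰, ∀ g ∈ G, g ∈ U → pi k g w = w) → w = 0)
    {G : Subgroup (GE E)} (hG : G ∈ 𝒞) {b : GE E → HM E k} {w v : HM E k}
    (hw : ∀ U ∈ 𝒰, Triv b w {g | g ∈ G ∧ g ∈ U})
    (hv : ∀ U ∈ 𝒰, Triv b v {g | g ∈ G ∧ g ∈ U}) : v = w := by
  rw [← sub_eq_zero]
  refine h2 G hG _ fun U hU g hg hgU => ?_
  have e1 := hw U hU g ⟨hg, hgU⟩
  have e2 := hv U hU g ⟨hg, hgU⟩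
  rw [e1] at e2
  rw [map_sub]
  have h3 : pi k g w = w - (v - pi k g v) := by rw [← e2]; abel
  rw [h3]
  abel

theorem scheme (𝒞 : Set (Subgroup (GE E))) (𝒰 : Set (Set (GE E))) (Gen : Set (GE E))
    (hcj : ∀ q ∈ Gen, ∀ G ∈ 𝒞, cjG q G ∈ 𝒞) (hinv : ∀ q ∈ Gen, ∀ G ∈ 𝒞, cjG q⁻¹ G ∈ 𝒞)
    (h1 : ∀ G ∈ 𝒞, ∀ b : GE E → HM E k, IsCoc G b →
      ∃ w : HM E k, ∀ U ∈ 𝒰, Triv b w {g | g ∈ G ∧ g ∈ U})
    (h2 : ∀ G ∈ 𝒞, ∀ w : HM E k, (∀ U ∈ 𝒰, ∀ g ∈ G, g ∈ U → pi k g w = w) → w = 0)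
    (h3 : ∀ q ∈ Gen, ∀ G ∈ 𝒞, ∀ b : GE E → HM E k, IsCoc G b →
      (∀ U ∈ 𝒰, ∀ g ∈ G, g ∈ U → b g = 0) → ∀ w : HM E k,
      (∀ U ∈ 𝒰, ∀ g ∈ cjG q G, g ∈ U → b (q * g * q⁻¹) = w - pi k (q * g * q⁻¹) w) → w = 0)
    (G : Subgroup (GE E)) (hG : G ∈ 𝒞) (hgen : G ≤ Subgroup.closure Gen)
    (b : GE E → HM E k) (hb : IsCoc G b) : ∃ w : HM E k, Triv b w (G : Set (GE E)) := by
  -- the claim for all `q` in the group generated by `Gen`
  have key : ∀ q ∈ Subgroup.closure Gen, SchP 𝒞 𝒰 k q := by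
    intro q hq
    induction hq using Subgroup.closure_induction with
    | mem q hq =>
      intro G hG
      refine ⟨hcj q hq G hG, hinv q hq G hG, fun b hb w v hw hv => ?_⟩
      rw [← sub_eq_zero]
      refine h3 q hq G hG (fun g => b g - (w - pi k g w)) ?_ ?_ _ ?_
      · intro g hg h hh
        dsimp only
        rw [hb g hg h hh, sch_mul, map_sub, map_sub]
        abel
      · intro U hU g hg hgU
        rw [hw U hU g ⟨hg, hgU⟩, sub_self]
      · intro U hU g hg hgU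
        have e1 := hv U hU g ⟨hg, hgU⟩
        have e2 : b (q * g * q⁻¹) = pi k q v - pi k (q * g * q⁻¹) (pi k q v) := by
          have e3 := congrArg (fun z => pi k q z) e1
          dsimp only [cjb] at e3
          rw [sch_inv', map_sub, ← sch_mul] at e3
          rw [e3, ← sch_mul]
          congr 3
          group
        rw [e2, map_sub]
        abel
    | one =>
      intro G hG
      rw [inv_one, cjG_one]
      refine ⟨hG, hG, fun b hb w v hw hv => ?_⟩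
      rw [cjb_one] at hv
      rw [sch_one]
      exact sch_uniq h2 hG hw hv
    | mul q1 q2 _ _ ih1 ih2 =>
      intro G hG
      have e1 := ih1 G hG
      have e2 := ih2 (cjG q1 G) e1.1
      have e3 : cjG (q1 * q2)⁻¹ G = cjG q1⁻¹ (cjG q2⁻¹ G) := by
        rw [cjG_mul, mul_inv_rev]
      rw [cjG_mul] at e2
      refine ⟨e2.1, ?_, fun b hb w v hw hv => ?_⟩
      · rw [e3]
        exact (ih1 _ (ih2 G hG).2.1).2.1
      · obtain ⟨u, hu⟩ := h1 (cjG q1 G) e1.1 (cjb q1 b) (sch_coc hb)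
        have e4 := e1.2.2 b hb w u hw hu
        have e5 := e2.2.2 (cjb q1 b) (sch_coc hb) u v hu (by rwa [cjb_mul])
        rw [sch_mul, e5, e4]
    | inv q _ ih =>
      intro G hG
      have e1 := ih G hG
      rw [inv_inv]
      refine ⟨e1.2.1, e1.1, fun b hb w v hw hv => ?_⟩
      have e2 := (ih (cjG q⁻¹ G) e1.2.1).2.2 (cjb q⁻¹ b) (sch_coc hb) v w hv
      rw [cjG_mul, cjb_mul, inv_mul_cancel, cjG_one, cjb_one] at e2
      rw [← e2 hw, sch_inv]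
  obtain ⟨w, hw⟩ := h1 G hG b hb
  refine ⟨w, fun γ hγ => ?_⟩
  have hγ' : γ ∈ G := hγ
  have e1 : cjG γ G = G := by
    ext g
    rw [mem_cjG]
    constructor
    · intro h
      have h4 := G.mul_mem (G.mul_mem (G.inv_mem hγ') h) hγ'
      have h5 : γ⁻¹ * (γ * g * γ⁻¹) * γ = g := by group
      rwa [h5] at h4
    · intro h
      exact G.mul_mem (G.mul_mem hγ' h) (G.inv_mem hγ')
  have e2 := (key γ (hgen hγ') G hG).2.2 b hb w (w + pi k γ⁻¹ (b γ)) hw ?_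
  · rw [map_add, sch_inv'] at e2
    exact eq_sub_of_add_eq' e2
  · intro U hU g hg
    rw [e1] at hg
    have e3 := hw U hU g hg
    show pi k γ⁻¹ (b (γ * g * γ⁻¹)) = _
    rw [hb _ (G.mul_mem hγ' hg.1) _ (G.inv_mem hγ'), hb _ hγ' _ hg.1, sch_binv hb hγ', e3]
    simp only [map_add, map_sub, map_neg, sch_mul, sch_inv]
    abel

end
end LatLin
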