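import Pool.Agent.Lib.MP_2392aa_gt.L.ArDn
import Pool.Agent.Lib.MP_2392aa_gt.L.ArGen
import Pool.Agent.Lib.MP_2392aa_gt.L.Inv
import Pool.Agent.Lib.MP_2392aa_gt.L.Delta
import Pool.Agent.Lib.MP_2392aa_gt.L.Scheme

/-!
MP_2392aa_gt, formal linearization, module FLB: `SL_m(D0)`, `D0 ⊆ ℝ` (that is `D0 = ℤ`), `m ≥ 3`
(plan of the proof helper81, proofs helper15).
-/

open scoped ContDiff Topology
open LatN (DivO blo blkO unitI En)

namespace LatLin

section
variable {E : Type*} [NormedAddCommGroup E] [InnerProductSpace ℝ E] {k : ℕ}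

private theorem fb_mul (g h : GE E) (w : HM E k) : pi k (g * h) w = pi k g (pi k h w) := by
  rw [map_mul, Module.End.mul_apply]

private theorem fb_one (w : HM E k) : pi k (1 : GE E) w = w := by
  rw [map_one, Module.End.one_apply]

private theorem fb_inv (g : GE E) (w : HM E k) : pi k g⁻¹ (pi k g w) = w := by
  rw [← fb_mul, inv_mul_cancel, fb_one]

private theorem fb_inv' (g : GE E) (w : HM E k) : pi k g (pi k g⁻¹ w) = w := by
  rw [← fb_mul, mul_inv_cancel, fb_one]

private theorem fb_ext {g h : GE E} (H : ∀ x, g x = h x) : g = h :=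
  ContinuousLinearEquiv.ext (funext H)

private theorem fb_inv_self (g : GE E) (x : E) : g⁻¹ (g x) = x := g.symm_apply_apply x

private theorem fb_self_inv (g : GE E) (x : E) : g (g⁻¹ x) = x := g.apply_symm_apply x

private theorem fb_b1 {G : Subgroup (GE E)} {b : GE E → HM E k} (hb : IsCoc G b) : b 1 = 0 := by
  have h1 := hb 1 G.one_mem 1 G.one_mem
  rw [mul_one, fb_one] at h1
  exact left_eq_add.1 h1

private theorem fb_binv {G : Subgroup (GE E)} {b : GE E → HM E k} (hb : IsCoc G b) {g : GE E}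
    (hg : g ∈ G) : b g⁻¹ = -pi k g⁻¹ (b g) := by
  have h1 := hb g⁻¹ (G.inv_mem hg) g hg
  rw [inv_mul_cancel, fb_b1 hb] at h1
  exact eq_neg_of_add_eq_zero_left h1.symm

/-- the elements on which the cocycle vanishes -/
private def zer (G : Subgroup (GE E)) (b : GE E → HM E k) (hb : IsCoc G b) :
    Subgroup (GE E) where
  carrier := {g | g ∈ G ∧ b g = 0}
  mul_mem' := by
    rintro g h ⟨hg, hg'⟩ ⟨hh, hh'⟩
    exact ⟨G.mul_mem hg hh, by rw [hb g hg h hh, hg', hh', map_zero, add_zero]⟩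
  one_mem' := ⟨G.one_mem, fb_b1 hb⟩
  inv_mem' := by
    rintro g ⟨hg, hg'⟩
    exact ⟨G.inv_mem hg, by rw [fb_binv hb hg, hg', map_zero, neg_zero]⟩

private theorem xd_smul' (c : ℝ) (a : E →L[ℝ] E) (w : HM E k) : xd (c • a) w = c • xd a w := by
  apply Subtype.ext
  funext x
  change (xd (c • a) w).1 x = c • (xd a w).1 x
  rw [xd_apply, xd_apply, smul_sub]
  change c • a (w.1 x) - fderiv ℝ w.1 x (c • a x) = _
  rw [map_smul]

private theorem xd_zero' (w : HM E k) : xd (0 : E →L[ℝ] E) w = 0 := by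
  have h := xd_smul' (0 : ℝ) (0 : E →L[ℝ] E) w
  rw [zero_smul, zero_smul] at h
  exact h

private theorem xd_add' (a a' : E →L[ℝ] E) (w : HM E k) : xd (a + a') w = xd a w + xd a' w := by
  apply Subtype.ext
  funext x
  change (xd (a + a') w).1 x = (xd a w).1 x + (xd a' w).1 x
  rw [xd_apply, xd_apply, xd_apply]
  change (a (w.1 x) + a' (w.1 x)) - fderiv ℝ w.1 x (a x + a' x) = _
  rw [map_add]
  abel

private theorem xd_sum' {ι : Type*} (s : Finset ι) (a : ι → E →L[ℝ] E) (w : HM E k)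
    (h : ∀ i ∈ s, xd (a i) w = 0) : xd (∑ i ∈ s, a i) w = 0 := by
  classical
  induction s using Finset.induction_on with
  | empty => rw [Finset.sum_empty, xd_zero']
  | insert i s hi ih =>
    rw [Finset.sum_insert hi, xd_add', h i (Finset.mem_insert_self _ _),
      ih fun j hj => h j (Finset.mem_insert_of_mem hj), add_zero]

private theorem conj_sq {a : E →L[ℝ] E} (h : a ∘L a = 0) (g : GE E) :
    ((g : E →L[ℝ] E) ∘L a ∘L ((g⁻¹ : GE E) : E →L[ℝ] E)) ∘L
      ((g : E →L[ℝ] E) ∘L a ∘L ((g⁻¹ : GE E) : E →L[ℝ] E)) = 0 := by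
  ext x
  change g (a (g⁻¹ (g (a (g⁻¹ x))))) = 0
  have h1 : ∀ y, a (a y) = 0 := fun y => by simpa using congrArg (fun f => f y) h
  rw [fb_inv_self, h1, map_zero]

private theorem tw_conj {a : E →L[ℝ] E} (h : a ∘L a = 0) (g : GE E) :
    g * tw a * g⁻¹ = tw ((g : E →L[ℝ] E) ∘L a ∘L ((g⁻¹ : GE E) : E →L[ℝ] E)) := by
  apply fb_ext
  intro x
  rw [tw_apply (conj_sq h g)]
  change g (tw a (g⁻¹ x)) = x + g (a (g⁻¹ x))
  rw [tw_apply h, map_add, fb_self_inv]

private theorem conj_tws_T {e : E →L[ℝ] E} {g s : GE E} (hg : ∀ x, e (g x) = g (e x))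
    (hs : s ∈ tws (uT e)) : g⁻¹ * s * g ∈ tws (uT e) := by
  obtain ⟨a, ha, rfl⟩ := hs
  have hg' : ∀ x, e (g⁻¹ x) = g⁻¹ (e x) := by
    intro x
    rw [← fb_inv_self g (e (g⁻¹ x)), ← hg, fb_self_inv]
  refine ⟨((g⁻¹ : GE E) : E →L[ℝ] E) ∘L a ∘L ((g⁻¹⁻¹ : GE E) : E →L[ℝ] E), ⟨fun x => ?_, fun x => ?_⟩,
    ?_⟩
  · change e (g⁻¹ (a (g⁻¹⁻¹ x))) = g⁻¹ (a (g⁻¹⁻¹ x))
    rw [hg', ha.1]
  · change g⁻¹ (a (g⁻¹⁻¹ (e x))) = 0
    rw [inv_inv, ← hg, ha.2, map_zero]
  · have h1 := tw_conj (uT_sq ha) g⁻¹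
    rw [← h1, inv_inv]

private theorem conj_tws_S {e : E →L[ℝ] E} {g s : GE E} (hg : ∀ x, e (g x) = g (e x))
    (hs : s ∈ tws (uS e)) : g⁻¹ * s * g ∈ tws (uS e) := by
  obtain ⟨a, ha, rfl⟩ := hs
  have hg' : ∀ x, e (g⁻¹ x) = g⁻¹ (e x) := by
    intro x
    rw [← fb_inv_self g (e (g⁻¹ x)), ← hg, fb_self_inv]
  refine ⟨((g⁻¹ : GE E) : E →L[ℝ] E) ∘L a ∘L ((g⁻¹⁻¹ : GE E) : E →L[ℝ] E), ⟨fun x => ?_, fun x => ?_⟩,
    ?_⟩
  · change e (g⁻¹ (a (g⁻¹⁻¹ x))) = 0
    rw [hg', ha.1, map_zero]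
  · change g⁻¹ (a (g⁻¹⁻¹ (e x))) = g⁻¹ (a (g⁻¹⁻¹ x))
    rw [inv_inv, ← hg, ha.2]
  · have h1 := tw_conj (uS_sq ha) g⁻¹
    rw [← h1, inv_inv]

private theorem uT_mul {e : E →L[ℝ] E} : ∀ a ∈ uT e, ∀ a' ∈ uT e, a ∘L a' = 0 := by
  intro a ha a' ha'
  ext x
  change a (a' x) = 0
  rw [← ha'.1 x, ha.2]

private theorem uS_mul {e : E →L[ℝ] E} : ∀ a ∈ uS e, ∀ a' ∈ uS e, a ∘L a' = 0 := by
  intro a ha a' ha'
  ext x
  change a (a' x) = 0
  rw [← ha.2, ha'.1, map_zero]

end

section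
variable {E : Type*} [NormedAddCommGroup E] [InnerProductSpace ℝ E] [FiniteDimensional ℝ E] {k : ℕ}

/-- a cocycle vanishing on one unipotent group and trivialized by `a` on the other one vanishes on
the elements which commute with `e` and fix `a` -/
private theorem van_L (hk : 2 ≤ k) {e : E →L[ℝ] E} (he : IsPr e) (hV : ∃ v, v ≠ 0 ∧ e v = v)
    (hN : ∃ v, v ≠ 0 ∧ e v = 0) (G : Subgroup (GE E)) (b : GE E → HM E k) (hb : IsCoc G b)
    (hT : Lat G (uT e)) (hS : Lat G (uS e)) (a : HM E k)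
    (hwT : ∀ g ∈ G, g ∈ tws (uT e) → b g = a - pi k g a)
    (hwS : ∀ g ∈ G, g ∈ tws (uS e) → b g = 0) {g : GE E} (hg : g ∈ G)
    (hge : ∀ x, e (g x) = g (e x)) (hga : pi k g a = a) : b g = 0 := by
  refine inv_TS hk he hV hN _ (kil_of_lat G _ uT_mul hT _ fun s hs hsu => ?_)
    (kil_of_lat G _ uS_mul hS _ fun s hs hsu => ?_)
  · have hs' : g⁻¹ * s * g ∈ G := G.mul_mem (G.mul_mem (G.inv_mem hg) hs) hg
    have h1 := hb s hs g hg
    have h2 := hb g hg _ hs'
    have h3 : g * (g⁻¹ * s * g) = s * g := by group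
    rw [h3, h1, hwT s hs hsu, hwT _ hs' (conj_tws_T hge hsu), map_sub, hga] at h2
    have h4 : pi k g (pi k (g⁻¹ * s * g) a) = pi k s a := by
      rw [← fb_mul, h3, fb_mul, hga]
    rw [h4] at h2
    have h5 : (a - pi k s a) + pi k s (b g) = (a - pi k s a) + b g := by rw [h2]; abel
    exact add_left_cancel h5
  · have hs' : g⁻¹ * s * g ∈ G := G.mul_mem (G.mul_mem (G.inv_mem hg) hs) hg
    have h1 := hb s hs g hg
    have h2 := hb g hg _ hs'
    have h3 : g * (g⁻¹ * s * g) = s * g := by group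
    rw [h3, h1, hwS s hs hsu, hwS _ hs' (conj_tws_S hge hsu), map_zero, zero_add, add_zero] at h2
    exact h2

end

section
variable {μ : Type} [Fintype μ] [DecidableEq μ]

/-- basis vectors -/
private noncomputable def ev (i : μ) : En (μ × Unit) := EuclideanSpace.single (i, ()) (1 : ℝ)

omit [Fintype μ] in
private theorem ev_apply (i p : μ) : (ev i : En (μ × Unit)) (p, ()) = if p = i then 1 else 0 := by
  unfold ev
  by_cases h : p = i
  · subst h
    simp
  · simp [h]

private theorem inner_ev (i : μ) (x : En (μ × Unit)) : (inner ℝ (ev i) x : ℝ) = x (i, ()) := by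
  unfold ev
  simp [EuclideanSpace.inner_single_left]

private theorem norm_ev (i : μ) : ‖(ev i : En (μ × Unit))‖ = 1 := by
  unfold ev
  simp

omit [Fintype μ] [DecidableEq μ] in
private theorem ext_ev {x y : En (μ × Unit)} (h : ∀ p : μ, x (p, ()) = y (p, ())) : x = y := by
  ext p
  obtain ⟨p, u⟩ := p
  exact h p

/-- elementary matrices -/
private noncomputable def eo (i j : μ) : En (μ × Unit) →L[ℝ] En (μ × Unit) := ro (ev j) (ev i)

private theorem eo_apply (i j : μ) (x : En (μ × Unit)) : eo i j x = x (j, ()) • ev i := by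
  unfold eo
  rw [ro_apply, inner_ev]

private theorem eo_sq {i j : μ} (h : i ≠ j) (s : ℝ) : (s • eo i j) ∘L (s • eo i j) = 0 := by
  ext1 x
  change s • eo i j (s • eo i j x) = 0
  rw [map_smul, eo_apply i j x, map_smul, eo_apply, ev_apply, if_neg h.symm, zero_smul, smul_zero,
    smul_zero, smul_zero]

private theorem om_bl (i j : μ) (x : Matrix Unit Unit ℝ) : om (bl i j x) = x () () • eo i j := by
  ext1 y
  apply ext_ev
  intro p
  rw [om_apply]
  change _ = x () () * (eo i j y) (p, ())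
  rw [eo_apply]
  change _ = x () () * (y (j, ()) * (ev i : En (μ × Unit)) (p, ()))
  rw [ev_apply, Finset.sum_eq_single (j, ())]
  · unfold bl
    by_cases h : p = i
    · simp [h]
    · simp [h]
  · intro q _ hq
    have h : q.1 ≠ j := fun h => hq (by rw [← h])
    unfold bl
    simp [h]
  · intro h
    exact absurd (Finset.mem_univ _) h

/-- elementary transformations -/
private noncomputable def el (i j : μ) (s : ℝ) : GE (En (μ × Unit)) := tw (s • eo i j)

private theorem el_co {i j : μ} (h : i ≠ j) (s : ℝ) (x : En (μ × Unit)) (p : μ) :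
    (el i j s x) (p, ()) = x (p, ()) + if p = i then s * x (j, ()) else 0 := by
  unfold el
  rw [tw_apply (eo_sq h s)]
  change x (p, ()) + s * (eo i j x) (p, ()) = _
  rw [eo_apply]
  change x (p, ()) + s * (x (j, ()) * (ev i : En (μ × Unit)) (p, ())) = _
  rw [ev_apply]
  split_ifs <;> ring

private theorem el_zero {i j : μ} (h : i ≠ j) : el i j 0 = 1 := by
  apply fb_ext
  intro x
  apply ext_ev
  intro p
  rw [el_co h, zero_mul, ite_self, add_zero]
  rfl

private theorem el_add {i j : μ} (h : i ≠ j) (s t : ℝ) : el i j s * el i j t = el i j (s + t) := by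
  apply fb_ext
  intro x
  apply ext_ev
  intro p
  change (el i j s (el i j t x)) (p, ()) = _
  rw [el_co h, el_co h, el_co h, el_co h, if_neg h.symm]
  split_ifs <;> ring

private theorem el_inv {i j : μ} (h : i ≠ j) (s : ℝ) : (el i j s)⁻¹ = el i j (-s) := by
  rw [inv_eq_iff_mul_eq_one, el_add h, add_neg_cancel, el_zero h]

private theorem el_pow {i j : μ} (h : i ≠ j) (s : ℝ) (n : ℕ) : el i j s ^ n = el i j (n * s) := by
  induction n with
  | zero => rw [pow_zero, Nat.cast_zero, zero_mul, el_zero h]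
  | succ n ih =>
    rw [pow_succ, ih, el_add h, Nat.cast_add, Nat.cast_one]
    congr 1
    ring

/-- `M` and its multiples by elements of `D0` give elements of the group -/
private theorem cc_el {D0 : Subring (Matrix Unit Unit ℝ)} {G : Subgroup (GE (En (μ × Unit)))}
    (hG : G ∈ CC μ D0) : ∃ M : ℕ, M ≠ 0 ∧ ∀ i j : μ, i ≠ j → ∀ x ∈ D0,
      el i j (M * x () ()) ∈ G := by
  obtain ⟨M, hM, h⟩ := cc_pow hG
  refine ⟨M, hM, fun i j hij x hx => ?_⟩
  have h1 := h _ (g0_tw hij hx)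
  rw [om_bl] at h1
  rw [← el_pow hij]
  exact h1

private theorem kil_el {k : ℕ} {w : HM (En (μ × Unit)) k} {i j : μ} (h : i ≠ j) {s : ℝ}
    (hs : s ≠ 0) (hw : pi k (el i j s) w = w) : xd (eo i j) w = 0 := by
  have h1 := xd_of_pi (eo_sq h s) w hw
  rw [xd_smul'] at h1
  exact (smul_eq_zero.1 h1).resolve_left hs

private theorem prj_eq (s : Finset μ) (x : En (μ × Unit)) :
    prj Unit s x = ∑ j ∈ s, x (j, ()) • ev j := by
  apply ext_ev
  intro p
  rw [prj_apply]
  have h1 : (∑ j ∈ s, x (j, ()) • (ev j : En (μ × Unit))) (p, ()) =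
      ∑ j ∈ s, x (j, ()) * (ev j : En (μ × Unit)) (p, ()) := by
    rw [WithLp.ofLp_sum, Finset.sum_apply]
    rfl
  rw [h1]
  simp only [ev_apply, mul_ite, mul_one, mul_zero]
  rw [Finset.sum_ite_eq]

private theorem one_eq (i0 : μ) (x : En (μ × Unit)) :
    x = (inner ℝ (ev i0) x : ℝ) • ev i0 + prj Unit (Finset.univ.erase i0) x := by
  apply ext_ev
  intro p
  rw [inner_ev]
  change x (p, ()) = x (i0, ()) * (ev i0 : En (μ × Unit)) (p, ()) +
    (prj Unit (Finset.univ.erase i0) x) (p, ())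
  rw [ev_apply, prj_apply]
  by_cases h : p = i0
  · subst h
    simp
  · simp [h]

private theorem kilT {k : ℕ} {w : HM (En (μ × Unit)) k} (i0 : μ)
    (h : ∀ i j : μ, i ≠ j → xd (eo i j) w = 0) :
    w ∈ kil k (uT (prj Unit (Finset.univ.erase i0))) := by
  intro a ha
  have h1 : a = ∑ i ∈ Finset.univ.erase i0, (a (ev i0)) (i, ()) • eo i i0 := by
    ext1 x
    rw [sum_apply]
    have h2 : a x = x (i0, ()) • a (ev i0) := by
      conv_lhs => rw [one_eq i0 x]
      rw [map_add, ha.2, add_zero, map_smul, inner_ev]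
    rw [h2, ← ha.1 (ev i0), prj_eq, Finset.smul_sum]
    refine Finset.sum_congr rfl fun i hi => ?_
    rw [← prj_eq, ha.1]
    change _ = (a (ev i0)) (i, ()) • eo i i0 x
    rw [eo_apply, smul_comm]
  rw [h1]
  refine xd_sum' _ _ _ fun i hi => ?_
  rw [xd_smul', h i i0 (Finset.ne_of_mem_erase hi), smul_zero]

private theorem kilS {k : ℕ} {w : HM (En (μ × Unit)) k} (i0 : μ)
    (h : ∀ i j : μ, i ≠ j → xd (eo i j) w = 0) :
    w ∈ kil k (uS (prj Unit (Finset.univ.erase i0))) := by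
  intro a ha
  have h1 : a = ∑ j ∈ Finset.univ.erase i0, (a (ev j)) (i0, ()) • eo i0 j := by
    ext1 x
    rw [sum_apply, ← ha.2 x, prj_eq, map_sum]
    refine Finset.sum_congr rfl fun j hj => ?_
    have h2 : a (ev j) = (a (ev j)) (i0, ()) • ev i0 := by
      conv_lhs => rw [one_eq i0 (a (ev j))]
      rw [ha.1, add_zero, inner_ev]
    rw [map_smul, h2]
    change _ = (((a (ev j)) (i0, ()) • ev i0 : En (μ × Unit))) (i0, ()) • eo i0 j x
    rw [← h2, eo_apply, smul_comm]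
    conv_lhs => rw [h2]
  rw [h1]
  refine xd_sum' _ _ _ fun i hi => ?_
  rw [xd_smul', h i0 i (Finset.ne_of_mem_erase hi).symm, smul_zero]

private theorem eq_univ_of (i0 : μ) : (Finset.univ.erase i0 : Finset μ) ≠ Finset.univ := by
  intro h
  have h1 : i0 ∈ (Finset.univ.erase i0 : Finset μ) := by rw [h]; exact Finset.mem_univ i0
  exact Finset.notMem_erase i0 Finset.univ h1

private theorem kilTS {k : ℕ} (hk : 2 ≤ k) (hμ : 3 ≤ Fintype.card μ) {w : HM (En (μ × Unit)) k}
    (h : ∀ i j : μ, i ≠ j → xd (eo i j) w = 0) : w = 0 := by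
  obtain ⟨i0⟩ : Nonempty μ := Fintype.card_pos_iff.1 (by omega)
  have h1 : (Finset.univ.erase i0 : Finset μ).Nonempty := by
    rw [← Finset.card_pos, Finset.card_erase_of_mem (Finset.mem_univ _), Finset.card_univ]
    omega
  exact inv_TS hk (isPr_prj _) (prj_nonzero h1) (prj_zero (eq_univ_of i0)) w (kilT i0 h) (kilS i0 h)

end

section
variable {μ : Type} [Fintype μ] [DecidableEq μ] {D0 : Subring (Matrix Unit Unit ℝ)}

private theorem isPr_erase (i0 : μ) : IsPr (prj Unit (Finset.univ.erase i0) :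
    En (μ × Unit) →L[ℝ] En (μ × Unit)) := isPr_prj _

/-- the map `x ↦ t ^ (k - 1) x` -/
private noncomputable def p0 (i0 : μ) (k : ℕ) (hk : 2 ≤ k) : HM (En (μ × Unit)) k :=
  ⟨fun x => (inner ℝ (ev i0) x : ℝ) ^ (k - 1) • x, by
    refine ⟨?_, fun t x => ?_⟩
    · exact ((innerSL ℝ (ev i0)).contDiff.pow _).smul contDiff_id
    · dsimp only
      rw [inner_smul_right, mul_pow, smul_smul, smul_smul]
      congr 1
      obtain ⟨n, rfl⟩ : ∃ n, k = n + 1 := ⟨k - 1, by omega⟩
      rw [Nat.add_sub_cancel]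
      ring⟩

/-- the map `x ↦ t ^ k v` -/
private noncomputable def r0 (i0 : μ) (k : ℕ) : HM (En (μ × Unit)) k :=
  ⟨fun x => (inner ℝ (ev i0) x : ℝ) ^ k • ev i0, by
    refine ⟨?_, fun t x => ?_⟩
    · exact ((innerSL ℝ (ev i0)).contDiff.pow _).smul contDiff_const
    · dsimp only
      rw [inner_smul_right, mul_pow, smul_smul]⟩

private theorem p0_apply (i0 : μ) (k : ℕ) (hk : 2 ≤ k) (x : En (μ × Unit)) :
    (p0 i0 k hk).1 x = (x (i0, ())) ^ (k - 1) • x := by
  change (inner ℝ (ev i0) x : ℝ) ^ (k - 1) • x = _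
  rw [inner_ev]

private theorem r0_apply (i0 : μ) (k : ℕ) (x : En (μ × Unit)) :
    (r0 i0 k).1 x = (x (i0, ())) ^ k • ev i0 := by
  change (inner ℝ (ev i0) x : ℝ) ^ k • ev i0 = _
  rw [inner_ev]

private theorem p0_kil (i0 : μ) (k : ℕ) (hk : 2 ≤ k) :
    p0 i0 k hk ∈ kil k (uT (prj Unit (Finset.univ.erase i0))) := by
  intro a ha
  refine xd_of_pi (uT_sq ha) _ ?_
  apply Subtype.ext
  funext x
  rw [pi_apply, p0_apply, p0_apply, map_smul, fb_self_inv, tw_inv_apply (uT_sq ha)]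
  congr 2
  change x (i0, ()) - (a x) (i0, ()) = _
  rw [← ha.1, prj_apply, if_neg (Finset.notMem_erase i0 _), sub_zero]

private theorem el_T {i i0 : μ} (h : i ≠ i0) (s : ℝ) :
    el i i0 s ∈ tws (uT (prj Unit (Finset.univ.erase i0))) := by
  refine ⟨s • eo i i0, ⟨fun x => ?_, fun x => ?_⟩, rfl⟩
  · apply ext_ev
    intro p
    rw [prj_apply]
    change _ = s * (eo i i0 x) (p, ())
    rw [eo_apply]
    change _ = s * (x (i0, ()) * (ev i : En (μ × Unit)) (p, ()))
    rw [ev_apply]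
    by_cases hp : p = i
    · rw [if_pos (Finset.mem_erase.2 ⟨by rw [hp]; exact h, Finset.mem_univ _⟩)]
      change s * (eo i i0 x) (p, ()) = _
      rw [eo_apply]
      change s * (x (i0, ()) * (ev i : En (μ × Unit)) (p, ())) = _
      rw [ev_apply]
    · rw [if_neg hp, mul_zero, mul_zero]
      split_ifs
      · change s * (eo i i0 x) (p, ()) = _
        rw [eo_apply]
        change s * (x (i0, ()) * (ev i : En (μ × Unit)) (p, ())) = _
        rw [ev_apply, if_neg hp, mul_zero, mul_zero]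
      · rfl
  · change s • eo i i0 _ = 0
    rw [eo_apply, prj_apply, if_neg (Finset.notMem_erase i0 _), zero_smul, smul_zero]

private theorem el_S {i0 j : μ} (h : i0 ≠ j) (s : ℝ) :
    el i0 j s ∈ tws (uS (prj Unit (Finset.univ.erase i0))) := by
  refine ⟨s • eo i0 j, ⟨fun x => ?_, fun x => ?_⟩, rfl⟩
  · apply ext_ev
    intro p
    rw [prj_apply]
    split_ifs with hp
    · change s * (eo i0 j x) (p, ()) = 0
      rw [eo_apply]
      change s * (x (j, ()) * (ev i0 : En (μ × Unit)) (p, ())) = 0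
      rw [ev_apply, if_neg (Finset.ne_of_mem_erase hp), mul_zero, mul_zero]
    · rfl
  · change s • eo i0 j _ = s • eo i0 j x
    rw [eo_apply, eo_apply, prj_apply, if_pos (Finset.mem_erase.2 ⟨h.symm, Finset.mem_univ _⟩)]

private theorem el_L {i0 i j : μ} (h : i ≠ j) (hi : i ≠ i0) (hj : j ≠ i0) (s : ℝ)
    (x : En (μ × Unit)) : prj Unit (Finset.univ.erase i0) (el i j s x) =
      el i j s (prj Unit (Finset.univ.erase i0) x) := by
  apply ext_ev
  intro p
  rw [prj_apply, el_co h, el_co h, prj_apply, prj_apply]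
  have hj' : (j, ()).1 ∈ (Finset.univ.erase i0 : Finset μ) :=
    Finset.mem_erase.2 ⟨hj, Finset.mem_univ _⟩
  rw [if_pos hj']
  by_cases hp : p = i0
  · subst hp
    have h1 : (p, ()).1 ∉ (Finset.univ.erase p : Finset μ) := Finset.notMem_erase _ _
    rw [if_neg h1, if_neg h1, if_neg hi.symm, add_zero]
  · have h1 : (p, ()).1 ∈ (Finset.univ.erase i0 : Finset μ) :=
      Finset.mem_erase.2 ⟨hp, Finset.mem_univ _⟩
    rw [if_pos h1, if_pos h1]

/-- the sets of elementary transformations -/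
private def RR (i j : μ) : Set (GE (En (μ × Unit))) := {g | ∃ s, g = el i j s}

/-- the cocycle is trivial on all elementary transformations -/
private theorem common (hD : DivO Unit D0) (hμ : 3 ≤ Fintype.card μ)
    {G : Subgroup (GE (En (μ × Unit)))} (hG : G ∈ CC μ D0) (k : ℕ) (hk : 2 ≤ k)
    (b : GE (En (μ × Unit)) → HM (En (μ × Unit)) k) (hb : IsCoc G b) :
    ∃ w : HM (En (μ × Unit)) k, ∀ i j : μ, i ≠ j → Triv b w {g | g ∈ G ∧ g ∈ RR i j} := by
  obtain ⟨i0⟩ : Nonempty μ := Fintype.card_pos_iff.1 (by omega)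
  have hc : (Finset.univ.erase i0 : Finset μ).card = Fintype.card μ - 1 := by
    rw [Finset.card_erase_of_mem (Finset.mem_univ _), Finset.card_univ]
  have hne : (Finset.univ.erase i0 : Finset μ).Nonempty := by
    rw [← Finset.card_pos, hc]
    omega
  have he := isPr_erase i0
  have hbig : Big (prj Unit (Finset.univ.erase i0) : En (μ × Unit) →L[ℝ] En (μ × Unit)) := by
    refine big_prj _ ?_
    rw [hc, Fintype.card_unit]
    omega
  have hT := lat_T hD hG (Finset.univ.erase i0)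
  have hS := lat_S hD hG (Finset.univ.erase i0)
  have hDn := ar_dnB hG (Finset.univ.erase i0)
  have hV := prj_nonzero (δ := Unit) hne
  have hN := prj_zero (δ := Unit) (eq_univ_of i0)
  obtain ⟨a0, ha0⟩ := fix_T he hbig G b hb hDn hT
  obtain ⟨b0, hb0⟩ := fix_S hk he hbig G b hb hDn hS
  obtain ⟨α, hα, α', hα', hfix⟩ := delta he G b hb hT hS a0 b0 ha0 hb0 (J := Unit)
    (fun _ => prj Unit (Finset.univ.erase i0)) (fun _ => he) (fun _ => Or.inl he.idem)
    (fun _ => hDn)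
  obtain ⟨c, c', hcc⟩ := inv_one hk he hbig (ev i0) (norm_ev i0) (one_eq i0)
    (a0 - b0 - α - α') (fun q u h1 h2 h3 => hfix () q u h1 h2 h3)
  have hkil : -(α + c' • p0 i0 k hk) ∈ kil k (uT (prj Unit (Finset.univ.erase i0))) :=
    Submodule.neg_mem _ (Submodule.add_mem _ hα (Submodule.smul_mem _ _ (p0_kil i0 k hk)))
  have haT := triv_T G b a0 _ ha0 hkil
  have hbS := triv_S G b b0 _ hb0 hα'
  have hdiff : a0 + -(α + c' • p0 i0 k hk) - (b0 + α') = (c - c') • r0 i0 k := by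
    apply Subtype.ext
    funext x
    have h1 := hcc x
    have h2 : ∀ y z : HM (En (μ × Unit)) k, (y - z).1 x = y.1 x - z.1 x := fun _ _ => rfl
    have h3 : (a0 + -(α + c' • p0 i0 k hk) - (b0 + α') : HM (En (μ × Unit)) k) =
        (a0 - b0 - α - α') - c' • p0 i0 k hk := by abel
    rw [h3, h2, h1]
    change _ - c' • (p0 i0 k hk).1 x = (c - c') • (r0 i0 k).1 x
    rw [p0_apply, r0_apply, inner_ev]
    have h4 := one_eq i0 x
    rw [inner_ev] at h4
    obtain ⟨n, rfl⟩ : ∃ n, k = n + 1 := ⟨k - 1, by omega⟩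
    rw [Nat.add_sub_cancel]
    have h5 : c' • (x (i0, ())) ^ n • x =
        c' • (x (i0, ())) ^ n • (x (i0, ()) • ev i0 + prj Unit (Finset.univ.erase i0) x) :=
      congrArg (fun z => c' • (x (i0, ())) ^ n • z) h4
    rw [h5]
    module
  have hc0 : c - c' = 0 := by
    by_contra hne0
    obtain ⟨i, hi, j, hj, hij⟩ := Finset.one_lt_card.1
      (show 1 < (Finset.univ.erase i0 : Finset μ).card by rw [hc]; omega)
    have hi' : i ≠ i0 := Finset.ne_of_mem_erase hi
    have hj' : j ≠ i0 := Finset.ne_of_mem_erase hj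
    obtain ⟨M, hM, hMel⟩ := cc_el hG
    have hM0 : (M : ℝ) ≠ 0 := Nat.cast_ne_zero.2 hM
    have hMel1 : ∀ i j : μ, i ≠ j → el i j (M : ℝ) ∈ G := by
      intro i j hij
      have h1 := hMel i j hij 1 D0.one_mem
      rw [Matrix.one_apply_eq, mul_one] at h1
      exact h1
    have hMel2 : ∀ i j : μ, i ≠ j → el i j ((M : ℝ) * M) ∈ G := by
      intro i j hij
      rw [← el_pow hij]
      exact G.pow_mem (hMel1 i j hij) M
    generalize hb1 : b0 + α' = b1 at hbS hdiff
    generalize ha1 : a0 + -(α + c' • p0 i0 k hk) = a1 at haT hdiff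
    have hbt : IsCoc G (fun g => b g - (b1 - pi k g b1)) := by
      intro g hg h hh
      change b (g * h) - (b1 - pi k (g * h) b1) =
        (b g - (b1 - pi k g b1)) + pi k g (b h - (b1 - pi k h b1))
      rw [hb g hg h hh, fb_mul, map_sub, map_sub]
      abel
    have hbtS : ∀ g ∈ G, g ∈ tws (uS (prj Unit (Finset.univ.erase i0))) →
        (fun g => b g - (b1 - pi k g b1)) g = 0 := by
      intro g hg hgs
      change b g - (b1 - pi k g b1) = 0
      rw [hbS g ⟨hg, hgs⟩, sub_self]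
    have hbtT : ∀ g ∈ G, g ∈ tws (uT (prj Unit (Finset.univ.erase i0))) →
        (fun g => b g - (b1 - pi k g b1)) g =
          (c - c') • r0 i0 k - pi k g ((c - c') • r0 i0 k) := by
      intro g hg hgs
      change b g - (b1 - pi k g b1) = _
      rw [haT g ⟨hg, hgs⟩, ← hdiff, map_sub]
      abel
    generalize (fun g => b g - (b1 - pi k g b1)) = bt at hbt hbtS hbtT
    have hxG := hMel1 i0 j hj'.symm
    have hyG := hMel1 i i0 hi'
    have hlG := hMel2 i j hij
    have hrel : el i i0 (M : ℝ) * el i0 j (M : ℝ) =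
        el i j ((M : ℝ) * M) * el i0 j (M : ℝ) * el i i0 (M : ℝ) := by
      apply fb_ext
      intro z
      apply ext_ev
      intro p
      change (el i i0 (M : ℝ) (el i0 j (M : ℝ) z)) (p, ()) =
        (el i j ((M : ℝ) * M) (el i0 j (M : ℝ) (el i i0 (M : ℝ) z))) (p, ())
      simp only [el_co hi', el_co hj'.symm, el_co hij, if_neg hij.symm, if_neg hj', if_true,
        add_zero]
      split_ifs <;> ring
    have hbx : bt (el i0 j (M : ℝ)) = 0 := hbtS _ hxG (el_S hj'.symm _)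
    have hlr : pi k (el i j ((M : ℝ) * M)) ((c - c') • r0 i0 k) = (c - c') • r0 i0 k := by
      rw [map_smul]
      congr 1
      apply Subtype.ext
      funext z
      rw [pi_apply, r0_apply, r0_apply, map_smul, el_inv hij, el_co hij, if_neg hi'.symm, add_zero]
      congr 1
      apply ext_ev
      intro p
      rw [el_co hij, ev_apply, ev_apply, if_neg hj', mul_zero, ite_self, add_zero]
    have hbl : bt (el i j ((M : ℝ) * M)) = 0 :=
      van_L hk he hV hN G bt hbt hT hS _ hbtT hbtS hlG (el_L hij hi' hj' _) hlr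
    have hby : bt (el i i0 (M : ℝ)) =
        pi k (el i j ((M : ℝ) * M) * el i0 j (M : ℝ)) (bt (el i i0 (M : ℝ))) := by
      have h1 := hbt _ hyG _ hxG
      have h2 := hbt _ (G.mul_mem hlG hxG) _ hyG
      have h3 := hbt _ hlG _ hxG
      rw [← hrel, h1, h3, hbx, hbl, map_zero, add_zero, map_zero, add_zero, zero_add] at h2
      exact h2
    have hval : ∀ z : En (μ × Unit), (bt (el i i0 (M : ℝ))).1 z =
        (-((c - c') * (z (i0, ())) ^ k * M)) • ev i := by
      intro z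
      rw [hbtT _ hyG (el_T hi' _), map_smul]
      change (c - c') • (r0 i0 k).1 z - (c - c') • (pi k (el i i0 (M : ℝ)) (r0 i0 k)).1 z = _
      rw [pi_apply, r0_apply, r0_apply, map_smul, el_inv hi', el_co hi', if_neg hi'.symm, add_zero]
      have h1 : el i i0 (M : ℝ) (ev i0) = ev i0 + (M : ℝ) • ev i := by
        apply ext_ev
        intro p
        rw [el_co hi']
        change _ = (ev i0 : En (μ × Unit)) (p, ()) + (M : ℝ) * (ev i : En (μ × Unit)) (p, ())
        rw [ev_apply, ev_apply, ev_apply, if_pos rfl]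
        split_ifs <;> ring
      rw [h1]
      module
    have hev := congrArg (fun f : HM (En (μ × Unit)) k => f.1 (ev j)) hby
    rw [pi_apply, hval, hval, map_smul, ev_apply, if_neg hj'.symm, zero_pow (by omega), mul_zero,
      zero_mul, neg_zero, zero_smul] at hev
    have h1 : ((el i j ((M : ℝ) * M) * el i0 j (M : ℝ))⁻¹ (ev j)) (i0, ()) = -M := by
      rw [mul_inv_rev]
      change ((el i0 j (M : ℝ))⁻¹ ((el i j ((M : ℝ) * M))⁻¹ (ev j))) (i0, ()) = -M
      rw [el_inv hij, el_inv hj'.symm, el_co hj'.symm, el_co hij, el_co hij, ev_apply, ev_apply]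
      simp [hj'.symm, hi'.symm, hij.symm]
    rw [h1] at hev
    have h2 : (el i j ((M : ℝ) * M) * el i0 j (M : ℝ)) (ev i) ≠ 0 := by
      intro h3
      have h4 : (ev i : En (μ × Unit)) = 0 := by
        have h5 := congrArg (fun z => (el i j ((M : ℝ) * M) * el i0 j (M : ℝ))⁻¹ z) h3
        rw [fb_inv_self, map_zero] at h5
        exact h5
      have h6 := ev_apply i i
      rw [h4, if_pos rfl] at h6
      exact zero_ne_one h6
    have h3 := (smul_eq_zero.1 hev.symm).resolve_right h2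
    rw [neg_eq_zero] at h3
    have h4 : (-(M : ℝ)) ^ k ≠ 0 := pow_ne_zero _ (neg_ne_zero.2 hM0)
    exact mul_ne_zero (mul_ne_zero hne0 h4) hM0 h3
  have hw : a0 + -(α + c' • p0 i0 k hk) = b0 + α' := by
    rw [← sub_eq_zero, hdiff, hc0, zero_smul]
  rw [hw] at haT
  have hL := triv_L hk he hV hN G b hb hT hS _ haT hbS
  refine ⟨b0 + α', fun i j hij g hg => ?_⟩
  obtain ⟨hgG, s, rfl⟩ := hg
  by_cases hj : j = i0
  · subst hj
    exact haT _ ⟨hgG, el_T hij s⟩
  · by_cases hi : i = i0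
    · subst hi
      exact hbS _ ⟨hgG, el_S hij s⟩
    · exact hL _ ⟨hgG, el_L hij hi hj s⟩

private theorem inv0 {k : ℕ} (hk : 2 ≤ k) (hμ : 3 ≤ Fintype.card μ)
    {G : Subgroup (GE (En (μ × Unit)))} (hG : G ∈ CC μ D0) (w : HM (En (μ × Unit)) k)
    (h : ∀ i j : μ, i ≠ j → ∀ g ∈ G, g ∈ RR i j → pi k g w = w) : w = 0 := by
  obtain ⟨M, hM, hMel⟩ := cc_el hG
  have hM0 : (M : ℝ) ≠ 0 := Nat.cast_ne_zero.2 hM
  refine kilTS hk hμ fun i j hij => kil_el hij hM0 (h i j hij _ ?_ ⟨_, rfl⟩)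
  have h1 := hMel i j hij 1 D0.one_mem
  rw [Matrix.one_apply_eq, mul_one] at h1
  exact h1

private theorem mt_entry (g : En (μ × Unit) →L[ℝ] En (μ × Unit)) (i j : μ) :
    mt g (i, ()) (j, ()) = (g (ev j)) (i, ()) := by
  conv_rhs => rw [← om_mt g]
  rw [om_apply, Finset.sum_eq_single (j, ())]
  · rw [ev_apply, if_pos rfl, mul_one]
  · rintro ⟨q, u⟩ _ hq
    have h : q ≠ j := fun h => hq (by rw [← h])
    have h1 : (ev j : En (μ × Unit)) (q, u) = if q = j then 1 else 0 := ev_apply j q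
    rw [h1, if_neg h, mul_zero]
  · intro h
    exact absurd (Finset.mem_univ _) h

omit [DecidableEq μ] in
private theorem step1 {k : ℕ} {b : GE (En (μ × Unit)) → HM (En (μ × Unit)) k} {q g : GE (En (μ × Unit))}
    {w : HM (En (μ × Unit)) k} (h0 : b (q * g * q⁻¹) = 0)
    (h : b (q * g * q⁻¹) = w - pi k (q * g * q⁻¹) w) : pi k g (pi k q⁻¹ w) = pi k q⁻¹ w := by
  rw [h0] at h
  have h1 : pi k (q * g * q⁻¹) w = w := (sub_eq_zero.1 h.symm).symm
  have h2 := congrArg (fun z => pi k q⁻¹ z) h1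
  rw [mul_assoc, fb_mul, fb_inv, fb_mul] at h2
  exact h2

private theorem rel_diag {q : GE (En (μ × Unit))} {d : μ × Unit → ℝ}
    (hd : mt (q : En (μ × Unit) →L[ℝ] En (μ × Unit)) = Matrix.diagonal d) {i j : μ} (hij : i ≠ j)
    (s : ℝ) : q * el i j s * q⁻¹ = el i j (d (i, ()) / d (j, ()) * s) := by
  have h1 : ∀ (x : En (μ × Unit)) (p : μ), (q x) (p, ()) = d (p, ()) * x (p, ()) := by
    intro x p
    have h2 := om_mt (q : En (μ × Unit) →L[ℝ] En (μ × Unit))
    rw [hd] at h2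
    change ((q : En (μ × Unit) →L[ℝ] En (μ × Unit)) x) (p, ()) = _
    rw [← h2, om_apply, Finset.sum_eq_single (p, ())]
    · rw [Matrix.diagonal_apply_eq]
    · intro q' _ hq'
      rw [Matrix.diagonal_apply_ne _ hq'.symm, zero_mul]
    · intro h
      exact absurd (Finset.mem_univ _) h
  have h2 : d (j, ()) ≠ 0 := by
    intro h
    have h3 : q (ev j) = 0 := by
      apply ext_ev
      intro p
      rw [h1, ev_apply]
      change _ = (0 : ℝ)
      by_cases hp : p = j
      · rw [hp, h, zero_mul]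
      · rw [if_neg hp, mul_zero]
    have h4 : (ev j : En (μ × Unit)) = 0 := by
      rw [← fb_inv_self q (ev j), h3, map_zero]
    have h5 := ev_apply j j
    rw [h4, if_pos rfl] at h5
    exact zero_ne_one h5
  rw [mul_inv_eq_iff_eq_mul]
  apply fb_ext
  intro x
  apply ext_ev
  intro p
  change (q (el i j s x)) (p, ()) = (el i j _ (q x)) (p, ())
  rw [h1, el_co hij, el_co hij, h1, h1]
  by_cases hp : p = i
  · rw [if_pos hp, if_pos hp, hp]
    field_simp
  · rw [if_neg hp, if_neg hp, add_zero, add_zero]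

private theorem rel1 {a c j : μ} (hac : a ≠ c) (hcj : c ≠ j) (haj : a ≠ j) (r s : ℝ) :
    el a c r * el c j s * (el a c r)⁻¹ = el c j s * el a j (s * r) := by
  rw [mul_inv_eq_iff_eq_mul]
  apply fb_ext
  intro x
  apply ext_ev
  intro p
  change (el a c r (el c j s x)) (p, ()) = (el c j s (el a j (s * r) (el a c r x))) (p, ())
  simp only [el_co hac, el_co hcj, el_co haj, if_neg haj.symm, if_true, add_zero]
  by_cases h1 : p = a
  · have h2 : p ≠ c := fun h => hac (h1.symm.trans h)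
    simp only [h1, if_true, if_neg hac, add_zero]
    ring
  · simp only [if_neg h1, add_zero]

private theorem rel2 {a c i : μ} (hac : a ≠ c) (hia : i ≠ a) (hic : i ≠ c) (r s : ℝ) :
    el a c r * el i a s * (el a c r)⁻¹ = el i a s * el i c (-(s * r)) := by
  rw [mul_inv_eq_iff_eq_mul]
  apply fb_ext
  intro x
  apply ext_ev
  intro p
  change (el a c r (el i a s x)) (p, ()) = (el i a s (el i c (-(s * r)) (el a c r x))) (p, ())
  simp only [el_co hac, el_co hia, el_co hic, if_neg hic.symm, if_neg hac.symm, if_neg hia.symm,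
    if_true, add_zero]
  by_cases h1 : p = a
  · have h2 : p ≠ i := fun h => hia (h.symm.trans h1)
    simp only [h1, if_true, if_neg hia.symm, add_zero]
  · by_cases h2 : p = i
    · simp only [if_pos h2, if_neg h1, add_zero]
      ring
    · simp only [if_neg h2, if_neg h1, add_zero]

private theorem rel3 {a c i j : μ} (hac : a ≠ c) (hij : i ≠ j) (hic : i ≠ c) (hja : j ≠ a)
    (r s : ℝ) : el a c r * el i j s * (el a c r)⁻¹ = el i j s := by
  rw [mul_inv_eq_iff_eq_mul]
  apply fb_ext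
  intro x
  apply ext_ev
  intro p
  change (el a c r (el i j s x)) (p, ()) = (el i j s (el a c r x)) (p, ())
  simp only [el_co hac, el_co hij, if_neg hic.symm, if_neg hja, add_zero]
  ring

private theorem rel4 {a c p : μ} (hac : a ≠ c) (hpa : p ≠ a) (hpc : p ≠ c) (s t : ℝ) :
    el c a (s * t) = el c p s * el p a t * (el c p s)⁻¹ * (el p a t)⁻¹ := by
  rw [eq_mul_inv_iff_mul_eq, eq_mul_inv_iff_mul_eq]
  apply fb_ext
  intro x
  apply ext_ev
  intro p'
  change (el c a (s * t) (el p a t (el c p s x))) (p', ()) = (el c p s (el p a t x)) (p', ())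
  simp only [el_co hac.symm, el_co hpa, el_co hpc.symm, if_neg hpa.symm, if_neg hac, if_true,
    add_zero]
  by_cases h1 : p' = c
  · have h2 : p' ≠ p := fun h => hpc (h.symm.trans h1)
    simp only [if_pos h1, if_neg h2, add_zero]
    ring
  · simp only [if_neg h1, add_zero]

private theorem h3el {k : ℕ} (hD : DivO Unit D0) (hk : 2 ≤ k) (hμ : 3 ≤ Fintype.card μ)
    {G : Subgroup (GE (En (μ × Unit)))} (hG : G ∈ CC μ D0)
    (b : GE (En (μ × Unit)) → HM (En (μ × Unit)) k) (hb : IsCoc G b)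
    (hbz : ∀ i j : μ, i ≠ j → ∀ g ∈ G, g ∈ RR i j → b g = 0) {a c : μ} (hac : a ≠ c) (r : ℝ)
    (hq : el a c r ∈ GQ μ D0) (w : HM (En (μ × Unit)) k)
    (hw : ∀ i j : μ, i ≠ j → ∀ g ∈ cjG (el a c r) G, g ∈ RR i j →
      b (el a c r * g * (el a c r)⁻¹) = w - pi k (el a c r * g * (el a c r)⁻¹) w) : w = 0 := by
  obtain ⟨M1, hM1, hMel⟩ := cc_el (cc_inf hG (cc_conj hD hq hG))
  obtain ⟨⟨M2, hM2, hM2'⟩, -⟩ := hq
  have h1 : blo ((M2 : ℝ) • mt (el a c r : En (μ × Unit) →L[ℝ] En (μ × Unit))) a c () () =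
      M2 * r := by
    change (M2 : ℝ) * mt (el a c r : En (μ × Unit) →L[ℝ] En (μ × Unit)) (a, ()) (c, ()) = _
    rw [mt_entry]
    change (M2 : ℝ) * (el a c r (ev c)) (a, ()) = _
    rw [el_co hac, ev_apply, ev_apply, if_neg hac, if_pos rfl, if_pos rfl, zero_add, mul_one]
  have h2 := hM2' a c
  obtain ⟨M, hM⟩ : ∃ M : ℝ, M = M1 * M2 := ⟨_, rfl⟩
  have hM0 : M ≠ 0 := by
    rw [hM]
    exact mul_ne_zero (Nat.cast_ne_zero.2 hM1) (Nat.cast_ne_zero.2 hM2)
  have hG1 : ∀ i j : μ, i ≠ j → el i j M ∈ G ⊓ cjG (el a c r) G := by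
    intro i j hij
    have h3 := hMel i j hij (M2 : Matrix Unit Unit ℝ) (natCast_mem D0 M2)
    rw [show ((M2 : Matrix Unit Unit ℝ)) () () = (M2 : ℝ) from by simp [Matrix.natCast_apply],
      ← hM] at h3
    exact h3
  have hG2 : ∀ i j : μ, i ≠ j → el i j (M * r) ∈ G := by
    intro i j hij
    have h3 := hMel i j hij _ h2
    rw [h1, ← mul_assoc, ← hM] at h3
    exact h3.1
  have hZ : ∀ i j : μ, i ≠ j → ∀ s, el i j s ∈ G → el i j s ∈ zer G b hb :=
    fun i j hij s hs => ⟨hs, hbz i j hij _ hs ⟨s, rfl⟩⟩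
  have hZ1 : ∀ i j : μ, i ≠ j → el i j M ∈ zer G b hb := fun i j hij => hZ i j hij _ (hG1 i j hij).1
  have hZ2 : ∀ i j : μ, i ≠ j → el i j (M * r) ∈ zer G b hb :=
    fun i j hij => hZ i j hij _ (hG2 i j hij)
  have hZ3 : ∀ i j : μ, i ≠ j → el i j (-(M * r)) ∈ zer G b hb := by
    intro i j hij
    rw [← el_inv hij]
    exact Subgroup.inv_mem _ (hZ2 i j hij)
  have hQ : ∀ i j : μ, i ≠ j → (i ≠ c ∨ j ≠ a) →
      el a c r * el i j M * (el a c r)⁻¹ ∈ zer G b hb := by
    intro i j hij hor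
    by_cases hi : i = c
    · subst hi
      have hj : j ≠ a := hor.resolve_left fun h => h rfl
      rw [rel1 hac hij hj.symm]
      exact Subgroup.mul_mem _ (hZ1 _ _ hij) (hZ2 _ _ hj.symm)
    · by_cases hj : j = a
      · subst hj
        rw [rel2 hac hij hi]
        exact Subgroup.mul_mem _ (hZ1 _ _ hij) (hZ3 _ _ hi)
      · rw [rel3 hac hij hi hj]
        exact hZ1 _ _ hij
  have hQ2 : ∀ i j : μ, i ≠ j → ∃ s, s ≠ 0 ∧ el i j s ∈ cjG (el a c r) G ∧
      el a c r * el i j s * (el a c r)⁻¹ ∈ zer G b hb := by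
    intro i j hij
    by_cases hor : i ≠ c ∨ j ≠ a
    · exact ⟨M, hM0, (hG1 i j hij).2, hQ i j hij hor⟩
    · push Not at hor
      obtain ⟨rfl, rfl⟩ := hor
      obtain ⟨p, hp⟩ : ∃ p : μ, p ∉ ({i, j} : Finset μ) := by
        by_contra hcon
        push Not at hcon
        have h3 : Fintype.card μ ≤ ({i, j} : Finset μ).card := by
          rw [← Finset.card_univ]
          exact Finset.card_le_card fun p _ => hcon p
        have h4 := Finset.card_le_two (a := i) (b := j)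
        omega
      rw [Finset.mem_insert, Finset.mem_singleton, not_or] at hp
      refine ⟨M * M, mul_ne_zero hM0 hM0, ?_, ?_⟩
      · rw [rel4 hac hp.2 hp.1]
        exact Subgroup.mul_mem _ (Subgroup.mul_mem _ (Subgroup.mul_mem _
          (hG1 _ _ (Ne.symm hp.1)).2 (hG1 _ _ hp.2).2) (Subgroup.inv_mem _
          (hG1 _ _ (Ne.symm hp.1)).2)) (Subgroup.inv_mem _ (hG1 _ _ hp.2).2)
      · have h3 := hQ i p (Ne.symm hp.1) (Or.inr hp.2)
        have h4 := hQ p j hp.2 (Or.inl hp.1)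
        have h5 : el j i r * el i j (M * M) * (el j i r)⁻¹ =
            (el j i r * el i p M * (el j i r)⁻¹) * (el j i r * el p j M * (el j i r)⁻¹) *
            (el j i r * el i p M * (el j i r)⁻¹)⁻¹ * (el j i r * el p j M * (el j i r)⁻¹)⁻¹ := by
          rw [rel4 hac hp.2 hp.1]
          group
        rw [h5]
        exact Subgroup.mul_mem _ (Subgroup.mul_mem _ (Subgroup.mul_mem _ h3 h4)
          (Subgroup.inv_mem _ h3)) (Subgroup.inv_mem _ h4)
  have hfin : pi k (el a c r)⁻¹ w = 0 := by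
    refine kilTS hk hμ fun i j hij => ?_
    obtain ⟨s, hs, hs1, hs2⟩ := hQ2 i j hij
    exact kil_el hij hs (step1 hs2.2 (hw i j hij _ hs1 ⟨s, rfl⟩))
  rw [← fb_inv' (el a c r) w, hfin, map_zero]

theorem fl_B (hD : DivO Unit D0) (hμ : 3 ≤ Fintype.card μ)
    {G : Subgroup (GE (En (μ × Unit)))} (hG : G ∈ CC μ D0) (k : ℕ) (hk : 2 ≤ k)
    (b : GE (En (μ × Unit)) → HM (En (μ × Unit)) k) (hb : IsCoc G b) :
    ∃ w : HM (En (μ × Unit)) k, Triv b w (G : Set (GE (En (μ × Unit)))) := by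
  refine scheme (CC μ D0) {U | ∃ i j : μ, i ≠ j ∧ U = RR i j} (GenB D0) ?_ ?_ ?_ ?_ ?_ G hG ?_ b hb
  · exact fun q hq G hG => cc_conj hD hq.1 hG
  · exact fun q hq G hG => cc_conj hD (gq_inv hq.1) hG
  · intro G hG b hb
    obtain ⟨w, hw⟩ := common hD hμ hG k hk b hb
    refine ⟨w, ?_⟩
    rintro U ⟨i, j, hij, rfl⟩
    exact hw i j hij
  · exact fun G hG w hw => inv0 hk hμ hG w fun i j hij g hg hgR => hw _ ⟨i, j, hij, rfl⟩ g hg hgR
  · rintro q ⟨hq, hq'⟩ G hG b hb hbz w hw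
    have hfin : pi k q⁻¹ w = 0 → w = 0 := by
      intro h
      rw [← fb_inv' q w, h, map_zero]
    rcases hq' with ⟨a, c, hac, x0, rfl⟩ | ⟨d, hd⟩
    · have he : tw (om (bl a c x0)) = el a c (x0 () ()) := by
        rw [om_bl]
        rfl
      rw [he] at hq hw
      exact h3el hD hk hμ hG b hb (fun i j hij g hg hgR => hbz _ ⟨i, j, hij, rfl⟩ g hg hgR) hac _
        hq w (fun i j hij g hg hgR => hw _ ⟨i, j, hij, rfl⟩ g hg hgR)
    · refine hfin (inv0 hk hμ (cc_conj hD hq hG) _ fun i j hij g hg hgR => ?_)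
      obtain ⟨s, rfl⟩ := hgR
      refine step1 (hbz _ ⟨i, j, hij, rfl⟩ _ (mem_cjG.1 hg) ⟨_, rel_diag hd hij s⟩)
        (hw _ ⟨i, j, hij, rfl⟩ _ hg ⟨s, rfl⟩)
  · intro g hg
    exact gen_B hD (hG.1 g hg)

end

end LatLin
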