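import Pool.Agent.Lib.MP_2392aa_gt.L.Scheme
import Pool.Agent.Lib.LatN.OrdB

/-!
MP_2392aa_gt, formal linearization, arithmetic groups `SL_m(D0)`, `D0 ⊆ M_d(ℝ)` a division order:
definitions. `μ` is the set of block indices, `δ` the index set of the blocks.
-/

open scoped ContDiff Topology
open LatN (DivO blo blkO unitI En)

namespace LatLin

section
variable {ν : Type*} [Fintype ν] [DecidableEq ν]

/-- the matrix of an operator of Euclidean space -/
noncomputable def mt (a : En ν →L[ℝ] En ν) : Matrix ν ν ℝ :=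
  (Matrix.toEuclideanCLM (n := ν) (𝕜 := ℝ)).symm a

/-- the operator of a matrix -/
noncomputable def om (A : Matrix ν ν ℝ) : En ν →L[ℝ] En ν :=
  Matrix.toEuclideanCLM (n := ν) (𝕜 := ℝ) A

/-- matrices of determinant one as invertible operators -/
noncomputable def slG (ν : Type*) [Fintype ν] [DecidableEq ν] :
    Matrix.SpecialLinearGroup ν ℝ →* GE (En ν) where
  toFun g := ContinuousLinearEquiv.equivOfInverse (om g.1) (om g⁻¹.1)
    (fun x => by
      change (om g⁻¹.1 * om g.1) x = x
      rw [om, om, ← map_mul, ← Matrix.SpecialLinearGroup.coe_mul, inv_mul_cancel,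
        Matrix.SpecialLinearGroup.coe_one, map_one]
      rfl)
    (fun x => by
      change (om g.1 * om g⁻¹.1) x = x
      rw [om, om, ← map_mul, ← Matrix.SpecialLinearGroup.coe_mul, mul_inv_cancel,
        Matrix.SpecialLinearGroup.coe_one, map_one]
      rfl)
  map_one' := by
    ext1
    funext x
    change om (1 : Matrix.SpecialLinearGroup ν ℝ).1 x = x
    rw [om, Matrix.SpecialLinearGroup.coe_one, map_one]
    rfl
  map_mul' g h := by
    ext1
    funext x
    change om (g * h).1 x = om g.1 (om h.1 x)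
    rw [om, Matrix.SpecialLinearGroup.coe_mul, map_mul]
    rfl

end

section
variable {μ δ : Type*} [Fintype μ] [DecidableEq μ] [Fintype δ] [DecidableEq δ]

/-- the matrix with the block `x` at the position `(i, j)` and zero blocks elsewhere -/
def bl (i j : μ) (x : Matrix δ δ ℝ) : Matrix (μ × δ) (μ × δ) ℝ :=
  fun p q => if p.1 = i ∧ q.1 = j then x p.2 q.2 else 0

/-- the orthogonal projection onto the blocks in `s` -/
noncomputable def prj (δ : Type*) [Fintype δ] [DecidableEq δ] (s : Finset μ) :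
    En (μ × δ) →L[ℝ] En (μ × δ) :=
  om (Matrix.diagonal fun p => if p.1 ∈ s then 1 else 0)

/-- some integer multiple of the matrix has all blocks in `D0` -/
def Rat (D0 : Subring (Matrix δ δ ℝ)) (x : Matrix (μ × δ) (μ × δ) ℝ) : Prop :=
  ∃ M : ℕ, M ≠ 0 ∧ (M : ℝ) • x ∈ blkO μ D0

/-- the rational points of the linear group -/
def GQ (μ : Type*) [Fintype μ] [DecidableEq μ] {δ : Type*} [Fintype δ] [DecidableEq δ]
    (D0 : Subring (Matrix δ δ ℝ)) : Set (GE (En (μ × δ))) :=
  {g | Rat D0 (mt (g : En (μ × δ) →L[ℝ] En (μ × δ))) ∧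
    Rat D0 (mt ((g⁻¹ : GE (En (μ × δ))) : En (μ × δ) →L[ℝ] En (μ × δ)))}

/-- the group `SL_m(D0)` -/
noncomputable def G0 (μ : Type*) [Fintype μ] [DecidableEq μ] {δ : Type*} [Fintype δ] [DecidableEq δ]
    (D0 : Subring (Matrix δ δ ℝ)) : Subgroup (GE (En (μ × δ))) :=
  (unitI (blkO μ D0)).map (slG (μ × δ))

/-- subgroups of the group of rational points which contain a subgroup of finite index of
`SL_m(D0)` -/
def CC (μ : Type*) [Fintype μ] [DecidableEq μ] {δ : Type*} [Fintype δ] [DecidableEq δ]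
    (D0 : Subring (Matrix δ δ ℝ)) : Set (Subgroup (GE (En (μ × δ)))) :=
  {G | (∀ g ∈ G, g ∈ GQ μ D0) ∧ G.relIndex (G0 μ D0) ≠ 0}

end
end LatLin
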