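import Pool.Agent.Lib.MP_2392aa_gt.L.ArDn
import Pool.Agent.Lib.MP_2392aa_gt.L.ArGen
import Pool.Agent.Lib.MP_2392aa_gt.L.Inv
import Pool.Agent.Lib.MP_2392aa_gt.L.Delta
import Pool.Agent.Lib.MP_2392aa_gt.L.Scheme

/-!
MP_2392aa_gt, formal linearization, module FLI (about 300 lines): inner type, blocks of size at least
two.

PROOF. Fix `i0 : μ`, `e := prj δ {i0}`. `Big (prj δ {i})` for all `i` (`card δ ≥ 2`).
`noinv_CC`: `w` fixed by `G` lies in `kil k (uT e)` and `kil k (uS e)` (`kil_of_lat`, `lat_T`, `lat_S`,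
products of elements of `uT e` vanish), `inv_TS`.
`common`: for `G ∈ CC` and a cocycle `b` there is `w` with `Triv b w` on `G ∩ tws (uT e)` and on
`G ∩ tws (uS e)`: `fix_T` gives `a0`, `fix_S` gives `b0` (`ar_dn`, `lat_T`, `lat_S`); `delta` with `J = μ`,
`ε i = prj δ {i}` gives `α, α'` with `a0 - b0 - α - α'` fixed by all transvections of all blocks, so it
is `0` (`inv_blocks`, `prj_orth`, `prj_sum`). `w := a0 - α = b0 + α'` (`triv_T`, `triv_S` with `- α`, `α'`).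
`scheme` with `𝒞 = CC μ D0`, `𝒰 = {tws (uT e), tws (uS e)}`, `Gen = GenI D0 i0`: `hcj`, `hinv`: `cc_conj`;
`h1`: `common`; `h2`: as `noinv_CC`; `hgen`: `gen_I`. `h3`: let `q ∈ Gen`, `G' := cjG q G`, `w` as there,
`v := q⁻¹ w`, `b' g := q⁻¹ (b (q g q⁻¹))`, a cocycle on `G'` with `Triv b' v` on `G' ∩ tws (uT e)`,
`G' ∩ tws (uS e)`.
(i) `q` commutes with `e`: then `q g q⁻¹ ∈ tws (uT e)` for `g ∈ tws (uT e)`, so `b (q g q⁻¹) = 0` for
`g ∈ G' ∩ tws (uT e)`, so `v = g v`; the same for `uS`; so `v = 0` (`h2` for `G'`).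
(ii) `q ∈ tws (uT e)` (or `tws (uS e)`): by `triv_L`, `b' g = v - g v` for all `g ∈ G'` which commute with
`e`, and `b g = 0` for all `g ∈ G` which commute with `e`. Let `g ∈ G ⊓ G'` commute with `e`. Then
`q g q⁻¹ = (q (g q⁻¹ g⁻¹)) g`, where `q (g q⁻¹ g⁻¹) ∈ G` and it is in `tws (uT e)` (product of
`q = tw a` and `g (tw (-a)) g⁻¹ = tw (- g a g⁻¹)`). So `b (q g q⁻¹) = 0`, hence `b' g = 0`, `v = g v`.
`G ⊓ G' ∈ CC` (`cc_inf`); the elements of `blk (prj δ {i})` commute with `e`; by `ar_dn` for `G ⊓ G'`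
with `B = ⊥`, `X = HM`, `v` is fixed by all transvections of all blocks, so `v = 0` (`inv_blocks`).
-/

open scoped ContDiff Topology
open LatN (DivO blo blkO unitI En)

namespace LatLin

section
variable {E : Type*} [NormedAddCommGroup E] [InnerProductSpace ℝ E] {k : ℕ}

private theorem fli_mul (g h : GE E) (w : HM E k) : pi k (g * h) w = pi k g (pi k h w) := by
  rw [map_mul, Module.End.mul_apply]

private theorem fli_inv (g : GE E) (w : HM E k) : pi k g⁻¹ (pi k g w) = w := by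
  rw [← fli_mul, inv_mul_cancel, map_one, Module.End.one_apply]

private theorem fli_inv' (g : GE E) (w : HM E k) : pi k g (pi k g⁻¹ w) = w := by
  rw [← fli_mul, mul_inv_cancel, map_one, Module.End.one_apply]

private theorem fli_coc {q : GE E} {G : Subgroup (GE E)} {b : GE E → HM E k} (hb : IsCoc G b) :
    IsCoc (cjG q G) (fun g => pi k q⁻¹ (b (q * g * q⁻¹))) := by
  intro g hg h hh
  rw [mem_cjG] at hg hh
  have h1 : q * (g * h) * q⁻¹ = (q * g * q⁻¹) * (q * h * q⁻¹) := by group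
  simp only
  rw [h1, hb _ hg _ hh, map_add, ← fli_mul, ← fli_mul]
  congr 3
  group

private theorem fli_app (q : GE E) (x : E) : q ((q⁻¹ : GE E) x) = x := q.apply_symm_apply x

private theorem fli_app' (q : GE E) (x : E) : (q⁻¹ : GE E) (q x) = x := q.symm_apply_apply x

private theorem fli_cinv {e : E →L[ℝ] E} {q : GE E} (h : ∀ x, e (q x) = q (e x)) (x : E) :
    e ((q⁻¹ : GE E) x) = (q⁻¹ : GE E) (e x) := by
  have h1 := h ((q⁻¹ : GE E) x)
  rw [fli_app] at h1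
  rw [h1, fli_app']

private structure FU (e : E →L[ℝ] E) (u : Submodule ℝ (E →L[ℝ] E)) : Prop where
  sq : ∀ a ∈ u, ∀ a' ∈ u, a ∘L a' = 0
  conj : ∀ q : GE E, (∀ x, e (q x) = q (e x)) → ∀ a ∈ u,
    (q : E →L[ℝ] E) ∘L a ∘L ((q⁻¹ : GE E) : E →L[ℝ] E) ∈ u

private theorem fuT (e : E →L[ℝ] E) : FU e (uT e) where
  sq := by
    intro a ha a' ha'
    ext x
    show a (a' x) = 0
    rw [← ha'.1 x, ha.2]
  conj := by
    intro q hq a ha
    constructor
    · intro x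
      show e (q (a ((q⁻¹ : GE E) x))) = q (a ((q⁻¹ : GE E) x))
      rw [hq, ha.1]
    · intro x
      show q (a ((q⁻¹ : GE E) (e x))) = 0
      rw [← fli_cinv hq, ha.2, map_zero]

private theorem fuS (e : E →L[ℝ] E) : FU e (uS e) where
  sq := by
    intro a ha a' ha'
    ext x
    show a (a' x) = 0
    rw [← ha.2, ha'.1, map_zero]
  conj := by
    intro q hq a ha
    constructor
    · intro x
      show e (q (a ((q⁻¹ : GE E) x))) = 0
      rw [hq, ha.1, map_zero]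
    · intro x
      show q (a ((q⁻¹ : GE E) (e x))) = q (a ((q⁻¹ : GE E) x))
      rw [← fli_cinv hq, ha.2]

private theorem fli_cz {a : E →L[ℝ] E} (ha : a ∘L a = 0) (q : GE E) :
    ((q : E →L[ℝ] E) ∘L a ∘L ((q⁻¹ : GE E) : E →L[ℝ] E)) ∘L
      ((q : E →L[ℝ] E) ∘L a ∘L ((q⁻¹ : GE E) : E →L[ℝ] E)) = 0 := by
  ext x
  show q (a ((q⁻¹ : GE E) (q (a ((q⁻¹ : GE E) x))))) = 0
  have h1 : a (a ((q⁻¹ : GE E) x)) = 0 := by
    simpa using congrArg (fun f => f ((q⁻¹ : GE E) x)) ha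
  rw [fli_app', h1, map_zero]

private theorem fli_ctw {a : E →L[ℝ] E} (ha : a ∘L a = 0) (q : GE E) :
    q * tw a * q⁻¹ = tw ((q : E →L[ℝ] E) ∘L a ∘L ((q⁻¹ : GE E) : E →L[ℝ] E)) := by
  ext x
  show q (tw a ((q⁻¹ : GE E) x)) = _
  rw [tw_apply ha, tw_apply (fli_cz ha q), map_add, fli_app]
  rfl

private theorem fli_tws {e : E →L[ℝ] E} {u : Submodule ℝ (E →L[ℝ] E)} (hu : FU e u) {q : GE E}
    (hq : ∀ x, e (q x) = q (e x)) {g : GE E} (hg : g ∈ tws u) : q * g * q⁻¹ ∈ tws u := by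
  obtain ⟨a, ha, rfl⟩ := hg
  exact ⟨_, hu.conj q hq a ha, fli_ctw (hu.sq a ha a ha) q⟩

private theorem fli_tmul {e : E →L[ℝ] E} {u : Submodule ℝ (E →L[ℝ] E)} (hu : FU e u) {g h : GE E}
    (hg : g ∈ tws u) (hh : h ∈ tws u) : g * h ∈ tws u := by
  obtain ⟨a, ha, rfl⟩ := hg
  obtain ⟨c, hc, rfl⟩ := hh
  refine ⟨a + c, u.add_mem ha hc, ?_⟩
  ext x
  show tw a (tw c x) = _
  rw [tw_apply (hu.sq a ha a ha), tw_apply (hu.sq c hc c hc),
    tw_apply (hu.sq _ (u.add_mem ha hc) _ (u.add_mem ha hc)), map_add]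
  have h1 : a (c x) = 0 := by simpa using congrArg (fun f => f x) (hu.sq a ha c hc)
  rw [h1, add_zero, add_apply]
  abel

private theorem fli_tinv {e : E →L[ℝ] E} {u : Submodule ℝ (E →L[ℝ] E)} (hu : FU e u) {g : GE E}
    (hg : g ∈ tws u) : g⁻¹ ∈ tws u := by
  obtain ⟨a, ha, rfl⟩ := hg
  refine ⟨-a, u.neg_mem ha, ?_⟩
  ext x
  rw [tw_inv_apply (hu.sq a ha a ha),
    tw_apply (hu.sq _ (u.neg_mem ha) _ (u.neg_mem ha)), neg_apply, sub_eq_add_neg]

private theorem fli_step {e : E →L[ℝ] E} {u : Submodule ℝ (E →L[ℝ] E)} (hu : FU e u)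
    {G : Subgroup (GE E)} {b : GE E → HM E k} (hb : IsCoc G b)
    (hvan : ∀ g ∈ G, g ∈ tws u → b g = 0) (hcom : ∀ g ∈ G, (∀ x, e (g x) = g (e x)) → b g = 0)
    {q : GE E} (hq : q ∈ tws u) {g : GE E} (hg : g ∈ G) (hg' : g ∈ cjG q G)
    (hge : ∀ x, e (g x) = g (e x)) : b (q * g * q⁻¹) = 0 := by
  rw [mem_cjG] at hg'
  have h1 : q * g * q⁻¹ = (q * (g * q⁻¹ * g⁻¹)) * g := by group
  have h2 : q * (g * q⁻¹ * g⁻¹) ∈ tws u := fli_tmul hu hq (fli_tws hu hge (fli_tinv hu hq))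
  have h3 : q * (g * q⁻¹ * g⁻¹) ∈ G := by
    have h4 : q * (g * q⁻¹ * g⁻¹) = (q * g * q⁻¹) * g⁻¹ := by group
    rw [h4]
    exact G.mul_mem hg' (G.inv_mem hg)
  rw [h1, hb _ h3 _ hg, hvan _ h3 h2, hcom _ hg hge, map_zero, add_zero]

/-- the elements acting on the range of `ε` only commute with `e` -/
private theorem fli_blk {e ε : E →L[ℝ] E} (hε : IsPr ε)
    (h : e = ε ∨ ((∀ x, e (ε x) = 0) ∧ ∀ x, ε (e x) = 0)) {g : GE E} (hg : g ∈ blk ε) (x : E) :
    e (g x) = g (e x) := by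
  have h1 : g (x - ε x) = x - ε x := hg.2 _ (by rw [map_sub, hε.idem, sub_self])
  have h2 : g x = g (ε x) + (x - ε x) := by
    rw [← h1, ← map_add]
    congr 1
    abel
  rcases h with rfl | ⟨h, h'⟩
  · rw [h2, map_add, hg.1, map_sub, hε.idem, sub_self, add_zero]
  · have h3 : e (g (ε x)) = 0 := by rw [← hg.1 x, h]
    rw [h2, map_add, h3, map_sub, h, sub_zero, zero_add, hg.2 _ (h' x)]

end

section
universe u
variable {μ δ : Type u} [Fintype μ] [DecidableEq μ] [Fintype δ] [DecidableEq δ]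
  {D0 : Subring (Matrix δ δ ℝ)}

private theorem fli_h2 (hD : DivO δ D0) [Nonempty δ] (hμ : 2 ≤ Fintype.card μ) (i0 : μ)
    {G : Subgroup (GE (En (μ × δ)))} (hG : G ∈ CC μ D0) (k : ℕ) (hk : 2 ≤ k)
    (w : HM (En (μ × δ)) k)
    (hT : ∀ g ∈ G, g ∈ tws (uT (prj δ {i0})) → pi k g w = w)
    (hS : ∀ g ∈ G, g ∈ tws (uS (prj δ {i0})) → pi k g w = w) : w = 0 := by
  have hne : ({i0} : Finset μ) ≠ Finset.univ := by
    intro h
    have h1 := congrArg Finset.card h
    rw [Finset.card_singleton, Finset.card_univ] at h1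
    omega
  exact inv_TS hk (isPr_prj {i0}) (prj_nonzero (Finset.singleton_nonempty i0)) (prj_zero hne) w
    (kil_of_lat G _ (fuT _).sq (lat_T hD hG {i0}) w hT)
    (kil_of_lat G _ (fuS _).sq (lat_S hD hG {i0}) w hS)

theorem noinv_CC (hD : DivO δ D0) [Nonempty δ] (hμ : 2 ≤ Fintype.card μ)
    {G : Subgroup (GE (En (μ × δ)))} (hG : G ∈ CC μ D0) (k : ℕ) (hk : 2 ≤ k)
    (w : HM (En (μ × δ)) k) (hw : ∀ g ∈ G, pi k g w = w) : w = 0 := by
  obtain ⟨i0⟩ : Nonempty μ := Fintype.card_pos_iff.1 (by omega)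
  exact fli_h2 hD hμ i0 hG k hk w (fun g hg _ => hw g hg) (fun g hg _ => hw g hg)

theorem fl_inner (hD : DivO δ D0) (hδ : 2 ≤ Fintype.card δ) (hμ : 2 ≤ Fintype.card μ)
    {G : Subgroup (GE (En (μ × δ)))} (hG : G ∈ CC μ D0) (k : ℕ) (hk : 2 ≤ k)
    (b : GE (En (μ × δ)) → HM (En (μ × δ)) k) (hb : IsCoc G b) :
    ∃ w : HM (En (μ × δ)) k, Triv b w (G : Set (GE (En (μ × δ)))) := by
  obtain ⟨i0⟩ : Nonempty μ := Fintype.card_pos_iff.1 (by omega)
  haveI : Nonempty δ := Fintype.card_pos_iff.1 (by omega)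
  have hbigs : ∀ i : μ, Big (prj δ ({i} : Finset μ)) := fun i =>
    big_prj {i} (by rw [Finset.card_singleton]; omega)
  have hne : ({i0} : Finset μ) ≠ Finset.univ := by
    intro h
    have h1 := congrArg Finset.card h
    rw [Finset.card_singleton, Finset.card_univ] at h1
    omega
  set e : En (μ × δ) →L[ℝ] En (μ × δ) := prj δ {i0} with hedef
  have he : IsPr e := isPr_prj {i0}
  have hV : ∃ v, v ≠ 0 ∧ e v = v := prj_nonzero (Finset.singleton_nonempty i0)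
  have hN : ∃ v, v ≠ 0 ∧ e v = 0 := prj_zero hne
  have hblocks : ∀ w : HM (En (μ × δ)) k, (∀ (i : μ) (q u : En (μ × δ)), inner ℝ q u = (0 : ℝ) →
      prj δ {i} q = q → prj δ {i} u = u → pi k (tv q u) w = w) → w = 0 := fun w hw =>
    inv_blocks hk (fun i => prj δ {i}) (fun i => isPr_prj {i}) hbigs prj_orth prj_sum w hw
  have hins : ∀ i : μ, e = prj δ {i} ∨
      ((∀ x, e (prj δ {i} x) = 0) ∧ ∀ x, prj δ {i} (e x) = 0) := by
    intro i
    by_cases h : i0 = i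
    · left
      rw [hedef, h]
    · right
      exact ⟨prj_orth i0 i h, prj_orth i i0 (Ne.symm h)⟩
  let 𝒰 : Set (Set (GE (En (μ × δ)))) := {tws (uT e), tws (uS e)}
  have hUT : tws (uT e) ∈ 𝒰 := Set.mem_insert _ _
  have hUS : tws (uS e) ∈ 𝒰 := Set.mem_insert_of_mem _ (Set.mem_singleton _)
  have h2 : ∀ G ∈ CC μ D0, ∀ w : HM (En (μ × δ)) k,
      (∀ U ∈ 𝒰, ∀ g ∈ G, g ∈ U → pi k g w = w) → w = 0 := fun G hG w hw =>
    fli_h2 hD hμ i0 hG k hk w (hw _ hUT) (hw _ hUS)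
  refine scheme (CC μ D0) 𝒰 (GenI D0 i0) (fun q hq G hG => cc_conj hD hq.1 hG)
    (fun q hq G hG => cc_conj hD (gq_inv hq.1) hG) ?_ h2 ?_ G hG
    (fun g hg => gen_I hD i0 (hG.1 g hg)) b hb
  · intro G hG b hb
    obtain ⟨a0, ha0⟩ := fix_T he (hbigs i0) G b hb (ar_dn hD hG i0) (lat_T hD hG {i0})
    obtain ⟨b0, hb0⟩ := fix_S hk he (hbigs i0) G b hb (ar_dn hD hG i0) (lat_S hD hG {i0})
    obtain ⟨α, hα, α', hα', hfix⟩ := delta he G b hb (lat_T hD hG {i0}) (lat_S hD hG {i0})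
      a0 b0 ha0 hb0 (fun i : μ => prj δ {i}) (fun i => isPr_prj {i}) (fun i => ins_prj {i0} i)
      (fun i => ar_dn hD hG i)
    have hz := hblocks _ hfix
    refine ⟨a0 + -α, ?_⟩
    intro U hU
    have heq : a0 + -α = b0 + α' := by
      have h3 : a0 + -α = (a0 - b0 - α - α') + (b0 + α') := by abel
      rw [h3, hz, zero_add]
    rcases hU with rfl | hU
    · exact triv_T G b a0 (-α) ha0 ((kil k (uT e)).neg_mem hα)
    · rw [Set.mem_singleton_iff] at hU
      subst hU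
      rw [heq]
      exact triv_S G b b0 α' hb0 hα'
  · intro q hq G hG b hb hvan w hw
    have hG' : cjG q G ∈ CC μ D0 := cc_conj hD hq.1 hG
    set v : HM (En (μ × δ)) k := pi k q⁻¹ w with hvdef
    have hb' := fli_coc (q := q) hb
    suffices hv : v = 0 by
      have h3 := fli_inv' q w
      rw [← hvdef, hv, map_zero] at h3
      exact h3.symm
    have hconj : ∀ g : GE (En (μ × δ)), pi k q⁻¹ (w - pi k (q * g * q⁻¹) w) = v - pi k g v := by
      intro g
      rw [map_sub, ← fli_mul, hvdef, ← fli_mul]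
      congr 3
      group
    have hcase : (∀ x, e (q x) = q (e x)) ∨ ∃ u : Submodule ℝ (En (μ × δ) →L[ℝ] En (μ × δ)),
        FU e u ∧ tws u ∈ 𝒰 ∧ q ∈ tws u := by
      rcases hq.2 with h | h | h
      · exact Or.inr ⟨uT e, fuT e, hUT, h⟩
      · exact Or.inr ⟨uS e, fuS e, hUS, h⟩
      · exact Or.inl h
    rcases hcase with hcomm | ⟨u, hu, huU, hqu⟩
    · refine h2 _ hG' v ?_
      intro U hU g hg hgU
      have hg2 := hg
      rw [mem_cjG] at hg2
      have h3 : q * g * q⁻¹ ∈ U := by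
        rcases hU with rfl | hU
        · exact fli_tws (fuT e) hcomm hgU
        · rw [Set.mem_singleton_iff] at hU
          subst hU
          exact fli_tws (fuS e) hcomm hgU
      have h4 := hw U hU g hg hgU
      rw [hvan U hU _ hg2 h3] at h4
      have h5 := hconj g
      rw [← h4, map_zero] at h5
      exact (sub_eq_zero.1 h5.symm).symm
    · have hL' : Triv (fun g => pi k q⁻¹ (b (q * g * q⁻¹))) v
          {g | g ∈ cjG q G ∧ ∀ x, e (g x) = g (e x)} := by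
        refine triv_L hk he hV hN (cjG q G) _ hb' (lat_T hD hG' {i0}) (lat_S hD hG' {i0}) v ?_ ?_
        · rintro g ⟨hg, hgU⟩
          show pi k q⁻¹ (b (q * g * q⁻¹)) = _
          rw [hw _ hUT g hg hgU, hconj]
        · rintro g ⟨hg, hgU⟩
          show pi k q⁻¹ (b (q * g * q⁻¹)) = _
          rw [hw _ hUS g hg hgU, hconj]
      have hL : Triv b 0 {g | g ∈ G ∧ ∀ x, e (g x) = g (e x)} := by
        refine triv_L hk he hV hN G b hb (lat_T hD hG {i0}) (lat_S hD hG {i0}) 0 ?_ ?_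
        · rintro g ⟨hg, hgU⟩
          rw [hvan _ hUT g hg hgU, map_zero, sub_zero]
        · rintro g ⟨hg, hgU⟩
          rw [hvan _ hUS g hg hgU, map_zero, sub_zero]
      have hcom : ∀ g ∈ G, (∀ x, e (g x) = g (e x)) → b g = 0 := by
        intro g hg hge
        have h3 := hL g ⟨hg, hge⟩
        rwa [map_zero, sub_zero] at h3
      have hfix : ∀ g ∈ G ⊓ cjG q G, (∀ x, e (g x) = g (e x)) → pi k g v = v := by
        intro g hg hge
        have h3 := hL' g ⟨hg.2, hge⟩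
        have h4 := fli_step hu hb (fun g hg hgU => hvan _ huU g hg hgU) hcom hqu hg.1 hg.2 hge
        have h5 : pi k q⁻¹ (b (q * g * q⁻¹)) = v - pi k g v := h3
        rw [h4, map_zero] at h5
        exact (sub_eq_zero.1 h5.symm).symm
      refine hblocks v ?_
      intro i q' u' hqu' hq' hu'
      have h6 := ar_dn hD (cc_inf hG hG') i (HM (En (μ × δ)) k) (pi k) prep_pi ⊥
        (fun g _ y hy => by
          rw [Submodule.mem_bot] at hy ⊢
          rw [hy, map_zero]) v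
        (fun γ hγ hγb => by
          rw [Submodule.mem_bot, sub_eq_zero]
          exact hfix γ hγ (fli_blk (isPr_prj {i}) (hins i) hγb)) q' u' hqu' hq' hu'
      rw [Submodule.mem_bot, sub_eq_zero] at h6
      exact h6

end
end LatLin
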