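import Pool.Agent.Lib.MP_2392aa_gt.L.Defs

/-!
MP_2392aa_gt, formal linearization, module ToForm (about 150 lines): translation to `FormLin`, `NoInv`,
and transport along isomorphisms.

PROOFS.
`formLin_of`: let `c` be a cocycle as in `FormLin` for the inclusion of `G`. Put, for `g ∈ G`,
`b g := c g ∘ g⁻¹` (`⟨_, _⟩ : HM E k`; `0` for `g ∉ G`): `IsCoc G b`, since
`c (g h) ((g h)⁻¹ x) = c g (h (h⁻¹ g⁻¹ x)) + g (c h (h⁻¹ g⁻¹ x))`. From `b g = w - g w g⁻¹`:
`c g x = b g (g x) = w (g x) - g (w x)`, take `p := - w`.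
`noInv_of`: `p` equivariant, homogeneous of degree `k`, is `w := ⟨p, _⟩` with `pi k g w = w` for `g ∈ G`.
`formLin_transport`: given a cocycle `c` of `Γ` on `E`, the maps `L ∘ c (f⁻¹ γ') ∘ L⁻¹` are a cocycle of
`Γ'` on `E'`; transport `p` back. `noInv_transport` similarly.
-/

open scoped ContDiff Topology

namespace LatLin

section
variable {E : Type*} [NormedAddCommGroup E] [InnerProductSpace ℝ E]

theorem formLin_of (G : Subgroup (GE E))
    (h : ∀ k : ℕ, 2 ≤ k → ∀ b : GE E → HM E k, IsCoc G b → ∃ w : HM E k, Triv b w (G : Set (GE E))) :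
    FormLin G.subtype := by
  classical
  intro k hk c hc hcoc
  let b : GE E → HM E k := fun g =>
    if hg : g ∈ G then ⟨fun x => c ⟨g, hg⟩ ((g⁻¹ : GE E) x),
      (hc ⟨g, hg⟩).1.comp ((g⁻¹ : GE E) : E →L[ℝ] E).contDiff, fun t x => by
        dsimp only
        rw [map_smul, (hc ⟨g, hg⟩).2]⟩ else 0
  have hb : ∀ (g : GE E) (hg : g ∈ G) (x : E), (b g).1 x = c ⟨g, hg⟩ ((g⁻¹ : GE E) x) := by
    intro g hg x
    simp only [b, dif_pos hg]
  have hcb : IsCoc G b := by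
    intro g hg g' hg'
    apply Subtype.ext
    funext x
    have h1 := hcoc ⟨g, hg⟩ ⟨g', hg'⟩ (((g * g')⁻¹ : GE E) x)
    have h2 : g' (((g * g')⁻¹ : GE E) x) = (g⁻¹ : GE E) x := by
      have h3 : ((g * g')⁻¹ : GE E) x = (g'⁻¹ : GE E) ((g⁻¹ : GE E) x) := by
        rw [mul_inv_rev]
        rfl
      rw [h3]
      exact g'.apply_symm_apply _
    have h4 : ((g * g')⁻¹ : GE E) x = (g'⁻¹ : GE E) ((g⁻¹ : GE E) x) := by
      rw [mul_inv_rev]
      rfl
    change (b (g * g')).1 x = (b g).1 x + (pi k g (b g')).1 x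
    rw [hb _ (G.mul_mem hg hg'), hb g hg, pi_apply, hb g' hg', ← h4, ← h2]
    exact h1
  obtain ⟨w, hw⟩ := h k hk b hcb
  refine ⟨fun x => -(w.1 x), ⟨w.2.1.neg, fun t x => by
    dsimp only
    rw [w.2.2, smul_neg]⟩, ?_⟩
  rintro ⟨g, hg⟩ x
  have h1 : (b g).1 (g x) = w.1 (g x) - (pi k g w).1 (g x) := by
    rw [hw g hg]
    rfl
  have h2 : (g⁻¹ : GE E) (g x) = x := g.symm_apply_apply x
  rw [hb g hg, pi_apply, h2] at h1
  rw [h1]
  change w.1 (g x) - g (w.1 x) = g (-(w.1 x)) - -(w.1 (g x))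
  rw [map_neg]
  abel

theorem noInv_of (G : Subgroup (GE E))
    (h : ∀ k : ℕ, 2 ≤ k → ∀ w : HM E k, (∀ g ∈ G, pi k g w = w) → w = 0) :
    NoInv G.subtype := by
  intro k hk p hp hinv x
  have h1 := h k hk ⟨p, hp⟩ (by
    intro g hg
    apply Subtype.ext
    funext y
    rw [pi_apply]
    have h2 := hinv ⟨g, hg⟩ ((g⁻¹ : GE E) y)
    have h3 : g ((g⁻¹ : GE E) y) = y := g.apply_symm_apply y
    change p (g ((g⁻¹ : GE E) y)) = g (p ((g⁻¹ : GE E) y)) at h2
    rw [h3] at h2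
    exact h2.symm)
  have h2 := congrArg (fun w : HM E k => w.1 x) h1
  exact h2

variable {F : Type*} [NormedAddCommGroup F] [NormedSpace ℝ F] {F' : Type*} [NormedAddCommGroup F']
  [NormedSpace ℝ F'] {Γ Γ' : Type*} [Group Γ] [Group Γ']

theorem formLin_transport (L : F ≃L[ℝ] F') (f : Γ ≃* Γ') (ρ : Γ →* (F ≃L[ℝ] F))
    (ρ' : Γ' →* (F' ≃L[ℝ] F')) (h : ∀ γ x, L (ρ γ x) = ρ' (f γ) (L x)) (hρ : FormLin ρ') :
    FormLin ρ := by
  intro k hk c hc hcoc
  obtain ⟨p, hp, hp'⟩ := hρ k hk (fun γ' y => L (c (f.symm γ') (L.symm y)))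
    (fun γ' => ⟨L.contDiff.comp ((hc _).1.comp L.symm.contDiff), fun t x => by
      dsimp only
      rw [map_smul, (hc _).2, map_smul]⟩)
    (fun γ' δ' y => by
      have h1 := hcoc (f.symm γ') (f.symm δ') (L.symm y)
      rw [← map_mul] at h1
      have h2 := h (f.symm δ') (L.symm y)
      rw [MulEquiv.apply_symm_apply, ContinuousLinearEquiv.apply_symm_apply] at h2
      have h3 : ρ (f.symm δ') (L.symm y) = L.symm (ρ' δ' y) := by
        rw [← h2, ContinuousLinearEquiv.symm_apply_apply]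
      have h4 := h (f.symm γ') (c (f.symm δ') (L.symm y))
      rw [MulEquiv.apply_symm_apply] at h4
      rw [h1, h3, map_add, h4])
  refine ⟨fun x => L.symm (p (L x)), ⟨L.symm.contDiff.comp (hp.1.comp L.contDiff), fun t x => by
    dsimp only
    rw [map_smul, hp.2, map_smul]⟩, fun γ x => ?_⟩
  have h1 := hp' (f γ) (L x)
  rw [MulEquiv.symm_apply_apply, ContinuousLinearEquiv.symm_apply_apply] at h1
  apply L.injective
  rw [h1, map_sub, h, ContinuousLinearEquiv.apply_symm_apply,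
    ContinuousLinearEquiv.apply_symm_apply, h]

theorem noInv_transport (L : F ≃L[ℝ] F') (f : Γ ≃* Γ') (ρ : Γ →* (F ≃L[ℝ] F))
    (ρ' : Γ' →* (F' ≃L[ℝ] F')) (h : ∀ γ x, L (ρ γ x) = ρ' (f γ) (L x)) (hρ : NoInv ρ') :
    NoInv ρ := by
  intro k hk p hp hinv x
  have h1 := hρ k hk (fun y => L (p (L.symm y)))
    ⟨L.contDiff.comp (hp.1.comp L.symm.contDiff), fun t x => by
      dsimp only
      rw [map_smul, hp.2, map_smul]⟩
    (fun γ' y => by
      have h2 := h (f.symm γ') (L.symm y)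
      rw [MulEquiv.apply_symm_apply, ContinuousLinearEquiv.apply_symm_apply] at h2
      have h3 : L.symm (ρ' γ' y) = ρ (f.symm γ') (L.symm y) := by
        rw [← h2, ContinuousLinearEquiv.symm_apply_apply]
      rw [h3, hinv, h, MulEquiv.apply_symm_apply])
    (L x)
  rw [ContinuousLinearEquiv.symm_apply_apply] at h1
  exact L.map_eq_zero_iff.1 h1

end
end LatLin
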