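import Pool.Agent.Lib.MP_2392aa_gt.L.ArBas

/-!
MP_2392aa_gt, formal linearization, module ArCom (about 300 lines): commensurability, powers, lattice
data of the arithmetic groups.

PROOFS.
`cong_fin`: for `M ≥ 1` the subgroup `Γ(M)` of the `g ∈ G0 μ D0` with `mt g - 1 ∈ M • blkO` and
`mt g⁻¹ - 1 ∈ M • blkO` has finite index in `G0 μ D0`: two elements `g, h` with `mt g - mt h ∈ M blkO` and
`mt g⁻¹ - mt h⁻¹ ∈ M blkO` satisfy `g⁻¹ h ∈ Γ(M)`, and `blkO / M blkO` is finite (`blkO` is a finitely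
generated free `ℤ`-module, `blkO_ord`).
`cc_conj`: let `M • mt q, M • mt q⁻¹ ∈ blkO`. For `g ∈ Γ(M ^ 2)`:
`mt (q g q⁻¹) = 1 + (M mt q) ((mt g - 1) / M ^ 2) (M mt q⁻¹) ∈ blkO`, the same for `g⁻¹`, determinant one,
so `q g q⁻¹ ∈ G0`, i.e. `Γ(M ^ 2) ≤ cjG q (G0 μ D0)`, so `(cjG q G0).relIndex G0 ≠ 0`
(`Subgroup.relIndex_ne_zero_trans`, `relIndex` is monotone). `(cjG q G).relIndex (cjG q G0) =
G.relIndex G0 ≠ 0` (`Subgroup.relIndex_map_map_of_injective`), transitivity. Elements of `cjG q G` are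
in `GQ` (`gq_mul`, `gq_inv`).
`cc_inf`: `Subgroup.relIndex_inf_ne_zero`. `cc_pow`: a subgroup of finite index `r` of a group contains
`g ^ (r !)` for all `g` (`Subgroup.pow_mem_of_index_ne_zero_of_dvd`-like; or pigeonhole: two of the
cosets of `1, g, .., g ^ r` coincide, so `g ^ j ∈ G` for some `1 ≤ j ≤ r`).
`lat_T`: `u = uT (prj δ s)` is the set of `om A` with `A` having nonzero blocks only at positions
`(i, j)`, `i ∈ s`, `j ∉ s`. Let `b` be the real basis of `M_δ(ℝ)` with integer span `D0`, `M` from `cc_pow`;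
the family `M • om (bl i j (b p))`, `i ∈ s`, `j ∉ s`, indexed by `Fin n` (`Fintype.equivFin`), is
independent and spans `u`; `tw (M • om (bl i j (b p))) = (tw (om (bl i j (b p)))) ^ M ∈ G`, since
`tw (om (bl i j x)) ∈ G0` for `x ∈ D0`, `i ≠ j` (determinant one: it is `1 +` strictly block
triangular; e.g. `det (1 + A) = 1` for nilpotent `A ^ 2 = 0`: `det (1 + t A)` has inverse
`det (1 - t A)`, polynomial in `t`, or `Matrix.det_one_add_mul_comm`). If `om A ∈ u` and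
`tw (om A) ∈ G` then `1 + A` is rational, so `A` is, and a multiple of `A` is an integer combination of
the family. `lat_S`: `uS (prj δ s) = uT (prj δ sᶜ)`.
`cc_map`: for `G1 ≤ unitI (blkO μ D0)` of finite index, the image under `slG` is in `CC`: `slG` is
injective; elements of `G0` are in `GQ` (`M = 1`).
-/

open scoped ContDiff Topology Nat
open LatN (DivO blo blkO unitI En)

namespace LatLin

section
variable {μ δ : Type*} [Fintype μ] [DecidableEq μ] [Fintype δ] [DecidableEq δ]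
  {D0 : Subring (Matrix δ δ ℝ)}

/-- the matrix of an element of the linear group -/
private noncomputable abbrev mg {ν : Type*} [Fintype ν] [DecidableEq ν] (g : GE (En ν)) :
    Matrix ν ν ℝ := mt (g : En ν →L[ℝ] En ν)

private theorem mg_mul {ν : Type*} [Fintype ν] [DecidableEq ν] (g h : GE (En ν)) :
    mg (g * h) = mg g * mg h :=
  map_mul (Matrix.toEuclideanCLM (n := ν) (𝕜 := ℝ)).symm (g : En ν →L[ℝ] En ν)
    (h : En ν →L[ℝ] En ν)

private theorem mg_one {ν : Type*} [Fintype ν] [DecidableEq ν] :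
    mg (1 : GE (En ν)) = 1 :=
  map_one (Matrix.toEuclideanCLM (n := ν) (𝕜 := ℝ)).symm

private theorem mg_inv_mul {ν : Type*} [Fintype ν] [DecidableEq ν] (g : GE (En ν)) :
    mg g⁻¹ * mg g = 1 := by
  rw [← mg_mul, inv_mul_cancel, mg_one]

private theorem mg_mul_inv {ν : Type*} [Fintype ν] [DecidableEq ν] (g : GE (En ν)) :
    mg g * mg g⁻¹ = 1 := by
  rw [← mg_mul, mul_inv_cancel, mg_one]

private theorem mg_inj {ν : Type*} [Fintype ν] [DecidableEq ν] {g h : GE (En ν)}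
    (e : mg g = mg h) : g = h := by
  have h1 : (g : En ν →L[ℝ] En ν) = (h : En ν →L[ℝ] En ν) := by
    rw [← om_mt (g : En ν →L[ℝ] En ν), ← om_mt (h : En ν →L[ℝ] En ν)]
    exact congrArg om e
  exact ContinuousLinearEquiv.coe_injective h1

private theorem mg_slG {ν : Type*} [Fintype ν] [DecidableEq ν]
    (s : Matrix.SpecialLinearGroup ν ℝ) : mg (slG ν s) = s.1 := mt_om s.1

private theorem slG_inj {ν : Type*} [Fintype ν] [DecidableEq ν] :
    Function.Injective (slG ν) := by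
  intro s t e
  apply Subtype.ext
  rw [← mg_slG, ← mg_slG, e]

private theorem mem_G0 {g : GE (En (μ × δ))} :
    g ∈ G0 μ D0 ↔ mg g ∈ blkO μ D0 ∧ mg g⁻¹ ∈ blkO μ D0 ∧ (mg g).det = 1 := by
  constructor
  · rintro ⟨s, hs, rfl⟩
    refine ⟨?_, ?_, ?_⟩
    · rw [mg_slG]
      exact hs.1
    · rw [← map_inv, mg_slG]
      exact hs.2
    · rw [mg_slG]
      exact s.2
  · rintro ⟨h1, h2, h3⟩
    let s : Matrix.SpecialLinearGroup (μ × δ) ℝ := ⟨mg g, h3⟩
    have e : s⁻¹.1 = mg g⁻¹ := by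
      have e1 : s⁻¹.1 * s.1 = 1 := by
        rw [← Matrix.SpecialLinearGroup.coe_mul, inv_mul_cancel, Matrix.SpecialLinearGroup.coe_one]
      exact left_inv_eq_right_inv e1 (mg_mul_inv g)
    refine ⟨s, ⟨h1, ?_⟩, mg_inj (mg_slG s)⟩
    rw [e]
    exact h2

private theorem fin_of_cong (hD : LatN.IsOrd δ D0) {M : ℕ} (hM : M ≠ 0)
    (H : Subgroup (GE (En (μ × δ))))
    (h : ∀ g ∈ G0 μ D0, (∃ z ∈ blkO μ D0, mg g - 1 = (M : ℝ) • z) → g ∈ H) :
    H.relIndex (G0 μ D0) ≠ 0 := by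
  classical
  obtain ⟨b, hb⟩ := LatN.blkO_ord (μ := μ) hD
  have : NeZero M := ⟨hM⟩
  have hM' : (M : ℝ) ≠ 0 := Nat.cast_ne_zero.2 hM
  let f : (G0 μ D0 ⧸ H.subgroupOf (G0 μ D0)) → ((μ × δ) × (μ × δ) → ZMod M) := fun c p =>
    ((⌊b.repr (mg (c.out : GE (En (μ × δ)))) p⌋ : ℤ) : ZMod M)
  have hf : Function.Injective f := by
    intro c c' hcc
    have hint : ∀ x ∈ blkO μ D0, ∀ p, b.repr x p = ((⌊b.repr x p⌋ : ℤ) : ℝ) := by
      intro x hx p
      obtain ⟨n, hn⟩ := (b.mem_span_iff_repr_mem ℤ x).1 ((hb x).1 hx) p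
      rw [← hn]
      simp
    have hg := mem_G0.1 (c.out).2
    have hg' := mem_G0.1 (c'.out).2
    set g : GE (En (μ × δ)) := (c.out : GE (En (μ × δ))) with hgdef
    set g' : GE (En (μ × δ)) := (c'.out : GE (En (μ × δ))) with hgdef'
    obtain ⟨z, hz, hz'⟩ : ∃ z ∈ blkO μ D0, mg g' - mg g = (M : ℝ) • z := by
      refine ⟨(M : ℝ)⁻¹ • (mg g' - mg g), ?_, ?_⟩
      · rw [hb, b.mem_span_iff_repr_mem ℤ]
        intro p
        have e := congrFun hcc p
        have e1 : ((⌊b.repr (mg g') p⌋ - ⌊b.repr (mg g) p⌋ : ℤ) : ZMod M) = 0 := by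
          rw [Int.cast_sub, sub_eq_zero]
          exact e.symm
        rw [ZMod.intCast_zmod_eq_zero_iff_dvd] at e1
        obtain ⟨k, hk⟩ := e1
        refine ⟨k, ?_⟩
        rw [map_smul, map_sub, Finsupp.smul_apply, Finsupp.sub_apply, hint _ hg'.1 p,
          hint _ hg.1 p, ← Int.cast_sub, hk]
        simp only [algebraMap_int_eq, eq_intCast, Int.cast_mul, Int.cast_natCast, smul_eq_mul]
        field_simp
      · rw [smul_smul, mul_inv_cancel₀ hM', one_smul]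
    have hmem : g⁻¹ * g' ∈ H := by
      refine h _ ((G0 μ D0).mul_mem ((G0 μ D0).inv_mem (c.out).2) (c'.out).2)
        ⟨mg g⁻¹ * z, (blkO μ D0).mul_mem hg.2.1 hz, ?_⟩
      rw [mg_mul, ← Matrix.mul_smul, ← hz', mul_sub, mg_inv_mul]
    have e2 : (QuotientGroup.mk c.out : G0 μ D0 ⧸ H.subgroupOf (G0 μ D0)) =
        QuotientGroup.mk c'.out := by
      rw [QuotientGroup.eq, Subgroup.mem_subgroupOf]
      exact hmem
    rw [QuotientGroup.out_eq', QuotientGroup.out_eq'] at e2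
    exact e2
  have : Finite (G0 μ D0 ⧸ H.subgroupOf (G0 μ D0)) := Finite.of_injective f hf
  exact Subgroup.index_ne_zero_of_finite

theorem cc_conj (hD : DivO δ D0) {q : GE (En (μ × δ))} (hq : q ∈ GQ μ D0)
    {G : Subgroup (GE (En (μ × δ)))} (hG : G ∈ CC μ D0) : cjG q G ∈ CC μ D0 := by
  have hq' : q⁻¹ ∈ GQ μ D0 := gq_inv hq
  refine ⟨fun g hg => ?_, ?_⟩
  · rw [mem_cjG] at hg
    have h1 := gq_mul (gq_mul hq' (hG.1 _ hg)) hq
    have h2 : q⁻¹ * (q * g * q⁻¹) * q = g := by group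
    rwa [h2] at h1
  · obtain ⟨⟨M1, hM1, h1⟩, ⟨M2, hM2, h2⟩⟩ := hq
    have key : (cjG q (G0 μ D0)).relIndex (G0 μ D0) ≠ 0 := by
      refine fin_of_cong hD.ord (M := M1 * M2) (mul_ne_zero hM1 hM2) _ ?_
      rintro g hg ⟨z, hz, hz'⟩
      have hg0 := mem_G0.1 hg
      rw [mem_cjG, mem_G0]
      have hdet : (mg q).det * (mg q⁻¹).det = 1 := by
        rw [← Matrix.det_mul, mg_mul_inv, Matrix.det_one]
      have hA : ∀ w : Matrix (μ × δ) (μ × δ) ℝ, w ∈ blkO μ D0 →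
          mg q * (1 + ((M1 * M2 : ℕ) : ℝ) • w) * mg q⁻¹ ∈ blkO μ D0 := by
        intro w hw
        have e : mg q * (1 + ((M1 * M2 : ℕ) : ℝ) • w) * mg q⁻¹ =
            1 + ((M1 : ℝ) • mg q) * w * ((M2 : ℝ) • mg q⁻¹) := by
          rw [mul_add, mul_one, add_mul, mg_mul_inv]
          congr 1
          simp only [Matrix.mul_smul, Matrix.smul_mul, smul_smul, Nat.cast_mul]
          rw [mul_comm (M1 : ℝ)]
        rw [e]
        exact (blkO μ D0).add_mem (blkO μ D0).one_mem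
          ((blkO μ D0).mul_mem ((blkO μ D0).mul_mem h1 hw) h2)
      have hgz : mg g = 1 + ((M1 * M2 : ℕ) : ℝ) • z := by
        rw [← hz']
        abel
      have hgz' : mg g⁻¹ = 1 + ((M1 * M2 : ℕ) : ℝ) • (-(mg g⁻¹ * z)) := by
        have e1 : mg g⁻¹ * mg g = 1 := mg_inv_mul g
        have e2 : mg g⁻¹ * mg g = mg g⁻¹ + ((M1 * M2 : ℕ) : ℝ) • (mg g⁻¹ * z) := by
          rw [hgz, mul_add, mul_one, Matrix.mul_smul]
        rw [e1] at e2
        rw [smul_neg]
        nth_rw 1 [e2]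
        abel
      refine ⟨?_, ?_, ?_⟩
      · rw [mg_mul, mg_mul, hgz]
        exact hA z hz
      · have e3 : (q * g * q⁻¹)⁻¹ = q * g⁻¹ * q⁻¹ := by group
        rw [e3, mg_mul, mg_mul, hgz']
        exact hA _ ((blkO μ D0).neg_mem ((blkO μ D0).mul_mem hg0.2.1 hz))
      · rw [mg_mul, mg_mul, Matrix.det_mul, Matrix.det_mul, hg0.2.2, mul_one, hdet]
    refine Subgroup.relIndex_ne_zero_trans ?_ key
    have hinj : Function.Injective (MulAut.conj q⁻¹).toMonoidHom := (MulAut.conj q⁻¹).injective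
    rw [cjG, cjG, Subgroup.relIndex_map_map_of_injective _ _ hinj]
    exact hG.2

theorem cc_inf {G G' : Subgroup (GE (En (μ × δ)))} (hG : G ∈ CC μ D0) (hG' : G' ∈ CC μ D0) :
    G ⊓ G' ∈ CC μ D0 :=
  ⟨fun g hg => hG.1 g hg.1, Subgroup.relIndex_inf_ne_zero hG.2 hG'.2⟩

theorem cc_pow {G : Subgroup (GE (En (μ × δ)))} (hG : G ∈ CC μ D0) :
    ∃ M : ℕ, M ≠ 0 ∧ ∀ g ∈ G0 μ D0, g ^ M ∈ G :=
  ⟨(G.relIndex (G0 μ D0))!, Nat.factorial_ne_zero _, fun _ hg =>
    (Subgroup.pow_mem_of_relIndex_ne_zero_of_dvd hG.2 hg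
      (fun _ h1 h2 => Nat.dvd_factorial h1 h2)).1⟩

private noncomputable def omL (ν : Type*) [Fintype ν] [DecidableEq ν] :
    Matrix ν ν ℝ ≃ₗ[ℝ] (En ν →L[ℝ] En ν) where
  toFun := om
  invFun := mt
  map_add' := fun A B => map_add (Matrix.toEuclideanCLM (n := ν) (𝕜 := ℝ)) A B
  map_smul' := fun c A => map_smul (Matrix.toEuclideanCLM (n := ν) (𝕜 := ℝ)) c A
  left_inv := fun A => mt_om A
  right_inv := fun a => om_mt a

private theorem omL_apply {ν : Type*} [Fintype ν] [DecidableEq ν] (A : Matrix ν ν ℝ) :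
    omL ν A = om A := rfl

private theorem om_sq {ν : Type*} [Fintype ν] [DecidableEq ν] {A : Matrix ν ν ℝ}
    (h : A * A = 0) : om A ∘L om A = 0 := by
  rw [← om_comp, h]
  exact (omL ν).map_zero

private theorem mg_tw {ν : Type*} [Fintype ν] [DecidableEq ν] {A : Matrix ν ν ℝ}
    (h : A * A = 0) : mg (tw (om A)) = 1 + A := by
  have h' := om_sq h
  have e : ((tw (om A) : GE (En ν)) : En ν →L[ℝ] En ν) = om (1 + A) := by
    have e1 : om (1 + A) = om 1 + om A := (omL ν).map_add 1 A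
    rw [e1]
    ext1 x
    have e2 : (om (1 : Matrix ν ν ℝ)) x = x := by
      have e3 : om (1 : Matrix ν ν ℝ) = 1 := map_one (Matrix.toEuclideanCLM (n := ν) (𝕜 := ℝ))
      rw [e3]
      rfl
    rw [add_apply, e2]
    exact tw_apply h' x
  change mt _ = _
  rw [e, mt_om]

private theorem mg_tw_inv {ν : Type*} [Fintype ν] [DecidableEq ν] {A : Matrix ν ν ℝ}
    (h : A * A = 0) : mg (tw (om A))⁻¹ = 1 - A := by
  have h1 : mg (tw (om A)) * (1 - A) = 1 := by
    rw [mg_tw h, mul_sub, add_mul, add_mul, h]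
    simp
  exact left_inv_eq_right_inv (mg_inv_mul _) h1

private theorem bl_sq {i j : μ} (hij : i ≠ j) (x y : Matrix δ δ ℝ) :
    (bl i j x : Matrix (μ × δ) (μ × δ) ℝ) * bl i j y = 0 := by
  ext p q
  rw [Matrix.mul_apply]
  refine Finset.sum_eq_zero fun r _ => ?_
  simp only [bl]
  by_cases h1 : p.1 = i ∧ r.1 = j
  · have h2 : ¬ (r.1 = i ∧ q.1 = j) := fun h => hij (h.1.symm.trans h1.2)
    rw [if_neg h2, mul_zero]
  · rw [if_neg h1, zero_mul]

private theorem blo_bl (i j i' j' : μ) (x : Matrix δ δ ℝ) :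
    blo (bl i j x) i' j' = if i' = i ∧ j' = j then x else 0 := by
  ext a b
  simp only [blo, bl]
  split_ifs <;> rfl

private theorem bl_mem (i j : μ) {x : Matrix δ δ ℝ} (hx : x ∈ D0) : bl i j x ∈ blkO μ D0 := by
  intro i' j'
  rw [blo_bl]
  split_ifs
  · exact hx
  · exact D0.zero_mem

private theorem det_bl {i j : μ} (hij : i ≠ j) (x : Matrix δ δ ℝ) :
    (1 + bl i j x : Matrix (μ × δ) (μ × δ) ℝ).det = 1 := by
  let U : Matrix (μ × δ) δ ℝ := fun p b => if p.1 = i ∧ p.2 = b then 1 else 0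
  let V : Matrix δ (μ × δ) ℝ := fun a q => if q.1 = j then x a q.2 else 0
  have h1 : bl i j x = U * V := by
    ext p q
    rw [Matrix.mul_apply]
    simp only [U, V, bl]
    by_cases hp : p.1 = i
    · simp [hp]
    · simp [hp]
  have h2 : V * U = 0 := by
    ext a c
    rw [Matrix.mul_apply]
    refine Finset.sum_eq_zero fun r _ => ?_
    simp only [U, V]
    by_cases hr : r.1 = j
    · have h3 : ¬ (r.1 = i ∧ r.2 = c) := fun h => hij (h.1.symm.trans hr)
      rw [if_neg h3, mul_zero]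
    · rw [if_neg hr, zero_mul]
  rw [h1, Matrix.det_one_add_mul_comm, h2, add_zero, Matrix.det_one]

theorem g0_tw {i j : μ} (hij : i ≠ j) {x : Matrix δ δ ℝ} (hx : x ∈ D0) :
    tw (om (bl i j x)) ∈ G0 μ D0 := by
  have h := bl_sq (δ := δ) hij x x
  rw [mem_G0, mg_tw h, mg_tw_inv h]
  exact ⟨(blkO μ D0).add_mem (blkO μ D0).one_mem (bl_mem i j hx),
    (blkO μ D0).sub_mem (blkO μ D0).one_mem (bl_mem i j hx), det_bl hij x⟩

private theorem mg_pow {ν : Type*} [Fintype ν] [DecidableEq ν] (g : GE (En ν)) (M : ℕ) :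
    mg (g ^ M) = mg g ^ M := by
  induction M with
  | zero => rw [pow_zero, pow_zero, mg_one]
  | succ M ih => rw [pow_succ, pow_succ, mg_mul, ih]

private theorem tw_pow {ν : Type*} [Fintype ν] [DecidableEq ν] {A : Matrix ν ν ℝ}
    (h : A * A = 0) (M : ℕ) : tw (om A) ^ M = tw (om ((M : ℝ) • A)) := by
  have h' : ((M : ℝ) • A) * ((M : ℝ) • A) = 0 := by
    rw [Matrix.smul_mul, Matrix.mul_smul, h, smul_zero, smul_zero]
  apply mg_inj
  rw [mg_pow, mg_tw h, mg_tw h']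
  induction M with
  | zero => simp
  | succ M ih =>
    have h2 : ((M : ℝ) • A) * ((M : ℝ) • A) = 0 := by
      rw [Matrix.smul_mul, Matrix.mul_smul, h, smul_zero, smul_zero]
    rw [pow_succ, ih h2, mul_add, mul_one, add_mul, one_mul, Matrix.smul_mul, h, smul_zero,
      add_zero, Nat.cast_succ, add_smul, one_smul, add_assoc]

private theorem uT_iff {s : Finset μ} {A : Matrix (μ × δ) (μ × δ) ℝ} :
    om A ∈ uT (prj δ s) ↔ ∀ p q : μ × δ, ¬ (p.1 ∈ s ∧ q.1 ∉ s) → A p q = 0 := by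
  have hprj : prj δ s = om (Matrix.diagonal fun p : μ × δ => if p.1 ∈ s then (1 : ℝ) else 0) := rfl
  constructor
  · rintro ⟨h1, h2⟩ p q hpq
    have e1 : Matrix.diagonal (fun p : μ × δ => if p.1 ∈ s then (1 : ℝ) else 0) * A = A := by
      apply (omL (μ × δ)).injective
      rw [omL_apply, omL_apply, om_comp, ← hprj]
      ext1 x
      exact h1 x
    have e2 : A * Matrix.diagonal (fun p : μ × δ => if p.1 ∈ s then (1 : ℝ) else 0) = 0 := by
      apply (omL (μ × δ)).injective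
      rw [omL_apply, om_comp, ← hprj, map_zero]
      ext1 x
      exact h2 x
    have e3 := congrFun (congrFun e1 p) q
    have e4 := congrFun (congrFun e2 p) q
    rw [Matrix.diagonal_mul] at e3
    rw [Matrix.mul_diagonal] at e4
    by_cases hp : p.1 ∈ s
    · by_cases hq : q.1 ∈ s
      · rw [if_pos hq, mul_one] at e4
        exact e4
      · exact absurd ⟨hp, hq⟩ hpq
    · rw [if_neg hp, zero_mul] at e3
      exact e3.symm
  · intro h
    have e1 : Matrix.diagonal (fun p : μ × δ => if p.1 ∈ s then (1 : ℝ) else 0) * A = A := by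
      ext p q
      rw [Matrix.diagonal_mul]
      by_cases hp : p.1 ∈ s
      · rw [if_pos hp, one_mul]
      · rw [if_neg hp, zero_mul, h p q fun hh => hp hh.1]
    have e2 : A * Matrix.diagonal (fun p : μ × δ => if p.1 ∈ s then (1 : ℝ) else 0) = 0 := by
      ext p q
      rw [Matrix.mul_diagonal]
      by_cases hq : q.1 ∈ s
      · rw [if_pos hq, mul_one, h p q fun hh => hh.2 hq]
        rfl
      · rw [if_neg hq, mul_zero]
        rfl
    refine ⟨fun x => ?_, fun x => ?_⟩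
    · have e3 := congrArg (fun B => om B x) e1
      rw [om_comp, ← hprj] at e3
      exact e3
    · have e3 := congrArg (fun B => om B x) e2
      rw [om_comp, ← hprj] at e3
      have e4 : om (0 : Matrix (μ × δ) (μ × δ) ℝ) = 0 := (omL (μ × δ)).map_zero
      rw [e4] at e3
      exact e3

/-- the decomposition into blocks -/
private def bloE (μ δ : Type*) : Matrix (μ × δ) (μ × δ) ℝ ≃ₗ[ℝ] (μ × μ → Matrix δ δ ℝ) where
  toFun x := fun ij => blo x ij.1 ij.2
  invFun y := fun p q => y (p.1, q.1) p.2 q.2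
  map_add' _ _ := rfl
  map_smul' _ _ := rfl
  left_inv _ := rfl
  right_inv _ := rfl

private theorem bas_apply (b : Module.Basis (δ × δ) ℝ (Matrix δ δ ℝ)) (i j : μ) (p : δ × δ) :
    ((Pi.basis fun _ : μ × μ => b).map (bloE μ δ).symm) ⟨(i, j), p⟩ = bl i j (b p) := by
  rw [Module.Basis.map_apply, Pi.basis_apply]
  ext u v
  change (Pi.single (i, j) (b p) : μ × μ → Matrix δ δ ℝ) (u.1, v.1) u.2 v.2 = bl i j (b p) u v
  simp only [bl, Pi.single_apply, Prod.mk.injEq]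
  split_ifs <;> rfl

theorem lat_T (hD : DivO δ D0) {G : Subgroup (GE (En (μ × δ)))} (hG : G ∈ CC μ D0)
    (s : Finset μ) : Lat G (uT (prj δ s)) := by
  classical
  obtain ⟨b, hb⟩ := hD.ord
  obtain ⟨M, hM, hMG⟩ := cc_pow hG
  have hM' : (M : ℝ) ≠ 0 := Nat.cast_ne_zero.2 hM
  let c : {i // i ∈ s} × {j // j ∉ s} × (δ × δ) → (En (μ × δ) →L[ℝ] En (μ × δ)) :=
    fun z => om ((M : ℝ) • bl z.1.1 z.2.1.1 (b z.2.2))
  let B := (Pi.basis fun _ : μ × μ => b).map (bloE μ δ).symm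
  let ϑ : {i // i ∈ s} × {j // j ∉ s} × (δ × δ) → (Σ _ : μ × μ, δ × δ) :=
    fun z => ⟨(z.1.1, z.2.1.1), z.2.2⟩
  have hϑ : Function.Injective ϑ := by
    rintro ⟨⟨i, hi⟩, ⟨j, hj⟩, p⟩ ⟨⟨i', hi'⟩, ⟨j', hj'⟩, p'⟩ h
    simp only [ϑ, Sigma.mk.injEq, Prod.mk.injEq, heq_eq_eq] at h
    obtain ⟨⟨rfl, rfl⟩, rfl⟩ := h
    rfl
  have hli : LinearIndependent ℝ c := by
    have h1 : LinearIndependent ℝ (B ∘ ϑ) := B.linearIndependent.comp ϑ hϑ
    let L : Matrix (μ × δ) (μ × δ) ℝ →ₗ[ℝ] (En (μ × δ) →L[ℝ] En (μ × δ)) :=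
      (omL (μ × δ)).toLinearMap ∘ₗ ((M : ℝ) • LinearMap.id)
    have hL : LinearMap.ker L = ⊥ := by
      rw [LinearMap.ker_eq_bot]
      intro x y hxy
      have h2 : (M : ℝ) • x = (M : ℝ) • y := (omL (μ × δ)).injective hxy
      exact smul_right_injective _ hM' h2
    have h2 := h1.map' L hL
    have h3 : L ∘ B ∘ ϑ = c := by
      funext z
      change om ((M : ℝ) • B (ϑ z)) = c z
      rw [show B (ϑ z) = bl z.1.1 z.2.1.1 (b z.2.2) from bas_apply b z.1.1 z.2.1.1 z.2.2]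
    rwa [h3] at h2
  have hcu : ∀ z, c z ∈ uT (prj δ s) := by
    intro z
    refine uT_iff.2 fun p q hpq => ?_
    change (M : ℝ) * (if p.1 = z.1.1 ∧ q.1 = z.2.1.1 then b z.2.2 p.2 q.2 else 0) = 0
    rw [if_neg, mul_zero]
    rintro ⟨h1, h2⟩
    exact hpq ⟨by rw [h1]; exact z.1.2, by rw [h2]; exact z.2.1.2⟩
  have hexp : ∀ (A : Matrix (μ × δ) (μ × δ) ℝ), om A = ∑ z : (Σ _ : μ × μ, δ × δ),
      b.repr (blo A z.1.1 z.1.2) z.2 • om (bl z.1.1 z.1.2 (b z.2)) := by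
    intro A
    have h1 := B.sum_repr A
    have h2 := congrArg (omL (μ × δ)) h1
    rw [map_sum] at h2
    rw [← omL_apply A, ← h2]
    refine Finset.sum_congr rfl fun z _ => ?_
    rw [map_smul, omL_apply, show B z = bl z.1.1 z.1.2 (b z.2) from bas_apply b z.1.1 z.1.2 z.2]
    rfl
  have hzero : ∀ (A : Matrix (μ × δ) (μ × δ) ℝ), om A ∈ uT (prj δ s) → ∀ i j : μ,
      ¬ (i ∈ s ∧ j ∉ s) → blo A i j = 0 := by
    intro A hA i j hij
    ext a a'
    exact uT_iff.1 hA (i, a) (j, a') hij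
  have hrange : Set.range (c ∘ (Fintype.equivFin _).symm) = Set.range c :=
    (Equiv.surjective _).range_comp c
  refine ⟨Fintype.card ({i // i ∈ s} × {j // j ∉ s} × (δ × δ)), c ∘ (Fintype.equivFin _).symm,
    hli.comp _ (Equiv.injective _), ?_, ?_, ?_⟩
  · rw [hrange]
    apply le_antisymm
    · rw [Submodule.span_le]
      rintro _ ⟨z, rfl⟩
      exact hcu z
    · intro a ha
      rw [← om_mt a] at ha ⊢
      rw [hexp (mt a)]
      refine Submodule.sum_mem _ fun z _ => ?_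
      by_cases hz : z.1.1 ∈ s ∧ z.1.2 ∉ s
      · have h1 : c (⟨z.1.1, hz.1⟩, ⟨z.1.2, hz.2⟩, z.2) = (M : ℝ) • om (bl z.1.1 z.1.2 (b z.2)) :=
          (omL (μ × δ)).map_smul _ _
        have h2 : b.repr (blo (mt a) z.1.1 z.1.2) z.2 • om (bl z.1.1 z.1.2 (b z.2)) =
            (b.repr (blo (mt a) z.1.1 z.1.2) z.2 * (M : ℝ)⁻¹) •
              c (⟨z.1.1, hz.1⟩, ⟨z.1.2, hz.2⟩, z.2) := by
          rw [h1, smul_smul, mul_assoc, inv_mul_cancel₀ hM', mul_one]
        rw [h2]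
        exact Submodule.smul_mem _ _ (Submodule.subset_span ⟨_, rfl⟩)
      · have h0 : b.repr (blo (mt a) z.1.1 z.1.2) z.2 • om (bl z.1.1 z.1.2 (b z.2)) = 0 := by
          rw [hzero (mt a) ha _ _ hz, map_zero, Finsupp.zero_apply]
          exact zero_smul ℝ (om (bl z.1.1 z.1.2 (b z.2)))
        rw [h0]
        exact Submodule.zero_mem _
  · intro i
    change tw (c ((Fintype.equivFin _).symm i)) ∈ G
    generalize (Fintype.equivFin ({i // i ∈ s} × {j // j ∉ s} × (δ × δ))).symm i = z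
    have hne : z.1.1 ≠ z.2.1.1 := fun h => z.2.1.2 (h ▸ z.1.2)
    have h1 : b z.2.2 ∈ D0 := (hb _).2 (Submodule.subset_span ⟨_, rfl⟩)
    have h2 := hMG _ (g0_tw hne h1)
    rwa [tw_pow (bl_sq hne _ _)] at h2
  · intro a ha haG
    rw [hrange]
    have hsq : mt a * mt a = 0 := by
      have h1 := uT_sq ha
      apply (omL (μ × δ)).injective
      rw [omL_apply, om_comp, om_mt, h1, map_zero]
    have h1 := (hG.1 _ haG).1
    have h2 : mg (tw a) = 1 + mt a := by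
      have h3 := mg_tw hsq
      rwa [om_mt] at h3
    have h3 : Rat D0 (mt a) := by
      have h4 : Rat D0 ((1 + mt a) + -1) := by
        refine rat_add ?_ (rat_neg (rat_one D0))
        rw [← h2]
        exact h1
      have h5 : (1 + mt a) + -1 = mt a := by abel
      rwa [h5] at h4
    obtain ⟨N, hN, hN'⟩ := h3
    refine ⟨M * N, mul_ne_zero hM hN, ?_⟩
    have h6 : om ((N : ℝ) • mt a) = (N : ℝ) • a := by
      rw [← omL_apply, map_smul, omL_apply, om_mt]
    have h7 : ((M * N : ℕ) : ℤ) • a = (M : ℝ) • om ((N : ℝ) • mt a) := by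
      rw [h6, smul_smul, ← Int.cast_smul_eq_zsmul ℝ]
      congr 1
      push_cast
      rfl
    rw [h7, hexp, Finset.smul_sum]
    have hu : om ((N : ℝ) • mt a) ∈ uT (prj δ s) := by
      rw [h6]
      exact Submodule.smul_mem _ _ ha
    refine Submodule.sum_mem _ fun z _ => ?_
    by_cases hz : z.1.1 ∈ s ∧ z.1.2 ∉ s
    · have h8 : c (⟨z.1.1, hz.1⟩, ⟨z.1.2, hz.2⟩, z.2) = (M : ℝ) • om (bl z.1.1 z.1.2 (b z.2)) :=
        (omL (μ × δ)).map_smul _ _
      obtain ⟨n, hn⟩ := (b.mem_span_iff_repr_mem ℤ _).1 ((hb _).1 (hN' z.1.1 z.1.2)) z.2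
      rw [smul_comm, ← h8, ← hn]
      have h9 : (algebraMap ℤ ℝ n) • c (⟨z.1.1, hz.1⟩, ⟨z.1.2, hz.2⟩, z.2) =
          n • c (⟨z.1.1, hz.1⟩, ⟨z.1.2, hz.2⟩, z.2) := by
        rw [algebraMap_int_eq, eq_intCast]
        exact Int.cast_smul_eq_zsmul ℝ n (c (⟨z.1.1, hz.1⟩, ⟨z.1.2, hz.2⟩, z.2))
      rw [h9]
      exact Submodule.smul_mem _ _ (Submodule.subset_span ⟨_, rfl⟩)
    · have h0 : b.repr (blo ((N : ℝ) • mt a) z.1.1 z.1.2) z.2 • om (bl z.1.1 z.1.2 (b z.2)) = 0 := by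
        rw [hzero _ hu _ _ hz, map_zero, Finsupp.zero_apply]
        exact zero_smul ℝ (om (bl z.1.1 z.1.2 (b z.2)))
      rw [h0]
      have h00 : (M : ℝ) • (0 : En (μ × δ) →L[ℝ] En (μ × δ)) = 0 := by
        ext1 x
        exact smul_zero (M : ℝ)
      rw [h00]
      exact Submodule.zero_mem _

theorem lat_S (hD : DivO δ D0) {G : Subgroup (GE (En (μ × δ)))} (hG : G ∈ CC μ D0)
    (s : Finset μ) : Lat G (uS (prj δ s)) := by
  have hc : ∀ x : En (μ × δ), prj δ sᶜ x = x - prj δ s x := by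
    intro x
    ext p
    rw [PiLp.sub_apply, prj_apply, prj_apply]
    by_cases hp : p.1 ∈ s
    · rw [if_neg (by simpa using hp), if_pos hp, sub_self]
    · rw [if_pos (by simpa using hp), if_neg hp, sub_zero]
  have h : uS (prj δ s) = uT (prj δ sᶜ) := by
    ext a
    constructor
    · rintro ⟨h1, h2⟩
      refine ⟨fun x => ?_, fun x => ?_⟩
      · rw [hc, h1, sub_zero]
      · rw [hc, map_sub, h2, sub_self]
    · rintro ⟨h1, h2⟩
      refine ⟨fun x => ?_, fun x => ?_⟩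
      · have h3 := h1 x
        rw [hc, sub_eq_self] at h3
        exact h3
      · have h3 := h2 x
        rw [hc, map_sub, sub_eq_zero] at h3
        exact h3.symm
  rw [h]
  exact lat_T hD hG sᶜ

theorem cc_map (G1 : Subgroup (Matrix.SpecialLinearGroup (μ × δ) ℝ))
    (h1 : G1 ≤ unitI (blkO μ D0)) (h2 : G1.relIndex (unitI (blkO μ D0)) ≠ 0) :
    G1.map (slG (μ × δ)) ∈ CC μ D0 := by
  refine ⟨?_, ?_⟩
  · rintro _ ⟨s, hs, rfl⟩
    have h3 := h1 hs
    refine ⟨⟨1, one_ne_zero, ?_⟩, ⟨1, one_ne_zero, ?_⟩⟩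
    · rw [Nat.cast_one, one_smul]
      change mg (slG (μ × δ) s) ∈ _
      rw [mg_slG]
      exact h3.1
    · rw [Nat.cast_one, one_smul]
      change mg (slG (μ × δ) s)⁻¹ ∈ _
      rw [← map_inv, mg_slG]
      exact h3.2
  · rw [G0, Subgroup.relIndex_map_map_of_injective _ _ slG_inj]
    exact h2

end
end LatLin
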