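import Pool.Agent.Lib.MP_2392aa_gt.L.ArDef
import Pool.Agent.Lib.MP_2392aa_gt.L.Delta

/-!
MP_2392aa_gt, formal linearization, module ArBas (about 220 lines): elementary facts on blocks.

PROOFS. `om` is multiplicative, additive, `om (star A) = adjoint (om A)`; `(om A x) p = ∑ q, A p q * x q`
(`Matrix.toEuclideanCLM`-lemmas, `Matrix.toLpLin_apply`/`Matrix.toEuclideanLin`). So
`(prj δ s x) p = if p.1 ∈ s then x p else 0` (`prj_apply`). `isPr_prj`: from this formula. `big_prj`: given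
`v`, the set of indices `p` with `p.1 ∈ s` has at least two elements `p ≠ p'`; if `v p = 0` take the basis
vector `p`, otherwise `u := v p' • e_p - v p • e_p'`, `u ≠ 0`, `⟪u, v⟫ = 0`.
`rat_mul`: `(M N) x y = (M x) (N y)`, etc. `rat_inv_block`: for `x ∈ D0`-rational block `x ≠ 0` the inverse
is rational: let `M x ∈ D0`, `y := M x`; right (or left) multiplication by `y` on the lattice `D0` has an
integer determinant `N ≠ 0` (it is invertible over `ℝ` as `det y ≠ 0`), by Cayley-Hamilton or the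
adjugate `N • 1 ∈ y D0`, i.e. `N y⁻¹ ∈ D0`; `x⁻¹ = M y⁻¹`. (Use the `ℤ`-basis of `D0` from `IsOrd`; the
matrix of multiplication by `y` in this basis is an integer matrix `A`, and `adj A * A = det A`.)
-/

open scoped ContDiff Topology
open LatN (DivO blo blkO unitI En)

namespace LatLin

section
variable {μ δ : Type*} [Fintype μ] [DecidableEq μ] [Fintype δ] [DecidableEq δ]

theorem mt_om {ν : Type*} [Fintype ν] [DecidableEq ν] (A : Matrix ν ν ℝ) : mt (om A) = A :=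
  (Matrix.toEuclideanCLM (n := ν) (𝕜 := ℝ)).symm_apply_apply A

theorem om_mt {ν : Type*} [Fintype ν] [DecidableEq ν] (a : En ν →L[ℝ] En ν) : om (mt a) = a :=
  (Matrix.toEuclideanCLM (n := ν) (𝕜 := ℝ)).apply_symm_apply a

theorem om_comp {ν : Type*} [Fintype ν] [DecidableEq ν] (A B : Matrix ν ν ℝ) :
    om (A * B) = om A ∘L om B :=
  map_mul (Matrix.toEuclideanCLM (n := ν) (𝕜 := ℝ)) A B

theorem om_apply {ν : Type*} [Fintype ν] [DecidableEq ν] (A : Matrix ν ν ℝ) (x : En ν) (p : ν) :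
    om A x p = ∑ q, A p q * x q := rfl

theorem prj_apply (s : Finset μ) (x : En (μ × δ)) (p : μ × δ) :
    prj δ s x p = if p.1 ∈ s then x p else 0 := by
  unfold prj
  rw [om_apply, Finset.sum_eq_single p]
  · rw [Matrix.diagonal_apply_eq]
    split_ifs <;> simp
  · intro q _ hq
    rw [Matrix.diagonal_apply_ne _ hq.symm, zero_mul]
  · intro h
    exact absurd (Finset.mem_univ _) h

private theorem ab_ext {ν : Type*} [Fintype ν] {x y : En ν} (h : ∀ p, x p = y p) : x = y :=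
  PiLp.ext h

theorem isPr_prj (s : Finset μ) : IsPr (prj δ s) := by
  refine ⟨fun x => ab_ext fun p => ?_, fun x y => ?_⟩
  · rw [prj_apply, prj_apply]
    split_ifs <;> rfl
  · rw [PiLp.inner_apply, PiLp.inner_apply]
    refine Finset.sum_congr rfl fun p _ => ?_
    rw [prj_apply, prj_apply]
    split_ifs
    · rfl
    · rw [inner_zero_left, inner_zero_right]

private theorem ab_single (p q : μ × δ) :
    (EuclideanSpace.single p (1 : ℝ) : En (μ × δ)) q = if q = p then 1 else 0 := by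
  simp

private theorem ab_fix {s : Finset μ} {x : En (μ × δ)} (h : ∀ p, p.1 ∉ s → x p = 0) :
    prj δ s x = x := by
  refine ab_ext fun p => ?_
  rw [prj_apply]
  split_ifs with hp
  · rfl
  · exact (h p hp).symm

private theorem ab_single_fix {s : Finset μ} {p : μ × δ} (h : p.1 ∈ s) :
    prj δ s (EuclideanSpace.single p (1 : ℝ)) = EuclideanSpace.single p (1 : ℝ) := by
  refine ab_fix fun q hq => ?_
  rw [ab_single, if_neg]
  rintro rfl
  exact hq h

private theorem ab_single_ne (p : μ × δ) : (EuclideanSpace.single p (1 : ℝ) : En (μ × δ)) ≠ 0 := by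
  intro h
  have h1 := ab_single p p
  rw [h, if_pos rfl] at h1
  exact zero_ne_one h1

theorem big_prj (s : Finset μ) (h : 2 ≤ s.card * Fintype.card δ) : Big (prj δ s) := by
  intro v
  have hc : 1 < (s ×ˢ (Finset.univ : Finset δ)).card := by
    rw [Finset.card_product, Finset.card_univ]
    omega
  obtain ⟨p, hp, p', hp', hne⟩ := Finset.one_lt_card.1 hc
  rw [Finset.mem_product] at hp hp'
  by_cases hv : v p = 0
  · refine ⟨EuclideanSpace.single p 1, ab_single_fix hp.1, ab_single_ne p, ?_⟩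
    rw [EuclideanSpace.inner_single_left, hv, mul_zero]
  · refine ⟨v p' • EuclideanSpace.single p 1 - v p • EuclideanSpace.single p' 1, ?_, ?_, ?_⟩
    · rw [map_sub, map_smul, map_smul, ab_single_fix hp.1, ab_single_fix hp'.1]
    · intro h0
      have h1 : (v p' • EuclideanSpace.single p 1 - v p • EuclideanSpace.single p' 1 :
          En (μ × δ)) p' = 0 := by rw [h0]; rfl
      have h2 : (v p' • EuclideanSpace.single p 1 - v p • EuclideanSpace.single p' 1 :
          En (μ × δ)) p' = v p' * (EuclideanSpace.single p (1 : ℝ) : En (μ × δ)) p' -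
            v p * (EuclideanSpace.single p' (1 : ℝ) : En (μ × δ)) p' := rfl
      rw [h2, ab_single, ab_single, if_neg hne.symm, if_pos rfl] at h1
      apply hv
      linarith
    · rw [inner_sub_left, inner_smul_left, inner_smul_left, EuclideanSpace.inner_single_left,
        EuclideanSpace.inner_single_left]
      simp
      ring

theorem prj_orth (i j : μ) (h : i ≠ j) (x : En (μ × δ)) : prj δ {i} (prj δ {j} x) = 0 := by
  refine ab_ext fun p => ?_
  rw [prj_apply, prj_apply]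
  simp only [Finset.mem_singleton]
  split_ifs with h1 h2
  · exact absurd (h1.symm.trans h2) h
  · rfl
  · rfl

theorem prj_sum (x : En (μ × δ)) : ∑ i, prj δ {i} x = x := by
  refine ab_ext fun p => ?_
  have h1 : (∑ i, prj δ {i} x : En (μ × δ)) p = ∑ i, prj δ {i} x p :=
    map_sum (EuclideanSpace.proj p : En (μ × δ) →L[ℝ] ℝ) _ _
  rw [h1, Finset.sum_eq_single p.1]
  · rw [prj_apply, if_pos (Finset.mem_singleton_self _)]
  · intro i _ hi
    rw [prj_apply, if_neg]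
    rw [Finset.mem_singleton]
    exact hi.symm
  · intro h
    exact absurd (Finset.mem_univ _) h

theorem ins_prj (s : Finset μ) (i : μ) : Ins (prj δ s) (prj δ {i}) := by
  by_cases hi : i ∈ s
  · left
    intro x
    refine ab_fix fun p hp => ?_
    rw [prj_apply, if_neg]
    rw [Finset.mem_singleton]
    rintro rfl
    exact hp hi
  · right
    intro x
    refine ab_ext fun p => ?_
    rw [prj_apply, prj_apply]
    simp only [Finset.mem_singleton]
    split_ifs with h1 h2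
    · exact absurd (h2 ▸ h1) hi
    · rfl
    · rfl

theorem prj_nonzero [Nonempty δ] {s : Finset μ} (h1 : s.Nonempty) :
    ∃ v : En (μ × δ), v ≠ 0 ∧ prj δ s v = v := by
  obtain ⟨i, hi⟩ := h1
  obtain ⟨d⟩ := ‹Nonempty δ›
  exact ⟨EuclideanSpace.single (i, d) 1, ab_single_ne _, ab_single_fix hi⟩

theorem prj_zero [Nonempty δ] {s : Finset μ} (h1 : s ≠ Finset.univ) :
    ∃ v : En (μ × δ), v ≠ 0 ∧ prj δ s v = 0 := by
  obtain ⟨i, hi⟩ : ∃ i, i ∉ s := by
    by_contra hcon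
    push Not at hcon
    exact h1 (Finset.eq_univ_iff_forall.2 hcon)
  obtain ⟨d⟩ := ‹Nonempty δ›
  refine ⟨EuclideanSpace.single (i, d) 1, ab_single_ne _, ab_ext fun p => ?_⟩
  rw [prj_apply, ab_single]
  split_ifs with h2 h3
  · rw [h3] at h2
    exact absurd h2 hi
  · rfl
  · rfl

private theorem ab_nat {R : Type*} [Ring R] [Module ℝ R] (S : Subring R) {x : R} (hx : x ∈ S)
    (n : ℕ) : (n : ℝ) • x ∈ S := by
  rw [Nat.cast_smul_eq_nsmul]
  exact nsmul_mem hx n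

theorem rat_add {D0 : Subring (Matrix δ δ ℝ)} {x y : Matrix (μ × δ) (μ × δ) ℝ} (hx : Rat D0 x)
    (hy : Rat D0 y) : Rat D0 (x + y) := by
  obtain ⟨M, hM, hx⟩ := hx
  obtain ⟨N, hN, hy⟩ := hy
  refine ⟨M * N, mul_ne_zero hM hN, ?_⟩
  have h : ((M * N : ℕ) : ℝ) • (x + y) = (N : ℝ) • ((M : ℝ) • x) + (M : ℝ) • ((N : ℝ) • y) := by
    rw [smul_smul, smul_smul, smul_add]
    push_cast
    rw [mul_comm (N : ℝ)]
  rw [h]
  exact (blkO μ D0).add_mem (ab_nat _ hx N) (ab_nat _ hy M)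

theorem rat_neg {D0 : Subring (Matrix δ δ ℝ)} {x : Matrix (μ × δ) (μ × δ) ℝ} (hx : Rat D0 x) :
    Rat D0 (-x) := by
  obtain ⟨M, hM, hx⟩ := hx
  refine ⟨M, hM, ?_⟩
  rw [smul_neg]
  exact (blkO μ D0).neg_mem hx

theorem rat_one (D0 : Subring (Matrix δ δ ℝ)) : Rat D0 (1 : Matrix (μ × δ) (μ × δ) ℝ) :=
  ⟨1, one_ne_zero, by
    rw [Nat.cast_one, one_smul]
    exact (blkO μ D0).one_mem⟩

theorem rat_mul {D0 : Subring (Matrix δ δ ℝ)} {x y : Matrix (μ × δ) (μ × δ) ℝ} (hx : Rat D0 x)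
    (hy : Rat D0 y) : Rat D0 (x * y) := by
  obtain ⟨M, hM, hx⟩ := hx
  obtain ⟨N, hN, hy⟩ := hy
  refine ⟨M * N, mul_ne_zero hM hN, ?_⟩
  have h : ((M * N : ℕ) : ℝ) • (x * y) = ((M : ℝ) • x) * ((N : ℝ) • y) := by
    rw [smul_mul_smul_comm, Nat.cast_mul]
  rw [h]
  exact (blkO μ D0).mul_mem hx hy

/-- a matrix is rational if and only if all its blocks are -/
theorem rat_iff {D0 : Subring (Matrix δ δ ℝ)} {x : Matrix (μ × δ) (μ × δ) ℝ} :
    Rat D0 x ↔ ∀ i j, ∃ M : ℕ, M ≠ 0 ∧ (M : ℝ) • blo x i j ∈ D0 := by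
  constructor
  · rintro ⟨M, hM, hx⟩ i j
    exact ⟨M, hM, hx i j⟩
  · intro h
    choose M hM hx using h
    refine ⟨∏ i, ∏ j, M i j, Finset.prod_ne_zero_iff.2 fun i _ => Finset.prod_ne_zero_iff.2
      fun j _ => hM i j, fun i j => ?_⟩
    obtain ⟨c, hc⟩ : M i j ∣ ∏ i, ∏ j, M i j :=
      (Finset.dvd_prod_of_mem (fun j => M i j) (Finset.mem_univ j)).trans
        (Finset.dvd_prod_of_mem (fun i => ∏ j, M i j) (Finset.mem_univ i))
    have h1 : blo (((∏ i, ∏ j, M i j : ℕ) : ℝ) • x) i j = (c : ℝ) • ((M i j : ℝ) • blo x i j) := by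
      rw [hc, smul_smul, Nat.cast_mul, mul_comm]
      rfl
    rw [h1]
    exact ab_nat _ (hx i j) c

private theorem ab_aeval {D0 : Subring (Matrix δ δ ℝ)} {y : Matrix δ δ ℝ} (hy : y ∈ D0)
    (P : Polynomial ℤ) : Polynomial.aeval y P ∈ D0 := by
  rw [Polynomial.aeval_eq_sum_range]
  exact sum_mem fun i _ => zsmul_mem (pow_mem hy i) _

private theorem ab_poly {D0 : Subring (Matrix δ δ ℝ)} {y : Matrix δ δ ℝ} (hy : y ∈ D0)
    (hdet : y.det ≠ 0) : ∀ (n : ℕ) (P : Polynomial ℤ), P ≠ 0 → P.natDegree ≤ n →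
      Polynomial.aeval y P = 0 → ∃ N : ℤ, N ≠ 0 ∧ ∃ z ∈ D0, y * z = N • (1 : Matrix δ δ ℝ) := by
  intro n
  induction n with
  | zero =>
    intro P hP hd h
    have h1 : P.coeff 0 ≠ 0 := by
      intro h0
      apply hP
      rw [Polynomial.eq_C_of_natDegree_le_zero hd, h0, Polynomial.C_0]
    refine ⟨P.coeff 0, h1, 0, D0.zero_mem, ?_⟩
    rw [Polynomial.eq_C_of_natDegree_le_zero hd, Polynomial.aeval_C] at h
    rw [mul_zero, ← h, Algebra.algebraMap_eq_smul_one]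
  | succ n ih =>
    intro P hP hd h
    have h1 : y * Polynomial.aeval y P.divX + P.coeff 0 • (1 : Matrix δ δ ℝ) = 0 := by
      rw [← h]
      conv_rhs => rw [← P.X_mul_divX_add]
      rw [map_add, map_mul, Polynomial.aeval_X, Polynomial.aeval_C, Algebra.algebraMap_eq_smul_one]
    by_cases h0 : P.coeff 0 = 0
    · rw [h0, zero_smul, add_zero] at h1
      have h2 : Polynomial.aeval y P.divX = 0 := by
        have h3 : y⁻¹ * (y * Polynomial.aeval y P.divX) = 0 := by rw [h1, mul_zero]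
        rwa [← mul_assoc, Matrix.nonsing_inv_mul _ (isUnit_iff_ne_zero.2 hdet), one_mul] at h3
      refine ih P.divX ?_ ?_ h2
      · intro h3
        apply hP
        rw [← P.X_mul_divX_add, h3, h0]
        simp
      · rw [Polynomial.natDegree_divX_eq_natDegree_tsub_one]
        omega
    · refine ⟨P.coeff 0, h0, -Polynomial.aeval y P.divX, D0.neg_mem (ab_aeval hy _), ?_⟩
      rw [mul_neg]
      exact (eq_neg_of_add_eq_zero_right h1).symm

private theorem ab_integral {D0 : Subring (Matrix δ δ ℝ)} (hD : LatN.IsOrd δ D0)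
    {y : Matrix δ δ ℝ} (hy : y ∈ D0) : IsIntegral ℤ y := by
  obtain ⟨b, hb⟩ := hD
  refine IsIntegral.of_mem_of_fg (subalgebraOfSubring D0) ?_ y hy
  have h1 : (subalgebraOfSubring D0).toSubmodule = Submodule.span ℤ (Set.range b) := by
    ext x
    exact hb x
  rw [h1]
  exact Submodule.fg_span (Set.finite_range b)

theorem rat_inv_block {D0 : Subring (Matrix δ δ ℝ)} (hD : DivO δ D0) {x : Matrix δ δ ℝ} (hx : x ≠ 0)
    (h : ∃ M : ℕ, M ≠ 0 ∧ (M : ℝ) • x ∈ D0) :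
    x.det ≠ 0 ∧ ∃ M : ℕ, M ≠ 0 ∧ (M : ℝ) • x⁻¹ ∈ D0 := by
  obtain ⟨M, hM, hy⟩ := h
  have hM' : (M : ℝ) ≠ 0 := Nat.cast_ne_zero.2 hM
  have hy0 : (M : ℝ) • x ≠ 0 := smul_ne_zero hM' hx
  have hdy := hD.div _ hy hy0
  have hdx : x.det ≠ 0 := by
    intro h0
    apply hdy
    rw [Matrix.det_smul, h0, mul_zero]
  refine ⟨hdx, ?_⟩
  obtain ⟨P, hP, hPy⟩ := ab_integral hD.ord hy
  obtain ⟨N, hN, z, hz, hyz⟩ := ab_poly hy hdy P.natDegree P hP.ne_zero le_rfl hPy
  refine ⟨N.natAbs, Int.natAbs_ne_zero.2 hN, ?_⟩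
  have h1 : (N : ℝ) • x⁻¹ = (M : ℝ) • z := by
    have h2 : x⁻¹ * (((M : ℝ) • x) * z) = x⁻¹ * (N • (1 : Matrix δ δ ℝ)) := by rw [hyz]
    rw [← mul_assoc, Matrix.mul_smul, Matrix.nonsing_inv_mul _ (isUnit_iff_ne_zero.2 hdx),
      Matrix.smul_mul, one_mul] at h2
    rw [h2, ← Int.cast_smul_eq_zsmul ℝ, Matrix.mul_smul, mul_one]
  have h2 : (N : ℝ) • x⁻¹ ∈ D0 := by
    rw [h1]
    exact ab_nat _ hz M
  rcases Int.natAbs_eq N with h3 | h3
  · rw [h3] at h2
    exact_mod_cast h2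
  · rw [h3, Int.cast_neg, Int.cast_natCast, neg_smul] at h2
    have h4 := D0.neg_mem h2
    rwa [neg_neg] at h4

theorem gq_mul {D0 : Subring (Matrix δ δ ℝ)} {g h : GE (En (μ × δ))} (hg : g ∈ GQ μ D0)
    (hh : h ∈ GQ μ D0) : g * h ∈ GQ μ D0 := by
  have key : ∀ a b : GE (En (μ × δ)), mt ((a * b : GE (En (μ × δ))) : En (μ × δ) →L[ℝ] En (μ × δ)) =
      mt (a : En (μ × δ) →L[ℝ] En (μ × δ)) * mt (b : En (μ × δ) →L[ℝ] En (μ × δ)) := by
    intro a b
    have e : ((a * b : GE (En (μ × δ))) : En (μ × δ) →L[ℝ] En (μ × δ)) =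
      (a : En (μ × δ) →L[ℝ] En (μ × δ)) * (b : En (μ × δ) →L[ℝ] En (μ × δ)) := rfl
    rw [e]
    exact map_mul (Matrix.toEuclideanCLM (n := μ × δ) (𝕜 := ℝ)).symm
      (a : En (μ × δ) →L[ℝ] En (μ × δ)) (b : En (μ × δ) →L[ℝ] En (μ × δ))
  refine ⟨?_, ?_⟩
  · rw [key]
    exact rat_mul hg.1 hh.1
  · rw [mul_inv_rev, key]
    exact rat_mul hh.2 hg.2

theorem gq_inv {D0 : Subring (Matrix δ δ ℝ)} {g : GE (En (μ × δ))} (hg : g ∈ GQ μ D0) :
    g⁻¹ ∈ GQ μ D0 := by
  refine ⟨hg.2, ?_⟩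
  rw [inv_inv]
  exact hg.1

theorem gq_tw {D0 : Subring (Matrix δ δ ℝ)} {A : Matrix (μ × δ) (μ × δ) ℝ} (h : A * A = 0)
    (hA : Rat D0 A) : tw (om A) ∈ GQ μ D0 := by
  have h0 : om A ∘L om A = 0 := by
    rw [← om_comp, h]
    exact map_zero (Matrix.toEuclideanCLM (n := μ × δ) (𝕜 := ℝ))
  have h1 : ((tw (om A) : GE (En (μ × δ))) : En (μ × δ) →L[ℝ] En (μ × δ)) = om (1 + A) := by
    ext1 x
    have e1 : om (1 + A) = om (1 : Matrix (μ × δ) (μ × δ) ℝ) + om A :=
      map_add (Matrix.toEuclideanCLM (n := μ × δ) (𝕜 := ℝ)) _ _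
    have e2 : om (1 : Matrix (μ × δ) (μ × δ) ℝ) = 1 :=
      map_one (Matrix.toEuclideanCLM (n := μ × δ) (𝕜 := ℝ))
    rw [e1, e2]
    exact tw_apply h0 x
  have h2 : (((tw (om A))⁻¹ : GE (En (μ × δ))) : En (μ × δ) →L[ℝ] En (μ × δ)) = om (1 + -A) := by
    ext1 x
    have e1 : om (1 + -A) = om (1 : Matrix (μ × δ) (μ × δ) ℝ) + om (-A) :=
      map_add (Matrix.toEuclideanCLM (n := μ × δ) (𝕜 := ℝ)) _ _
    have e2 : om (1 : Matrix (μ × δ) (μ × δ) ℝ) = 1 :=
      map_one (Matrix.toEuclideanCLM (n := μ × δ) (𝕜 := ℝ))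
    have e3 : om (-A) = -om A := map_neg (Matrix.toEuclideanCLM (n := μ × δ) (𝕜 := ℝ)) _
    rw [e1, e2, e3, ← sub_eq_add_neg]
    exact tw_inv_apply h0 x
  refine ⟨?_, ?_⟩
  · rw [h1, mt_om]
    exact rat_add (rat_one D0) hA
  · rw [h2, mt_om]
    exact rat_add (rat_one D0) (rat_neg hA)

end
end LatLin
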