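import Pool.Agent.Lib.MP_2392aa_gt.L.ArDef

/-!
MP_2392aa_gt, formal linearization, module ArCoc (about 350 lines): the unit group of a division order
is cocompact in `SL_d(ℝ)`.

PROOF. `D0 ⊆ M_d(ℝ)` is the integer span of a real basis `b` (`IsOrd`), nonzero elements have nonzero
determinant.
(1) MINKOWSKI. There is a `C` such that for every `g ∈ SL_d(ℝ)` there is `a ∈ D0`, `a ≠ 0`, with all entries
of `g a` at most `C` in absolute value: the map `x ↦ g x` of `M_d(ℝ) = ℝ ^ (d × d)` has determinant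
`(det g) ^ d = 1` (block diagonal on columns), so the lattice `g D0` has the same covolume as `D0`; apply
Minkowski's theorem (`MeasureTheory.exists_ne_zero_mem_lattice_of_measure_mul_two_pow_lt_measure`
with the fundamental domain of the basis `g b_p`, `ZSpan.isAddFundamentalDomain`,
`ZSpan.measure_fundamentalDomain`..) to the cube of side `2 C`. Alternative without volumes:
pigeonhole. (Equivalent formulation in coordinates with respect to `b`: a real matrix of fixed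
determinant maps some nonzero integer vector to a bounded vector.)
(2) For `a ∈ D0`, `a ≠ 0`: right multiplication `x ↦ x a` maps `D0` to `D0`; its matrix in the basis `b` is an
integer matrix `A` with `det A = (det a) ^ d` (up to sign/transposition; determinant of
`x ↦ x a` on `M_d(ℝ)`), a nonzero integer; so `|det a| ≥ 1`. With `N := |det A|`: `adj A` gives
`N • 1 ∈ D0 a` (there is `y ∈ D0` with `y a = N • 1`), so `N D0 ⊆ D0 a`.
(3) FINITENESS. For given `C'` the left ideals `D0 a`, `a ∈ D0`, `0 < |det a| ≤ C'`, are finitely many: with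
`N0 := (⌈C' ^ d⌉)!` every such ideal contains `N0 D0`, and `D0 / N0 D0` is finite (finitely generated),
so it has finitely many subsets. If `D0 a = D0 a'` and `det a`, `det a'` have the same sign then
`a = γ a'` with `γ, γ⁻¹ ∈ D0` (`γ = a a'⁻¹`), `|det γ| = 1` by (2) applied to `γ` and `γ⁻¹`, so `det γ = 1`:
`γ ∈ unitI D0`. So there is a finite set of elements `a_i` such that every `a` with
`0 < |det a| ≤ C'` is `γ a_i` with `γ ∈ unitI D0`.
(4) For `g ∈ SL_d(ℝ)` take `a` from (1): `|det a| = |det (g a)| ≤ C' := d ! C ^ d`, `a = γ a_i`, so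
`g γ = (g a) a_i⁻¹` is bounded. This is the claim with `H = unitI D0` (for `γ⁻¹`). For `H` of finite index
in `unitI D0`: `γ⁻¹ = c h`, `h ∈ H`, `c` from a finite set of representatives,
`g h⁻¹ = g γ c` is bounded.
-/

open scoped ContDiff Topology Nat
open LatN (DivO blo blkO unitI En)

namespace LatLin

section aux

open MeasureTheory Metric

/-- Minkowski in coordinates -/
private theorem mink {ι : Type*} [Fintype ι] [DecidableEq ι] [Nonempty ι]
    (b : Module.Basis ι ℝ (ι → ℝ)) :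
    ∃ C : ℝ, 0 ≤ C ∧ ∀ T : (ι → ℝ) →ₗ[ℝ] (ι → ℝ), |LinearMap.det T| = 1 →
      ∃ x ∈ Submodule.span ℤ (Set.range b), x ≠ 0 ∧ ∀ i, |T x i| ≤ C := by
  have hfin : volume (ZSpan.fundamentalDomain b) ≠ ⊤ :=
    (ZSpan.fundamentalDomain_isBounded b).measure_lt_top.ne
  set m : ℝ := (volume (ZSpan.fundamentalDomain b)).toReal with hm
  have hm0 : 0 ≤ m := ENNReal.toReal_nonneg
  refine ⟨m + 1, by positivity, fun T hT => ?_⟩
  have hdet : LinearMap.det T ≠ 0 := by
    intro h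
    rw [h, abs_zero] at hT
    exact zero_ne_one hT
  set s : Set (ι → ℝ) := T ⁻¹' closedBall 0 (m + 1) with hs
  have hcount : Countable ((Submodule.span ℤ (Set.range b)).toAddSubgroup) :=
    (inferInstance : Countable (Submodule.span ℤ (Set.range b)))
  have hsymm : ∀ x ∈ s, -x ∈ s := by
    intro x hx
    rw [hs, Set.mem_preimage, mem_closedBall_zero_iff] at hx ⊢
    rwa [map_neg, norm_neg]
  have hconv : Convex ℝ s := (convex_closedBall (0 : ι → ℝ) (m + 1)).linear_preimage T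
  have hvol : volume (ZSpan.fundamentalDomain b) * 2 ^ Module.finrank ℝ (ι → ℝ) < volume s := by
    rw [hs, Measure.addHaar_preimage_linearMap volume hdet, abs_inv, hT, inv_one,
      ENNReal.ofReal_one, one_mul, Real.volume_pi_closedBall _ (by positivity),
      Module.finrank_pi, mul_pow, ENNReal.ofReal_mul (by positivity),
      ENNReal.ofReal_pow (by norm_num), mul_comm]
    have h2 : ENNReal.ofReal 2 = 2 := by simp
    rw [h2]
    refine ENNReal.mul_lt_mul_right (by simp) (by finiteness) ?_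
    rw [← ENNReal.ofReal_toReal hfin, ← hm]
    refine (ENNReal.ofReal_lt_ofReal_iff (by positivity)).2 ?_
    calc m < m + 1 := by linarith
      _ = (m + 1) ^ 1 := (pow_one _).symm
      _ ≤ (m + 1) ^ Fintype.card ι := pow_le_pow_right₀ (by linarith) Fintype.card_pos
  obtain ⟨x, hx0, hx⟩ := exists_ne_zero_mem_lattice_of_measure_mul_two_pow_lt_measure
    (ZSpan.isAddFundamentalDomain' b volume) hsymm hconv hvol
  refine ⟨x, x.2, fun h => hx0 (Subtype.ext h), fun i => ?_⟩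
  rw [hs, Set.mem_preimage, mem_closedBall_zero_iff] at hx
  exact (norm_le_pi_norm (T x) i).trans hx

/-- the matrix of a linear map preserving the lattice has integer entries -/
private theorem intm {ι V : Type*} [Fintype ι] [DecidableEq ι] [AddCommGroup V] [Module ℝ V]
    (b : Module.Basis ι ℝ V) (T : V →ₗ[ℝ] V)
    (hT : ∀ x ∈ Submodule.span ℤ (Set.range b), T x ∈ Submodule.span ℤ (Set.range b)) :
    ∃ A : Matrix ι ι ℤ, LinearMap.toMatrix b b T = A.map (Int.cast : ℤ → ℝ) := by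
  have h : ∀ i j, ∃ n : ℤ, LinearMap.toMatrix b b T i j = (n : ℝ) := by
    intro i j
    have h1 := hT (b j) (Submodule.subset_span ⟨j, rfl⟩)
    rw [b.mem_span_iff_repr_mem ℤ] at h1
    obtain ⟨n, hn⟩ := h1 i
    exact ⟨n, by rw [LinearMap.toMatrix_apply, ← hn]; simp⟩
  choose A hA using h
  exact ⟨A, by ext i j; rw [hA]; rfl⟩

/-- for a nonsingular linear map preserving the lattice, multiples of a lattice vector are in the
image -/
private theorem intadj {ι V : Type*} [Fintype ι] [DecidableEq ι] [AddCommGroup V] [Module ℝ V]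
    (b : Module.Basis ι ℝ V) (T : V →ₗ[ℝ] V) (hd : LinearMap.det T ≠ 0)
    (hT : ∀ x ∈ Submodule.span ℤ (Set.range b), T x ∈ Submodule.span ℤ (Set.range b))
    (v : V) (hv : v ∈ Submodule.span ℤ (Set.range b)) :
    ∃ N : ℤ, N ≠ 0 ∧ ∃ y ∈ Submodule.span ℤ (Set.range b), T y = N • v := by
  obtain ⟨A, hA⟩ := intm b T hT
  have hdet : (A.det : ℝ) = LinearMap.det T := by
    rw [← LinearMap.det_toMatrix b T, hA]
    exact (Int.castRingHom ℝ).map_det A
  refine ⟨A.det, fun h => hd (by rw [← hdet, h]; simp), ?_⟩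
  set B : Matrix ι ι ℝ := A.adjugate.map (Int.cast : ℤ → ℝ) with hB
  have hS : ∀ x ∈ Submodule.span ℤ (Set.range b),
      Matrix.toLin b b B x ∈ Submodule.span ℤ (Set.range b) := by
    intro x hx
    refine Submodule.span_induction ?_ ?_ ?_ ?_ hx
    · rintro _ ⟨j, rfl⟩
      rw [Matrix.toLin_self]
      refine Submodule.sum_mem _ fun i _ => ?_
      have h1 : B i j • b i = A.adjugate i j • b i := by
        rw [hB, Matrix.map_apply, Int.cast_smul_eq_zsmul]
      rw [h1]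
      exact Submodule.smul_mem _ _ (Submodule.subset_span ⟨i, rfl⟩)
    · rw [map_zero]
      exact Submodule.zero_mem _
    · intro x y _ _ h1 h2
      rw [map_add]
      exact Submodule.add_mem _ h1 h2
    · intro n x _ h1
      rw [map_zsmul]
      exact Submodule.smul_mem _ _ h1
  refine ⟨Matrix.toLin b b B v, hS v hv, ?_⟩
  have h1 : T ∘ₗ Matrix.toLin b b B = (A.det : ℝ) • LinearMap.id := by
    apply (LinearMap.toMatrix b b).injective
    rw [LinearMap.toMatrix_comp b b b, LinearMap.toMatrix_toLin, hA, map_smul,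
      LinearMap.toMatrix_id, hB]
    have h2 : (A * A.adjugate).map (Int.cast : ℤ → ℝ) = ((A.det) • (1 : Matrix ι ι ℤ)).map
        (Int.cast : ℤ → ℝ) := by rw [Matrix.mul_adjugate]
    have h3 : (A * A.adjugate).map (Int.cast : ℤ → ℝ)
        = A.map (Int.cast : ℤ → ℝ) * A.adjugate.map (Int.cast : ℤ → ℝ) :=
      (Matrix.map_mul (f := Int.castRingHom ℝ))
    rw [← h3, h2]
    ext i j
    rw [Matrix.map_apply, Matrix.smul_apply, Matrix.smul_apply]
    by_cases hij : i = j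
    · subst hij
      rw [Matrix.one_apply_eq, Matrix.one_apply_eq, smul_eq_mul, smul_eq_mul, mul_one, mul_one]
    · rw [Matrix.one_apply_ne hij, Matrix.one_apply_ne hij, smul_zero, smul_zero, Int.cast_zero]
  have h2 := LinearMap.congr_fun h1 v
  rw [LinearMap.comp_apply, LinearMap.smul_apply, LinearMap.id_apply, Int.cast_smul_eq_zsmul] at h2
  exact h2

end aux

section mats

variable {δ : Type*} [Fintype δ] [DecidableEq δ]

/-- left multiplication -/
private noncomputable def LM (A : Matrix δ δ ℝ) : Matrix δ δ ℝ →ₗ[ℝ] Matrix δ δ ℝ :=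
  LinearMap.mulLeft ℝ A

/-- right multiplication -/
private noncomputable def RM (A : Matrix δ δ ℝ) : Matrix δ δ ℝ →ₗ[ℝ] Matrix δ δ ℝ :=
  LinearMap.mulRight ℝ A

private theorem det_LM (A : Matrix δ δ ℝ) :
    LinearMap.det (LM A) = A.det ^ Fintype.card δ := by
  rw [← LinearMap.det_toMatrix (Matrix.stdBasis ℝ δ δ)]
  have h : LinearMap.toMatrix (Matrix.stdBasis ℝ δ δ) (Matrix.stdBasis ℝ δ δ) (LM A)
      = Matrix.kroneckerMap (fun x y => x * y) A (1 : Matrix δ δ ℝ) := by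
    ext ⟨i, j⟩ ⟨k, l⟩
    rw [LinearMap.toMatrix_apply, Matrix.stdBasis_eq_single, LM, LinearMap.mulLeft_apply]
    simp [Matrix.stdBasis, Matrix.mul_apply, Matrix.single_apply, Matrix.one_apply]
    by_cases hjl : j = l
    · subst hjl
      simp
    · rw [if_neg hjl]
      refine Finset.sum_eq_zero fun x _ => if_neg fun h => hjl h.2.symm
  rw [h]
  have h2 := Matrix.det_kronecker A (1 : Matrix δ δ ℝ)
  rw [Matrix.det_one, one_pow, mul_one] at h2
  exact h2

private theorem det_RM (A : Matrix δ δ ℝ) :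
    LinearMap.det (RM A) = A.det ^ Fintype.card δ := by
  rw [← LinearMap.det_toMatrix (Matrix.stdBasis ℝ δ δ)]
  have h : LinearMap.toMatrix (Matrix.stdBasis ℝ δ δ) (Matrix.stdBasis ℝ δ δ) (RM A)
      = Matrix.kroneckerMap (fun x y => x * y) (1 : Matrix δ δ ℝ) A.transpose := by
    ext ⟨i, j⟩ ⟨k, l⟩
    rw [LinearMap.toMatrix_apply, Matrix.stdBasis_eq_single, RM, LinearMap.mulRight_apply]
    simp [Matrix.stdBasis, Matrix.mul_apply, Matrix.single_apply, Matrix.one_apply]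
    by_cases hik : i = k
    · subst hik
      simp
    · rw [if_neg hik]
      refine Finset.sum_eq_zero fun x _ => if_neg fun h => hik h.1.symm
  rw [h]
  have h2 := Matrix.det_kronecker (1 : Matrix δ δ ℝ) A.transpose
  rw [Matrix.det_one, one_pow, one_mul, Matrix.det_transpose] at h2
  exact h2

/-- Minkowski for matrices -/
private theorem minkM [Nonempty δ] {D0 : Subring (Matrix δ δ ℝ)} (hD : LatN.IsOrd δ D0) :
    ∃ C : ℝ, 0 ≤ C ∧ ∀ T : Matrix δ δ ℝ →ₗ[ℝ] Matrix δ δ ℝ, |LinearMap.det T| = 1 →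
      ∃ x ∈ D0, x ≠ 0 ∧ ∀ i j, |T x i j| ≤ C := by
  obtain ⟨b, hb⟩ := hD
  set ph : Matrix δ δ ℝ ≃ₗ[ℝ] (δ × δ → ℝ) := (LinearEquiv.curry ℝ ℝ δ δ).symm with hph
  have hpa : ∀ (x : Matrix δ δ ℝ) (p : δ × δ), ph x p = x p.1 p.2 := fun _ _ => rfl
  obtain ⟨C, hC0, hC⟩ := mink (b.map ph)
  refine ⟨C, hC0, fun T hT => ?_⟩
  obtain ⟨x, hx, hx0, hxC⟩ := hC (ph.toLinearMap ∘ₗ T ∘ₗ ph.symm.toLinearMap) (by
    rw [LinearMap.det_conj]
    exact hT)
  refine ⟨ph.symm x, ?_, fun h => hx0 ?_, fun i j => ?_⟩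
  · rw [hb, b.mem_span_iff_repr_mem ℤ]
    rw [(b.map ph).mem_span_iff_repr_mem ℤ] at hx
    exact hx
  · rw [← ph.apply_symm_apply x, h, map_zero]
  · exact hxC (i, j)

/-- bounded sets of the order are finite -/
private theorem finO {D0 : Subring (Matrix δ δ ℝ)} (hD : LatN.IsOrd δ D0) (K : ℝ) :
    {c : Matrix δ δ ℝ | c ∈ D0 ∧ ∀ i j, |c i j| ≤ K}.Finite := by
  obtain ⟨b, hb⟩ := hD
  set ph : Matrix δ δ ℝ ≃ₗ[ℝ] (δ × δ → ℝ) := (LinearEquiv.curry ℝ ℝ δ δ).symm with hph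
  have h1 := ZSpan.setFinite_inter (b.map ph) (Metric.isBounded_closedBall (x := (0 : δ × δ → ℝ))
    (r := max K 0))
  refine (h1.image ph.symm).subset ?_
  rintro c ⟨hc1, hc2⟩
  refine ⟨ph c, ⟨?_, ?_⟩, ph.symm_apply_apply c⟩
  · rw [mem_closedBall_zero_iff, pi_norm_le_iff_of_nonneg (le_max_right _ _)]
    exact fun p => (hc2 p.1 p.2).trans (le_max_left _ _)
  · rw [hb, b.mem_span_iff_repr_mem ℤ] at hc1
    rw [SetLike.mem_coe, (b.map ph).mem_span_iff_repr_mem ℤ]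
    intro i
    rw [Module.Basis.map_repr, LinearEquiv.trans_apply, ph.symm_apply_apply]
    exact hc1 i

/-- elements of the order divide integers -/
private theorem divN {D0 : Subring (Matrix δ δ ℝ)} (hD : DivO δ D0) (c : Matrix δ δ ℝ)
    (hc : c ∈ D0) (hc0 : c ≠ 0) : ∃ N : ℤ, N ≠ 0 ∧ ∃ y ∈ D0, y * c = N • (1 : Matrix δ δ ℝ) := by
  obtain ⟨b, hb⟩ := hD.ord
  have hd : LinearMap.det (RM c) ≠ 0 := by
    rw [det_RM]
    exact pow_ne_zero _ (hD.div c hc hc0)
  obtain ⟨N, hN, y, hy, hyc⟩ := intadj b (RM c) hd (fun x hx => by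
    rw [← hb] at hx ⊢
    exact D0.mul_mem hx hc) 1 ((hb _).1 D0.one_mem)
  exact ⟨N, hN, y, (hb _).2 hy, hyc⟩

/-- determinants of units of the order -/
private theorem detU {D0 : Subring (Matrix δ δ ℝ)} (hD : LatN.IsOrd δ D0) (x y : Matrix δ δ ℝ)
    (hx : x ∈ D0) (hy : y ∈ D0) (hxy : x * y = 1) (h0 : 0 < x.det) : x.det = 1 := by
  obtain ⟨b, hb⟩ := hD
  rcases isEmpty_or_nonempty δ with he | hne
  · exact Matrix.det_isEmpty
  have key : ∀ z ∈ D0, ∃ n : ℤ, z.det ^ Fintype.card δ = (n : ℝ) := by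
    intro z hz
    obtain ⟨A, hA⟩ := intm b (RM z) (fun w hw => by
      rw [← hb] at hw ⊢
      exact D0.mul_mem hw hz)
    refine ⟨A.det, ?_⟩
    rw [← det_RM, ← LinearMap.det_toMatrix b (RM z), hA]
    exact ((Int.castRingHom ℝ).map_det A).symm
  obtain ⟨n, hn⟩ := key x hx
  obtain ⟨k, hk⟩ := key y hy
  have h1 : n * k = 1 := by
    have h2 : ((n * k : ℤ) : ℝ) = ((1 : ℤ) : ℝ) := by
      rw [Int.cast_mul, ← hn, ← hk, ← mul_pow, ← Matrix.det_mul, hxy, Matrix.det_one, one_pow,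
        Int.cast_one]
    exact_mod_cast h2
  have h3 : 0 < n := by
    have h4 : (0 : ℝ) < (n : ℝ) := by
      rw [← hn]
      exact pow_pos h0 _
    exact_mod_cast h4
  have h5 : n = 1 := by
    rcases Int.mul_eq_one_iff_eq_one_or_neg_one.1 h1 with h | h
    · exact h.1
    · omega
  rw [h5, Int.cast_one] at hn
  exact (pow_eq_one_iff_of_nonneg h0.le Fintype.card_ne_zero).1 hn

/-- the residue classes of a left ideal -/
private def cls {D0 : Subring (Matrix δ δ ℝ)} (b : Module.Basis (δ × δ) ℝ (Matrix δ δ ℝ))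
    (N : ℕ) (a : Matrix δ δ ℝ) : Set (δ × δ → ZMod N) :=
  {v | ∃ y ∈ D0, ∃ n : δ × δ → ℤ, (∀ p, b.repr (y * a) p = (n p : ℝ)) ∧
    ∀ p, ((n p : ℤ) : ZMod N) = v p}

private theorem cls_mem {D0 : Subring (Matrix δ δ ℝ)} (b : Module.Basis (δ × δ) ℝ (Matrix δ δ ℝ))
    (hb : ∀ x, x ∈ D0 ↔ x ∈ Submodule.span ℤ (Set.range b)) (N : ℕ)
    (a a' : Matrix δ δ ℝ) (ha : a ∈ D0)
    (hz : ∃ z ∈ D0, z * a' = (N : ℤ) • (1 : Matrix δ δ ℝ))
    (h : cls (D0 := D0) b N a = cls (D0 := D0) b N a') : ∃ γ ∈ D0, a = γ * a' := by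
  have h1 := ha
  rw [hb, b.mem_span_iff_repr_mem ℤ] at h1
  choose n hn using h1
  have h2 : (fun p => ((n p : ℤ) : ZMod N)) ∈ cls (D0 := D0) b N a := by
    refine ⟨1, D0.one_mem, n, fun p => ?_, fun p => rfl⟩
    rw [one_mul, ← hn]
    simp
  rw [h] at h2
  obtain ⟨y, hy, k, hk, hkn⟩ := h2
  have h3 : ∀ p, ∃ w : ℤ, n p - k p = N * w := by
    intro p
    have h4 : ((n p - k p : ℤ) : ZMod N) = 0 := by
      rw [Int.cast_sub, hkn p, sub_self]
    exact (ZMod.intCast_zmod_eq_zero_iff_dvd _ _).1 h4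
  choose w hw using h3
  obtain ⟨z, hz, hza⟩ := hz
  set W : Matrix δ δ ℝ := ∑ p, w p • b p with hW
  have hWm : W ∈ D0 := by
    rw [hb, hW]
    exact Submodule.sum_mem _ fun p _ =>
      Submodule.smul_mem _ _ (Submodule.subset_span ⟨p, rfl⟩)
  have h5 : a - y * a' = (N : ℤ) • W := by
    apply b.repr.injective
    ext p
    rw [map_sub, Finsupp.sub_apply, hk, map_zsmul, Finsupp.smul_apply, hW, map_sum,
      Finsupp.finsetSum_apply]
    have h6 : ∀ q, (b.repr (w q • b q)) p = if q = p then (w q : ℝ) else 0 := by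
      intro q
      rw [map_zsmul, Finsupp.smul_apply, Module.Basis.repr_self, Finsupp.single_apply]
      split_ifs <;> simp
    rw [Finset.sum_congr rfl fun q _ => h6 q, Finset.sum_ite_eq' , if_pos (Finset.mem_univ _),
      ← hn]
    have h7 := hw p
    have h8 : ((n p : ℤ) : ℝ) - (k p : ℝ) = (N : ℝ) * (w p : ℝ) := by exact_mod_cast h7
    simpa using h8
  refine ⟨y + W * z, D0.add_mem hy (D0.mul_mem hWm hz), ?_⟩
  rw [add_mul, mul_assoc, hza, mul_smul_comm, mul_one, ← h5]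
  abel

omit [DecidableEq δ] in
private theorem ent (x y : Matrix δ δ ℝ) (K L : ℝ) (hK : 0 ≤ K) (hx : ∀ i j, |x i j| ≤ K)
    (hy : ∀ i j, |y i j| ≤ L) (i j : δ) : |(x * y) i j| ≤ Fintype.card δ * (K * L) := by
  rw [Matrix.mul_apply]
  refine (Finset.abs_sum_le_sum_abs _ _).trans ?_
  refine (Finset.sum_le_sum (g := fun _ => K * L) fun l _ => ?_).trans ?_
  · rw [abs_mul]
    exact mul_le_mul (hx i l) (hy l j) (abs_nonneg _) hK
  · rw [Finset.sum_const, Finset.card_univ, nsmul_eq_mul]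

private theorem cocU [Nonempty δ] {D0 : Subring (Matrix δ δ ℝ)} (hD : DivO δ D0) :
    ∃ R : ℝ, 0 ≤ R ∧ ∀ g : Matrix.SpecialLinearGroup δ ℝ, ∃ γ ∈ unitI D0,
      ∀ i j, |(g * γ).1 i j| ≤ R := by
  classical
  obtain ⟨C, hC0, hC⟩ := minkM hD.ord
  have hord := hD.ord
  obtain ⟨b, hb⟩ := hD.ord
  set F : Set (Matrix δ δ ℝ) := {c | c ∈ D0 ∧ ∀ i j, |c i j| ≤ Fintype.card δ * (C * C)} with hF
  have hFf : F.Finite := finO hord _
  have h1 : ∀ c : Matrix δ δ ℝ, ∃ N : ℕ, N ≠ 0 ∧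
      (c ∈ D0 → c ≠ 0 → ∃ y ∈ D0, y * c = (N : ℤ) • (1 : Matrix δ δ ℝ)) := by
    intro c
    by_cases h : c ∈ D0 ∧ c ≠ 0
    · obtain ⟨N, hN, y, hy, hyc⟩ := divN hD c h.1 h.2
      refine ⟨N.natAbs, Int.natAbs_ne_zero.2 hN, fun _ _ => ?_⟩
      rcases abs_choice N with hn | hn
      · refine ⟨y, hy, ?_⟩
        rw [hyc, Int.natCast_natAbs, hn]
      · refine ⟨-y, D0.neg_mem hy, ?_⟩
        rw [neg_mul, hyc, Int.natCast_natAbs, hn, neg_smul]
    · exact ⟨1, one_ne_zero, fun h2 h3 => absurd ⟨h2, h3⟩ h⟩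
  choose Nc hNc0 hNc using h1
  set N0 : ℕ := ∏ c ∈ hFf.toFinset, Nc c with hN0d
  have hN0 : N0 ≠ 0 := Finset.prod_ne_zero_iff.2 fun c _ => hNc0 c
  have : NeZero N0 := ⟨hN0⟩
  let good : Matrix δ δ ℝ → Prop := fun a => a ∈ D0 ∧ a.det ≠ 0 ∧
    ∃ z ∈ D0, z * a = (N0 : ℤ) • (1 : Matrix δ δ ℝ)
  have hgood : ∀ g : Matrix.SpecialLinearGroup δ ℝ, ∃ a, good a ∧
      ∀ i j, |(g.1 * a) i j| ≤ C := by
    intro g
    obtain ⟨a, ha, ha0, haC⟩ := hC (LM g.1) (by
      rw [det_LM, g.2, one_pow, abs_one])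
    obtain ⟨c, hc, hc0, hcC⟩ := hC (RM g⁻¹.1) (by
      rw [det_RM, g⁻¹.2, one_pow, abs_one])
    have hda := hD.div a ha ha0
    have hdc := hD.div c hc hc0
    have hca : (c * g⁻¹.1) * (g.1 * a) = c * a := by
      rw [mul_assoc, ← mul_assoc g⁻¹.1, ← Matrix.SpecialLinearGroup.coe_mul, inv_mul_cancel,
        Matrix.SpecialLinearGroup.coe_one, one_mul]
    have hcaF : c * a ∈ F := by
      refine ⟨D0.mul_mem hc ha, fun i j => ?_⟩
      rw [← hca]
      exact ent _ _ C C hC0 hcC haC i j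
    have hca0 : c * a ≠ 0 := by
      intro h
      have h2 : (c * a).det = 0 := by rw [h, Matrix.det_zero]
      rw [Matrix.det_mul] at h2
      exact (mul_ne_zero hdc hda) h2
    obtain ⟨y, hy, hyca⟩ := hNc (c * a) (D0.mul_mem hc ha) hca0
    obtain ⟨q, hq⟩ : Nc (c * a) ∣ N0 := Finset.dvd_prod_of_mem _ (hFf.mem_toFinset.2 hcaF)
    refine ⟨a, ⟨ha, hda, (q : ℤ) • (y * c), D0.zsmul_mem (D0.mul_mem hy hc) _, ?_⟩, haC⟩
    rw [smul_mul_assoc, mul_assoc, hyca, smul_smul, hq, Nat.cast_mul, mul_comm]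
  let key : Matrix δ δ ℝ → Set (δ × δ → ZMod N0) × Prop :=
    fun a => (cls (D0 := D0) b N0 a, 0 < a.det)
  have hrep : ∀ k, ∃ r : Matrix δ δ ℝ, (∃ a, good a ∧ key a = k) → good r ∧ key r = k := by
    intro k
    by_cases h : ∃ a, good a ∧ key a = k
    · obtain ⟨a, h⟩ := h
      exact ⟨a, fun _ => h⟩
    · exact ⟨0, fun h' => absurd h' h⟩
  choose rep hrep using hrep
  obtain ⟨B, hB⟩ := (Set.finite_range (fun p : (Set (δ × δ → ZMod N0) × Prop) × δ × δ =>
    |(rep p.1)⁻¹ p.2.1 p.2.2|)).bddAbove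
  have hB' : ∀ k i j, |(rep k)⁻¹ i j| ≤ max B 0 := fun k i j =>
    (hB ⟨(k, i, j), rfl⟩).trans (le_max_left _ _)
  refine ⟨Fintype.card δ * (C * max B 0), by positivity, fun g => ?_⟩
  obtain ⟨a, hag, haC⟩ := hgood g
  obtain ⟨hrg, hrk⟩ := hrep (key a) ⟨a, hag, rfl⟩
  set r := rep (key a) with hr
  have hcls : cls (D0 := D0) b N0 r = cls (D0 := D0) b N0 a := congrArg Prod.fst hrk
  have hsgn : (0 < r.det) = (0 < a.det) := congrArg Prod.snd hrk
  obtain ⟨γ, hγ, hγa⟩ := cls_mem b hb N0 a r hag.1 hrg.2.2 hcls.symm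
  obtain ⟨γ', hγ', hγa'⟩ := cls_mem b hb N0 r a hrg.1 hag.2.2 hcls
  have hua : IsUnit a.det := isUnit_iff_ne_zero.2 hag.2.1
  have hur : IsUnit r.det := isUnit_iff_ne_zero.2 hrg.2.1
  have hgg : γ * γ' = 1 := by
    have h2 : (γ * γ') * a = a := by rw [mul_assoc, ← hγa', ← hγa]
    calc γ * γ' = (γ * γ') * (a * a⁻¹) := by rw [Matrix.mul_nonsing_inv _ hua, mul_one]
      _ = 1 := by rw [← mul_assoc, h2, Matrix.mul_nonsing_inv _ hua]
  have hdet : a.det = γ.det * r.det := by rw [← Matrix.det_mul, ← hγa]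
  have hpos : 0 < γ.det := by
    rcases lt_or_gt_of_ne hrg.2.1 with h | h
    · have h2 : ¬ 0 < a.det := by
        rw [← hsgn]
        exact not_lt.2 h.le
      have h3 : a.det < 0 := lt_of_le_of_ne (not_lt.1 h2) hag.2.1
      rw [hdet] at h3
      exact pos_of_mul_neg_left h3 h.le
    · have h2 : 0 < a.det := by
        rw [← hsgn]
        exact h
      rw [hdet] at h2
      exact pos_of_mul_pos_left h2 h.le
  have hg1 : γ.det = 1 := detU hord γ γ' hγ hγ' hgg hpos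
  set G : Matrix.SpecialLinearGroup δ ℝ := ⟨γ, hg1⟩ with hG
  have hGi : G⁻¹.1 = γ' := by
    have h2 : G⁻¹.1 * γ = 1 := by
      rw [show γ = G.1 from rfl, ← Matrix.SpecialLinearGroup.coe_mul, inv_mul_cancel,
        Matrix.SpecialLinearGroup.coe_one]
    calc G⁻¹.1 = G⁻¹.1 * (γ * γ') := by rw [hgg, mul_one]
      _ = γ' := by rw [← mul_assoc, h2, one_mul]
  refine ⟨G, ⟨hγ, by rw [hGi]; exact hγ'⟩, fun i j => ?_⟩
  have h2 : (g * G).1 = (g.1 * a) * r⁻¹ := by
    rw [Matrix.SpecialLinearGroup.coe_mul, mul_assoc, hγa, mul_assoc,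
      Matrix.mul_nonsing_inv _ hur, mul_one]
  rw [h2]
  exact ent _ _ C (max B 0) hC0 haC (hB' (key a)) i j

end mats

theorem coc_D {δ : Type*} [Fintype δ] [DecidableEq δ] {D0 : Subring (Matrix δ δ ℝ)}
    (hD : DivO δ D0) (H : Subgroup (Matrix.SpecialLinearGroup δ ℝ))
    (hH : H.relIndex (unitI D0) ≠ 0) :
    ∃ R : ℝ, ∀ g : Matrix.SpecialLinearGroup δ ℝ, ∃ γ ∈ H, ∀ i j, |(g * γ⁻¹).1 i j| ≤ R := by
  classical
  rcases isEmpty_or_nonempty δ with he | hne
  · exact ⟨0, fun g => ⟨1, H.one_mem, fun i => he.elim i⟩⟩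
  obtain ⟨R, hR0, hR⟩ := cocU hD
  have hidx : (H.subgroupOf (unitI D0)).index ≠ 0 := hH
  have : (H.subgroupOf (unitI D0)).FiniteIndex := ⟨hidx⟩
  have : Finite (unitI D0 ⧸ H.subgroupOf (unitI D0)) := inferInstance
  obtain ⟨B, hB⟩ := (Set.finite_range (fun p : (unitI D0 ⧸ H.subgroupOf (unitI D0)) × δ × δ =>
    |(p.1.out : Matrix.SpecialLinearGroup δ ℝ).1 p.2.1 p.2.2|)).bddAbove
  refine ⟨Fintype.card δ * (R * B), fun g => ?_⟩
  obtain ⟨γ, hγ, hgR⟩ := hR g
  set u : unitI D0 := ⟨γ, hγ⟩ with hu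
  obtain ⟨h, hh⟩ := QuotientGroup.mk_out_eq_mul (H.subgroupOf (unitI D0)) u⁻¹
  set r : unitI D0 := ((u⁻¹ : unitI D0) : unitI D0 ⧸ H.subgroupOf (unitI D0)).out with hr
  have h1 : u * r = h := by rw [hh]; group
  have h2 : γ * (r : Matrix.SpecialLinearGroup δ ℝ) ∈ H := by
    have h3 : (u * r) ∈ H.subgroupOf (unitI D0) := by
      rw [h1]
      exact h.2
    exact Subgroup.mem_subgroupOf.1 h3
  refine ⟨(γ * (r : Matrix.SpecialLinearGroup δ ℝ))⁻¹, H.inv_mem h2, fun i j => ?_⟩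
  rw [inv_inv, ← mul_assoc, Matrix.SpecialLinearGroup.coe_mul]
  exact ent _ _ R B hR0 hgR (fun i j => hB ⟨(_, i, j), rfl⟩) i j

end LatLin
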