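import Pool.Agent.Lib.MP_2392aa_gt.L.Poly

/-!
MP_2392aa_gt, formal linearization, module Dense (about 250 lines): two criteria for `Dn G e`.

PROOFS.
`dn_bdd`: let `X, π, B, x` be as in `Dn`. Let `q, u` be in the range of `e`, `⟪q, u⟫ = 0`, `ℓ_s := tv q (s u)
= tw (s • ro q u)`. Let `f : X →ₗ ℝ` vanish on `B`. `φ s := f (π ℓ_s x)` is a real polynomial (`PRep.poly`).
For given `s` let `γ ∈ G ∩ blk e` with `‖ℓ_s γ⁻¹‖, ‖γ ℓ_s⁻¹‖ ≤ R`, `κ := ℓ_s γ⁻¹ ∈ blk e` (`blk e` is
closed under products and inverses, contains `ℓ_s`), `π ℓ_s x = π κ (π γ x) = π κ x + π κ (π γ x - x)`,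
the second summand is in `B`. So `φ s = f (π κ x)` is bounded independently of `s` (`PRep.bdd`), hence
constant (`IsPoly.const_of_bdd`), `φ 1 = φ 0 = f x`. As this holds for all `f` vanishing on `B`,
`π ℓ_1 x - x ∈ B` (a vector not in `B` is detected by a functional vanishing on `B`:
`Submodule.exists_le_ker_of_notMem` or `Submodule.exists_dual_map_eq_bot_of_notMem`).
`sl_elem`: a transvection matrix `1 + u q^T` (`q ⬝ᵥ u = 0`) over `Fin d`, `d ≥ 1`, is a product of
elementary matrices `transvection i j c`: by `Matrix.Pivot.exists_list_transvec_mul_diagonal_mul_list_transvec`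
it is `L * diagonal D * L'` with `L, L'` products of elementary matrices; determinants: `∏ D i = 1`
(`Matrix.det_one_add_mul_comm`-like lemma: `det (1 + u q^T) = 1 + q^T u = 1`). A diagonal matrix
of determinant one is a product of matrices `diag(.., t, .., t⁻¹, ..)` (positions `0` and `i`; induct),
and in positions `i, j`: `diag(t, t⁻¹) = e_ij(t) e_ji(-t⁻¹) e_ij(t) e_ij(-1) e_ji(1) e_ij(-1)`.
`dn_uni`: let `f` vanish on `B`. For `i ≠ j` and `ℓ_s := tv (c j) (s • c i)`: `φ s := f (π ℓ_s x)` is a
polynomial, and `φ (M m) = f x` for integers `m` (`ℓ_(M m) = (ℓ_M) ^ m ∈ G ∩ blk e`), so `φ` is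
constant (`IsPoly.eq_of_mul`): `π ℓ_s x - x ∈ B` for all real `s`. The set of `g ∈ blk e` with
`π g x - x ∈ B` is closed under products and inverses (`B` is stable). In the orthonormal basis `c` of
the range of `e` a transvection `tv q u` is the matrix `1 + u q^T`, so it is a product of such `ℓ_s`
(`sl_elem`): the map from matrices (`Fin d × Fin d`) to operators acting on the range of `e` through the
basis `c`, and as the identity on the kernel, `A ↦ (x ↦ x - e x + ∑ i j, A i j ⟪c j, x⟫ c i)`, is
multiplicative.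
-/

open scoped ContDiff Topology

namespace LatLin

universe u
variable {E : Type u} [NormedAddCommGroup E] [InnerProductSpace ℝ E] [FiniteDimensional ℝ E]

private theorem blk_mul {e : E →L[ℝ] E} {g h : GE E} (hg : g ∈ blk e) (hh : h ∈ blk e) :
    g * h ∈ blk e := by
  refine ⟨fun x => ?_, fun x hx => ?_⟩
  · show e (g (h (e x))) = g (h (e x))
    rw [← hh.1 x]
    exact hg.1 _
  · show g (h x) = x
    rw [hh.2 x hx, hg.2 x hx]

private theorem blk_one (e : E →L[ℝ] E) (he : IsPr e) : (1 : GE E) ∈ blk e :=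
  ⟨fun x => he.idem x, fun _ _ => rfl⟩

private theorem ge_inv_apply_self (g : GE E) (x : E) : g⁻¹ (g x) = x :=
  g.symm_apply_apply x

private theorem ge_apply_inv_self (g : GE E) (x : E) : g (g⁻¹ x) = x :=
  g.apply_symm_apply x

private theorem blk_inv {e : E →L[ℝ] E} (he : IsPr e) {g : GE E} (hg : g ∈ blk e) :
    g⁻¹ ∈ blk e := by
  refine ⟨fun x => ?_, fun x hx => ?_⟩
  · set y : E := g⁻¹ (e x) with hy
    have h1 : g y = e x := ge_apply_inv_self g _
    have h2 : e (y - e y) = 0 := by rw [map_sub, he.idem, sub_self]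
    have h3 := hg.2 _ h2
    have h4 : y - e y = e x - g (e y) := by
      rw [← h3, map_sub, h1]
    have h5 : e (y - e y) = y - e y := by
      rw [h4, map_sub, he.idem, hg.1 y]
    rw [h2] at h5
    have := sub_eq_zero.1 h5.symm
    exact this.symm
  · conv_lhs => rw [← hg.2 x hx]
    exact ge_inv_apply_self g x

private theorem tv_blk {e : E →L[ℝ] E} (he : IsPr e) {q u : E} (h : inner ℝ q u = (0 : ℝ))
    (hq : e q = q) (hu : e u = u) : tv q u ∈ blk e := by
  refine ⟨fun x => ?_, fun x hx => ?_⟩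
  · rw [tv_apply h, map_add, he.idem, map_smul, hu]
  · rw [tv_apply h]
    have : (inner ℝ q x : ℝ) = 0 := by
      rw [← hq, he.sym, hx, inner_zero_right]
    rw [this, zero_smul, add_zero]

private theorem smul_ro (s : ℝ) (q u : E) : s • ro q u = ro q (s • u) := by
  ext x
  simp [smul_smul, mul_comm]

private theorem tw_smul_ro (s : ℝ) (q u : E) : tw (s • ro q u) = tv q (s • u) := by
  rw [smul_ro]; rfl

private theorem tv_zero (q : E) : tv q (0 : E) = 1 := by
  apply ContinuousLinearEquiv.ext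
  funext x
  rw [tv_apply (inner_zero_right _), smul_zero, add_zero]
  rfl

private theorem mem_of_functional {X : Type*} [AddCommGroup X] [Module ℝ X] (B : Submodule ℝ X)
    (y : X) (h : ∀ f : X →ₗ[ℝ] ℝ, (∀ b ∈ B, f b = 0) → f y = 0) : y ∈ B := by
  by_contra hy
  obtain ⟨f, hf, hB⟩ := Submodule.exists_le_ker_of_notMem hy
  exact hf (h f fun b hb => LinearMap.mem_ker.1 (hB hb))

theorem dn_bdd (G : Subgroup (GE E)) {e : E →L[ℝ] E} (he : IsPr e) (R : ℝ)
    (hR : ∀ q u : E, inner ℝ q u = (0 : ℝ) → e q = q → e u = u → ∃ γ ∈ G, γ ∈ blk e ∧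
      ‖((tv q u * γ⁻¹ : GE E) : E →L[ℝ] E)‖ ≤ R ∧
      ‖(((tv q u * γ⁻¹)⁻¹ : GE E) : E →L[ℝ] E)‖ ≤ R) : Dn G e := by
  intro X _ _ _ π hπ B hB x hx q u hqu hq hu
  apply mem_of_functional
  intro f hf
  have hpoly := hπ.poly (ro q u) (ro_sq hqu) f x
  obtain ⟨C, hC⟩ := hπ.bdd R f x
  have hbd : ∀ s : ℝ, |f (π (tw (s • ro q u)) x)| ≤ C := by
    intro s
    rw [tw_smul_ro]
    have hsu : inner ℝ q (s • u) = (0 : ℝ) := by rw [inner_smul_right, hqu, mul_zero]
    have hus : e (s • u) = s • u := by rw [map_smul, hu]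
    obtain ⟨γ, hγG, hγe, h1, h2⟩ := hR q (s • u) hsu hq hus
    have hκ : tv q (s • u) * γ⁻¹ ∈ blk e := blk_mul (tv_blk he hsu hq hus) (blk_inv he hγe)
    have h3 : π (tv q (s • u)) x = π (tv q (s • u) * γ⁻¹) x
        + π (tv q (s • u) * γ⁻¹) (π γ x - x) := by
      rw [← map_add, add_sub_cancel, ← Module.End.mul_apply, ← map_mul, inv_mul_cancel_right]
    rw [h3, map_add, hf _ (hB _ hκ _ (hx γ hγG hγe)), add_zero]
    exact hC _ h1 h2
  have h1 := IsPoly.const_of_bdd hpoly C hbd 1
  simp only [one_smul, zero_smul] at h1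
  have h0 : tw (0 : E →L[ℝ] E) = 1 := by
    have := tw_smul_ro 0 q u
    rw [zero_smul, zero_smul, tv_zero] at this
    exact this
  rw [h0, map_one, Module.End.one_apply] at h1
  rw [map_sub, sub_eq_zero]
  exact h1

private theorem transvection_mulVec {d : ℕ} (i j : Fin d) (c : ℝ) (v : Fin d → ℝ) (a : Fin d) :
    (Matrix.transvection i j c).mulVec v a = v a + if a = i then c * v j else 0 := by
  rw [Matrix.transvection, Matrix.add_mulVec, Matrix.one_mulVec, Pi.add_apply,
    Matrix.single_mulVec_eq]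
  by_cases h : a = i
  · subst h; simp
  · simp [h]

private theorem diag_decomp {d : ℕ} {i j : Fin d} (hij : i ≠ j) {t : ℝ} (ht : t ≠ 0) :
    Matrix.diagonal (fun k ↦ if k = i then t else if k = j then t⁻¹ else 1) =
      Matrix.transvection i j t * (Matrix.transvection j i (-t⁻¹) * (Matrix.transvection i j t *
      (Matrix.transvection i j (-1) * (Matrix.transvection j i 1 * Matrix.transvection i j (-1)))))
      := by
  apply Matrix.mulVec_injective
  funext v a
  simp only [← Matrix.mulVec_mulVec, transvection_mulVec, Matrix.mulVec_diagonal]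
  have hji : j ≠ i := hij.symm
  by_cases h1 : a = i
  · subst h1
    simp only [if_true, hij, if_false, hji]
    field_simp
    ring
  · by_cases h2 : a = j
    · subst h2
      simp only [if_true, hij, if_false, hji]
      field_simp
      ring
    · simp [h1, h2]

private theorem toSL_prod {d : ℕ} (M : Matrix.SpecialLinearGroup (Fin d) ℝ)
    [Nontrivial (Fin d)] :
    ∃ L : List (Matrix.TransvectionStruct (Fin d) ℝ),
      M.1 = (L.map Matrix.TransvectionStruct.toMatrix).prod := by
  refine Matrix.SpecialLinearGroup.diagonal_transvection_induction'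
    (fun M => ∃ L : List (Matrix.TransvectionStruct (Fin d) ℝ),
      M.1 = (L.map Matrix.TransvectionStruct.toMatrix).prod) M ?_ ?_ ?_
  · intro i j hij c hc
    refine ⟨[⟨i, j, hij, c⟩, ⟨j, i, hij.symm, -c⁻¹⟩, ⟨i, j, hij, c⟩, ⟨i, j, hij, -1⟩,
      ⟨j, i, hij.symm, 1⟩, ⟨i, j, hij, -1⟩], ?_⟩
    rw [Matrix.SpecialLinearGroup.diag2n_coe]
    simp only [List.map_cons, List.map_nil, List.prod_cons, List.prod_nil, mul_one,
      Matrix.TransvectionStruct.toMatrix_mk]
    exact diag_decomp hij hc
  · intro i j hij a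
    exact ⟨[⟨i, j, hij, a⟩], by simp [Matrix.SpecialLinearGroup.transvection]⟩
  · rintro A B ⟨L, hL⟩ ⟨L', hL'⟩
    refine ⟨L ++ L', ?_⟩
    rw [List.map_append, List.prod_append, ← hL, ← hL']
    rfl

theorem sl_elem {d : ℕ} (q u : Fin d → ℝ) (h : ∑ i, q i * u i = 0) :
    ∃ L : List (Matrix.TransvectionStruct (Fin d) ℝ),
      (1 : Matrix (Fin d) (Fin d) ℝ) + Matrix.of (fun i j => u i * q j) =
        (L.map Matrix.TransvectionStruct.toMatrix).prod := by
  rcases subsingleton_or_nontrivial (Fin d) with hs | hn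
  · refine ⟨[], ?_⟩
    simp only [List.map_nil, List.prod_nil, add_eq_left]
    ext i j
    have h1 : ∑ i, q i * u i = q i * u i :=
      Finset.sum_eq_single i (fun b _ hb => absurd (Subsingleton.elim b i) hb)
        (fun hb => absurd (Finset.mem_univ i) hb)
    rw [Subsingleton.elim j i, Matrix.of_apply, mul_comm, ← h1, h]
    rfl
  · have hdet : ((1 : Matrix (Fin d) (Fin d) ℝ) + Matrix.of (fun i j => u i * q j)).det = 1 := by
      have h1 : (Matrix.of (fun i j => u i * q j) : Matrix (Fin d) (Fin d) ℝ)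
          = Matrix.vecMulVec u q := by
        ext i j
        simp [Matrix.vecMulVec_apply]
      rw [h1, Matrix.vecMulVec_eq Unit, Matrix.det_one_add_replicateCol_mul_replicateRow]
      have : (∑ i, q i * u i) = q ⬝ᵥ u := rfl
      rw [← this, h, add_zero]
    exact toSL_prod ⟨_, hdet⟩

/-- the operator of a matrix -/
private noncomputable def opm {d : ℕ} (c : Fin d → E) (e : E →L[ℝ] E)
    (A : Matrix (Fin d) (Fin d) ℝ) (x : E) : E :=
  x - e x + ∑ i, A.mulVec (fun j => (inner ℝ (c j) x : ℝ)) i • c i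

theorem dn_uni (G : Subgroup (GE E)) {e : E →L[ℝ] E} (he : IsPr e) {d : ℕ} (c : Fin d → E)
    (hc : Orthonormal ℝ c) (hcs : Submodule.span ℝ (Set.range c) = LinearMap.range (e : E →ₗ[ℝ] E))
    (M : ℕ) (hM : M ≠ 0) (hG : ∀ i j, i ≠ j → tv (c j) ((M : ℝ) • c i) ∈ G) : Dn G e := by
  classical
  intro X _ _ _ π hπ B hB x hx q u hqu hq hu
  have hec : ∀ i, e (c i) = c i := by
    intro i
    have h1 : c i ∈ LinearMap.range (e : E →ₗ[ℝ] E) := by
      rw [← hcs]; exact Submodule.subset_span ⟨i, rfl⟩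
    obtain ⟨y, hy⟩ := h1
    have hy' : e y = c i := hy
    rw [← hy', he.idem]
  have hex : ∀ y, e y = ∑ i, (inner ℝ (c i) y : ℝ) • c i := by
    intro y
    have h1 : e y ∈ Submodule.span ℝ (Set.range c) := by
      rw [hcs]; exact ⟨y, rfl⟩
    obtain ⟨a, ha⟩ := (Submodule.mem_span_range_iff_exists_fun ℝ).1 h1
    have h2 : ∀ i, a i = (inner ℝ (c i) y : ℝ) := by
      intro i
      rw [← hec i, he.sym, ← ha]
      exact (hc.inner_right_fintype a i).symm
    rw [← ha]
    exact Finset.sum_congr rfl fun i _ => by rw [h2]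
  have hcc : ∀ i j, i ≠ j → (inner ℝ (c i) (c j) : ℝ) = 0 := fun i j hij => hc.2 hij
  have hsm : ∀ i j, i ≠ j → ∀ s : ℝ, (inner ℝ (c j) (s • c i) : ℝ) = 0 := by
    intro i j hij s
    rw [inner_smul_right, hcc j i hij.symm, mul_zero]
  have hes : ∀ i (s : ℝ), e (s • c i) = s • c i := fun i s => by rw [map_smul, hec]
  -- elementary transvections
  have helem : ∀ i j, i ≠ j → ∀ s : ℝ, π (tv (c j) (s • c i)) x - x ∈ B := by
    intro i j hij s
    apply mem_of_functional
    intro f hf
    have hpoly := hπ.poly (ro (c j) (c i)) (ro_sq (hcc j i hij.symm)) f x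
    have hnat : ∀ m : ℕ, tv (c j) (((M : ℝ) * m) • c i) = (tv (c j) ((M : ℝ) • c i)) ^ m := by
      intro m
      induction m with
      | zero => rw [Nat.cast_zero, mul_zero, zero_smul, tv_zero, pow_zero]
      | succ m ih =>
        rw [pow_succ, ← ih]
        apply ContinuousLinearEquiv.ext
        funext y
        show tv (c j) _ y = tv (c j) _ (tv (c j) _ y)
        rw [tv_apply (hsm i j hij _), tv_apply (hsm i j hij _), tv_apply (hsm i j hij _),
          inner_add_right, inner_smul_right, hsm i j hij]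
        push_cast
        module
    have h1 := IsPoly.eq_of_mul hpoly (IsPoly.const (f x)) M hM (fun m => by
      show f (π (tw (((M : ℝ) * m) • ro (c j) (c i))) x) = f x
      rw [tw_smul_ro, hnat]
      have h2 := hx ((tv (c j) ((M : ℝ) • c i)) ^ m) (G.pow_mem (hG i j hij) m) (by
        induction m with
        | zero => rw [pow_zero]; exact blk_one e he
        | succ m ih =>
          rw [pow_succ]
          exact blk_mul ih (tv_blk he (hsm i j hij _) (hec j) (hes i _)))
      have h3 := hf _ h2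
      rw [map_sub, sub_eq_zero] at h3
      exact h3) s
    rw [tw_smul_ro] at h1
    rw [map_sub, sub_eq_zero]
    exact h1
  -- coordinates of opm
  have hopin : ∀ (A : Matrix (Fin d) (Fin d) ℝ) (y : E),
      (fun j => (inner ℝ (c j) (opm c e A y) : ℝ)) = A.mulVec (fun j => (inner ℝ (c j) y : ℝ)) := by
    intro A y
    funext j
    unfold opm
    rw [inner_add_right, inner_sub_right, hc.inner_right_fintype]
    have : (inner ℝ (c j) (e y) : ℝ) = inner ℝ (c j) y := by rw [← he.sym, hec]
    rw [this, sub_self, zero_add]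
  have hope : ∀ (A : Matrix (Fin d) (Fin d) ℝ) (y : E),
      opm c e A y - e (opm c e A y) = y - e y := by
    intro A y
    unfold opm
    rw [map_add, map_sub, he.idem, sub_self, zero_add, map_sum]
    have : ∀ i, e (A.mulVec (fun j => (inner ℝ (c j) y : ℝ)) i • c i)
        = A.mulVec (fun j => (inner ℝ (c j) y : ℝ)) i • c i := fun i => hes i _
    rw [Finset.sum_congr rfl fun i _ => this i, add_sub_cancel_right]
  have hopmul : ∀ (A A' : Matrix (Fin d) (Fin d) ℝ) (y : E),
      opm c e A (opm c e A' y) = opm c e (A * A') y := by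
    intro A A' y
    have : opm c e A (opm c e A' y) = (opm c e A' y - e (opm c e A' y)) +
        ∑ i, A.mulVec (fun j => (inner ℝ (c j) (opm c e A' y) : ℝ)) i • c i := rfl
    rw [this, hope, hopin, Matrix.mulVec_mulVec]
    rfl
  have hopone : ∀ y : E, opm c e 1 y = y := by
    intro y
    unfold opm
    rw [Matrix.one_mulVec, ← hex, sub_add_cancel]
  have hopt : ∀ (i j : Fin d) (hij : i ≠ j) (s : ℝ) (y : E),
      opm c e (Matrix.transvection i j s) y = tv (c j) (s • c i) y := by
    intro i j hij s y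
    rw [tv_apply (hsm i j hij s)]
    unfold opm
    simp only [transvection_mulVec, add_smul, Finset.sum_add_distrib, ite_smul, zero_smul]
    rw [Finset.sum_ite_eq' Finset.univ i, if_pos (Finset.mem_univ i), ← hex, smul_smul, mul_comm s]
    abel
  -- products
  have hlist : ∀ L : List (Matrix.TransvectionStruct (Fin d) ℝ), ∃ g : GE E, g ∈ blk e ∧
      (π g x - x ∈ B) ∧ ∀ y, g y = opm c e (L.map Matrix.TransvectionStruct.toMatrix).prod y := by
    intro L
    induction L with
    | nil =>
      refine ⟨1, blk_one e he, ?_, fun y => ?_⟩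
      · rw [map_one, Module.End.one_apply, sub_self]; exact B.zero_mem
      · rw [List.map_nil, List.prod_nil, hopone]; rfl
    | cons t L ih =>
      obtain ⟨g, hg, hgB, hgy⟩ := ih
      refine ⟨tv (c t.j) (t.c • c t.i) * g, blk_mul (tv_blk he (hsm _ _ t.hij _) (hec _) (hes _ _))
        hg, ?_, fun y => ?_⟩
      · have h1 : π (tv (c t.j) (t.c • c t.i) * g) x - x =
            π (tv (c t.j) (t.c • c t.i)) (π g x - x) + (π (tv (c t.j) (t.c • c t.i)) x - x) := by
          rw [map_mul, Module.End.mul_apply, map_sub]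
          abel
        rw [h1]
        exact B.add_mem (hB _ (tv_blk he (hsm _ _ t.hij _) (hec _) (hes _ _)) _ hgB)
          (helem _ _ t.hij _)
      · rw [List.map_cons, List.prod_cons, ← hopmul, ← hgy]
        show tv (c t.j) (t.c • c t.i) (g y) = _
        rw [← hopt _ _ t.hij]
        rfl
  obtain ⟨L, hL⟩ := sl_elem (fun i => (inner ℝ (c i) q : ℝ)) (fun i => (inner ℝ (c i) u : ℝ)) (by
    have h1 : (inner ℝ q u : ℝ) = ∑ i, (inner ℝ (c i) q : ℝ) * inner ℝ (c i) u := by
      conv_lhs => rw [← hq, hex q, sum_inner]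
      refine Finset.sum_congr rfl fun i _ => ?_
      rw [real_inner_smul_left]
    rw [← h1, hqu])
  obtain ⟨g, -, hgB, hgy⟩ := hlist L
  have hg : tv q u = g := by
    apply ContinuousLinearEquiv.ext
    funext y
    show tv q u y = g y
    rw [hgy, ← hL, tv_apply hqu]
    unfold opm
    rw [Matrix.add_mulVec, Matrix.one_mulVec]
    simp only [Pi.add_apply, add_smul, Finset.sum_add_distrib]
    rw [← hex]
    have h1 : ∀ i, (Matrix.of fun i j => (inner ℝ (c i) u : ℝ) * inner ℝ (c j) q).mulVec
        (fun j => (inner ℝ (c j) y : ℝ)) i = (inner ℝ q y : ℝ) * inner ℝ (c i) u := by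
      intro i
      rw [Matrix.mulVec, dotProduct]
      simp only [Matrix.of_apply]
      have h2 : (inner ℝ q y : ℝ) = ∑ j, (inner ℝ (c j) q : ℝ) * inner ℝ (c j) y := by
        conv_lhs => rw [← hq, hex q, sum_inner]
        refine Finset.sum_congr rfl fun i _ => ?_
        rw [real_inner_smul_left]
      rw [h2, Finset.sum_mul]
      exact Finset.sum_congr rfl fun j _ => by ring
    simp only [h1, mul_smul]
    rw [← Finset.smul_sum, ← hex u, hu]
    abel
  rw [hg]
  exact hgB

end LatLin
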