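import Pool.Agent.Lib.MP_2392aa_gt.L.ArCoc
import Pool.Agent.Lib.MP_2392aa_gt.L.ArCom
import Pool.Agent.Lib.MP_2392aa_gt.L.Dense

/-!
MP_2392aa_gt, formal linearization, module ArDn (about 220 lines): density of the block groups.

PROOF of `ar_dn`: `H := {α : SL_δ(ℝ) | slG (dg i α) ∈ G}`, where `dg i α` is the block diagonal matrix with
`α` at place `i` and ones elsewhere; `dg i` is a homomorphism which maps `unitI D0` into
`unitI (blkO μ D0)`, so `H.relIndex (unitI D0) ≠ 0` (`Subgroup.relIndex_comap`, monotonicity). For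
`q, u` in block `i`, `⟪q, u⟫ = 0`: `tv q u = slG (dg i α)` with `α = 1 + u q^T`, of determinant one. Take
`h ∈ H` with the entries of `α h⁻¹` bounded by `R` (`coc_D`), `γ := slG (dg i h) ∈ G ∩ blk (prj δ {i})`.
Operator norms are bounded by a constant times the largest entry, and the entries of the inverse of
a matrix of determinant one are bounded by those of the matrix (adjugate). Now `dn_bdd`.
`ar_dnB`: `dn_uni` with the standard basis vectors of the blocks in `s` (`δ = Unit`), `M` from `cc_pow`:
`tv (e_j) (M e_i) = tw (om (bl i j (M • 1))) = (tw (om (bl i j 1))) ^ M`.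
-/

open scoped ContDiff Topology
open LatN (DivO blo blkO unitI En)

namespace LatLin

section aux
variable {μ δ : Type*} [Fintype μ] [DecidableEq μ] [Fintype δ] [DecidableEq δ]

/-- the block diagonal matrix with the block `α` at the place `i` and ones elsewhere -/
private def dm (i : μ) (α : Matrix δ δ ℝ) : Matrix (μ × δ) (μ × δ) ℝ :=
  fun p q => if p.1 = i ∧ q.1 = i then α p.2 q.2 else if p = q then 1 else 0

private theorem dm_eq (i : μ) (α : Matrix δ δ ℝ) :
    dm i α = (Matrix.blockDiagonal (fun k : μ => if k = i then α else 1)).submatrix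
      (Equiv.prodComm μ δ) (Equiv.prodComm μ δ) := by
  ext ⟨k, a⟩ ⟨l, b⟩
  simp only [dm, Matrix.submatrix_apply, Equiv.prodComm_apply, Prod.swap_prod_mk,
    Matrix.blockDiagonal_apply, Prod.mk.injEq]
  by_cases hk : k = i
  · subst hk
    by_cases hl : l = k
    · subst hl
      simp
    · have hl' : ¬ k = l := fun h => hl h.symm
      simp [hl, hl']
  · by_cases hl : k = l
    · subst hl
      simp [hk, Matrix.one_apply]
    · simp [hk, hl]

private theorem dm_mul (i : μ) (α β : Matrix δ δ ℝ) : dm i (α * β) = dm i α * dm i β := by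
  rw [dm_eq, dm_eq, dm_eq, Matrix.submatrix_mul_equiv, ← Matrix.blockDiagonal_mul]
  congr 2
  funext k
  split_ifs
  · rfl
  · rw [mul_one]

private theorem dm_one (i : μ) : dm i (1 : Matrix δ δ ℝ) = 1 := by
  ext ⟨k, a⟩ ⟨l, b⟩
  simp only [dm, Matrix.one_apply, Prod.mk.injEq]
  split_ifs with h1 h2 h3 h4 h5 <;> simp_all

private theorem dm_det (i : μ) (α : Matrix δ δ ℝ) : (dm i α).det = α.det := by
  rw [dm_eq, Matrix.det_submatrix_equiv_self, Matrix.det_blockDiagonal,
    Finset.prod_eq_single i]
  · rw [if_pos rfl]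
  · intro k _ hk
    rw [if_neg hk, Matrix.det_one]
  · intro h
    exact absurd (Finset.mem_univ i) h

/-- the embedding of `SL_δ` as a diagonal block -/
private def dg (i : μ) :
    Matrix.SpecialLinearGroup δ ℝ →* Matrix.SpecialLinearGroup (μ × δ) ℝ where
  toFun α := ⟨dm i α.1, by rw [dm_det, α.2]⟩
  map_one' := Subtype.ext (dm_one i)
  map_mul' α β := Subtype.ext (dm_mul i α.1 β.1)

private theorem blo_dm (i k l : μ) (α : Matrix δ δ ℝ) :
    blo (dm i α) k l = if k = i ∧ l = i then α else if k = l then 1 else 0 := by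
  ext a b
  simp only [blo, dm, Prod.mk.injEq]
  by_cases h : k = i ∧ l = i
  · rw [if_pos h, if_pos h]
  · rw [if_neg h, if_neg h]
    by_cases hkl : k = l
    · simp [hkl, Matrix.one_apply]
    · simp [hkl]

private theorem dm_mem {D0 : Subring (Matrix δ δ ℝ)} (i : μ) {α : Matrix δ δ ℝ} (h : α ∈ D0) :
    dm i α ∈ blkO μ D0 := by
  intro k l
  rw [blo_dm]
  split_ifs
  · exact h
  · exact D0.one_mem
  · exact D0.zero_mem

private theorem dg_mem {D0 : Subring (Matrix δ δ ℝ)} (i : μ)
    {α : Matrix.SpecialLinearGroup δ ℝ} (h : α ∈ unitI D0) : dg i α ∈ unitI (blkO μ D0) := by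
  refine ⟨dm_mem i h.1, ?_⟩
  rw [← map_inv]
  exact dm_mem i h.2

private theorem slG_coe {ν : Type*} [Fintype ν] [DecidableEq ν]
    (g : Matrix.SpecialLinearGroup ν ℝ) : ((slG ν g : GE (En ν)) : En ν →L[ℝ] En ν) = om g.1 := rfl

private theorem slG_apply {ν : Type*} [Fintype ν] [DecidableEq ν]
    (g : Matrix.SpecialLinearGroup ν ℝ) (x : En ν) : slG ν g x = om g.1 x := rfl

private theorem om_dm_apply (i : μ) (α : Matrix δ δ ℝ) (x : En (μ × δ)) (p : μ × δ) :
    om (dm i α) x p = if p.1 = i then ∑ b, α p.2 b * x (i, b) else x p := by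
  rw [om_apply]
  by_cases h : p.1 = i
  · rw [if_pos h, Fintype.sum_prod_type, Finset.sum_eq_single i]
    · refine Finset.sum_congr rfl fun b _ => ?_
      simp [dm, h]
    · intro l _ hl
      refine Finset.sum_eq_zero fun b _ => ?_
      have h1 : ¬ p = (l, b) := by
        intro h2
        rw [h2] at h
        exact hl h
      simp [dm, hl, h1]
    · intro h1
      exact absurd (Finset.mem_univ i) h1
  · rw [if_neg h, Finset.sum_eq_single p]
    · simp [dm, h]
    · intro q _ hq
      have h1 : ¬ p = q := fun h2 => hq h2.symm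
      simp [dm, h, h1]
    · intro h1
      exact absurd (Finset.mem_univ p) h1

private theorem om_linear {ν : Type*} [Fintype ν] [DecidableEq ν] :
    Continuous (fun A : Matrix ν ν ℝ => om A) := by
  have h := LinearMap.continuous_of_finiteDimensional
    ((Matrix.toEuclideanCLM (n := ν) (𝕜 := ℝ)).toAlgEquiv.toLinearMap)
  exact h

private theorem bound (i : μ) (R : ℝ) : ∃ C : ℝ, ∀ β : Matrix.SpecialLinearGroup δ ℝ,
    (∀ a b, |β.1 a b| ≤ R) →
      ‖((slG (μ × δ) (dg i β) : GE (En (μ × δ))) : En (μ × δ) →L[ℝ] En (μ × δ))‖ ≤ C ∧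
      ‖(((slG (μ × δ) (dg i β))⁻¹ : GE (En (μ × δ))) : En (μ × δ) →L[ℝ] En (μ × δ))‖ ≤ C := by
  have hK : IsCompact (Set.univ.pi fun _ : δ => Set.univ.pi fun _ : δ => Set.Icc (-R) R) :=
    isCompact_univ_pi fun _ => isCompact_univ_pi fun _ => isCompact_Icc
  have hdm : Continuous (fun A : Matrix δ δ ℝ => dm (μ := μ) i A) := by
    refine continuous_matrix fun p q => ?_
    unfold dm
    split_ifs
    · exact continuous_id.matrix_elem _ _
    · exact continuous_const
    · exact continuous_const
  have h1 : Continuous (fun A : Matrix δ δ ℝ => om (dm (μ := μ) i A)) := om_linear.comp hdm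
  have h2 : Continuous (fun A : Matrix δ δ ℝ => om (dm (μ := μ) i A.adjugate)) :=
    h1.comp continuous_id.matrix_adjugate
  obtain ⟨C1, hC1⟩ := hK.exists_bound_of_continuousOn h1.continuousOn
  obtain ⟨C2, hC2⟩ := hK.exists_bound_of_continuousOn h2.continuousOn
  refine ⟨max C1 C2, fun β hβ => ?_⟩
  have hmem : β.1 ∈ (Set.univ.pi fun _ : δ => Set.univ.pi fun _ : δ => Set.Icc (-R) R) := by
    intro a _ b _
    exact abs_le.1 (hβ a b)
  constructor
  · rw [slG_coe]
    exact (hC1 _ hmem).trans (le_max_left _ _)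
  · rw [← map_inv, ← map_inv, slG_coe]
    refine le_trans (le_of_eq ?_) ((hC2 _ hmem).trans (le_max_right _ _))
    have h3 : (dg i β⁻¹ : Matrix.SpecialLinearGroup (μ × δ) ℝ).1 = dm i β.1.adjugate := rfl
    rw [h3]

private theorem supp {i : μ} {q : En (μ × δ)} (hq : prj δ {i} q = q) {p : μ × δ}
    (hp : p.1 ≠ i) : q p = 0 := by
  rw [← hq, prj_apply, if_neg]
  simpa using hp

private theorem inner_blk {i : μ} {q : En (μ × δ)} (hq : prj δ {i} q = q) (x : En (μ × δ)) :
    (inner ℝ q x : ℝ) = ∑ b, q (i, b) * x (i, b) := by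
  rw [PiLp.inner_apply, Fintype.sum_prod_type, Finset.sum_eq_single i]
  · refine Finset.sum_congr rfl fun b _ => ?_
    simp [mul_comm]
  · intro l _ hl
    refine Finset.sum_eq_zero fun b _ => ?_
    rw [supp hq (p := (l, b)) hl]
    simp
  · intro h
    exact absurd (Finset.mem_univ i) h

end aux

section
universe u
variable {μ δ : Type u} [Fintype μ] [DecidableEq μ] [Fintype δ] [DecidableEq δ]
  {D0 : Subring (Matrix δ δ ℝ)}

theorem ar_dn (hD : DivO δ D0) {G : Subgroup (GE (En (μ × δ)))} (hG : G ∈ CC μ D0) (i : μ) :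
    Dn G (prj δ {i}) := by
  set f : Matrix.SpecialLinearGroup δ ℝ →* GE (En (μ × δ)) := (slG (μ × δ)).comp (dg i) with hf
  have hH : (G.comap f).relIndex (unitI D0) ≠ 0 := by
    rw [Subgroup.relIndex_comap]
    have hle : (unitI D0).map f ≤ G0 μ D0 := by
      rintro _ ⟨α, hα, rfl⟩
      exact ⟨dg i α, dg_mem i hα, rfl⟩
    exact fun h => hG.2 (Subgroup.relIndex_eq_zero_of_le_right hle h)
  obtain ⟨R, hR⟩ := coc_D hD (G.comap f) hH
  obtain ⟨C, hC⟩ := bound (μ := μ) (δ := δ) i R
  refine dn_bdd G (isPr_prj {i}) C fun q u hqu hq hu => ?_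
  have hin := inner_blk hq
  have hdet : (1 + Matrix.vecMulVec (fun a : δ => u (i, a)) (fun b => q (i, b)) :
      Matrix δ δ ℝ).det = 1 := by
    rw [Matrix.vecMulVec_eq Unit, Matrix.det_one_add_replicateCol_mul_replicateRow]
    have h1 := hin u
    rw [hqu] at h1
    unfold dotProduct
    rw [← h1, add_zero]
  set α : Matrix.SpecialLinearGroup δ ℝ :=
    ⟨1 + Matrix.vecMulVec (fun a : δ => u (i, a)) (fun b => q (i, b)), hdet⟩ with hα
  have htv : tv q u = f α := by
    ext x p
    rw [tv_apply hqu]
    change _ = om (dm i α.1) x p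
    rw [om_dm_apply]
    change x p + (inner ℝ q x : ℝ) * u p = _
    split_ifs with h
    · rw [hin x]
      have h2 : p = (i, p.2) := by
        rw [← h]
      have h3 : ∀ b, α.1 p.2 b = (1 : Matrix δ δ ℝ) p.2 b + u (i, p.2) * q (i, b) := fun b => rfl
      simp only [h3, add_mul, Finset.sum_add_distrib, Matrix.one_apply]
      have h4 : ∑ b, (if p.2 = b then (1 : ℝ) else 0) * x (i, b) = x p := by
        rw [Finset.sum_eq_single p.2]
        · rw [if_pos rfl, one_mul, ← h2]
        · intro b _ hb
          rw [if_neg (fun h5 => hb h5.symm), zero_mul]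
        · intro h5
          exact absurd (Finset.mem_univ _) h5
      rw [h4, Finset.sum_mul]
      congr 1
      refine Finset.sum_congr rfl fun b _ => ?_
      rw [← h2]
      ring
    · rw [supp hu h, mul_zero, add_zero]
  obtain ⟨γ, hγ, hb⟩ := hR α
  have h1 : tv q u * (f γ)⁻¹ = f (α * γ⁻¹) := by
    rw [htv, map_mul, map_inv]
  obtain ⟨h2, h3⟩ := hC (α * γ⁻¹) hb
  refine ⟨f γ, hγ, ⟨fun x => ?_, fun x hx => ?_⟩, ?_, ?_⟩
  · ext p
    rw [prj_apply]
    change (if p.1 ∈ ({i} : Finset μ) then om (dm i γ.1) (prj δ {i} x) p else 0) =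
      om (dm i γ.1) (prj δ {i} x) p
    rw [om_dm_apply]
    split_ifs with h4 h5 h6
    · rfl
    · exact absurd (Finset.mem_singleton.1 h4) h5
    · exact absurd (Finset.mem_singleton.2 h6) h4
    · rw [prj_apply, if_neg h4]
  · ext p
    change om (dm i γ.1) x p = x p
    rw [om_dm_apply]
    have h4 : ∀ b, x (i, b) = 0 := by
      intro b
      have h5 := congrArg (fun y : En (μ × δ) => y (i, b)) hx
      simp only [prj_apply, Finset.mem_singleton, if_true] at h5
      exact h5
    split_ifs with h5
    · rw [Finset.sum_eq_zero fun b _ => by rw [h4 b, mul_zero]]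
      have h6 : p = (i, p.2) := by
        rw [← h5]
      rw [h6, h4]
    · rfl
  · rw [h1]
    exact h2
  · rw [h1]
    exact h3

end

section
variable {μ : Type} [Fintype μ] [DecidableEq μ] {D0 : Subring (Matrix Unit Unit ℝ)}

private theorem tv_pow {E : Type*} [NormedAddCommGroup E] [InnerProductSpace ℝ E] {q u : E}
    (h : inner ℝ q u = (0 : ℝ)) (n : ℕ) : tv q u ^ n = tv q ((n : ℝ) • u) := by
  have h' : ∀ c : ℝ, inner ℝ q (c • u) = (0 : ℝ) := fun c => by
    rw [inner_smul_right, h, mul_zero]
  induction n with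
  | zero =>
    ext x
    rw [tv_apply (h' _)]
    simp
    rfl
  | succ n ih =>
    rw [pow_succ, ih]
    ext x
    change tv q ((n : ℝ) • u) (tv q u x) = _
    rw [tv_apply (h' _), tv_apply h, tv_apply (h' _), inner_add_right, inner_smul_right, h]
    push_cast
    rw [mul_zero, add_zero, add_smul, one_smul, smul_add, add_assoc, add_comm (inner ℝ q x • u)]

theorem ar_dnB {G : Subgroup (GE (En (μ × Unit)))} (hG : G ∈ CC μ D0) (s : Finset μ) :
    Dn G (prj Unit s) := by
  obtain ⟨M, hM, hM'⟩ := cc_pow hG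
  set e : Fin s.card ≃ s := s.equivFin.symm with he
  set c : Fin s.card → En (μ × Unit) := fun k => EuclideanSpace.single ((e k : μ), ()) (1 : ℝ)
    with hc
  have hinj : Function.Injective (fun k : Fin s.card => ((e k : μ), ())) := by
    intro k l h
    exact e.injective (Subtype.ext (Prod.ext_iff.1 h).1)
  have hort : Orthonormal ℝ c := (EuclideanSpace.orthonormal_single (𝕜 := ℝ)).comp _ hinj
  refine dn_uni G (isPr_prj s) c hort ?_ M hM ?_
  · apply le_antisymm
    · rw [Submodule.span_le]
      rintro _ ⟨k, rfl⟩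
      refine ⟨c k, ?_⟩
      ext p
      change prj Unit s (c k) p = c k p
      rw [prj_apply]
      split_ifs with h
      · rfl
      · rw [hc]
        have h2 : p ≠ ((e k : μ), ()) := by
          rintro rfl
          exact h (e k).2
        simp [h2]
    · rintro _ ⟨x, rfl⟩
      have h1 : (prj Unit s) x = ∑ k, x ((e k : μ), ()) • c k := by
        ext p
        rw [prj_apply]
        have h2 : (∑ k, x ((e k : μ), ()) • c k) p = ∑ k, x ((e k : μ), ()) * c k p := by
          rw [WithLp.ofLp_sum, Finset.sum_apply]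
          rfl
        rw [h2]
        split_ifs with h
        · rw [Finset.sum_eq_single (e.symm ⟨p.1, h⟩)]
          · simp [hc]
          · intro k _ hk
            have h3 : p ≠ ((e k : μ), ()) := by
              intro h4
              apply hk
              rw [Equiv.eq_symm_apply]
              exact Subtype.ext (Prod.ext_iff.1 h4).1.symm
            simp [hc, h3]
          · intro h3
            exact absurd (Finset.mem_univ _) h3
        · refine (Finset.sum_eq_zero fun k _ => ?_).symm
          have h3 : p ≠ ((e k : μ), ()) := by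
            intro h4
            exact h (by rw [h4]; exact (e k).2)
          simp [hc, h3]
      change (prj Unit s) x ∈ _
      rw [h1]
      exact Submodule.sum_mem _ fun k _ => Submodule.smul_mem _ _
        (Submodule.subset_span ⟨k, rfl⟩)
  · intro i j hij
    have hij' : (e i : μ) ≠ e j := fun h => hij (e.injective (Subtype.ext h))
    have h0 : inner ℝ (c j) (c i) = (0 : ℝ) := hort.2 (Ne.symm hij)
    rw [← tv_pow h0]
    have h1 : tv (c j) (c i) = tw (om (bl (e i : μ) (e j : μ) (1 : Matrix Unit Unit ℝ))) := by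
      unfold tv
      congr 1
      ext x p
      rw [om_apply]
      change (inner ℝ (c j) x : ℝ) * c i p = _
      rw [Fintype.sum_prod_type, Finset.sum_eq_single (e j : μ)]
      · simp only [hc, bl, Finset.univ_unique, Finset.sum_singleton]
        by_cases h2 : p.1 = (e i : μ)
        · have h3 : p = ((e i : μ), ()) := Prod.ext h2 rfl
          simp [h3, EuclideanSpace.inner_single_left]
        · have h3 : p ≠ ((e i : μ), ()) := fun h4 => h2 (by rw [h4])
          simp [h2, h3]
      · intro l _ hl
        refine Finset.sum_eq_zero fun b _ => ?_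
        simp [bl, hl]
      · intro h2
        exact absurd (Finset.mem_univ _) h2
    rw [h1]
    exact hM' _ (g0_tw hij' D0.one_mem)

end
end LatLin
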