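import Pool.Agent.Lib.MP_2392aa_gt.L.HFin

/-!
MP_2392aa_gt, formal linearization, module HHom (about 160 lines): the conjugation action on linear
maps from operators to homogeneous maps is a polynomial representation.

PROOFS.
`ev_dualH`: every functional `f` of `(E →L[ℝ] E) →ₗ[ℝ] HM E k` is a finite sum of `⟪y_i, (β a_i) x_i⟫`:
same argument as `ev_dual` (the evaluations separate the points), or: choose a basis of `E →L[ℝ] E`.
`prep_piH`: `f (piH k g β) = ∑ ⟪y_i, g ((β (g⁻¹ a_i g)) (g⁻¹ x_i))⟫`. `poly`: for `g = tw (s • a)`,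
`g⁻¹ a_i g = a_i + s (a_i a - a a_i) - s ^ 2 a a_i a`, so `β (g⁻¹ a_i g) = β a_i + s β (..) - s ^ 2 β (..)`;
each term as in `poly_pj`, products of polynomials (`IsPoly.smul`, `IsPoly.add`). `bdd`: the linear map
`β` is bounded: choose a basis `c_j` of `E →L[ℝ] E`; the coordinates of `g⁻¹ a_i g` are bounded by
`C R ^ 2` (linear functionals on a finite dimensional normed space are continuous), and
`|⟪y_i, g ((β c_j) (g⁻¹ x_i))⟫|` is bounded by `bdd_pj`.
`piH_tv_T`, `piH_tv_S`: for `ℓ = tv q u` with `e q = q`, `e u = u`, `⟪q, u⟫ = 0`: for `a ∈ uT e` one has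
`a ∘ ℓ⁻¹ = a`, for `a ∈ uS e` one has `ℓ ∘ a = a` (see the proofs of the lemmas `lemT`, `lemS`).
-/

open scoped ContDiff Topology

namespace LatLin

section
variable {E : Type*} [NormedAddCommGroup E] [InnerProductSpace ℝ E] [FiniteDimensional ℝ E] {k : ℕ}

private noncomputable def hbA : Module.Basis (Fin (Module.finrank ℝ (E →L[ℝ] E))) ℝ (E →L[ℝ] E) :=
  Module.finBasis ℝ (E →L[ℝ] E)

private noncomputable def hF (f : ((E →L[ℝ] E) →ₗ[ℝ] HM E k) →ₗ[ℝ] ℝ)
    (j : Fin (Module.finrank ℝ (E →L[ℝ] E))) : HM E k →ₗ[ℝ] ℝ where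
  toFun p := f ((hbA.coord j).smulRight p)
  map_add' p q := by
    rw [← map_add]
    congr 1
    apply LinearMap.ext
    intro a
    simp
  map_smul' c p := by
    rw [RingHom.id_apply, ← map_smul]
    congr 1
    apply LinearMap.ext
    intro a
    simp [smul_comm c]

private theorem hF_eq (f : ((E →L[ℝ] E) →ₗ[ℝ] HM E k) →ₗ[ℝ] ℝ)
    (β : (E →L[ℝ] E) →ₗ[ℝ] HM E k) : f β = ∑ j, hF f j (β (hbA j)) := by
  have h1 : β = ∑ j, (hbA.coord j).smulRight (β (hbA j)) := by
    apply hbA.ext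
    intro i
    rw [LinearMap.sum_apply, Finset.sum_eq_single i]
    · rw [LinearMap.smulRight_apply, Module.Basis.coord_apply, Module.Basis.repr_self,
        Finsupp.single_eq_same, one_smul]
    · intro j _ hj
      rw [LinearMap.smulRight_apply, Module.Basis.coord_apply, Module.Basis.repr_self,
        Finsupp.single_eq_of_ne hj, zero_smul]
    · intro h
      exact absurd (Finset.mem_univ i) h
  conv_lhs => rw [h1]
  rw [map_sum]
  rfl

private theorem isPoly_sum {X : Type*} [AddCommGroup X] [Module ℝ X] {ι : Type*}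
    (S : Finset ι) {g : ι → ℝ → X} (h : ∀ i, IsPoly (g i)) :
    IsPoly (fun s => ∑ i ∈ S, g i s) := by
  classical
  induction S using Finset.induction_on with
  | empty => simpa using IsPoly.const (0 : X)
  | insert a S ha ih =>
    simp only [Finset.sum_insert ha]
    exact (h a).add ih

private theorem isPoly_pow (i : ℕ) (c : ℝ) : IsPoly (fun s : ℝ => c * s ^ i) := by
  have h := IsPoly.of_eval (Polynomial.C c * Polynomial.X ^ i)
  simpa using h

theorem ev_dualH (f : ((E →L[ℝ] E) →ₗ[ℝ] HM E k) →ₗ[ℝ] ℝ) :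
    ∃ (n : ℕ) (a : Fin n → (E →L[ℝ] E)) (x y : Fin n → E),
      ∀ β : (E →L[ℝ] E) →ₗ[ℝ] HM E k, f β = ∑ i, inner ℝ (y i) ((β (a i)).1 (x i)) := by
  choose n x y h using fun j => ev_dual (hF f j)
  let e : Fin (Fintype.card (Σ j : Fin (Module.finrank ℝ (E →L[ℝ] E)), Fin (n j))) ≃
      (Σ j : Fin (Module.finrank ℝ (E →L[ℝ] E)), Fin (n j)) := (Fintype.equivFin _).symm
  refine ⟨_, fun i => hbA (e i).1, fun i => x (e i).1 (e i).2, fun i => y (e i).1 (e i).2, ?_⟩
  intro β
  rw [hF_eq, Equiv.sum_comp e (fun t : (Σ j : Fin (Module.finrank ℝ (E →L[ℝ] E)), Fin (n j)) =>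
    (inner ℝ (y t.1 t.2) ((β (hbA t.1)).1 (x t.1 t.2)) : ℝ)), Fintype.sum_sigma]
  exact Finset.sum_congr rfl fun j _ => h j _

theorem prep_piH : PRep (X := (E →L[ℝ] E) →ₗ[ℝ] HM E k) (piH k) := by
  constructor
  · intro a ha f β
    simp only [hF_eq f]
    refine isPoly_sum _ fun j => ?_
    have hs : ∀ s : ℝ, (s • a) ∘L (s • a) = 0 := by
      intro s
      ext x
      have h1 : a (a x) = 0 := by simpa using congrArg (fun f => f x) ha
      simp [h1]
    have hc : ∀ s : ℝ, (((tw (s • a))⁻¹ : GE E) : E →L[ℝ] E) ∘L (hbA j) ∘L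
        ((tw (s • a) : GE E) : E →L[ℝ] E) =
        hbA j + (1 * s ^ 1) • ((hbA j) ∘L a - a ∘L (hbA j)) +
          ((-1) * s ^ 2) • (a ∘L (hbA j) ∘L a) := by
      intro s
      ext x
      show (tw (s • a))⁻¹ ((hbA j) (tw (s • a) x)) = _
      rw [tw_inv_apply (hs s), tw_apply (hs s)]
      simp only [smul_apply, add_apply, sub_apply, neg_apply, ContinuousLinearMap.comp_apply,
        map_add, map_smul, smul_sub, pow_one, one_mul, neg_mul, neg_smul]
      rw [smul_smul, ← pow_two]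
      abel
    have h2 : (fun s : ℝ => hF f j (piH k (tw (s • a)) β (hbA j))) = fun s : ℝ => hF f j
        (pj (ContinuousLinearMap.id ℝ E + s • a) (ContinuousLinearMap.id ℝ E - s • a)
            (β (hbA j)) +
          (1 * s ^ 1) • pj (ContinuousLinearMap.id ℝ E + s • a)
            (ContinuousLinearMap.id ℝ E - s • a) (β ((hbA j) ∘L a - a ∘L (hbA j))) +
          ((-1) * s ^ 2) • pj (ContinuousLinearMap.id ℝ E + s • a)
            (ContinuousLinearMap.id ℝ E - s • a) (β (a ∘L (hbA j) ∘L a))) := by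
      funext s
      rw [piH_apply, pi_tw (hs s), hc s]
      simp only [map_add, map_smul]
    rw [h2]
    refine IsPoly.lin ?_ _
    exact ((poly_pj _ a).add ((isPoly_pow 1 1).smul (poly_pj _ a))).add
      ((isPoly_pow 2 (-1)).smul (poly_pj _ a))
  · intro R f β
    choose C hC using fun (j l : Fin (Module.finrank ℝ (E →L[ℝ] E))) =>
      bdd_pj R (hF f j) (β (hbA l))
    let K : Fin (Module.finrank ℝ (E →L[ℝ] E)) → ℝ := fun l =>
      ‖LinearMap.toContinuousLinearMap ((hbA (E := E)).coord l)‖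
    have hK0 : ∀ l, 0 ≤ K l := fun l => norm_nonneg
      (LinearMap.toContinuousLinearMap ((hbA (E := E)).coord l))
    refine ⟨∑ j, ∑ l, (K l * (|R| * ‖hbA (E := E) j‖ * |R|)) * |C j l|, ?_⟩
    intro g hg hg'
    rw [hF_eq f]
    refine (Finset.abs_sum_le_sum_abs _ _).trans (Finset.sum_le_sum fun j _ => ?_)
    set c : E →L[ℝ] E := ((g⁻¹ : GE E) : E →L[ℝ] E) ∘L (hbA j) ∘L (g : E →L[ℝ] E) with hcdef
    have hcn : ‖c‖ ≤ |R| * ‖hbA (E := E) j‖ * |R| := by
      have h1 := ContinuousLinearMap.opNorm_comp_le ((g⁻¹ : GE E) : E →L[ℝ] E)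
        ((hbA j) ∘L (g : E →L[ℝ] E))
      have h2 := ContinuousLinearMap.opNorm_comp_le (hbA j) (g : E →L[ℝ] E)
      have h3 : ‖((g⁻¹ : GE E) : E →L[ℝ] E)‖ ≤ |R| := hg'.trans (le_abs_self R)
      have h4 : ‖(g : E →L[ℝ] E)‖ ≤ |R| := hg.trans (le_abs_self R)
      calc ‖c‖ ≤ ‖((g⁻¹ : GE E) : E →L[ℝ] E)‖ * ‖(hbA j) ∘L (g : E →L[ℝ] E)‖ := h1
        _ ≤ |R| * (‖hbA (E := E) j‖ * |R|) := by
            refine mul_le_mul h3 (h2.trans ?_) (norm_nonneg _) (abs_nonneg _)
            exact mul_le_mul_of_nonneg_left h4 (norm_nonneg _)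
        _ = _ := by ring
    have h5 : piH k g β (hbA j) = ∑ l, (hbA (E := E)).coord l c • pi k g (β (hbA l)) := by
      rw [piH_apply]
      have h6 : c = ∑ l, (hbA (E := E)).coord l c • hbA l := by
        conv_lhs => rw [← (hbA (E := E)).sum_repr c]
        rfl
      have h7 : pi k g (β c) = pi k g (β (∑ l, (hbA (E := E)).coord l c • hbA l)) :=
        congrArg (fun t => pi k g (β t)) h6
      refine h7.trans ?_
      rw [map_sum, map_sum]
      refine Finset.sum_congr rfl fun l _ => ?_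
      rw [map_smul, map_smul]
    rw [h5, map_sum]
    refine (Finset.abs_sum_le_sum_abs _ _).trans (Finset.sum_le_sum fun l _ => ?_)
    rw [map_smul, smul_eq_mul, abs_mul]
    refine mul_le_mul ?_ ?_ (abs_nonneg _) (by positivity)
    · have h8 : |(hbA (E := E)).coord l c| ≤ K l * ‖c‖ := by
        have h9 := (LinearMap.toContinuousLinearMap ((hbA (E := E)).coord l)).le_opNorm c
        rw [Real.norm_eq_abs] at h9
        exact h9
      exact h8.trans (mul_le_mul_of_nonneg_left hcn (hK0 l))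
    · exact (hC j l _ _ hg hg').trans (le_abs_self _)

theorem tv_T {e : E →L[ℝ] E} (he : IsPr e) {q u : E} (h : inner ℝ q u = (0 : ℝ)) (hq : e q = q)
    (hu : e u = u) {a : E →L[ℝ] E} (ha : a ∈ uT e) :
    (a ∘L (((tv q u)⁻¹ : GE E) : E →L[ℝ] E) = a) ∧ a ∘L ((tv q u : GE E) : E →L[ℝ] E) = a := by
  have h0 : a u = 0 := by rw [← hu]; exact ha.2 u
  constructor
  · ext x
    show a ((tv q u)⁻¹ x) = a x
    rw [tv_inv_apply h, map_sub, map_smul, h0, smul_zero, sub_zero]
  · ext x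
    show a (tv q u x) = a x
    rw [tv_apply h, map_add, map_smul, h0, smul_zero, add_zero]

theorem tv_S {e : E →L[ℝ] E} (he : IsPr e) {q u : E} (h : inner ℝ q u = (0 : ℝ)) (hq : e q = q)
    (hu : e u = u) {a : E →L[ℝ] E} (ha : a ∈ uS e) :
    (((tv q u : GE E) : E →L[ℝ] E) ∘L a = a) ∧ (((tv q u)⁻¹ : GE E) : E →L[ℝ] E) ∘L a = a := by
  have h0 : ∀ x, (inner ℝ q (a x) : ℝ) = 0 := by
    intro x
    rw [← hq, he.sym, ha.1, inner_zero_right]
  constructor
  · ext x
    show tv q u (a x) = a x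
    rw [tv_apply h, h0, zero_smul, add_zero]
  · ext x
    show (tv q u)⁻¹ (a x) = a x
    rw [tv_inv_apply h, h0, zero_smul, sub_zero]

end
end LatLin
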