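import Pool.Agent.Lib.MP_2392aa_gt.L.Ip
import Pool.Agent.Lib.MP_2392aa_gt.L.HHom

/-!
MP_2392aa_gt, formal linearization, module CR: complete reducibility by orthogonal complements
(helper81; proofs helper15).
-/

open scoped ContDiff Topology

namespace LatLin

private theorem cr_proj {X : Type*} [AddCommGroup X] [Module ℝ X] [FiniteDimensional ℝ X]
    (ip : X →ₗ[ℝ] X →ₗ[ℝ] ℝ) (hp : ∀ x, x ≠ 0 → 0 < ip x x)
    (B : Submodule ℝ X) (z : X) : ∃ b ∈ B, ∀ y ∈ B, ip (z - b) y = 0 := by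
  let φ : B →ₗ[ℝ] (B →ₗ[ℝ] ℝ) :=
    { toFun := fun b => (ip (b : X)).comp B.subtype
      map_add' := fun a b => by
        apply LinearMap.ext
        intro y
        simp
      map_smul' := fun c b => by
        apply LinearMap.ext
        intro y
        simp }
  have hφ : ∀ (b y : B), φ b y = ip (b : X) (y : X) := fun _ _ => rfl
  have hinj : Function.Injective φ := by
    rw [← LinearMap.ker_eq_bot, LinearMap.ker_eq_bot']
    intro b hb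
    by_contra hne
    have h1 : (b : X) ≠ 0 := fun h => hne (Subtype.ext h)
    have h2 := hp _ h1
    have h3 : φ b b = 0 := by rw [hb]; rfl
    rw [hφ] at h3
    exact absurd h3 (ne_of_gt h2)
  have hsurj : Function.Surjective φ :=
    (LinearMap.injective_iff_surjective_of_finrank_eq_finrank
      (by rw [← Subspace.dual_finrank_eq])).mp hinj
  obtain ⟨b, hb⟩ := hsurj ((ip z).comp B.subtype)
  refine ⟨b, b.2, fun y hy => ?_⟩
  have h1 : φ b ⟨y, hy⟩ = ((ip z).comp B.subtype) ⟨y, hy⟩ := by rw [hb]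
  rw [hφ] at h1
  have h2 : ip (b : X) y = ip z y := h1
  rw [map_sub, LinearMap.sub_apply, h2, sub_self]

theorem cr {X : Type*} [AddCommGroup X] [Module ℝ X] [FiniteDimensional ℝ X]
    (ip : X →ₗ[ℝ] X →ₗ[ℝ] ℝ) (hs : ∀ x y, ip x y = ip y x) (hp : ∀ x, x ≠ 0 → 0 < ip x x)
    (S : Set (X →ₗ[ℝ] X)) (hadj : ∀ T ∈ S, ∃ T' ∈ S, ∀ x y, ip (T x) y = ip x (T' y))
    (B : Submodule ℝ X) (hB : ∀ T ∈ S, ∀ y ∈ B, T y ∈ B) (z : X) (hz : ∀ T ∈ S, T z - z ∈ B) :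
    ∃ b ∈ B, ∀ T ∈ S, T (z - b) = z - b := by
  obtain ⟨b, hb, hort⟩ := cr_proj ip hp B z
  refine ⟨b, hb, fun T hT => ?_⟩
  obtain ⟨T', hT', hadj'⟩ := hadj T hT
  have h1 : T (z - b) - (z - b) ∈ B := by
    have e : T (z - b) - (z - b) = (T z - z) - (T b - b) := by
      rw [map_sub]
      abel
    rw [e]
    exact B.sub_mem (hz T hT) (B.sub_mem (hB T hT b hb) hb)
  have h2 : ∀ y ∈ B, ip (T (z - b) - (z - b)) y = 0 := by
    intro y hy
    rw [map_sub ip, LinearMap.sub_apply, hadj', hort _ (hB T' hT' y hy), hort y hy, sub_zero]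
  by_contra hne
  have h3 : T (z - b) - (z - b) ≠ 0 := fun h => hne (sub_eq_zero.mp h)
  exact absurd (h2 _ h1) (ne_of_gt (hp _ h3))

section
variable {E : Type*} [NormedAddCommGroup E] [InnerProductSpace ℝ E] [FiniteDimensional ℝ E] {k : ℕ}

private theorem adj_tv {q u : E} (h : inner ℝ q u = (0 : ℝ)) :
    ContinuousLinearMap.adjoint ((tv q u : GE E) : E →L[ℝ] E) = ((tv u q : GE E) : E →L[ℝ] E) := by
  have h' : inner ℝ u q = (0 : ℝ) := by rw [real_inner_comm]; exact h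
  symm
  rw [ContinuousLinearMap.eq_adjoint_iff]
  intro x y
  change inner ℝ (tv u q x) y = inner ℝ x (tv q u y)
  rw [tv_apply h, tv_apply h', inner_add_left, inner_add_right, inner_smul_left,
    inner_smul_right]
  simp only [conj_trivial]
  rw [real_inner_comm x u, real_inner_comm y q]
  ring

private theorem adj_tv_inv {q u : E} (h : inner ℝ q u = (0 : ℝ)) :
    ContinuousLinearMap.adjoint (((tv q u)⁻¹ : GE E) : E →L[ℝ] E) =
      (((tv u q)⁻¹ : GE E) : E →L[ℝ] E) := by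
  have h' : inner ℝ u q = (0 : ℝ) := by rw [real_inner_comm]; exact h
  symm
  rw [ContinuousLinearMap.eq_adjoint_iff]
  intro x y
  change inner ℝ ((tv u q)⁻¹ x) y = inner ℝ x ((tv q u)⁻¹ y)
  rw [tv_inv_apply h, tv_inv_apply h', inner_sub_left, inner_sub_right, inner_smul_left,
    inner_smul_right]
  simp only [conj_trivial]
  rw [real_inner_comm x u, real_inner_comm y q]
  ring

private theorem pi_eq_pj (g : GE E) (p : HM E k) :
    pi k g p = pj (g : E →L[ℝ] E) ((g⁻¹ : GE E) : E →L[ℝ] E) p := rfl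

private theorem piH_eq_opH (g : GE E) (β : (E →L[ℝ] E) →ₗ[ℝ] HM E k) :
    piH k g β = opH (g : E →L[ℝ] E) ((g⁻¹ : GE E) : E →L[ℝ] E) ((g⁻¹ : GE E) : E →L[ℝ] E)
      (g : E →L[ℝ] E) β := rfl

theorem cr_HM (P : Set (E × E)) (h0 : ∀ p ∈ P, inner ℝ p.1 p.2 = (0 : ℝ))
    (hsym : ∀ p ∈ P, (p.2, p.1) ∈ P) (B : Submodule ℝ (HM E k))
    (hB : ∀ p ∈ P, ∀ y ∈ B, pi k (tv p.1 p.2) y ∈ B) (z : HM E k)
    (hz : ∀ p ∈ P, pi k (tv p.1 p.2) z - z ∈ B) :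
    ∃ b ∈ B, ∀ p ∈ P, pi k (tv p.1 p.2) (z - b) = z - b := by
  obtain ⟨ip, h1, h2, h3⟩ := exists_ip (E := E) k
  obtain ⟨b, hb, hb'⟩ := cr ip h1 h2 {T | ∃ p ∈ P, T = pi k (tv p.1 p.2)} (by
    rintro T ⟨p, hp, rfl⟩
    refine ⟨pi k (tv p.2 p.1), ⟨(p.2, p.1), hsym p hp, rfl⟩, fun x y => ?_⟩
    rw [pi_eq_pj, h3, adj_tv (h0 p hp), adj_tv_inv (h0 p hp), ← pi_eq_pj]) B (by
    rintro T ⟨p, hp, rfl⟩ y hy
    exact hB p hp y hy) z (by
    rintro T ⟨p, hp, rfl⟩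
    exact hz p hp)
  exact ⟨b, hb, fun p hp => hb' _ ⟨p, hp, rfl⟩⟩

theorem cr_H (P : Set (E × E)) (h0 : ∀ p ∈ P, inner ℝ p.1 p.2 = (0 : ℝ))
    (hsym : ∀ p ∈ P, (p.2, p.1) ∈ P) (B : Submodule ℝ ((E →L[ℝ] E) →ₗ[ℝ] HM E k))
    (hB : ∀ p ∈ P, ∀ y ∈ B, piH k (tv p.1 p.2) y ∈ B) (z : (E →L[ℝ] E) →ₗ[ℝ] HM E k)
    (hz : ∀ p ∈ P, piH k (tv p.1 p.2) z - z ∈ B) :
    ∃ b ∈ B, ∀ p ∈ P, piH k (tv p.1 p.2) (z - b) = z - b := by
  obtain ⟨ip, h1, h2, h3⟩ := exists_ipH (E := E) k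
  obtain ⟨b, hb, hb'⟩ := cr ip h1 h2 {T | ∃ p ∈ P, T = piH k (tv p.1 p.2)} (by
    rintro T ⟨p, hp, rfl⟩
    refine ⟨piH k (tv p.2 p.1), ⟨(p.2, p.1), hsym p hp, rfl⟩, fun x y => ?_⟩
    rw [piH_eq_opH, h3, adj_tv (h0 p hp), adj_tv_inv (h0 p hp), ← piH_eq_opH]) B (by
    rintro T ⟨p, hp, rfl⟩ y hy
    exact hB p hp y hy) z (by
    rintro T ⟨p, hp, rfl⟩
    exact hz p hp)
  exact ⟨b, hb, fun p hp => hb' _ ⟨p, hp, rfl⟩⟩

end
end LatLin
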