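import Pool.Agent.Lib.MP_2392aa_gt.C.Ifc

/-!
MP_2392aa_gt, formal linearization: definitions (helper81).

`HM E k`: homogeneous smooth maps `E → E` of degree `k` (these are the homogeneous polynomial maps).
`GE E`: the invertible linear maps of `E`. Cocycles of a subgroup `G` of `GE E` in `HM E k` are
functions `b : GE E → HM E k` with a condition on `G` only.
-/

open scoped ContDiff Topology

namespace LatLin

section
variable (E : Type*) [NormedAddCommGroup E] [InnerProductSpace ℝ E]

/-- the group of invertible linear maps -/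
abbrev GE := E ≃L[ℝ] E

/-- homogeneous smooth maps of degree `k` -/
def HM (k : ℕ) : Submodule ℝ (E → E) where
  carrier := {p | HomMap k p}
  add_mem' := by
    rintro p q ⟨hp, hp'⟩ ⟨hq, hq'⟩
    exact ⟨hp.add hq, fun t x => by simp [hp' t x, hq' t x]⟩
  zero_mem' := ⟨contDiff_const, fun t x => by simp⟩
  smul_mem' := by
    rintro c p ⟨hp, hp'⟩
    exact ⟨contDiff_const.smul hp, fun t x => by simp [hp' t x, smul_comm c]⟩

end

section
variable {E : Type*} [NormedAddCommGroup E] [InnerProductSpace ℝ E] {k : ℕ}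

/-- `p ↦ g ∘ p ∘ h` -/
def pj (g h : E →L[ℝ] E) : HM E k →ₗ[ℝ] HM E k where
  toFun p := ⟨fun x => g (p.1 (h x)), g.contDiff.comp (p.2.1.comp h.contDiff), fun t x => by
    dsimp only
    rw [map_smul, p.2.2, map_smul]⟩
  map_add' p q := by
    ext x
    simp
  map_smul' c p := by
    ext x
    simp

@[simp] theorem pj_apply (g h : E →L[ℝ] E) (p : HM E k) (x : E) :
    (pj g h p).1 x = g (p.1 (h x)) := rfl

/-- the action of the linear group: `g ∘ p ∘ g⁻¹` -/
def pi (k : ℕ) : GE E →* Module.End ℝ (HM E k) where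
  toFun g := pj (g : E →L[ℝ] E) ((g⁻¹ : GE E) : E →L[ℝ] E)
  map_one' := by
    apply LinearMap.ext
    intro p
    ext x
    rfl
  map_mul' g h := by
    apply LinearMap.ext
    intro p
    ext x
    simp only [Module.End.mul_apply, pj_apply, mul_inv_rev]
    rfl

theorem pi_apply (g : GE E) (p : HM E k) (x : E) :
    (pi k g p).1 x = g (p.1 ((g⁻¹ : GE E) x)) := rfl

/-- the derived action `a ∘ p - Dp ∘ a` -/
noncomputable def xd (a : E →L[ℝ] E) : HM E k →ₗ[ℝ] HM E k where
  toFun p := ⟨fun x => a (p.1 x) - fderiv ℝ p.1 x (a x), by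
    refine ⟨(a.contDiff.comp p.2.1).sub ((p.2.1.fderiv_right (m := ∞) (by simp)).clm_apply
      a.contDiff), fun t x => ?_⟩
    have hp : Differentiable ℝ p.1 := p.2.1.differentiable (by simp)
    have h1 : HasDerivAt (fun s : ℝ => p.1 (t • x + s • a (t • x)))
        (fderiv ℝ p.1 (t • x) (a (t • x))) 0 := by
      have h2 : HasDerivAt (fun s : ℝ => t • x + s • a (t • x)) (a (t • x)) 0 := by
        simpa using ((hasDerivAt_id (0 : ℝ)).smul_const (a (t • x))).const_add (t • x)
      have h3 : HasFDerivAt p.1 (fderiv ℝ p.1 (t • x)) (t • x + (0 : ℝ) • a (t • x)) := by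
        simpa using (hp (t • x)).hasFDerivAt
      exact h3.comp_hasDerivAt (0 : ℝ) h2
    have h4 : HasDerivAt (fun s : ℝ => t ^ k • p.1 (x + s • a x))
        (t ^ k • fderiv ℝ p.1 x (a x)) 0 := by
      have h2 : HasDerivAt (fun s : ℝ => x + s • a x) (a x) 0 := by
        simpa using ((hasDerivAt_id (0 : ℝ)).smul_const (a x)).const_add x
      have h3 : HasFDerivAt p.1 (fderiv ℝ p.1 x) (x + (0 : ℝ) • a x) := by
        simpa using (hp x).hasFDerivAt
      exact (h3.comp_hasDerivAt (0 : ℝ) h2).const_smul _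
    have h5 : (fun s : ℝ => p.1 (t • x + s • a (t • x))) = fun s => t ^ k • p.1 (x + s • a x) := by
      funext s
      rw [← p.2.2, smul_add, map_smul, smul_comm s t]
    rw [h5] at h1
    dsimp only
    rw [h1.unique h4, p.2.2, map_smul, smul_sub]⟩
  map_add' p q := by
    ext x
    have hp : DifferentiableAt ℝ p.1 x := (p.2.1.differentiable (by simp)) x
    have hq : DifferentiableAt ℝ q.1 x := (q.2.1.differentiable (by simp)) x
    have h : fderiv ℝ (p.1 + q.1) x = fderiv ℝ p.1 x + fderiv ℝ q.1 x := fderiv_add hp hq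
    simp only [Submodule.coe_add, Pi.add_apply, map_add, h, add_apply]
    abel
  map_smul' c p := by
    ext x
    have hp : DifferentiableAt ℝ p.1 x := (p.2.1.differentiable (by simp)) x
    have h : fderiv ℝ (c • p.1) x = c • fderiv ℝ p.1 x := fderiv_const_smul hp c
    simp only [SetLike.val_smul, Pi.smul_apply, map_smul, h, smul_apply,
      RingHom.id_apply, smul_sub]

theorem xd_apply (a : E →L[ℝ] E) (p : HM E k) (x : E) :
    (xd a p).1 x = a (p.1 x) - fderiv ℝ p.1 x (a x) := rfl

/-- `b` is a cocycle on the subgroup `G` -/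
def IsCoc (G : Subgroup (GE E)) (b : GE E → HM E k) : Prop :=
  ∀ g ∈ G, ∀ h ∈ G, b (g * h) = b g + pi k g (b h)

/-- `w` trivializes `b` on the set `S` -/
def Triv (b : GE E → HM E k) (w : HM E k) (S : Set (GE E)) : Prop :=
  ∀ g ∈ S, b g = w - pi k g w

/-- the rank one operator `x ↦ ⟪q, x⟫ • u` -/
noncomputable def ro (q u : E) : E →L[ℝ] E := (innerSL ℝ q).smulRight u

@[simp] theorem ro_apply (q u x : E) : ro q u x = (inner ℝ q x : ℝ) • u := rfl

open Classical in
/-- the element `1 + a` of the linear group, for `a ^ 2 = 0` (and `1` if `a ^ 2 ≠ 0`) -/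
noncomputable def tw (a : E →L[ℝ] E) : GE E :=
  if h : a ∘L a = 0 then
    ContinuousLinearEquiv.equivOfInverse (ContinuousLinearMap.id ℝ E + a)
      (ContinuousLinearMap.id ℝ E - a)
      (fun x => by
        have h1 : a (a x) = 0 := by simpa using congrArg (fun f => f x) h
        simp [h1])
      (fun x => by
        have h1 : a (a x) = 0 := by simpa using congrArg (fun f => f x) h
        simp [h1])
  else 1

theorem tw_apply {a : E →L[ℝ] E} (h : a ∘L a = 0) (x : E) : tw a x = x + a x := by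
  unfold tw
  rw [dif_pos h]
  rfl

theorem tw_inv_apply {a : E →L[ℝ] E} (h : a ∘L a = 0) (x : E) :
    (tw a)⁻¹ x = x - a x := by
  unfold tw
  rw [dif_pos h]
  rfl

theorem ro_sq {q u : E} (h : inner ℝ q u = (0 : ℝ)) : ro q u ∘L ro q u = 0 := by
  ext x
  simp [h]

/-- transvections (for `⟪q, u⟫ = 0`) -/
noncomputable def tv (q u : E) : GE E := tw (ro q u)

theorem tv_apply {q u : E} (h : inner ℝ q u = (0 : ℝ)) (x : E) :
    tv q u x = x + (inner ℝ q x : ℝ) • u := tw_apply (ro_sq h) x

theorem tv_inv_apply {q u : E} (h : inner ℝ q u = (0 : ℝ)) (x : E) :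
    (tv q u)⁻¹ x = x - (inner ℝ q x : ℝ) • u := tw_inv_apply (ro_sq h) x

/-- orthogonal projections -/
structure IsPr (e : E →L[ℝ] E) : Prop where
  idem : ∀ x, e (e x) = e x
  sym : ∀ x y, inner ℝ (e x) y = (inner ℝ x (e y) : ℝ)

/-- the range of the projection has dimension at least two -/
def Big (e : E →L[ℝ] E) : Prop := ∀ v : E, ∃ u : E, e u = u ∧ u ≠ 0 ∧ inner ℝ u v = (0 : ℝ)

/-- operators from the kernel of the projection `e` to its range -/
def uT (e : E →L[ℝ] E) : Submodule ℝ (E →L[ℝ] E) where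
  carrier := {a | (∀ x, e (a x) = a x) ∧ ∀ x, a (e x) = 0}
  add_mem' := by
    rintro a b ⟨ha, ha'⟩ ⟨hb, hb'⟩
    exact ⟨fun x => by simp [ha x, hb x], fun x => by simp [ha' x, hb' x]⟩
  zero_mem' := ⟨fun x => by simp, fun x => by simp⟩
  smul_mem' := by
    rintro c a ⟨ha, ha'⟩
    exact ⟨fun x => by simp [ha x], fun x => by simp [ha' x]⟩

theorem uT_sq {e : E →L[ℝ] E} {a : E →L[ℝ] E} (ha : a ∈ uT e) : a ∘L a = 0 := by
  ext x
  have h1 := ha.2 (a x)
  rw [ha.1 x] at h1
  simpa using h1

/-- operators from the range of the projection `e` to its kernel -/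
def uS (e : E →L[ℝ] E) : Submodule ℝ (E →L[ℝ] E) where
  carrier := {a | (∀ x, e (a x) = 0) ∧ ∀ x, a (e x) = a x}
  add_mem' := by
    rintro a b ⟨ha, ha'⟩ ⟨hb, hb'⟩
    exact ⟨fun x => by simp [ha x, hb x], fun x => by simp [ha' x, hb' x]⟩
  zero_mem' := ⟨fun x => by simp, fun x => by simp⟩
  smul_mem' := by
    rintro c a ⟨ha, ha'⟩
    exact ⟨fun x => by simp [ha x], fun x => by simp [ha' x]⟩

theorem uS_sq {e : E →L[ℝ] E} {a : E →L[ℝ] E} (ha : a ∈ uS e) : a ∘L a = 0 := by
  ext x
  have h1 := ha.2 (a x)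
  rw [ha.1 x] at h1
  simpa using h1.symm

/-- the elements of the linear group which act on the range of `e` only -/
def blk (e : E →L[ℝ] E) : Set (GE E) :=
  {g | (∀ x, e (g (e x)) = g (e x)) ∧ ∀ x, e x = 0 → g x = x}

/-- lattice data: the elements `1 + a` of `G` with `a ∈ u` contain the integer span of a real basis
of `u` with finite index -/
def Lat (G : Subgroup (GE E)) (u : Submodule ℝ (E →L[ℝ] E)) : Prop :=
  ∃ (n : ℕ) (c : Fin n → (E →L[ℝ] E)), LinearIndependent ℝ c ∧
    Submodule.span ℝ (Set.range c) = u ∧ (∀ i, tw (c i) ∈ G) ∧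
    ∀ a ∈ u, tw a ∈ G → ∃ M : ℕ, M ≠ 0 ∧ (M : ℤ) • a ∈ Submodule.span ℤ (Set.range c)

/-- the elements `1 + a`, `a ∈ u` -/
def tws (u : Submodule ℝ (E →L[ℝ] E)) : Set (GE E) := {g | ∃ a ∈ u, g = tw a}

/-- maps killed by the derived action of `u` -/
noncomputable def kil (k : ℕ) (u : Submodule ℝ (E →L[ℝ] E)) : Submodule ℝ (HM E k) where
  carrier := {w | ∀ a ∈ u, xd a w = 0}
  add_mem' := by
    intro v w hv hw a ha
    rw [map_add, hv a ha, hw a ha, add_zero]
  zero_mem' := fun a _ => map_zero _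
  smul_mem' := by
    intro c w hw a ha
    rw [map_smul, hw a ha, smul_zero]

/-- the conjugation action on linear maps from operators to homogeneous maps -/
noncomputable def piH (k : ℕ) : GE E →* Module.End ℝ ((E →L[ℝ] E) →ₗ[ℝ] HM E k) where
  toFun g :=
    { toFun := fun β => (pi k g) ∘ₗ β ∘ₗ
        { toFun := fun a => ((g⁻¹ : GE E) : E →L[ℝ] E) ∘L a ∘L (g : E →L[ℝ] E)
          map_add' := fun a b => by ext x; simp
          map_smul' := fun c a => by ext x; simp }
      map_add' := fun β γ => by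
        apply LinearMap.ext
        intro a
        simp
      map_smul' := fun c β => by
        apply LinearMap.ext
        intro a
        simp }
  map_one' := by
    apply LinearMap.ext
    intro β
    apply LinearMap.ext
    intro a
    simp only [map_one, LinearMap.coe_mk, AddHom.coe_mk, LinearMap.comp_apply, Module.End.one_apply]
    rfl
  map_mul' g h := by
    apply LinearMap.ext
    intro β
    apply LinearMap.ext
    intro a
    simp only [map_mul, LinearMap.coe_mk, AddHom.coe_mk, LinearMap.comp_apply,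
      Module.End.mul_apply, mul_inv_rev]
    rfl

theorem piH_apply (g : GE E) (β : (E →L[ℝ] E) →ₗ[ℝ] HM E k) (a : E →L[ℝ] E) :
    piH k g β a = pi k g (β (((g⁻¹ : GE E) : E →L[ℝ] E) ∘L a ∘L (g : E →L[ℝ] E))) := rfl

/-- vector valued polynomials of one variable -/
def IsPoly {X : Type*} [AddCommGroup X] [Module ℝ X] (f : ℝ → X) : Prop :=
  ∃ (K : ℕ) (c : ℕ → X), ∀ s, f s = ∑ i ∈ Finset.range K, s ^ i • c i

/-- a representation with polynomial unipotents, bounded on bounded sets -/
structure PRep {X : Type*} [AddCommGroup X] [Module ℝ X] (π : GE E →* Module.End ℝ X) :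
    Prop where
  poly : ∀ a : E →L[ℝ] E, a ∘L a = 0 → ∀ (f : X →ₗ[ℝ] ℝ) (x : X),
    IsPoly (fun s : ℝ => f (π (tw (s • a)) x))
  bdd : ∀ (R : ℝ) (f : X →ₗ[ℝ] ℝ) (x : X), ∃ C : ℝ, ∀ g : GE E, ‖(g : E →L[ℝ] E)‖ ≤ R →
    ‖((g⁻¹ : GE E) : E →L[ℝ] E)‖ ≤ R → |f (π g x)| ≤ C

end

section
universe u
variable {E : Type u} [NormedAddCommGroup E] [InnerProductSpace ℝ E]

/-- density of the elements of `G` acting on the range of `e` only, for polynomial
representations: invariants modulo a submodule are invariant under all transvections -/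
def Dn (G : Subgroup (GE E)) (e : E →L[ℝ] E) : Prop :=
  ∀ (X : Type u) [AddCommGroup X] [Module ℝ X] [FiniteDimensional ℝ X]
    (π : GE E →* Module.End ℝ X), PRep π → ∀ B : Submodule ℝ X,
    (∀ g ∈ blk e, ∀ y ∈ B, π g y ∈ B) → ∀ x : X, (∀ γ ∈ G, γ ∈ blk e → π γ x - x ∈ B) →
    ∀ q u : E, inner ℝ q u = (0 : ℝ) → e q = q → e u = u → π (tv q u) x - x ∈ B

end

end LatLin
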