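import Pool.Agent.Lib.MP_2392aa_gt.L.HFin

/-!
MP_2392aa_gt, formal linearization, module LemS (about 450 lines): equivariant cocycles on
`uS e = Hom(V, N)`, `V` = range of `e`, `N` = kernel of `e`, are coboundaries (degree `k ≥ 2`).

NOTATION. `x = z + y`, `z := e x ∈ V`, `y := x - e x ∈ N`. For `a ∈ uS e`: `a x = a z ∈ N`, `a N = 0`. A
transvection `ℓ = tv q u` with `q, u ∈ V`, `⟪q, u⟫ = 0`, fixes `N`, maps `V` to `V`. `heq` says
`(β (a ∘ ℓ⁻¹)) x = ℓ ((β a) (ℓ⁻¹ x))`. `hc` says (`xd a p x = a (p x) - Dp(x) (a x)`)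
(C) `a ((β a') x) - D(β a')(x)(a z) = a' ((β a) x) - D(β a)(x)(a' z)`.
For `q ∈ V`, `n ∈ N`: `ro q n ∈ uS e` and `(ro q n) ∘ (tv r u)⁻¹ = ro (q - ⟪q, u⟫ r) n`.
(F1), (F2): transitivity of transvections on `V \ {0}`, equivariant maps `V \ {0} → V` are `z ↦ c z`,
see LemT (prove them here again, private).
STEP 1. `e`-part of (C) (`e a = e a' = 0`): `e D(β a')(x)(a z) = e D(β a)(x)(a' z)`. If `z ≠ 0` and
`a z = 0`: `a' z` is arbitrary in `N` (`a' = ‖z‖⁻² ro z n`), so `e D(β a)(z + y)(n) = 0` for all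
`n ∈ N`: `e (β a)(z + y) = e (β a) z`.
STEP 2. For `q, z ∈ V` nonzero, `⟪q, z⟫ = 0`, `n ∈ N`: `(β (ro q n)) z = 0`. Write
`P(q, z) := (β (ro q n)) z`; `heq`: `P(q - ⟪q, u⟫ r, z + ⟪r, z⟫ u) = (tv r u) P(q, z)` (`r, u ∈ V`,
`⟪r, u⟫ = 0`). (2a) with `r ⟂ z`, `u = z`: `⟪r, P⟫ z = 0`, so `e P(q, z) = c z`. (2b) apply successively
`(r, u) = (z, q)`, `(t q, z)`, `(z, s' q)` with `t = 1 / (‖z‖² ‖q‖²)`, `s' = - 1 / 2`: with
`λ = 1 + t ‖z‖² ‖q‖² = 2` one gets `(q, z) ↦ (2 q, 2 z)`, and the product `g` of the three transvections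
satisfies `g z = 2 z`, `g = id` on `N`, `g V ⊆ V`. `P(2 q, 2 z) = 2 ^ (k + 1) P(q, z) = g P(q, z)`. So
`2 ^ (k+1) c z = 2 c z`, `c = 0` (`k ≥ 1`), and for the `N`-part `2 ^ (k+1) P_N = P_N`, `P_N = 0`.
(2c) for `a ∈ uS e` with `a z = 0`, `z ≠ 0`: `a = ∑_j ro (a† b_j) b_j`, with `b_j` an orthonormal
basis of `E` replaced by `n_j = b_j - e b_j`: `a = ∑_j ro (q_j) n_j`, `q_j := e (a† b_j)`,
`⟪q_j, z⟫ = ⟪b_j, a z⟫ = 0`; so `(β a) z = 0`. With step 1: `e (β a)(z + y) = 0` if `a z = 0`.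
STEP 3. So `e (β a)(z + y)` depends only on `n = a z` (for `z ≠ 0`); as a function of `z` with `n`, `y`
fixed it is equivariant: `e (β a)(z + y) = h(a z, y) z` with (F2), `h n y := ⟪z0, (β (ro z0 n)) (z0 + y)⟫`
for a fixed unit vector `z0 ∈ V`. `h` is linear in `n`, smooth in `y`.
STEP 4. `N`-part of (C) for `a z = 0`, `z ≠ 0`: `a ((β a') x) = h(a' z, y) a z = 0`, and
`a' ((β a) x) = a' (e (β a) x) = 0`, so `(1-e) D(β a)(x)(n) = 0` for all `n ∈ N`: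
`(1 - e)(β a)(z + y) = (1 - e)(β a) z = 0`. So `(1 - e)(β a)(z + y) = m(a z, y)` for `z ≠ 0`, not
depending on `z` otherwise (invariance, F1), `m n y := (β (ro z0 n))(z0 + y) - e (..)`. By continuity
(C') `(β a) x = h(a z, y) z + m(a z, y)` for all `x`.
HOMOGENEITY (from `(β a)(t x) = t ^ k (β a) x`): `h(n, t y) = t ^ (k - 2) h(n, y)`,
`m(n, t y) = t ^ (k - 1) m(n, y)` for `t > 0` (then for all `t` by smoothness, not needed).
CLOSEDNESS (from (C) with `z = z0`): `D_y h(n', y)(n) = D_y h(n, y)(n')` and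
`h(n', y) n - D_y m(n', y)(n) = h(n, y) n' - D_y m(n, y)(n')` for `n, n', y ∈ N`.
STEP 5. `f y := h(y, y) / (k - 1)`, `r(n, y) := m(n, y) + f(y) n`, `G y := - r(y, y) / k`
(`y ∈ N`). Euler's identity: `D_y h(n, y)(y) = (k - 2) h(n, y)`, so `Df(y)(n) = h(n, y)`;
`D_y r(n, y)(n') = D_y r(n', y)(n)`, `D_y r(n, y)(y) = (k - 1) r(n, y)`, so `DG(y)(n) = - r(n, y)`.
`w x := - f(y) z + G(y)` (`z = e x`, `y = x - e x`), in `HM E k`. Then
`(xd a w) x = a (w x) - Dw(x)(a z) = - f(y) a z + h(a z, y) z + r(a z, y) = (β a) x`. (To define `w` as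
an element of `HM E k` note that `f(y) = ⟪z0, (β (ro z0 y))(z0 + y)⟫ / (k - 1)` is smooth and homogeneous
of degree `k - 1 ≥ 1` in `y`, for `t > 0` by the above, for `t < 0` by the same computation with
`z0 ↦ t z0`, for `t = 0` since `f 0 = 0`; similarly `G`, degree `k`.)
-/

open scoped ContDiff Topology

namespace LatLin

section
variable {E : Type*} [NormedAddCommGroup E] [InnerProductSpace ℝ E] {k : ℕ}

private theorem ls_in {e : E →L[ℝ] E} (he : IsPr e) {q : E} (hq : e q = q) (x : E) :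
    inner ℝ q (e x) = (inner ℝ q x : ℝ) := by
  rw [← he.sym, hq]

private theorem ls_inN {e : E →L[ℝ] E} (he : IsPr e) {q n : E} (hq : e q = q) (hn : e n = 0) :
    inner ℝ q n = (0 : ℝ) := by
  rw [← ls_in he hq, hn, inner_zero_right]

private theorem ls_ro {e : E →L[ℝ] E} (he : IsPr e) {q n : E} (hq : e q = q) (hn : e n = 0) :
    ro q n ∈ uS e := by
  refine ⟨fun x => ?_, fun x => ?_⟩
  · rw [ro_apply, map_smul, hn, smul_zero]
  · rw [ro_apply, ro_apply, ls_in he hq]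

private theorem ls_curve (p : HM E k) (x v : E) (s : ℝ) :
    HasDerivAt (fun s : ℝ => p.1 (x + s • v)) (fderiv ℝ p.1 (x + s • v) v) s := by
  have hp : Differentiable ℝ p.1 := p.2.1.differentiable (by simp)
  have h2 : HasDerivAt (fun s : ℝ => x + s • v) v s := by
    simpa using ((hasDerivAt_id s).smul_const v).const_add x
  exact (hp _).hasFDerivAt.comp_hasDerivAt s h2

private theorem ls_const (p : HM E k) (g : E →L[ℝ] E) (x v : E)
    (h : ∀ s : ℝ, g (fderiv ℝ p.1 (x + s • v) v) = 0) : g (p.1 (x + v)) = g (p.1 x) := by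
  have h1 : ∀ s : ℝ, HasDerivAt (fun s : ℝ => g (p.1 (x + s • v))) 0 s := by
    intro s
    have h2 := g.hasFDerivAt.comp_hasDerivAt s (ls_curve p x v s)
    rw [h s] at h2
    exact h2
  have h3 := is_const_of_deriv_eq_zero (f := fun s : ℝ => g (p.1 (x + s • v)))
    (fun s => (h1 s).differentiableAt) (fun s => (h1 s).deriv) 1 0
  simpa using h3

private theorem ls_par {e : E →L[ℝ] E} (he : IsPr e) {z P : E} (hz : e z = z) (hz0 : z ≠ 0)
    (h : ∀ r, e r = r → inner ℝ r z = (0 : ℝ) → inner ℝ r P = (0 : ℝ)) : ∃ c : ℝ, e P = c • z := by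
  have hzz : inner ℝ z z ≠ (0 : ℝ) := fun h0 => hz0 (inner_self_eq_zero.1 h0)
  refine ⟨inner ℝ z P / inner ℝ z z, ?_⟩
  have h1 : e (e P - ((inner ℝ z P : ℝ) / inner ℝ z z) • z) =
      e P - ((inner ℝ z P : ℝ) / inner ℝ z z) • z := by
    rw [map_sub, map_smul, he.idem, hz]
  have h2 : inner ℝ (e P - ((inner ℝ z P : ℝ) / inner ℝ z z) • z) z = (0 : ℝ) := by
    rw [inner_sub_left, real_inner_smul_left, he.sym, hz, div_mul_cancel₀ _ hzz, real_inner_comm,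
      sub_self]
  have h3 := h _ h1 h2
  have h4 : inner ℝ (e P - ((inner ℝ z P : ℝ) / inner ℝ z z) • z)
      (e P - ((inner ℝ z P : ℝ) / inner ℝ z z) • z) = (0 : ℝ) := by
    conv_lhs => rw [inner_sub_right, real_inner_smul_right, h2, mul_zero, sub_zero, ls_in he h1, h3]
  exact sub_eq_zero.1 (inner_self_eq_zero.1 h4)

/-- equivariance, in the form used below -/
private theorem ls_T {e : E →L[ℝ] E} (β : (E →L[ℝ] E) →ₗ[ℝ] HM E k)
    (heq : ∀ q u : E, inner ℝ q u = (0 : ℝ) → e q = q → e u = u → ∀ a ∈ uS e,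
      β (a ∘L (((tv q u)⁻¹ : GE E) : E →L[ℝ] E)) = pi k (tv q u) (β a)) {r u : E}
    (hru : inner ℝ r u = (0 : ℝ)) (hr : e r = r) (hu : e u = u) {a : E →L[ℝ] E} (ha : a ∈ uS e)
    (x : E) : (β (a - ro r (a u))).1 (x + (inner ℝ r x : ℝ) • u) =
      (β a).1 x + (inner ℝ r ((β a).1 x) : ℝ) • u := by
  have h1 : a ∘L (((tv r u)⁻¹ : GE E) : E →L[ℝ] E) = a - ro r (a u) := by
    ext y
    have h2 : (((tv r u)⁻¹ : GE E) : E →L[ℝ] E) y = y - (inner ℝ r y : ℝ) • u := tv_inv_apply hru y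
    rw [ContinuousLinearMap.comp_apply, h2]
    simp
  have h3 := heq r u hru hr hu a ha
  rw [h1] at h3
  rw [h3, pi_apply, tv_apply hru]
  have h4 : (tv r u)⁻¹ (x + (inner ℝ r x : ℝ) • u) = x := by
    rw [tv_inv_apply hru, inner_add_right, real_inner_smul_right, hru, mul_zero, add_zero,
      add_sub_cancel_right]
  rw [h4]

private theorem ls_C {e : E →L[ℝ] E} (β : (E →L[ℝ] E) →ₗ[ℝ] HM E k)
    (hc : ∀ a ∈ uS e, ∀ a' ∈ uS e, xd a (β a') = xd a' (β a)) {a a' : E →L[ℝ] E} (ha : a ∈ uS e)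
    (ha' : a' ∈ uS e) (x : E) : a ((β a').1 x) - fderiv ℝ (β a').1 x (a x) =
      a' ((β a).1 x) - fderiv ℝ (β a).1 x (a' x) := by
  have h1 := congrArg (fun p : HM E k => p.1 x) (hc a ha a' ha')
  simpa only [xd_apply] using h1

private theorem ls_Par {e : E →L[ℝ] E} (he : IsPr e) (β : (E →L[ℝ] E) →ₗ[ℝ] HM E k)
    (heq : ∀ q u : E, inner ℝ q u = (0 : ℝ) → e q = q → e u = u → ∀ a ∈ uS e,
      β (a ∘L (((tv q u)⁻¹ : GE E) : E →L[ℝ] E)) = pi k (tv q u) (β a))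
    {a : E →L[ℝ] E} (ha : a ∈ uS e) {x : E} (hx : e x ≠ 0)
    (h : ∀ r, e r = r → inner ℝ r (e x) = (0 : ℝ) → e ((β (ro r (a x))).1 x) = 0) :
    ∃ c : ℝ, e ((β a).1 x) = c • e x := by
  refine ls_par he (he.idem x) hx fun r hr hrx => ?_
  have h1 := ls_T β heq hrx hr (he.idem x) ha x
  have h2 : inner ℝ r x = (0 : ℝ) := by rw [← ls_in he hr, hrx]
  rw [h2, zero_smul, add_zero, ha.2, map_sub] at h1
  have h3 := congrArg e h1
  have h4 : (β a - β (ro r (a x))).1 x = (β a).1 x - (β (ro r (a x))).1 x := rfl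
  rw [h4, map_sub, h r hr hrx, map_add, map_smul, he.idem, sub_zero] at h3
  have h5 : (inner ℝ r ((β a).1 x) : ℝ) • e x = 0 := by
    have h6 := congrArg (fun v => v - e ((β a).1 x)) h3
    simpa using h6.symm
  exact (smul_eq_zero.1 h5).resolve_right hx

end

section
variable {E : Type*} [NormedAddCommGroup E] [InnerProductSpace ℝ E] [FiniteDimensional ℝ E] {k : ℕ}

omit [FiniteDimensional ℝ E] in
private theorem ls_K1 {e : E →L[ℝ] E} (he : IsPr e) (hk : 2 ≤ k)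
    (β : (E →L[ℝ] E) →ₗ[ℝ] HM E k)
    (heq : ∀ q u : E, inner ℝ q u = (0 : ℝ) → e q = q → e u = u → ∀ a ∈ uS e,
      β (a ∘L (((tv q u)⁻¹ : GE E) : E →L[ℝ] E)) = pi k (tv q u) (β a))
    {q z n : E} (hq : e q = q) (hz : e z = z) (hn : e n = 0) (hz0 : z ≠ 0)
    (hqz : inner ℝ q z = (0 : ℝ)) : (β (ro q n)).1 z = 0 := by
  by_cases hq0 : q = 0
  · have h1 : ro q n = 0 := by
      ext x
      simp [hq0]
    rw [h1, map_zero]
    rfl
  have hzq : inner ℝ z q = (0 : ℝ) := by rw [real_inner_comm]; exact hqz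
  obtain ⟨c, hc⟩ : ∃ c : ℝ, e ((β (ro q n)).1 z) = c • e z := by
    refine ls_Par he β heq (ls_ro he hq hn) (by rwa [hz]) fun r _ _ => ?_
    have h1 : ro r ((ro q n) z) = 0 := by
      ext x
      simp [hqz]
    rw [h1, map_zero]
    exact map_zero e
  rw [hz] at hc
  obtain ⟨m, hm⟩ : ∃ m : E, m = (β (ro q n)).1 z - e ((β (ro q n)).1 z) := ⟨_, rfl⟩
  have hme : e m = 0 := by rw [hm, map_sub, he.idem, sub_self]
  have h0 : (β (ro q n)).1 z = c • z + m := by rw [hm, hc]; abel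
  have hstep : ∀ q' x r u : E, e q' = q' → e r = r → e u = u → inner ℝ r u = (0 : ℝ) →
      (β (ro q' n)).1 x = c • x + m →
      (β (ro (q' - (inner ℝ q' u : ℝ) • r) n)).1 (x + (inner ℝ r x : ℝ) • u) =
        c • (x + (inner ℝ r x : ℝ) • u) + m := by
    intro q' x r u hq' hr hu hru h
    have h1 := ls_T β heq hru hr hu (ls_ro he hq' hn) x
    have h2 : ro q' n - ro r ((ro q' n) u) = ro (q' - (inner ℝ q' u : ℝ) • r) n := by
      ext y
      simp only [sub_apply, ro_apply, inner_sub_left, real_inner_smul_left]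
      rw [sub_smul, smul_smul, mul_comm]
    rw [h2, h, inner_add_right, real_inner_smul_right, ls_inN he hr hme] at h1
    rw [h1, smul_add, smul_smul, add_zero]
    abel
  have hc1 : (inner ℝ z z : ℝ) ≠ 0 := fun h => hz0 (inner_self_eq_zero.1 h)
  have hc2 : (inner ℝ q q : ℝ) ≠ 0 := fun h => hq0 (inner_self_eq_zero.1 h)
  have h1 := hstep q z z q hq hz hq hzq h0
  have h2 := hstep (q - (inner ℝ q q : ℝ) • z) (z + (inner ℝ z z : ℝ) • q)
    (((inner ℝ q q : ℝ) * inner ℝ z z)⁻¹ • q) z (by rw [map_sub, map_smul, hq, hz])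
    (by rw [map_smul, hq]) hz (by rw [real_inner_smul_left, hqz, mul_zero]) h1
  have e1 : (q - (inner ℝ q q : ℝ) • z) - (inner ℝ (q - (inner ℝ q q : ℝ) • z) z : ℝ) •
      (((inner ℝ q q : ℝ) * inner ℝ z z)⁻¹ • q) = (2 : ℝ) • q - (inner ℝ q q : ℝ) • z := by
    rw [inner_sub_left, real_inner_smul_left, hqz, zero_sub, neg_smul, smul_smul,
      mul_inv_cancel₀ (mul_ne_zero hc2 hc1)]
    module
  have e2 : (z + (inner ℝ z z : ℝ) • q) + (inner ℝ (((inner ℝ q q : ℝ) * inner ℝ z z)⁻¹ • q)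
      (z + (inner ℝ z z : ℝ) • q) : ℝ) • z = (2 : ℝ) • z + (inner ℝ z z : ℝ) • q := by
    rw [real_inner_smul_left, inner_add_right, real_inner_smul_right, hqz, zero_add,
      mul_comm (inner ℝ z z : ℝ) (inner ℝ q q : ℝ), inv_mul_cancel₀ (mul_ne_zero hc2 hc1)]
    module
  rw [e1, e2] at h2
  have h3 := hstep ((2 : ℝ) • q - (inner ℝ q q : ℝ) • z) ((2 : ℝ) • z + (inner ℝ z z : ℝ) • q)
    z ((-(1 / 2 : ℝ)) • q) (by rw [map_sub, map_smul, map_smul, hq, hz]) hz (by rw [map_smul, hq])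
    (by rw [real_inner_smul_right, hzq, mul_zero]) h2
  have e3 : ((2 : ℝ) • q - (inner ℝ q q : ℝ) • z) - (inner ℝ ((2 : ℝ) • q - (inner ℝ q q : ℝ) • z)
      ((-(1 / 2 : ℝ)) • q) : ℝ) • z = (2 : ℝ) • q := by
    rw [inner_sub_left, real_inner_smul_left, real_inner_smul_left, real_inner_smul_right,
      real_inner_smul_right, hzq]
    module
  have e4 : ((2 : ℝ) • z + (inner ℝ z z : ℝ) • q) + (inner ℝ z
      ((2 : ℝ) • z + (inner ℝ z z : ℝ) • q) : ℝ) • ((-(1 / 2 : ℝ)) • q) = (2 : ℝ) • z := by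
    rw [inner_add_right, real_inner_smul_right, real_inner_smul_right, hzq]
    module
  rw [e3, e4] at h3
  have h4 : ro ((2 : ℝ) • q) n = (2 : ℝ) • ro q n := by
    ext y
    simp only [smul_apply, ro_apply, real_inner_smul_left, smul_smul]
  have h5 : (β (ro ((2 : ℝ) • q) n)).1 ((2 : ℝ) • z) = (2 : ℝ) ^ (k + 1) • (c • z + m) := by
    rw [h4, map_smul]
    have h6 : ((2 : ℝ) • β (ro q n)).1 ((2 : ℝ) • z) = (2 : ℝ) • (β (ro q n)).1 ((2 : ℝ) • z) := rfl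
    rw [h6, (β (ro q n)).2.2, h0, smul_smul, pow_succ, mul_comm]
  rw [h5] at h3
  have h6 : (2 : ℝ) ^ (k + 1) = 4 * (2 : ℝ) ^ (k - 1) := by
    obtain ⟨j, rfl⟩ : ∃ j, k = j + 2 := ⟨k - 2, by omega⟩
    rw [show j + 2 - 1 = j + 1 from rfl]
    ring
  have h7 : (1 : ℝ) ≤ (2 : ℝ) ^ (k - 1) := one_le_pow₀ (by norm_num)
  have hcz : c = 0 := by
    have h8 := congrArg (fun v => (inner ℝ z v : ℝ)) h3
    simp only [inner_add_right, real_inner_smul_right, ls_inN he hz hme] at h8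
    have h9 : (inner ℝ z z : ℝ) * (c * ((2 : ℝ) ^ (k + 1) - 2)) = 0 := by linear_combination h8
    have h10 := (mul_eq_zero.1 h9).resolve_left hc1
    refine (mul_eq_zero.1 h10).resolve_right ?_
    rw [h6]
    intro h11
    linarith
  have hm0 : m = 0 := by
    rw [hcz, zero_smul, zero_smul, zero_add] at h3
    have h8 : ((2 : ℝ) ^ (k + 1) - 1) • m = 0 := by rw [sub_smul, h3, one_smul, sub_self]
    refine (smul_eq_zero.1 h8).resolve_left ?_
    rw [h6]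
    intro h11
    linarith
  rw [h0, hcz, hm0, zero_smul, add_zero]

private theorem ls_dec {e : E →L[ℝ] E} (he : IsPr e) {a : E →L[ℝ] E} (ha : a ∈ uS e) :
    a = ∑ i, ro (e ((ContinuousLinearMap.adjoint a) (stdOrthonormalBasis ℝ E i)))
      ((stdOrthonormalBasis ℝ E i) - e (stdOrthonormalBasis ℝ E i)) := by
  ext x
  rw [sum_apply]
  have h1 : ∀ i, ro (e ((ContinuousLinearMap.adjoint a) (stdOrthonormalBasis ℝ E i)))
      ((stdOrthonormalBasis ℝ E i) - e (stdOrthonormalBasis ℝ E i)) x =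
      (inner ℝ (stdOrthonormalBasis ℝ E i) (a x) : ℝ) • (stdOrthonormalBasis ℝ E i) -
        e ((inner ℝ (stdOrthonormalBasis ℝ E i) (a x) : ℝ) • (stdOrthonormalBasis ℝ E i)) := by
    intro i
    rw [ro_apply, he.sym, ContinuousLinearMap.adjoint_inner_left, ha.2, smul_sub, map_smul]
  rw [Finset.sum_congr rfl fun i _ => h1 i, Finset.sum_sub_distrib, ← map_sum,
    OrthonormalBasis.sum_repr', ha.1, sub_zero]

omit [FiniteDimensional ℝ E] in
private theorem ls_sum {ι : Type*} (s : Finset ι) (p : ι → HM E k) (x : E) :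
    (∑ i ∈ s, p i).1 x = ∑ i ∈ s, (p i).1 x := by
  have h1 : (∑ i ∈ s, p i).1 = ∑ i ∈ s, (p i).1 := AddSubmonoidClass.coe_finsetSum _ _
  rw [h1, Finset.sum_apply]

private theorem ls_K2 {e : E →L[ℝ] E} (he : IsPr e) (hk : 2 ≤ k)
    (β : (E →L[ℝ] E) →ₗ[ℝ] HM E k)
    (heq : ∀ q u : E, inner ℝ q u = (0 : ℝ) → e q = q → e u = u → ∀ a ∈ uS e,
      β (a ∘L (((tv q u)⁻¹ : GE E) : E →L[ℝ] E)) = pi k (tv q u) (β a))
    {a : E →L[ℝ] E} (ha : a ∈ uS e) {z : E} (hz : e z = z) (hz0 : z ≠ 0) (haz : a z = 0) :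
    (β a).1 z = 0 := by
  rw [ls_dec he ha, map_sum, ls_sum]
  refine Finset.sum_eq_zero fun i _ => ?_
  refine ls_K1 he hk β heq (he.idem _) hz (by rw [map_sub, he.idem, sub_self]) hz0 ?_
  rw [he.sym, hz, ContinuousLinearMap.adjoint_inner_left, haz, inner_zero_right]

private theorem ls_K3 {e : E →L[ℝ] E} (he : IsPr e) (hk : 2 ≤ k)
    (β : (E →L[ℝ] E) →ₗ[ℝ] HM E k)
    (hc : ∀ a ∈ uS e, ∀ a' ∈ uS e, xd a (β a') = xd a' (β a))
    (heq : ∀ q u : E, inner ℝ q u = (0 : ℝ) → e q = q → e u = u → ∀ a ∈ uS e,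
      β (a ∘L (((tv q u)⁻¹ : GE E) : E →L[ℝ] E)) = pi k (tv q u) (β a))
    {a : E →L[ℝ] E} (ha : a ∈ uS e) {x : E} (hx : e x ≠ 0) (hax : a x = 0) :
    e ((β a).1 x) = 0 := by
  have hzz : (inner ℝ (e x) (e x) : ℝ) ≠ 0 := fun h => hx (inner_self_eq_zero.1 h)
  have hyN : e (x - e x) = 0 := by rw [map_sub, he.idem, sub_self]
  have haz : a (e x) = 0 := by rw [ha.2, hax]
  have h1 := ls_const (β a) e (e x) (x - e x) (fun s => by
    have h2 := congrArg e (ls_C β hc ha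
      (ls_ro he (q := ((inner ℝ (e x) (e x) : ℝ))⁻¹ • e x) (by rw [map_smul, he.idem]) hyN)
      (e x + s • (x - e x)))
    have h3 : a (e x + s • (x - e x)) = 0 := by
      rw [map_add, map_smul, map_sub, haz, hax, sub_zero, smul_zero, add_zero]
    have h4 : (ro (((inner ℝ (e x) (e x) : ℝ))⁻¹ • e x) (x - e x)) (e x + s • (x - e x)) =
        x - e x := by
      rw [ro_apply, real_inner_smul_left, inner_add_right, real_inner_smul_right,
        ls_inN he (he.idem x) hyN, mul_zero, add_zero, inv_mul_cancel₀ hzz, one_smul]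
    rw [h3, h4, map_zero, sub_zero, ha.1, map_sub, ro_apply, map_smul, hyN, smul_zero,
      zero_sub] at h2
    exact (neg_eq_zero.1 h2.symm))
  rw [add_sub_cancel] at h1
  rw [h1, ls_K2 he hk β heq ha (he.idem x) hx haz, map_zero]

private theorem ls_Par' {e : E →L[ℝ] E} (he : IsPr e) (hk : 2 ≤ k)
    (β : (E →L[ℝ] E) →ₗ[ℝ] HM E k)
    (hc : ∀ a ∈ uS e, ∀ a' ∈ uS e, xd a (β a') = xd a' (β a))
    (heq : ∀ q u : E, inner ℝ q u = (0 : ℝ) → e q = q → e u = u → ∀ a ∈ uS e,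
      β (a ∘L (((tv q u)⁻¹ : GE E) : E →L[ℝ] E)) = pi k (tv q u) (β a))
    {a : E →L[ℝ] E} (ha : a ∈ uS e) {x : E} (hx : e x ≠ 0) :
    ∃ c : ℝ, e ((β a).1 x) = c • e x := by
  refine ls_Par he β heq ha hx fun r hr hrx => ?_
  refine ls_K3 he hk β hc heq (ls_ro he hr (ha.1 x)) hx ?_
  rw [ro_apply, ← ls_in he hr, hrx, zero_smul]

private theorem ls_K4 {e : E →L[ℝ] E} (he : IsPr e) (hk : 2 ≤ k)
    (β : (E →L[ℝ] E) →ₗ[ℝ] HM E k)
    (hc : ∀ a ∈ uS e, ∀ a' ∈ uS e, xd a (β a') = xd a' (β a))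
    (heq : ∀ q u : E, inner ℝ q u = (0 : ℝ) → e q = q → e u = u → ∀ a ∈ uS e,
      β (a ∘L (((tv q u)⁻¹ : GE E) : E →L[ℝ] E)) = pi k (tv q u) (β a))
    {a : E →L[ℝ] E} (ha : a ∈ uS e) {x : E} (hx : e x ≠ 0) (hax : a x = 0) :
    (β a).1 x = 0 := by
  have hzz : (inner ℝ (e x) (e x) : ℝ) ≠ 0 := fun h => hx (inner_self_eq_zero.1 h)
  have hyN : e (x - e x) = 0 := by rw [map_sub, he.idem, sub_self]
  have haz : a (e x) = 0 := by rw [ha.2, hax]
  have h1 := ls_const (β a) (ContinuousLinearMap.id ℝ E) (e x) (x - e x) (fun s => by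
    have ha' : ro (((inner ℝ (e x) (e x) : ℝ))⁻¹ • e x) (x - e x) ∈ uS e :=
      ls_ro he (q := ((inner ℝ (e x) (e x) : ℝ))⁻¹ • e x) (by rw [map_smul, he.idem]) hyN
    have h2 := ls_C β hc ha ha' (e x + s • (x - e x))
    have h3 : a (e x + s • (x - e x)) = 0 := by
      rw [map_add, map_smul, map_sub, haz, hax, sub_zero, smul_zero, add_zero]
    have h4 : (ro (((inner ℝ (e x) (e x) : ℝ))⁻¹ • e x) (x - e x)) (e x + s • (x - e x)) =
        x - e x := by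
      rw [ro_apply, real_inner_smul_left, inner_add_right, real_inner_smul_right,
        ls_inN he (he.idem x) hyN, mul_zero, add_zero, inv_mul_cancel₀ hzz, one_smul]
    have h5 : e (e x + s • (x - e x)) = e x := by
      rw [map_add, he.idem, map_smul, hyN, smul_zero, add_zero]
    have h6 := ls_K3 he hk β hc heq ha (x := e x + s • (x - e x)) (by rwa [h5]) h3
    obtain ⟨c, hcc⟩ := ls_Par' he hk β hc heq ha' (x := e x + s • (x - e x)) (by rwa [h5])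
    rw [h3, h4, map_zero, sub_zero, ← ha.2, hcc, map_smul, h5, haz, smul_zero, ro_apply,
      ← ls_in he (q := ((inner ℝ (e x) (e x) : ℝ))⁻¹ • e x) (by rw [map_smul, he.idem]), h6,
      inner_zero_right, zero_smul, zero_sub] at h2
    exact (neg_eq_zero.1 h2.symm))
  rw [add_sub_cancel] at h1
  have h7 : (β a).1 x = (β a).1 (e x) := h1
  rw [h7, ls_K2 he hk β heq ha (he.idem x) hx haz]

/-- the main formula at `z` -/
private def LsM (β : (E →L[ℝ] E) →ₗ[ℝ] HM E k) (e : E →L[ℝ] E) (z0 y z : E) : Prop :=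
  ∀ a ∈ uS e, (β a).1 (z + y) = (inner ℝ z0 ((β (ro z0 (a z))).1 (z0 + y)) : ℝ) • z +
    ((β (ro z0 (a z))).1 (z0 + y) - e ((β (ro z0 (a z))).1 (z0 + y)))

private theorem ls_F {e : E →L[ℝ] E} (he : IsPr e) (hk : 2 ≤ k)
    (β : (E →L[ℝ] E) →ₗ[ℝ] HM E k)
    (hc : ∀ a ∈ uS e, ∀ a' ∈ uS e, xd a (β a') = xd a' (β a))
    (heq : ∀ q u : E, inner ℝ q u = (0 : ℝ) → e q = q → e u = u → ∀ a ∈ uS e,
      β (a ∘L (((tv q u)⁻¹ : GE E) : E →L[ℝ] E)) = pi k (tv q u) (β a))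
    {z0 y n : E} (hz0 : e z0 = z0) (h1 : inner ℝ z0 z0 = (1 : ℝ)) (hy : e y = 0) (hn : e n = 0) :
    e ((β (ro z0 n)).1 (z0 + y)) = (inner ℝ z0 ((β (ro z0 n)).1 (z0 + y)) : ℝ) • z0 := by
  have hx : e (z0 + y) = z0 := by rw [map_add, hz0, hy, add_zero]
  have hz00 : z0 ≠ 0 := by
    rintro rfl
    rw [inner_zero_left] at h1
    exact zero_ne_one h1
  obtain ⟨c, hcc⟩ := ls_Par' he hk β hc heq (ls_ro he hz0 hn) (x := z0 + y) (by rwa [hx])
  rw [hx] at hcc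
  have h2 : (inner ℝ z0 ((β (ro z0 n)).1 (z0 + y)) : ℝ) = c := by
    rw [← ls_in he hz0, hcc, real_inner_smul_right, h1, mul_one]
  rw [h2, hcc]

private theorem ls_M0 {e : E →L[ℝ] E} (he : IsPr e) (hk : 2 ≤ k)
    (β : (E →L[ℝ] E) →ₗ[ℝ] HM E k)
    (hc : ∀ a ∈ uS e, ∀ a' ∈ uS e, xd a (β a') = xd a' (β a))
    (heq : ∀ q u : E, inner ℝ q u = (0 : ℝ) → e q = q → e u = u → ∀ a ∈ uS e,
      β (a ∘L (((tv q u)⁻¹ : GE E) : E →L[ℝ] E)) = pi k (tv q u) (β a))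
    {z0 y : E} (hz0 : e z0 = z0) (h1 : inner ℝ z0 z0 = (1 : ℝ)) (hy : e y = 0) :
    LsM β e z0 y z0 := by
  intro a ha
  have hx : e (z0 + y) = z0 := by rw [map_add, hz0, hy, add_zero]
  have hz00 : z0 ≠ 0 := by
    rintro rfl
    rw [inner_zero_left] at h1
    exact zero_ne_one h1
  have hr := ls_ro he hz0 (ha.1 z0)
  have h2 : (a - ro z0 (a z0)) (z0 + y) = 0 := by
    have h3 : a y = 0 := by rw [← ha.2, hy, map_zero]
    rw [sub_apply, ro_apply, map_add, h3, inner_add_right, h1, ls_inN he hz0 hy, add_zero,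
      add_zero, one_smul, sub_self]
  have h3 := ls_K4 he hk β hc heq ((uS e).sub_mem ha hr) (x := z0 + y) (by rwa [hx]) h2
  rw [map_sub] at h3
  have h4 : (β a).1 (z0 + y) - (β (ro z0 (a z0))).1 (z0 + y) = 0 := h3
  rw [← ls_F he hk β hc heq hz0 h1 hy (ha.1 z0), sub_eq_zero.1 h4]
  abel

omit [FiniteDimensional ℝ E] in
private theorem ls_trans {e : E →L[ℝ] E} (he : IsPr e) (β : (E →L[ℝ] E) →ₗ[ℝ] HM E k)
    (heq : ∀ q u : E, inner ℝ q u = (0 : ℝ) → e q = q → e u = u → ∀ a ∈ uS e,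
      β (a ∘L (((tv q u)⁻¹ : GE E) : E →L[ℝ] E)) = pi k (tv q u) (β a))
    {z0 y z z' : E} (hy : e y = 0) (hz : e z = z) (hz' : e z' = z')
    (hne : ∀ c : ℝ, z ≠ c • (z' - z)) (h : LsM β e z0 y z) : LsM β e z0 y z' := by
  intro a ha
  obtain ⟨u, hu⟩ : ∃ u, u = z' - z := ⟨_, rfl⟩
  rw [← hu] at hne
  have heu : e u = u := by rw [hu, map_sub, hz, hz']
  obtain ⟨r0, hr0⟩ : ∃ r0, r0 = z - ((inner ℝ u z : ℝ) / inner ℝ u u) • u := ⟨_, rfl⟩
  have her0 : e r0 = r0 := by rw [hr0, map_sub, map_smul, hz, heu]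
  have hr00 : r0 ≠ 0 := by
    intro h0
    exact hne _ (sub_eq_zero.1 (hr0.symm.trans h0))
  have hr0r0 : (inner ℝ r0 r0 : ℝ) ≠ 0 := fun h => hr00 (inner_self_eq_zero.1 h)
  have hr0u : (inner ℝ r0 u : ℝ) = 0 := by
    by_cases hu0 : u = 0
    · rw [hu0, inner_zero_right]
    · have huu : (inner ℝ u u : ℝ) ≠ 0 := fun h => hu0 (inner_self_eq_zero.1 h)
      rw [hr0, inner_sub_left, real_inner_smul_left, div_mul_cancel₀ _ huu, real_inner_comm,
        sub_self]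
  have hr0z : (inner ℝ r0 z : ℝ) = inner ℝ r0 r0 := by
    have h1 : z = r0 + ((inner ℝ u z : ℝ) / inner ℝ u u) • u := by rw [hr0]; abel
    conv_lhs => rw [h1, inner_add_right, real_inner_smul_right, hr0u, mul_zero, add_zero]
  obtain ⟨r, hr⟩ : ∃ r, r = ((inner ℝ r0 r0 : ℝ))⁻¹ • r0 := ⟨_, rfl⟩
  have her : e r = r := by rw [hr, map_smul, her0]
  have hru : (inner ℝ r u : ℝ) = 0 := by rw [hr, real_inner_smul_left, hr0u, mul_zero]
  have hrz : (inner ℝ r z : ℝ) = 1 := by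
    rw [hr, real_inner_smul_left, hr0z, inv_mul_cancel₀ hr0r0]
  have ha' : a + ro r (a u) ∈ uS e := (uS e).add_mem ha (ls_ro he her (ha.1 u))
  have h1 := ls_T β heq hru her heu ha' (z + y)
  have h2 : (a + ro r (a u)) u = a u := by
    rw [add_apply, ro_apply, hru, zero_smul, add_zero]
  have h3 : (a + ro r (a u)) z = a z' := by
    rw [add_apply, ro_apply, hrz, one_smul, hu, map_sub]
    abel
  have h4 : (inner ℝ r (z + y) : ℝ) = 1 := by
    rw [inner_add_right, hrz, ls_inN he her hy, add_zero]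
  have h5 : (inner ℝ r ((β (ro z0 (a z'))).1 (z0 + y) - e ((β (ro z0 (a z'))).1 (z0 + y))) : ℝ) =
      0 := ls_inN he her (by rw [map_sub, he.idem, sub_self])
  rw [h2, add_sub_cancel_right, h4, one_smul, h _ ha', h3, inner_add_right, real_inner_smul_right,
    hrz, h5] at h1
  have h6 : z' + y = z + y + u := by rw [hu]; abel
  rw [h6, h1, hu]
  module

private theorem ls_M {e : E →L[ℝ] E} (he : IsPr e) (hbig : Big e) (hk : 2 ≤ k)
    (β : (E →L[ℝ] E) →ₗ[ℝ] HM E k)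
    (hc : ∀ a ∈ uS e, ∀ a' ∈ uS e, xd a (β a') = xd a' (β a))
    (heq : ∀ q u : E, inner ℝ q u = (0 : ℝ) → e q = q → e u = u → ∀ a ∈ uS e,
      β (a ∘L (((tv q u)⁻¹ : GE E) : E →L[ℝ] E)) = pi k (tv q u) (β a))
    {z0 y z : E} (hz0 : e z0 = z0) (h1 : inner ℝ z0 z0 = (1 : ℝ)) (hy : e y = 0) (hz : e z = z)
    (hzz : z ≠ 0) : LsM β e z0 y z := by
  have hM0 := ls_M0 he hk β hc heq hz0 h1 hy
  have hz00 : z0 ≠ 0 := by
    rintro rfl
    rw [inner_zero_left] at h1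
    exact zero_ne_one h1
  have key : ∀ w : E, e w = w → (∀ s : ℝ, w ≠ s • z0) → LsM β e z0 y w := by
    intro w hw hs
    refine ls_trans he β heq hy hz0 hw (fun c hcc => ?_) hM0
    have hc0 : c ≠ 0 := by
      rintro rfl
      rw [zero_smul] at hcc
      exact hz00 hcc
    refine hs (1 + c⁻¹) ?_
    have h2 : c⁻¹ • z0 = w - z0 := by
      conv_lhs => rw [hcc, smul_smul, inv_mul_cancel₀ hc0, one_smul]
    rw [add_smul, one_smul, h2]
    abel
  by_cases hs : ∀ s : ℝ, z ≠ s • z0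
  · exact key z hz hs
  · push Not at hs
    obtain ⟨s, hs⟩ := hs
    obtain ⟨z1, hz1, hz10, hz1z⟩ := hbig z0
    have hz11 : (inner ℝ z1 z1 : ℝ) ≠ 0 := fun h => hz10 (inner_self_eq_zero.1 h)
    refine ls_trans he β heq hy hz1 hz (fun c hcc => ?_) (key z1 hz1 fun t ht => ?_)
    · have h2 := congrArg (fun v => (inner ℝ z1 v : ℝ)) hcc
      simp only [hs, real_inner_smul_right, inner_sub_right, hz1z, mul_zero, zero_sub] at h2
      have h3 : (inner ℝ z1 z1 : ℝ) * (1 + c) = 0 := by linear_combination h2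
      have h4 : c = -1 := by
        have h5 := (mul_eq_zero.1 h3).resolve_left hz11
        linarith
      rw [h4] at hcc
      apply hzz
      have h5 : z1 = -z + z1 := by
        conv_lhs => rw [hcc]
        module
      have h6 : -z + z1 = 0 + z1 := by rw [← h5, zero_add]
      exact neg_eq_zero.1 (add_right_cancel h6)
    · rw [ht, real_inner_smul_left, h1, mul_one] at hz1z
      rw [hz1z, zero_smul] at ht
      exact hz10 ht

private theorem ls_E {j : ℕ} {e : E →L[ℝ] E} (he : IsPr e) (hbig : Big e)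
    (β : (E →L[ℝ] E) →ₗ[ℝ] HM E (j + 2))
    (hc : ∀ a ∈ uS e, ∀ a' ∈ uS e, xd a (β a') = xd a' (β a))
    (heq : ∀ q u : E, inner ℝ q u = (0 : ℝ) → e q = q → e u = u → ∀ a ∈ uS e,
      β (a ∘L (((tv q u)⁻¹ : GE E) : E →L[ℝ] E)) = pi (j + 2) (tv q u) (β a))
    {z0 y n : E} (hz0 : e z0 = z0) (h1 : inner ℝ z0 z0 = (1 : ℝ)) (hy : e y = 0) (hn : e n = 0)
    {t : ℝ} (ht : t ≠ 0) :
    (β (ro z0 n)).1 (z0 + t • y) =
      t ^ j • ((inner ℝ z0 ((β (ro z0 n)).1 (z0 + y)) : ℝ) • z0) +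
      t ^ (j + 1) • ((β (ro z0 n)).1 (z0 + y) - e ((β (ro z0 n)).1 (z0 + y))) := by
  have hk : 2 ≤ j + 2 := by omega
  have hz00 : z0 ≠ 0 := by
    rintro rfl
    rw [inner_zero_left] at h1
    exact zero_ne_one h1
  have hF := ls_F he hk β hc heq hz0 h1 hy hn
  have hty : e (t • y) = 0 := by rw [map_smul, hy, smul_zero]
  have hG := ls_F he hk β hc heq hz0 h1 hty hn
  have h2 := ls_M he hbig hk β hc heq (z := t • z0) hz0 h1 hty (by rw [map_smul, hz0])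
    (smul_ne_zero ht hz00) (ro z0 n) (ls_ro he hz0 hn)
  have h3 : ro z0 ((ro z0 n) (t • z0)) = t • ro z0 n := by
    ext x
    simp only [ro_apply, real_inner_smul_right, h1, mul_one, smul_apply]
    rw [smul_comm]
  have h4 : (t • β (ro z0 n)).1 (z0 + t • y) = t • (β (ro z0 n)).1 (z0 + t • y) := rfl
  rw [h3, map_smul, h4, ← smul_add, (β (ro z0 n)).2.2, real_inner_smul_right, map_smul] at h2
  obtain ⟨F, hFd⟩ : ∃ F, F = (β (ro z0 n)).1 (z0 + y) := ⟨_, rfl⟩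
  obtain ⟨G, hGd⟩ : ∃ G, G = (β (ro z0 n)).1 (z0 + t • y) := ⟨_, rfl⟩
  rw [← hFd, ← hGd] at h2
  rw [← hFd] at hF
  rw [← hGd] at hG
  rw [← hFd, ← hGd]
  have h5 := congrArg (fun v => (inner ℝ z0 v : ℝ)) h2
  simp only [inner_add_right, inner_sub_right, real_inner_smul_right, h1, ls_in he hz0] at h5
  have h6 : (inner ℝ z0 G : ℝ) = t ^ j * inner ℝ z0 F := by
    have h7 : t ^ 2 * (inner ℝ z0 G : ℝ) = t ^ 2 * (t ^ j * inner ℝ z0 F) := by
      linear_combination -h5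
    exact mul_left_cancel₀ (pow_ne_zero 2 ht) h7
  have h8 : t • (G - e G) = t • (t ^ (j + 1) • (F - e F)) := by
    have h9 : t • (G - e G) = t ^ (j + 2) • F - (t * inner ℝ z0 G) • (t • z0) := by
      rw [h2, smul_sub]
      abel
    rw [h9, h6, hF]
    module
  have h10 : G - e G = t ^ (j + 1) • (F - e F) := smul_right_injective E ht h8
  have h11 : G = e G + (G - e G) := by abel
  rw [h10, hG, h6] at h11
  rw [h11]
  module

private theorem ls_Eul {j : ℕ} {e : E →L[ℝ] E} (he : IsPr e) (hbig : Big e)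
    (β : (E →L[ℝ] E) →ₗ[ℝ] HM E (j + 2))
    (hc : ∀ a ∈ uS e, ∀ a' ∈ uS e, xd a (β a') = xd a' (β a))
    (heq : ∀ q u : E, inner ℝ q u = (0 : ℝ) → e q = q → e u = u → ∀ a ∈ uS e,
      β (a ∘L (((tv q u)⁻¹ : GE E) : E →L[ℝ] E)) = pi (j + 2) (tv q u) (β a))
    {z0 y n : E} (hz0 : e z0 = z0) (h1 : inner ℝ z0 z0 = (1 : ℝ)) (hy : e y = 0) (hn : e n = 0) :
    fderiv ℝ (β (ro z0 n)).1 (z0 + y) y =
      (j : ℝ) • ((inner ℝ z0 ((β (ro z0 n)).1 (z0 + y)) : ℝ) • z0) +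
      ((j : ℝ) + 1) • ((β (ro z0 n)).1 (z0 + y) - e ((β (ro z0 n)).1 (z0 + y))) := by
  have h2 := ls_curve (β (ro z0 n)) z0 y 1
  rw [one_smul] at h2
  have h3 : HasDerivAt (fun t : ℝ =>
      t ^ j • ((inner ℝ z0 ((β (ro z0 n)).1 (z0 + y)) : ℝ) • z0) +
      t ^ (j + 1) • ((β (ro z0 n)).1 (z0 + y) - e ((β (ro z0 n)).1 (z0 + y))))
      ((j : ℝ) • ((inner ℝ z0 ((β (ro z0 n)).1 (z0 + y)) : ℝ) • z0) +
      ((j : ℝ) + 1) • ((β (ro z0 n)).1 (z0 + y) - e ((β (ro z0 n)).1 (z0 + y)))) 1 := by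
    have h4 := ((hasDerivAt_pow j (1 : ℝ)).smul_const
      ((inner ℝ z0 ((β (ro z0 n)).1 (z0 + y)) : ℝ) • z0)).add
      ((hasDerivAt_pow (j + 1) (1 : ℝ)).smul_const
      ((β (ro z0 n)).1 (z0 + y) - e ((β (ro z0 n)).1 (z0 + y))))
    refine HasDerivAt.congr_deriv h4 ?_
    simp
  have h5 : (fun t : ℝ => (β (ro z0 n)).1 (z0 + t • y)) =ᶠ[𝓝 1] (fun t : ℝ =>
      t ^ j • ((inner ℝ z0 ((β (ro z0 n)).1 (z0 + y)) : ℝ) • z0) +
      t ^ (j + 1) • ((β (ro z0 n)).1 (z0 + y) - e ((β (ro z0 n)).1 (z0 + y)))) := by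
    filter_upwards [isOpen_ne.mem_nhds (one_ne_zero : (1 : ℝ) ≠ 0)] with t ht
    exact ls_E he hbig β hc heq hz0 h1 hy hn ht
  exact h2.unique (h3.congr_of_eventuallyEq h5)

private theorem ls_DF {j : ℕ} {e : E →L[ℝ] E} (he : IsPr e) (hbig : Big e)
    (β : (E →L[ℝ] E) →ₗ[ℝ] HM E (j + 2))
    (hc : ∀ a ∈ uS e, ∀ a' ∈ uS e, xd a (β a') = xd a' (β a))
    (heq : ∀ q u : E, inner ℝ q u = (0 : ℝ) → e q = q → e u = u → ∀ a ∈ uS e,
      β (a ∘L (((tv q u)⁻¹ : GE E) : E →L[ℝ] E)) = pi (j + 2) (tv q u) (β a))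
    {z0 y n : E} (hz0 : e z0 = z0) (h1 : inner ℝ z0 z0 = (1 : ℝ)) (hy : e y = 0) (hn : e n = 0) :
    HasDerivAt (fun s : ℝ => (β (ro z0 (y + s • n))).1 (z0 + (y + s • n)))
      (((j : ℝ) + 1) • ((inner ℝ z0 ((β (ro z0 n)).1 (z0 + y)) : ℝ) • z0) +
      ((j : ℝ) + 2) • ((β (ro z0 n)).1 (z0 + y) - e ((β (ro z0 n)).1 (z0 + y))) +
      (inner ℝ z0 ((β (ro z0 y)).1 (z0 + y)) : ℝ) • n -
      (inner ℝ z0 ((β (ro z0 n)).1 (z0 + y)) : ℝ) • y) 0 := by
  have hk : 2 ≤ j + 2 := by omega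
  have h2' := (ls_curve (β (ro z0 y)) (z0 + y) n 0).add
    ((hasDerivAt_id (0 : ℝ)).smul (ls_curve (β (ro z0 n)) (z0 + y) n 0))
  have h2 : HasDerivAt (fun s : ℝ => (β (ro z0 y)).1 (z0 + y + s • n) +
    s • (β (ro z0 n)).1 (z0 + y + s • n)) _ 0 := h2'
  have h3 : (fun s : ℝ => (β (ro z0 (y + s • n))).1 (z0 + (y + s • n))) =
      fun s : ℝ => (β (ro z0 y)).1 (z0 + y + s • n) + s • (β (ro z0 n)).1 (z0 + y + s • n) := by
    funext s
    have h4 : ro z0 (y + s • n) = ro z0 y + s • ro z0 n := by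
      ext x
      simp only [ro_apply, add_apply, smul_apply, smul_add]
      rw [smul_comm]
    rw [h4, map_add, map_smul, ← add_assoc]
    rfl
  rw [h3]
  refine h2.congr_deriv ?_
  simp only [zero_smul, add_zero, id_eq, one_smul]
  have hx : inner ℝ z0 (z0 + y) = (1 : ℝ) := by rw [inner_add_right, h1, ls_inN he hz0 hy, add_zero]
  have h5 := ls_C β hc (ls_ro he hz0 hn) (ls_ro he hz0 hy) (z0 + y)
  simp only [ro_apply, hx, one_smul] at h5
  have h6 := ls_Eul he hbig β hc heq hz0 h1 hy hn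
  have h7 : fderiv ℝ (β (ro z0 y)).1 (z0 + y) n =
      (inner ℝ z0 ((β (ro z0 y)).1 (z0 + y)) : ℝ) • n -
      (inner ℝ z0 ((β (ro z0 n)).1 (z0 + y)) : ℝ) • y +
      fderiv ℝ (β (ro z0 n)).1 (z0 + y) y := by
    rw [sub_add, ← h5]
    abel
  have h8 := ls_F he hk β hc heq hz0 h1 hy hn
  have h9 : (β (ro z0 n)).1 (z0 + y) = (inner ℝ z0 ((β (ro z0 n)).1 (z0 + y)) : ℝ) • z0 +
      ((β (ro z0 n)).1 (z0 + y) - e ((β (ro z0 n)).1 (z0 + y))) := by
    rw [← h8]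
    abel
  rw [h7, h6]
  obtain ⟨M, hM⟩ : ∃ M, M = (β (ro z0 n)).1 (z0 + y) - e ((β (ro z0 n)).1 (z0 + y)) := ⟨_, rfl⟩
  obtain ⟨A, hA⟩ : ∃ A, A = (inner ℝ z0 ((β (ro z0 n)).1 (z0 + y)) : ℝ) • z0 := ⟨_, rfl⟩
  rw [← hM, ← hA] at h9 ⊢
  rw [h9]
  module

private theorem ls_smooth {j : ℕ} (β : (E →L[ℝ] E) →ₗ[ℝ] HM E (j + 2)) (z0 : E) :
    ContDiff ℝ ∞ (fun y : E => (β (ro z0 y)).1 (z0 + y)) := by
  have h1 : (fun y : E => (β (ro z0 y)).1 (z0 + y)) = fun y : E =>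
      ∑ i, (inner ℝ (stdOrthonormalBasis ℝ E i) y : ℝ) •
        (β (ro z0 (stdOrthonormalBasis ℝ E i))).1 (z0 + y) := by
    funext y
    have h2 : ro z0 y = ∑ i, (inner ℝ (stdOrthonormalBasis ℝ E i) y : ℝ) •
        ro z0 (stdOrthonormalBasis ℝ E i) := by
      ext x
      rw [sum_apply, ro_apply]
      conv_lhs => rw [← OrthonormalBasis.sum_repr' (stdOrthonormalBasis ℝ E) y, Finset.smul_sum]
      refine Finset.sum_congr rfl fun i _ => ?_
      rw [smul_apply, ro_apply, smul_comm]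
    rw [h2, map_sum, ls_sum]
    refine Finset.sum_congr rfl fun i _ => ?_
    rw [map_smul]
    rfl
  rw [h1]
  refine ContDiff.sum fun i _ => ?_
  refine ContDiff.smul ?_ ?_
  · exact (innerSL ℝ (stdOrthonormalBasis ℝ E i)).contDiff
  · exact (β (ro z0 (stdOrthonormalBasis ℝ E i))).2.1.comp (contDiff_const.add contDiff_id)

/-- `f` -/
private noncomputable def lsf {j : ℕ} (β : (E →L[ℝ] E) →ₗ[ℝ] HM E (j + 2)) (z0 y : E) : ℝ :=
  ((j : ℝ) + 1)⁻¹ * inner ℝ z0 ((β (ro z0 y)).1 (z0 + y))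

/-- `w` -/
private noncomputable def lsw {j : ℕ} (β : (E →L[ℝ] E) →ₗ[ℝ] HM E (j + 2)) (e : E →L[ℝ] E)
    (z0 x : E) : E :=
  -(lsf β z0 (x - e x) • e x) - ((j : ℝ) + 2)⁻¹ • ((β (ro z0 (x - e x))).1 (z0 + (x - e x)) -
    e ((β (ro z0 (x - e x))).1 (z0 + (x - e x))) + lsf β z0 (x - e x) • (x - e x))

private theorem ls_w_smooth {j : ℕ} (β : (E →L[ℝ] E) →ₗ[ℝ] HM E (j + 2)) (e : E →L[ℝ] E) (z0 : E) :
    ContDiff ℝ ∞ (lsw β e z0) := by
  have h1 : ContDiff ℝ ∞ (fun x : E => x - e x) := contDiff_id.sub e.contDiff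
  have h2 : ContDiff ℝ ∞ (fun x : E => (β (ro z0 (x - e x))).1 (z0 + (x - e x))) :=
    (ls_smooth β z0).comp h1
  have h3 : ContDiff ℝ ∞ (fun x : E => lsf β z0 (x - e x)) :=
    contDiff_const.mul ((innerSL ℝ z0).contDiff.comp h2)
  exact (h3.smul e.contDiff).neg.sub (((h2.sub (e.contDiff.comp h2)).add (h3.smul h1)).const_smul _)

private theorem ls_w_hom {j : ℕ} {e : E →L[ℝ] E} (he : IsPr e) (hbig : Big e)
    (β : (E →L[ℝ] E) →ₗ[ℝ] HM E (j + 2))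
    (hc : ∀ a ∈ uS e, ∀ a' ∈ uS e, xd a (β a') = xd a' (β a))
    (heq : ∀ q u : E, inner ℝ q u = (0 : ℝ) → e q = q → e u = u → ∀ a ∈ uS e,
      β (a ∘L (((tv q u)⁻¹ : GE E) : E →L[ℝ] E)) = pi (j + 2) (tv q u) (β a))
    {z0 : E} (hz0 : e z0 = z0) (h1 : inner ℝ z0 z0 = (1 : ℝ)) (t : ℝ) (x : E) :
    lsw β e z0 (t • x) = t ^ (j + 2) • lsw β e z0 x := by
  have hk : 2 ≤ j + 2 := by omega
  obtain ⟨y, hy⟩ : ∃ y, y = x - e x := ⟨_, rfl⟩
  have hyN : e y = 0 := by rw [hy, map_sub, he.idem, sub_self]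
  have hty : t • x - e (t • x) = t • y := by rw [hy, map_smul, smul_sub]
  have hF := ls_F he hk β hc heq hz0 h1 hyN hyN
  have key : (β (ro z0 (t • y))).1 (z0 + t • y) =
      t ^ (j + 1) • ((inner ℝ z0 ((β (ro z0 y)).1 (z0 + y)) : ℝ) • z0) +
      t ^ (j + 2) • ((β (ro z0 y)).1 (z0 + y) - e ((β (ro z0 y)).1 (z0 + y))) := by
    have h3 : ro z0 (t • y) = t • ro z0 y := by
      ext x
      simp only [ro_apply, smul_apply]
      rw [smul_comm]
    rw [h3, map_smul]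
    have h4 : (t • β (ro z0 y)).1 (z0 + t • y) = t • (β (ro z0 y)).1 (z0 + t • y) := rfl
    rw [h4]
    by_cases ht : t = 0
    · rw [ht, zero_smul, zero_pow (by omega), zero_pow (by omega), zero_smul, zero_smul, add_zero]
    · rw [ls_E he hbig β hc heq hz0 h1 hyN hyN ht]
      module
  obtain ⟨F, hFd⟩ : ∃ F, F = (β (ro z0 y)).1 (z0 + y) := ⟨_, rfl⟩
  rw [← hFd] at key hF
  have e1 : (inner ℝ z0 (F - e F) : ℝ) = 0 := by
    rw [inner_sub_right, ls_in he hz0, sub_self]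
  have h5 : lsf β z0 (t • y) = t ^ (j + 1) * lsf β z0 y := by
    unfold lsf
    rw [key, ← hFd, inner_add_right, real_inner_smul_right, real_inner_smul_right,
      real_inner_smul_right, h1, e1]
    ring
  have h6 : (β (ro z0 (t • y))).1 (z0 + t • y) - e ((β (ro z0 (t • y))).1 (z0 + t • y)) =
      t ^ (j + 2) • (F - e F) := by
    rw [key, map_add, map_smul, map_smul, map_smul, hz0, map_sub, he.idem, sub_self, smul_zero]
    abel
  unfold lsw
  rw [hty, ← hy, h5, h6, ← hFd, map_smul]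
  module

private theorem ls_w_xd {j : ℕ} {e : E →L[ℝ] E} (he : IsPr e) (hbig : Big e)
    (β : (E →L[ℝ] E) →ₗ[ℝ] HM E (j + 2))
    (hc : ∀ a ∈ uS e, ∀ a' ∈ uS e, xd a (β a') = xd a' (β a))
    (heq : ∀ q u : E, inner ℝ q u = (0 : ℝ) → e q = q → e u = u → ∀ a ∈ uS e,
      β (a ∘L (((tv q u)⁻¹ : GE E) : E →L[ℝ] E)) = pi (j + 2) (tv q u) (β a))
    {z0 : E} (hz0 : e z0 = z0) (h1 : inner ℝ z0 z0 = (1 : ℝ)) {a : E →L[ℝ] E} (ha : a ∈ uS e)
    (x : E) : a (lsw β e z0 x) - fderiv ℝ (lsw β e z0) x (a x) =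
      (inner ℝ z0 ((β (ro z0 (a x))).1 (z0 + (x - e x))) : ℝ) • e x +
      ((β (ro z0 (a x))).1 (z0 + (x - e x)) - e ((β (ro z0 (a x))).1 (z0 + (x - e x)))) := by
  have hk : 2 ≤ j + 2 := by omega
  obtain ⟨y, hy⟩ : ∃ y, y = x - e x := ⟨_, rfl⟩
  have hyN : e y = 0 := by rw [hy, map_sub, he.idem, sub_self]
  obtain ⟨n, hn⟩ : ∃ n, n = a x := ⟨_, rfl⟩
  have hnN : e n = 0 := by rw [hn, ha.1]
  have hF := ls_F he hk β hc heq hz0 h1 hyN hyN
  have hD := ls_DF he hbig β hc heq hz0 h1 hyN hnN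
  obtain ⟨A, hA⟩ : ∃ A : ℝ, A = inner ℝ z0 ((β (ro z0 n)).1 (z0 + y)) := ⟨_, rfl⟩
  obtain ⟨M, hM⟩ : ∃ M, M = (β (ro z0 n)).1 (z0 + y) - e ((β (ro z0 n)).1 (z0 + y)) := ⟨_, rfl⟩
  have hMN : e M = 0 := by rw [hM, map_sub, he.idem, sub_self]
  obtain ⟨F, hFd⟩ : ∃ F, F = (β (ro z0 y)).1 (z0 + y) := ⟨_, rfl⟩
  have hj1 : ((j : ℝ) + 1) ≠ 0 := by positivity
  have hj2 : ((j : ℝ) + 2) ≠ 0 := by positivity
  have hfF : (inner ℝ z0 F : ℝ) = ((j : ℝ) + 1) * lsf β z0 y := by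
    unfold lsf
    rw [← hFd, ← mul_assoc, mul_inv_cancel₀ hj1, one_mul]
  rw [← hA, ← hM, ← hFd, hfF] at hD
  obtain ⟨D, hDd⟩ : ∃ D, D = (((j : ℝ) + 1) • (A • z0) + ((j : ℝ) + 2) • M +
    (((j : ℝ) + 1) * lsf β z0 y) • n - A • y) := ⟨_, rfl⟩
  rw [← hDd] at hD
  have hz0D : (inner ℝ z0 D : ℝ) = ((j : ℝ) + 1) * A := by
    rw [hDd, inner_sub_right, inner_add_right, inner_add_right, real_inner_smul_right,
      real_inner_smul_right, real_inner_smul_right, real_inner_smul_right, real_inner_smul_right,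
      ls_inN he hz0 hMN, ls_inN he hz0 hnN, ls_inN he hz0 hyN, h1]
    ring
  have heD : e D = ((j : ℝ) + 1) • (A • z0) := by
    rw [hDd, map_sub, map_add, map_add, map_smul, map_smul, map_smul, map_smul, map_smul, hMN, hnN,
      hyN, hz0, smul_zero, smul_zero, smul_zero, add_zero, add_zero, sub_zero]
  have hf : HasDerivAt (fun s : ℝ => lsf β z0 (y + s • n)) A 0 := by
    have h2 := ((innerSL ℝ z0).hasFDerivAt.comp_hasDerivAt (0 : ℝ) hD).const_mul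
      (((j : ℝ) + 1)⁻¹)
    refine HasDerivAt.congr_deriv h2 ?_
    have h3 : innerSL ℝ z0 D = (inner ℝ z0 D : ℝ) := rfl
    rw [h3, hz0D, ← mul_assoc, inv_mul_cancel₀ hj1, one_mul]
  have hyc : HasDerivAt (fun s : ℝ => y + s • n) n 0 := by
    simpa using ((hasDerivAt_id (0 : ℝ)).smul_const n).const_add y
  have hfn := hf.smul hyc
  have heD' := e.hasFDerivAt.comp_hasDerivAt (0 : ℝ) hD
  have hw : HasDerivAt (fun s : ℝ => lsw β e z0 (x + s • n))
      (-(A • e x) - ((j : ℝ) + 2)⁻¹ • (D - e D + (lsf β z0 (y + (0 : ℝ) • n) • n +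
        A • (y + (0 : ℝ) • n)))) 0 := by
    have h2 := ((hf.smul_const (e x)).neg).sub (((hD.sub heD').add hfn).const_smul
      (((j : ℝ) + 2)⁻¹))
    have h3 : (fun s : ℝ => lsw β e z0 (x + s • n)) = fun s : ℝ =>
        -(lsf β z0 (y + s • n) • e x) - ((j : ℝ) + 2)⁻¹ •
          ((β (ro z0 (y + s • n))).1 (z0 + (y + s • n)) -
          e ((β (ro z0 (y + s • n))).1 (z0 + (y + s • n))) +
          lsf β z0 (y + s • n) • (y + s • n)) := by
      funext s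
      have h4 : x + s • n - e (x + s • n) = y + s • n := by
        rw [map_add, map_smul, hnN, smul_zero, add_zero, hy]
        abel
      have h5 : e (x + s • n) = e x := by rw [map_add, map_smul, hnN, smul_zero, add_zero]
      unfold lsw
      rw [h4, h5]
    rw [h3]
    exact h2
  have hcurve : HasDerivAt (fun s : ℝ => lsw β e z0 (x + s • n)) (fderiv ℝ (lsw β e z0) x n) 0 := by
    have hp : Differentiable ℝ (lsw β e z0) := (ls_w_smooth β e z0).differentiable (by simp)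
    have h2 : HasDerivAt (fun s : ℝ => x + s • n) n 0 := by
      simpa using ((hasDerivAt_id (0 : ℝ)).smul_const n).const_add x
    have h3 : HasFDerivAt (lsw β e z0) (fderiv ℝ (lsw β e z0) x) (x + (0 : ℝ) • n) := by
      simpa using (hp x).hasFDerivAt
    exact h3.comp_hasDerivAt (0 : ℝ) h2
  have h2 := hcurve.unique hw
  have h3 : a (lsw β e z0 x) = -(lsf β z0 y • n) := by
    have h30 : e (lsw β e z0 x) = -(lsf β z0 y • e x) := by
      unfold lsw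
      rw [← hy, map_sub, map_neg, map_smul, map_smul, map_add, map_sub, map_smul, he.idem,
        he.idem, sub_self, hyN, smul_zero, add_zero, smul_zero, sub_zero]
    rw [← ha.2, h30, map_neg, map_smul, ha.2, hn]
  rw [← hn, ← hy, ← hA, ← hM, h2, h3, heD, zero_smul, add_zero, hDd]
  have h4 : ((j : ℝ) + 2)⁻¹ • (((j : ℝ) + 1) • (A • z0) + ((j : ℝ) + 2) • M +
      (((j : ℝ) + 1) * lsf β z0 y) • n - A • y - ((j : ℝ) + 1) • (A • z0) +
      (lsf β z0 y • n + A • y)) = M + lsf β z0 y • n := by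
    have h5 : ((j : ℝ) + 1) • (A • z0) + ((j : ℝ) + 2) • M +
      (((j : ℝ) + 1) * lsf β z0 y) • n - A • y - ((j : ℝ) + 1) • (A • z0) +
      (lsf β z0 y • n + A • y) = ((j : ℝ) + 2) • (M + lsf β z0 y • n) := by module
    rw [h5, smul_smul, inv_mul_cancel₀ hj2, one_smul]
  rw [h4]
  abel

theorem lemS (hk : 2 ≤ k) {e : E →L[ℝ] E} (he : IsPr e) (hbig : Big e)
    (β : (E →L[ℝ] E) →ₗ[ℝ] HM E k)
    (hc : ∀ a ∈ uS e, ∀ a' ∈ uS e, xd a (β a') = xd a' (β a))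
    (heq : ∀ q u : E, inner ℝ q u = (0 : ℝ) → e q = q → e u = u → ∀ a ∈ uS e,
      β (a ∘L (((tv q u)⁻¹ : GE E) : E →L[ℝ] E)) = pi k (tv q u) (β a)) :
    ∃ w : HM E k, ∀ a ∈ uS e, β a = xd a w := by
  obtain ⟨j, rfl⟩ : ∃ j, k = j + 2 := ⟨k - 2, by omega⟩
  obtain ⟨u, hu, hu0, -⟩ := hbig 0
  have hun : ‖u‖ ≠ 0 := norm_ne_zero_iff.2 hu0
  obtain ⟨z0, hz0d⟩ : ∃ z0 : E, z0 = ‖u‖⁻¹ • u := ⟨_, rfl⟩
  have hz0 : e z0 = z0 := by rw [hz0d, map_smul, hu]
  have h1 : inner ℝ z0 z0 = (1 : ℝ) := by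
    rw [hz0d, real_inner_smul_left, real_inner_smul_right, real_inner_self_eq_norm_sq]
    field_simp
  have hz00 : z0 ≠ 0 := by
    rintro h0
    rw [h0, inner_zero_left] at h1
    exact zero_ne_one h1
  refine ⟨⟨lsw β e z0, ls_w_smooth β e z0, ls_w_hom he hbig β hc heq hz0 h1⟩, fun a ha => ?_⟩
  apply Subtype.ext
  funext x
  rw [xd_apply]
  have h2 := ls_w_xd he hbig β hc heq hz0 h1 ha x
  have hyN : e (x - e x) = 0 := by rw [map_sub, he.idem, sub_self]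
  refine Eq.trans ?_ h2.symm
  by_cases hx : e x = 0
  · have hax : a x = 0 := by rw [← ha.2, hx, map_zero]
    have hro : ro z0 (a x) = 0 := by
      ext v
      simp [hax]
    rw [hro, map_zero, hx, smul_zero, zero_add]
    have h3 : ((0 : HM E (j + 2)).1 (z0 + (x - 0)) - e ((0 : HM E (j + 2)).1 (z0 + (x - 0)))) =
        0 := by
      have h4 : (0 : HM E (j + 2)).1 (z0 + (x - 0)) = 0 := rfl
      rw [h4, map_zero, sub_zero]
    rw [h3]
    have h5 : Filter.Tendsto (fun s : ℝ => (β a).1 (x + s • z0)) (𝓝[≠] 0) (𝓝 ((β a).1 x)) := by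
      have h6 := (ls_curve (β a) x z0 0).continuousAt.tendsto
      simp only [zero_smul, add_zero] at h6
      exact h6.mono_left nhdsWithin_le_nhds
    have h7 : Filter.Tendsto (fun s : ℝ => (s * (s * inner ℝ z0 ((β (ro z0 (a z0))).1
        (z0 + x)))) • z0 + s • ((β (ro z0 (a z0))).1 (z0 + x) -
        e ((β (ro z0 (a z0))).1 (z0 + x)))) (𝓝[≠] 0) (𝓝 0) := by
      have h8 : Continuous (fun s : ℝ => (s * (s * inner ℝ z0 ((β (ro z0 (a z0))).1
        (z0 + x)))) • z0 + s • ((β (ro z0 (a z0))).1 (z0 + x) -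
        e ((β (ro z0 (a z0))).1 (z0 + x)))) := by fun_prop
      have h9 := (h8.tendsto 0).mono_left (nhdsWithin_le_nhds (s := {(0 : ℝ)}ᶜ))
      simpa using h9
    refine tendsto_nhds_unique (h5.congr' ?_) h7
    filter_upwards [self_mem_nhdsWithin] with s hs
    have hs0 : s ≠ 0 := hs
    have h10 := ls_M he hbig hk β hc heq (z := s • z0) hz0 h1 hx (by rw [map_smul, hz0])
      (smul_ne_zero hs0 hz00) a ha
    have h11 : ro z0 (a (s • z0)) = s • ro z0 (a z0) := by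
      ext v
      simp only [ro_apply, smul_apply, map_smul]
      rw [smul_comm]
    have h12 : (s • β (ro z0 (a z0))).1 (z0 + x) = s • (β (ro z0 (a z0))).1 (z0 + x) := rfl
    rw [h11, map_smul, h12, real_inner_smul_right, map_smul, ← smul_sub] at h10
    rw [add_comm x, h10, smul_smul]
    congr 2
    ring
  · have h10 := ls_M he hbig hk β hc heq (z := e x) hz0 h1 hyN (he.idem x) hx a ha
    rw [add_sub_cancel, ha.2] at h10
    exact h10

end
end LatLin
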