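import Pool.Agent.Lib.MP_2392aa_gt.L.HFin

/-!
MP_2392aa_gt, formal linearization, module LemT (about 350 lines): equivariant cocycles on
`uT e = Hom(N, V)`, `V` = range of `e`, `N` = kernel of `e`, are coboundaries.

NOTATION. `x = e x + (x - e x)`, `y := x - e x ∈ N`. For `a ∈ uT e`: `a x = a y ∈ V`, `a V = 0`. A
transvection `ℓ = tv q u` with `q, u ∈ V`, `⟪q, u⟫ = 0`, fixes `N`, maps `V` to `V`. `heq` says
`(β (ℓ a)) x = ℓ ((β a) (ℓ⁻¹ x))`. `hc` says (as `xd a p x = a (p x) - Dp(x) (a x)`)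
(C) `a ((β a') x) - D(β a')(x)(a y) = a' ((β a) x) - D(β a)(x)(a' y)`.
FACTS about transvections in `V` (`Big e`: every vector of `V` is orthogonal to a nonzero `q ∈ V`):
(F1) transitivity: if `z, z' ∈ V` are linearly independent there is `ℓ` with `ℓ z = z'`: `u = z' - z`,
`q ∈ V` with `⟪q, z⟫ = ⟪q, z'⟫ = 1` (in the plane spanned by them). For dependent nonzero `z, z'` pass
through a third vector. So a function on `V` invariant under transvections is constant on `V \ {0}`.
(F2) if `r : V → V` is equivariant (`r (ℓ z) = ℓ r z`) then `r z = c z` for all `z ≠ 0`, one constant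
`c`: for `q ∈ V`, `q ⟂ z`, `ℓ = tv q z` fixes `z`, so `⟪q, r z⟫ z = 0`; hence `r z ∈ ℝ z`,
`r z = c z z`; `c` is invariant under transvections; (F1).
(F3) a linear map `V → V` (or on all of `E`, restricted to `V`) commuting with transvections is a
scalar: special case of (F2).
STEP 1 (`x = y ∈ N`). For `φ ∈ N`, `v ∈ V`: `ro φ v ∈ uT e`, `ℓ (ro φ v) = ro φ (ℓ v)`. So
`C(v) := (β (ro φ v)) y` satisfies `C (ℓ v) = ℓ C(v)` (linear in `v`). The `N`-part `(1 - e) C` is
linear and invariant: `⟪q, v⟫ (1 - e) C(u) = 0`, choose for `u ≠ 0` some `q ∈ V`, `q ⟂ u`, `q ≠ 0`,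
`v = q`: `(1 - e) C(u) = 0`. The `V`-part is a scalar: `C(v) = c(φ, y) v` for all `v ∈ V`.
Fix a unit vector `v0 ∈ V`, `b_j` an orthonormal basis of `E`, `φ_j := b_j - e b_j ∈ N`, and
`w' x := ∑_j ⟪v0, (β (ro φ_j v0)) (x - e x)⟫ • φ_j`, an element of `HM E k` with values in `N`, depending
only on `x - e x`. So `w' x = ∑_j c(φ_j, x - e x) φ_j`: `(xd a w') x = a (w' x) - Dw'(x)(a x) = a (w' x)`
(`a x ∈ V`, `w'` does not depend on the `V`-component), and for `a = ro φ v`, `φ ∈ N`:
`a (w' x) = ∑_j c(φ_j, y) ⟪φ, φ_j⟫ v = c(∑_j ⟪φ, φ_j⟫ φ_j, y) v = c(φ, y) v = (β a) y`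
(`∑_j ⟪φ, φ_j⟫ φ_j = (1 - e) φ = φ`, `c` is linear in `φ`). By linearity (every `a ∈ uT e` is a sum of
such rank one operators: `a = ∑_j ro (a† b_j..)`, e.g. `a = ∑_j ro φ_j (a b_j)`):
`(xd a w') x = (β a) (x - e x)` for all `a ∈ uT e`.
STEP 2. `β' a := β a - xd a w'` satisfies (C) (`xd a (xd a' w) = xd a' (xd a w)` when `a a' = a' a = 0`:
compute, symmetry of the second derivative) and `heq` (`w' (ℓ x) = w' x`, `ℓ (w' x) = w' x`), and
`(β' a) y = 0` for `y ∈ N`. Show `β' = 0` on `uT e`. Fix `y ∈ N`, `y ≠ 0`; let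
`b_v := ‖y‖⁻² • ro y v`, so `b_v y = v` (`v ∈ V`).
(2a) `N`-part. If `a y = 0`: `(1 - e)` of (C): `(1 - e) D(β' a)(x)(v) = 0` for all `v ∈ V` (take
`a' = b_v`; `a` and `a'` have values in `V`), so `(1 - e)(β' a)(y + z)` does not depend on `z ∈ V`; it
is `0` at `z = 0`. For all `z, v ∈ V`: `R z := (1 - e)(β' b_z)(y + z)` is invariant
(`b_(ℓ z) = ℓ b_z`), so constant off `0`, continuous, `0` at `z = 0`: `R = 0`. Derivative in direction
`v`: `(1-e)(β' b_v)(y+z) + (1-e) D(β' b_z)(y+z)(v) = 0`, and by (C) the second term is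
`(1-e) D(β' b_v)(y+z)(z)`. So `t ↦ t (1-e)(β' b_v)(y + t z)` has derivative `0`, is `0` at `t = 0`, so
`(1-e)(β' b_v)(y+z) = 0`. With the first sentence: `(1 - e)(β' a)(y + z) = 0` for all `a`
(`a - b_(a y)` kills `y`).
(2b) `V`-part, the same: if `a y = 0`: `e D(β' a)(x)(v) = 0` (now `a'((β' a) x) = 0` by (2a)), so
`e (β' a)(y + z) = e (β' a) y = 0`. `R z := e (β' b_z)(y + z) ∈ V` is equivariant: `R z = c z` (F2).
Derivative: `e (β' b_v)(y+z) + e D(β' b_v)(y+z)(z) = c v`, so
`t e (β' b_v)(y + t z) = t c v`, and at `z = 0`: `c v = 0`. So all vanish.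
(2c) For `y = 0`: by continuity (`N ≠ 0`; if `N = 0` then `uT e = 0`).
-/

open scoped ContDiff Topology

namespace LatLin

section aux
variable {E : Type*} [NormedAddCommGroup E] [InnerProductSpace ℝ E] {k : ℕ}

/-- transitivity of the transvections on pairs which are not proportional -/
private theorem lt_trans_pair {e : E →L[ℝ] E} {z z' : E} (hz : e z = z)
    (hz' : e z' = z') (hz0 : z ≠ 0) (hne : ∀ a : ℝ, z' ≠ a • z) :
    ∃ q u : E, inner ℝ q u = (0 : ℝ) ∧ e q = q ∧ e u = u ∧ z + (inner ℝ q z : ℝ) • u = z' := by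
  set a : ℝ := inner ℝ z z' / inner ℝ z z with ha
  set w : E := z' - a • z with hw
  have hzz : (inner ℝ z z : ℝ) ≠ 0 := fun h => hz0 (inner_self_eq_zero.1 h)
  have hw0 : w ≠ 0 := fun h => hne a (sub_eq_zero.1 h)
  have hww : (inner ℝ w w : ℝ) ≠ 0 := fun h => hw0 (inner_self_eq_zero.1 h)
  have hzw : (inner ℝ z w : ℝ) = 0 := by
    rw [hw, inner_sub_right, inner_smul_right, ha, div_mul_cancel₀ _ hzz, sub_self]
  have hwz : (inner ℝ w z : ℝ) = 0 := by rw [real_inner_comm, hzw]
  have hz'e : z' = a • z + w := by rw [hw]; abel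
  have hew : e w = w := by rw [hw, map_sub, map_smul, hz, hz']
  have h1 : (inner ℝ ((inner ℝ z z : ℝ)⁻¹ • z + ((1 - a) * (inner ℝ w w : ℝ)⁻¹) • w) z : ℝ) = 1 := by
    rw [inner_add_left, real_inner_smul_left, real_inner_smul_left, hwz, mul_zero, add_zero,
      inv_mul_cancel₀ hzz]
  have h2 : (inner ℝ ((inner ℝ z z : ℝ)⁻¹ • z + ((1 - a) * (inner ℝ w w : ℝ)⁻¹) • w) z' : ℝ) = 1 := by
    rw [hz'e, inner_add_right, inner_smul_right, h1, inner_add_left, real_inner_smul_left,
      real_inner_smul_left, hzw, mul_zero, zero_add, mul_assoc, inv_mul_cancel₀ hww]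
    ring
  refine ⟨(inner ℝ z z : ℝ)⁻¹ • z + ((1 - a) * (inner ℝ w w : ℝ)⁻¹) • w, z' - z, ?_, ?_, ?_, ?_⟩
  · rw [inner_sub_right, h1, h2, sub_self]
  · rw [map_add, map_smul, map_smul, hz, hew]
  · rw [map_sub, hz, hz']
  · rw [h1, one_smul]
    abel

/-- a function invariant under transvections is constant off zero -/
private theorem lt_f1 {X : Type*} {e : E →L[ℝ] E} (hbig : Big e) (h : E → X)
    (hinv : ∀ q u z : E, inner ℝ q u = (0 : ℝ) → e q = q → e u = u → e z = z →
      h (z + (inner ℝ q z : ℝ) • u) = h z) {z z' : E} (hz : e z = z) (hz' : e z' = z')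
    (hz0 : z ≠ 0) (hz0' : z' ≠ 0) : h z = h z' := by
  by_cases hne : ∀ a : ℝ, z' ≠ a • z
  · obtain ⟨q, u, hqu, hq, hu, hzz⟩ := lt_trans_pair hz hz' hz0 hne
    rw [← hzz, hinv q u z hqu hq hu hz]
  · push Not at hne
    obtain ⟨a, rfl⟩ := hne
    have ha : a ≠ 0 := fun h => hz0' (by rw [h, zero_smul])
    obtain ⟨w, hw, hw0, hwz⟩ := hbig z
    have h1 : ∀ b : ℝ, w ≠ b • z := by
      intro b hb
      rw [hb, real_inner_smul_left] at hwz
      have hzz : (inner ℝ z z : ℝ) ≠ 0 := fun h => hz0 (inner_self_eq_zero.1 h)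
      rcases mul_eq_zero.1 hwz with hb0 | h0
      · exact hw0 (by rw [hb, hb0, zero_smul])
      · exact hzz h0
    have h2 : ∀ b : ℝ, w ≠ b • (a • z) := by
      intro b hb
      rw [smul_smul] at hb
      exact h1 _ hb
    obtain ⟨q, u, hqu, hq, hu, hzz⟩ := lt_trans_pair hz hw hz0 h1
    obtain ⟨q', u', hqu', hq', hu', hzz'⟩ := lt_trans_pair hz' hw hz0' h2
    rw [← hinv q u z hqu hq hu hz, hzz, ← hzz', hinv q' u' _ hqu' hq' hu' hz']

/-- an equivariant map is a scalar off zero -/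
private theorem lt_f2 {e : E →L[ℝ] E} (hbig : Big e) (r : E → E)
    (hr : ∀ q u z : E, inner ℝ q u = (0 : ℝ) → e q = q → e u = u → e z = z →
      r (z + (inner ℝ q z : ℝ) • u) = r z + (inner ℝ q (r z) : ℝ) • u)
    (hV : ∀ z, e z = z → e (r z) = r z) : ∃ c : ℝ, ∀ z, e z = z → z ≠ 0 → r z = c • z := by
  have h1 : ∀ z, e z = z → z ≠ 0 → r z = (inner ℝ z (r z) / inner ℝ z z : ℝ) • z := by
    intro z hz hz0
    have hzz : (inner ℝ z z : ℝ) ≠ 0 := fun h => hz0 (inner_self_eq_zero.1 h)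
    set c : ℝ := inner ℝ z (r z) / inner ℝ z z with hc
    have hq1 : (inner ℝ (r z - c • z) z : ℝ) = 0 := by
      rw [inner_sub_left, real_inner_smul_left, hc, div_mul_cancel₀ _ hzz, real_inner_comm, sub_self]
    have hq2 : e (r z - c • z) = r z - c • z := by
      rw [map_sub, map_smul, hz, hV z hz]
    have h2 := hr (r z - c • z) z z hq1 hq2 hz hz
    rw [hq1, zero_smul, add_zero] at h2
    have h3 : (inner ℝ (r z - c • z) (r z) : ℝ) • z = 0 := by
      have := h2.symm
      rwa [add_eq_left] at this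
    have h4 : (inner ℝ (r z - c • z) (r z) : ℝ) = 0 := (smul_eq_zero.1 h3).resolve_right hz0
    have h5 : (inner ℝ (r z - c • z) (r z - c • z) : ℝ) = 0 := by
      rw [inner_sub_right, inner_smul_right, h4, hq1, mul_zero, sub_zero]
    exact sub_eq_zero.1 (inner_self_eq_zero.1 h5)
  obtain ⟨z0, hz0, hz00, -⟩ := hbig 0
  refine ⟨inner ℝ z0 (r z0) / inner ℝ z0 z0, fun z hz hzne => ?_⟩
  have h2 : (inner ℝ z (r z) / inner ℝ z z : ℝ) = inner ℝ z0 (r z0) / inner ℝ z0 z0 := by
    refine lt_f1 hbig (fun z => (inner ℝ z (r z) / inner ℝ z z : ℝ)) ?_ hz hz0 hzne hz00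
    intro q u z hqu hq hu hz
    by_cases hzz0 : z = 0
    · rw [hzz0, inner_zero_right, zero_smul, add_zero]
    have hl : z + (inner ℝ q z : ℝ) • u ≠ 0 := by
      intro h
      have h3 : (inner ℝ q (z + (inner ℝ q z : ℝ) • u) : ℝ) = inner ℝ q z := by
        rw [inner_add_right, inner_smul_right, hqu, mul_zero, add_zero]
      rw [h, inner_zero_right] at h3
      rw [← h3, zero_smul, add_zero] at h
      exact hzz0 h
    have hll : (inner ℝ (z + (inner ℝ q z : ℝ) • u) (z + (inner ℝ q z : ℝ) • u) : ℝ) ≠ 0 :=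
      fun h => hl (inner_self_eq_zero.1 h)
    have h3 := hr q u z hqu hq hu hz
    have h4 := h1 z hz hzz0
    set c : ℝ := inner ℝ z (r z) / inner ℝ z z with hc
    have h5 : r (z + (inner ℝ q z : ℝ) • u) = c • (z + (inner ℝ q z : ℝ) • u) := by
      rw [h3, h4, inner_smul_right, smul_add, smul_smul]
    show (inner ℝ (z + (inner ℝ q z : ℝ) • u) (r (z + (inner ℝ q z : ℝ) • u)) /
      inner ℝ (z + (inner ℝ q z : ℝ) • u) (z + (inner ℝ q z : ℝ) • u) : ℝ) = c
    rw [h5, inner_smul_right, mul_div_assoc, div_self hll, mul_one]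
  rw [h1 z hz hzne, h2]

private theorem lt_ro_mem {e : E →L[ℝ] E} (he : IsPr e) {φ v : E} (hφ : e φ = 0) (hv : e v = v) :
    ro φ v ∈ uT e := by
  refine ⟨fun x => ?_, fun x => ?_⟩
  · rw [ro_apply, map_smul, hv]
  · rw [ro_apply, ← he.sym, hφ, inner_zero_left, zero_smul]

private theorem lt_tv_ro {q u : E} (h : inner ℝ q u = (0 : ℝ)) (φ v : E) :
    ((tv q u : GE E) : E →L[ℝ] E) ∘L ro φ v = ro φ (v + (inner ℝ q v : ℝ) • u) := by
  ext x
  show tv q u (ro φ v x) = ro φ (v + (inner ℝ q v : ℝ) • u) x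
  rw [tv_apply h, ro_apply, ro_apply, inner_smul_right, smul_add, smul_smul]

private theorem lt_line (p : HM E k) (x v : E) (t : ℝ) :
    HasDerivAt (fun s : ℝ => p.1 (x + s • v)) (fderiv ℝ p.1 (x + t • v) v) t := by
  have hp : Differentiable ℝ p.1 := p.2.1.differentiable (by simp)
  have h2 : HasDerivAt (fun s : ℝ => x + s • v) v t := by
    simpa using ((hasDerivAt_id t).smul_const v).const_add x
  exact (hp (x + t • v)).hasFDerivAt.comp_hasDerivAt t h2

private theorem lt_cont (p : HM E k) : Continuous p.1 := p.2.1.continuous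

/-- derivative along a direction in which the function does not change -/
private theorem lt_fderiv_zero (p : HM E k) (x v : E) (h : ∀ s : ℝ, p.1 (x + s • v) = p.1 x) :
    fderiv ℝ p.1 x v = 0 := by
  have h1 := lt_line p x v 0
  rw [zero_smul, add_zero] at h1
  have h2 : (fun s : ℝ => p.1 (x + s • v)) = fun _ => p.1 x := funext h
  rw [h2] at h1
  exact h1.unique (hasDerivAt_const _ _)

private theorem lt_const {f f' : ℝ → E} (h : ∀ t, HasDerivAt f (f' t) t) (h0 : ∀ t, f' t = 0)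
    (t : ℝ) : f t = f 0 := by
  refine is_const_of_deriv_eq_zero (fun s => (h s).differentiableAt) (fun s => ?_) t 0
  rw [(h s).deriv, h0]

private theorem lt_limit {g : ℝ → E} (hg : Continuous g) {c : E} (h : ∀ t : ℝ, t ≠ 0 → g t = c) :
    g 0 = c := by
  have h1 : Filter.Tendsto g (𝓝[≠] (0 : ℝ)) (𝓝 (g 0)) :=
    (hg.tendsto 0).mono_left nhdsWithin_le_nhds
  have h2 : Filter.Tendsto g (𝓝[≠] (0 : ℝ)) (𝓝 c) := by
    refine tendsto_const_nhds.congr' ?_
    filter_upwards [self_mem_nhdsWithin] with t ht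
    exact (h t ht).symm
  exact tendsto_nhds_unique h1 h2

private theorem lt_val_add (B : (E →L[ℝ] E) →ₗ[ℝ] HM E k) (a a' : E →L[ℝ] E) (x : E) :
    (B (a + a')).1 x = (B a).1 x + (B a').1 x := by
  rw [map_add]
  rfl

private theorem lt_val_smul (B : (E →L[ℝ] E) →ₗ[ℝ] HM E k) (c : ℝ) (a : E →L[ℝ] E) (x : E) :
    (B (c • a)).1 x = c • (B a).1 x := by
  rw [map_smul]
  rfl

private theorem lt_val_zero (B : (E →L[ℝ] E) →ₗ[ℝ] HM E k) (x : E) : (B 0).1 x = 0 := by
  rw [map_zero]
  rfl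

/-- the operator of rank one with `y ↦ v` -/
private noncomputable def bb (y v : E) : E →L[ℝ] E := ((inner ℝ y y : ℝ)⁻¹) • ro y v

private theorem bb_mem {e : E →L[ℝ] E} (he : IsPr e) {y v : E} (hy : e y = 0) (hv : e v = v) :
    bb y v ∈ uT e := (uT e).smul_mem _ (lt_ro_mem he hy hv)

private theorem bb_apply {e : E →L[ℝ] E} (he : IsPr e) {y : E} (hy : e y = 0) (hy0 : y ≠ 0)
    (v : E) {z : E} (hz : e z = z) : bb y v (y + z) = v := by
  have hyy : (inner ℝ y y : ℝ) ≠ 0 := fun h => hy0 (inner_self_eq_zero.1 h)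
  have hyz : (inner ℝ y z : ℝ) = 0 := by
    rw [← hz, ← he.sym, hy, inner_zero_left]
  show ((inner ℝ y y : ℝ)⁻¹) • ro y v (y + z) = v
  rw [ro_apply, inner_add_right, hyz, add_zero, smul_smul, inv_mul_cancel₀ hyy, one_smul]

private theorem bb_add (y v w : E) (s : ℝ) : bb y (v + s • w) = bb y v + s • bb y w := by
  ext x
  show ((inner ℝ y y : ℝ)⁻¹) • ((inner ℝ y x : ℝ) • (v + s • w)) =
    ((inner ℝ y y : ℝ)⁻¹) • ((inner ℝ y x : ℝ) • v) +
      s • (((inner ℝ y y : ℝ)⁻¹) • ((inner ℝ y x : ℝ) • w))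
  rw [smul_add, smul_add, smul_comm s, smul_comm s]

private theorem bb_smul (y v : E) (s : ℝ) : bb y (s • v) = s • bb y v := by
  ext x
  show ((inner ℝ y y : ℝ)⁻¹) • ((inner ℝ y x : ℝ) • (s • v)) =
    s • (((inner ℝ y y : ℝ)⁻¹) • ((inner ℝ y x : ℝ) • v))
  rw [smul_comm s, smul_comm s]

private theorem bb_tv {q u : E} (h : inner ℝ q u = (0 : ℝ)) (y v : E) :
    ((tv q u : GE E) : E →L[ℝ] E) ∘L bb y v = bb y (v + (inner ℝ q v : ℝ) • u) := by
  unfold bb
  rw [ContinuousLinearMap.comp_smul, lt_tv_ro h]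

/-- the second step, for the projection to one of the two components -/
private theorem lt_step {e : E →L[ℝ] E} (he : IsPr e) (T : E →L[ℝ] E)
    (B : (E →L[ℝ] E) →ₗ[ℝ] HM E k) {y : E} (hy : e y = 0) (hy0 : y ≠ 0)
    (h0 : ∀ a ∈ uT e, (B a).1 y = 0)
    (hi : ∀ a ∈ uT e, ∀ a' ∈ uT e, ∀ z, e z = z →
      T (fderiv ℝ (B a').1 (y + z) (a (y + z))) = T (fderiv ℝ (B a).1 (y + z) (a' (y + z))))
    (c : ℝ) (hR : ∀ z, e z = z → T ((B (bb y z)).1 (y + z)) = c • z) :
    ∀ a ∈ uT e, ∀ z, e z = z → T ((B a).1 (y + z)) = 0 := by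
  -- operators which kill `y`
  have hker : ∀ a ∈ uT e, a y = 0 → ∀ z, e z = z → T ((B a).1 (y + z)) = 0 := by
    intro a ha hay z hz
    have h1 : ∀ t : ℝ, HasDerivAt (fun s : ℝ => T ((B a).1 (y + s • z)))
        (T (fderiv ℝ (B a).1 (y + t • z) z)) t := fun t =>
      T.hasFDerivAt.comp_hasDerivAt t (lt_line (B a) y z t)
    have h2 : ∀ t : ℝ, T (fderiv ℝ (B a).1 (y + t • z) z) = 0 := by
      intro t
      have htz : e (t • z) = t • z := by rw [map_smul, hz]
      have h3 := hi a ha (bb y z) (bb_mem he hy hz) (t • z) htz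
      have h4 : a (y + t • z) = 0 := by
        rw [map_add, hay, zero_add, ← htz]
        exact ha.2 _
      rw [h4, map_zero, map_zero, bb_apply he hy hy0 z htz] at h3
      exact h3.symm
    have h3 := lt_const h1 h2 1
    rw [one_smul, zero_smul, add_zero] at h3
    rw [h3, h0 a ha, map_zero]
  -- the operators `bb y v`
  have hb : ∀ v, e v = v → ∀ z, e z = z → T ((B (bb y v)).1 (y + z)) = 0 := by
    intro v hv
    have key : ∀ z, e z = z →
        T (fderiv ℝ (B (bb y v)).1 (y + z) z) + T ((B (bb y v)).1 (y + z)) = c • v := by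
      intro z hz
      have h1 : HasDerivAt (fun s : ℝ => T ((B (bb y z)).1 ((y + z) + s • v)) +
          s • T ((B (bb y v)).1 ((y + z) + s • v)))
          (T (fderiv ℝ (B (bb y z)).1 ((y + z) + (0 : ℝ) • v) v) +
            ((0 : ℝ) • T (fderiv ℝ (B (bb y v)).1 ((y + z) + (0 : ℝ) • v) v) +
              (1 : ℝ) • T ((B (bb y v)).1 ((y + z) + (0 : ℝ) • v)))) 0 := by
        refine HasDerivAt.add
          (T.hasFDerivAt.comp_hasDerivAt (0 : ℝ) (lt_line (B (bb y z)) (y + z) v 0)) ?_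
        exact (hasDerivAt_id (0 : ℝ)).smul
          (T.hasFDerivAt.comp_hasDerivAt (0 : ℝ) (lt_line (B (bb y v)) (y + z) v 0))
      have h2 : (fun s : ℝ => T ((B (bb y z)).1 ((y + z) + s • v)) +
          s • T ((B (bb y v)).1 ((y + z) + s • v))) = fun s => c • z + s • (c • v) := by
        funext s
        have hzs : e (z + s • v) = z + s • v := by rw [map_add, map_smul, hz, hv]
        have h3 := hR (z + s • v) hzs
        rw [bb_add, lt_val_add, lt_val_smul, map_add, map_smul, ← add_assoc, smul_add,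
          smul_comm c s] at h3
        exact h3
      rw [h2] at h1
      have h3 : HasDerivAt (fun s : ℝ => c • z + s • (c • v)) (c • v) 0 := by
        simpa using ((hasDerivAt_id (0 : ℝ)).smul_const (c • v)).const_add (c • z)
      have h4 := h1.unique h3
      rw [zero_smul, add_zero, zero_smul, zero_add, one_smul] at h4
      have h5 := hi (bb y v) (bb_mem he hy hv) (bb y z) (bb_mem he hy hz) z hz
      rw [bb_apply he hy hy0 v hz, bb_apply he hy hy0 z hz] at h5
      rw [h5] at h4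
      exact h4
    have hall : ∀ z, e z = z → ∀ t : ℝ, t ≠ 0 → T ((B (bb y v)).1 (y + t • z)) = c • v := by
      intro z hz t ht
      have h1 : ∀ t : ℝ, HasDerivAt
          (fun s : ℝ => s • T ((B (bb y v)).1 (y + s • z)) - s • (c • v))
          ((t • T (fderiv ℝ (B (bb y v)).1 (y + t • z) z) +
            (1 : ℝ) • T ((B (bb y v)).1 (y + t • z))) - (1 : ℝ) • (c • v)) t := by
        intro t
        refine HasDerivAt.sub ?_ ((hasDerivAt_id t).smul_const (c • v))
        exact (hasDerivAt_id t).smul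
          (T.hasFDerivAt.comp_hasDerivAt t (lt_line (B (bb y v)) y z t))
      have h2 : ∀ t : ℝ, (t • T (fderiv ℝ (B (bb y v)).1 (y + t • z) z) +
            (1 : ℝ) • T ((B (bb y v)).1 (y + t • z))) - (1 : ℝ) • (c • v) = 0 := by
        intro t
        have htz : e (t • z) = t • z := by rw [map_smul, hz]
        have h3 := key (t • z) htz
        rw [map_smul, map_smul] at h3
        rw [one_smul, one_smul, h3, sub_self]
      have h3 := lt_const h1 h2 t
      rw [zero_smul, zero_smul, sub_self, ← smul_sub] at h3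
      exact sub_eq_zero.1 ((smul_eq_zero.1 h3).resolve_left ht)
    have hcv : c • v = 0 := by
      have h1 : Continuous fun t : ℝ => T ((B (bb y v)).1 (y + t • v)) :=
        T.continuous.comp ((lt_cont (B (bb y v))).comp (by fun_prop))
      have h2 := lt_limit h1 (hall v hv)
      rw [zero_smul, add_zero, h0 _ (bb_mem he hy hv), map_zero] at h2
      exact h2.symm
    intro z hz
    have h1 := hall z hz 1 one_ne_zero
    rw [one_smul, hcv] at h1
    exact h1
  intro a ha z hz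
  have hay : e (a y) = a y := ha.1 y
  have h1 : a - bb y (a y) ∈ uT e := (uT e).sub_mem ha (bb_mem he hy hay)
  have h2 : (a - bb y (a y)) y = 0 := by
    have h3 := bb_apply he hy hy0 (a y) (map_zero e)
    rw [add_zero] at h3
    show a y - bb y (a y) y = 0
    rw [h3, sub_self]
  have h3 : a = (a - bb y (a y)) + bb y (a y) := (sub_add_cancel _ _).symm
  rw [h3, lt_val_add, map_add, hker _ h1 h2 z hz, hb _ hay z hz, add_zero]

end aux

section
variable {E : Type*} [NormedAddCommGroup E] [InnerProductSpace ℝ E] [FiniteDimensional ℝ E] {k : ℕ}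

theorem lemT {e : E →L[ℝ] E} (he : IsPr e) (hbig : Big e) (β : (E →L[ℝ] E) →ₗ[ℝ] HM E k)
    (hc : ∀ a ∈ uT e, ∀ a' ∈ uT e, xd a (β a') = xd a' (β a))
    (heq : ∀ q u : E, inner ℝ q u = (0 : ℝ) → e q = q → e u = u → ∀ a ∈ uT e,
      β (((tv q u : GE E) : E →L[ℝ] E) ∘L a) = pi k (tv q u) (β a)) :
    ∃ w : HM E k, ∀ a ∈ uT e, β a = xd a w := by
  -- pointwise equivariance
  have hev : ∀ q u : E, inner ℝ q u = (0 : ℝ) → e q = q → e u = u → ∀ a ∈ uT e, ∀ x : E,
      (β (((tv q u : GE E) : E →L[ℝ] E) ∘L a)).1 x =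
        (β a).1 (x - (inner ℝ q x : ℝ) • u) +
          (inner ℝ q ((β a).1 (x - (inner ℝ q x : ℝ) • u)) : ℝ) • u := by
    intro q u hqu hq hu a ha x
    rw [heq q u hqu hq hu a ha, pi_apply, tv_inv_apply hqu, tv_apply hqu]
  have hqN : ∀ q y : E, e q = q → e y = 0 → (inner ℝ q y : ℝ) = 0 := by
    intro q y hq hy
    rw [← hq, he.sym, hy, inner_zero_right]
  have hN : ∀ x : E, e (x - e x) = 0 := by
    intro x
    rw [map_sub, he.idem, sub_self]
  -- step 1: rank one operators
  have s1 : ∀ y φ : E, e y = 0 → e φ = 0 →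
      ∃ c : ℝ, ∀ v, e v = v → (β (ro φ v)).1 y = c • v := by
    intro y φ hy hφ
    have hro : ∀ (v w : E) (s : ℝ), ro φ (v + s • w) = ro φ v + s • ro φ w := by
      intro v w s
      ext x
      show (inner ℝ φ x : ℝ) • (v + s • w) = (inner ℝ φ x : ℝ) • v + s • ((inner ℝ φ x : ℝ) • w)
      rw [smul_add, smul_comm s]
    have hr : ∀ q u z : E, inner ℝ q u = (0 : ℝ) → e q = q → e u = u → e z = z →
        (β (ro φ (z + (inner ℝ q z : ℝ) • u))).1 y =
          (β (ro φ z)).1 y + (inner ℝ q ((β (ro φ z)).1 y) : ℝ) • u := by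
      intro q u z hqu hq hu hz
      have h1 := hev q u hqu hq hu (ro φ z) (lt_ro_mem he hφ hz) y
      rw [lt_tv_ro hqu, hqN q y hq hy, zero_smul, sub_zero] at h1
      exact h1
    have hro0 : ro φ (0 : E) = 0 := by
      ext x
      show (inner ℝ φ x : ℝ) • (0 : E) = 0
      rw [smul_zero]
    have hV : ∀ z, e z = z → e ((β (ro φ z)).1 y) = (β (ro φ z)).1 y := by
      intro z hz
      by_cases hz0 : z = 0
      · rw [hz0, hro0, lt_val_zero, map_zero]
      have h2z : (2 : ℝ) • z ≠ 0 := smul_ne_zero two_ne_zero hz0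
      have h2e : e ((2 : ℝ) • z) = (2 : ℝ) • z := by rw [map_smul, hz]
      have h1 := lt_f1 hbig (fun v => (β (ro φ v)).1 y - e ((β (ro φ v)).1 y))
        (fun q u z hqu hq hu hz => by
          try dsimp only
          rw [hr q u z hqu hq hu hz, map_add, map_smul, hu]
          abel) hz h2e hz0 h2z
      have h2 : (β (ro φ ((2 : ℝ) • z))).1 y = (2 : ℝ) • (β (ro φ z)).1 y := by
        have h3 := hro 0 z 2
        rw [zero_add, hro0, zero_add] at h3
        rw [h3, lt_val_smul]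
      try dsimp only at h1
      rw [h2, map_smul, ← smul_sub, two_smul] at h1
      have h3 : (β (ro φ z)).1 y - e ((β (ro φ z)).1 y) = 0 := by
        have := h1.symm
        rwa [add_eq_left] at this
      exact (sub_eq_zero.1 h3).symm
    obtain ⟨c, hcz⟩ := lt_f2 hbig (fun v => (β (ro φ v)).1 y) hr hV
    refine ⟨c, fun v hv => ?_⟩
    by_cases hv0 : v = 0
    · rw [hv0, hro0, lt_val_zero, smul_zero]
    · exact hcz v hv hv0
  -- the primitive
  obtain ⟨v0, hv0, hv00, -⟩ := hbig 0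
  have hvv : (inner ℝ v0 v0 : ℝ) ≠ 0 := fun h => hv00 (inner_self_eq_zero.1 h)
  set b := stdOrthonormalBasis ℝ E with hbdef
  set I : E →L[ℝ] E := ContinuousLinearMap.id ℝ E with hI
  set w : HM E k := ∑ j, pj (ro ((inner ℝ v0 v0 : ℝ)⁻¹ • v0) (b j - e (b j))) (I - e)
    (β (ro (b j - e (b j)) v0)) with hw
  have hw1 : ∀ x, w.1 x = ∑ j, (inner ℝ ((inner ℝ v0 v0 : ℝ)⁻¹ • v0)
      ((β (ro (b j - e (b j)) v0)).1 (x - e x)) : ℝ) • (b j - e (b j)) := by
    intro x
    rw [hw]
    simp only [AddSubmonoidClass.coe_finsetSum, Finset.sum_apply, pj_apply, ro_apply]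
    rfl
  have hdecomp : ∀ a ∈ uT e, a = ∑ j, ro (b j - e (b j)) (a (b j)) := by
    intro a ha
    ext x
    have h1 : a x = a (x - e x) := by rw [map_sub, ha.2 x, sub_zero]
    have h2 : x - e x = ∑ j, (inner ℝ (b j) (x - e x) : ℝ) • b j := (b.sum_repr' _).symm
    rw [h1, h2, map_sum, sum_apply]
    refine Finset.sum_congr rfl fun j _ => ?_
    rw [map_smul, ro_apply, inner_sub_left, he.sym, ← inner_sub_right]
  -- `(β a) y` for `y` in the kernel
  have hy1 : ∀ a ∈ uT e, ∀ x : E, (β a).1 (x - e x) = a (w.1 x) := by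
    intro a ha x
    conv_lhs => rw [hdecomp a ha]
    rw [map_sum, AddSubmonoidClass.coe_finsetSum, Finset.sum_apply, hw1, map_sum]
    refine Finset.sum_congr rfl fun j _ => ?_
    obtain ⟨c, hcj⟩ := s1 (x - e x) (b j - e (b j)) (hN x) (hN (b j))
    rw [hcj v0 hv0, hcj (a (b j)) (ha.1 _), map_smul, map_sub, ha.2, sub_zero, inner_smul_right,
      real_inner_smul_left, inv_mul_cancel₀ hvv, mul_one]
  have hyV : ∀ a ∈ uT e, ∀ y : E, e y = 0 → e ((β a).1 y) = (β a).1 y := by
    intro a ha y hy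
    have h1 := hy1 a ha y
    rw [hy, sub_zero] at h1
    rw [h1]
    exact ha.1 _
  have hwinv : ∀ (x v : E), e v = v → ∀ s : ℝ, w.1 (x + s • v) = w.1 x := by
    intro x v hv s
    rw [hw1, hw1]
    have h1 : x + s • v - e (x + s • v) = x - e x := by
      rw [map_add, map_smul, hv]
      abel
    rw [h1]
  have hxd : ∀ a ∈ uT e, ∀ x : E, (xd a w).1 x = (β a).1 (x - e x) := by
    intro a ha x
    rw [xd_apply, lt_fderiv_zero w x (a x) (hwinv x (a x) (ha.1 x)), sub_zero, hy1 a ha x]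
  -- the difference
  set B : (E →L[ℝ] E) →ₗ[ℝ] HM E k := β - (pj I (I - e)) ∘ₗ β with hB
  have hBv : ∀ (a : E →L[ℝ] E) (x : E), (B a).1 x = (β a).1 x - (β a).1 (x - e x) := by
    intro a x
    rfl
  have hBN : ∀ (a : E →L[ℝ] E) (y : E), e y = 0 → (B a).1 y = 0 := by
    intro a y hy
    rw [hBv, hy, sub_zero, sub_self]
  -- the cocycle condition for the difference
  have hpjz : ∀ a ∈ uT e, ∀ a' ∈ uT e, xd a (pj I (I - e) (β a')) = 0 := by
    intro a ha a' ha'
    ext x
    have h1 : ∀ s : ℝ, (pj I (I - e) (β a')).1 (x + s • a x) = (pj I (I - e) (β a')).1 x := by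
      intro s
      show (β a').1 ((x + s • a x) - e (x + s • a x)) = (β a').1 (x - e x)
      have h3 : (x + s • a x) - e (x + s • a x) = x - e x := by
        rw [map_add, map_smul, ha.1 x]
        abel
      rw [h3]
    rw [xd_apply, lt_fderiv_zero _ x (a x) h1, sub_zero]
    show a ((β a').1 (x - e x)) = 0
    rw [← hyV a' ha' (x - e x) (hN x)]
    exact ha.2 _
  have hC : ∀ a ∈ uT e, ∀ a' ∈ uT e, ∀ x : E,
      a ((B a').1 x) - fderiv ℝ (B a').1 x (a x) = a' ((B a).1 x) - fderiv ℝ (B a).1 x (a' x) := by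
    intro a ha a' ha' x
    have h1 : xd a (B a') = xd a' (B a) := by
      have e1 : B a' = β a' - pj I (I - e) (β a') := rfl
      have e2 : B a = β a - pj I (I - e) (β a) := rfl
      rw [e1, e2, map_sub, map_sub, hc a ha a' ha', hpjz a ha a' ha', hpjz a' ha' a ha]
    have h2 := congrArg (fun p : HM E k => p.1 x) h1
    exact h2
  -- equivariance of the difference
  have hBeq : ∀ q u : E, inner ℝ q u = (0 : ℝ) → e q = q → e u = u → ∀ a ∈ uT e, ∀ x : E,
      (B (((tv q u : GE E) : E →L[ℝ] E) ∘L a)).1 x =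
        (B a).1 (x - (inner ℝ q x : ℝ) • u) +
          (inner ℝ q ((B a).1 (x - (inner ℝ q x : ℝ) • u)) : ℝ) • u := by
    intro q u hqu hq hu a ha x
    rw [hBv, hBv, hev q u hqu hq hu a ha x, hev q u hqu hq hu a ha (x - e x),
      hqN q (x - e x) hq (hN x), zero_smul, sub_zero]
    have h1 : x - (inner ℝ q x : ℝ) • u - e (x - (inner ℝ q x : ℝ) • u) = x - e x := by
      rw [map_sub, map_smul, hu]
      abel
    rw [h1, inner_sub_right, sub_smul]
    abel
  have hReq : ∀ y : E, e y = 0 → ∀ q u z : E, inner ℝ q u = (0 : ℝ) → e q = q → e u = u →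
      e z = z → (B (bb y (z + (inner ℝ q z : ℝ) • u))).1 (y + (z + (inner ℝ q z : ℝ) • u)) =
        (B (bb y z)).1 (y + z) + (inner ℝ q ((B (bb y z)).1 (y + z)) : ℝ) • u := by
    intro y hy q u z hqu hq hu hz
    have h1 := hBeq q u hqu hq hu (bb y z) (bb_mem he hy hz) (y + (z + (inner ℝ q z : ℝ) • u))
    have h2 : (inner ℝ q (y + (z + (inner ℝ q z : ℝ) • u)) : ℝ) = inner ℝ q z := by
      rw [inner_add_right, inner_add_right, inner_smul_right, hqu, mul_zero, add_zero,
        hqN q y hq hy, zero_add]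
    have h3 : y + (z + (inner ℝ q z : ℝ) • u) - (inner ℝ q z : ℝ) • u = y + z := by abel
    rw [h2, h3, bb_tv hqu] at h1
    exact h1
  -- step 2a: the component in the kernel
  have s2a : ∀ y : E, e y = 0 → y ≠ 0 → ∀ a ∈ uT e, ∀ z, e z = z →
      (I - e) ((B a).1 (y + z)) = 0 := by
    intro y hy hy0
    have hTV : ∀ v : E, e v = v → (I - e) v = 0 := by
      intro v hv
      show v - e v = 0
      rw [hv, sub_self]
    refine lt_step he (I - e) B hy hy0 (fun a _ => hBN a y hy) ?_ 0 ?_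
    · intro a ha a' ha' z hz
      have h1 := congrArg (I - e) (hC a ha a' ha' (y + z))
      rw [map_sub, map_sub, hTV _ (ha.1 _), hTV _ (ha'.1 _), zero_sub, zero_sub, neg_inj] at h1
      exact h1
    · intro z hz
      rw [zero_smul]
      by_cases hz0 : z = 0
      · rw [hz0, add_zero, hBN _ y hy, map_zero]
      have hg : Continuous fun t : ℝ => t • (I - e) ((B (bb y z)).1 (y + t • z)) :=
        continuous_id.smul ((I - e).continuous.comp ((lt_cont (B (bb y z))).comp (by fun_prop)))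
      have h1 := lt_limit hg (c := (I - e) ((B (bb y z)).1 (y + z))) (fun t ht => by
        have htz : e (t • z) = t • z := by rw [map_smul, hz]
        have h2 := lt_f1 hbig (fun v => (I - e) ((B (bb y v)).1 (y + v)))
          (fun q u z hqu hq hu hz => by
            try dsimp only
            rw [hReq y hy q u z hqu hq hu hz, map_add, map_smul, hTV u hu, smul_zero, add_zero])
          hz htz hz0 (smul_ne_zero ht hz0)
        try dsimp only at h2
        rw [h2, bb_smul, lt_val_smul, map_smul])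
      rw [zero_smul] at h1
      exact h1.symm
  -- step 2b: everything
  have s2b : ∀ y : E, e y = 0 → y ≠ 0 → ∀ a ∈ uT e, ∀ z, e z = z → (B a).1 (y + z) = 0 := by
    intro y hy hy0
    have hBV : ∀ a ∈ uT e, ∀ z, e z = z → e ((B a).1 (y + z)) = (B a).1 (y + z) := by
      intro a ha z hz
      have h1 := s2a y hy hy0 a ha z hz
      have h2 : (B a).1 (y + z) - e ((B a).1 (y + z)) = 0 := h1
      exact (sub_eq_zero.1 h2).symm
    have hkill : ∀ a ∈ uT e, ∀ v, e v = v → a v = 0 := by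
      intro a ha v hv
      rw [← hv]
      exact ha.2 _
    obtain ⟨c, hcz⟩ := lt_f2 hbig (fun z => (B (bb y z)).1 (y + z)) (hReq y hy)
      (fun z hz => hBV _ (bb_mem he hy hz) z hz)
    refine lt_step he I B hy hy0 (fun a _ => hBN a y hy) ?_ c ?_
    · intro a ha a' ha' z hz
      have h1 := hC a ha a' ha' (y + z)
      rw [hkill a ha _ (hBV a' ha' z hz), hkill a' ha' _ (hBV a ha z hz), zero_sub, zero_sub,
        neg_inj] at h1
      exact h1
    · intro z hz
      show (B (bb y z)).1 (y + z) = c • z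
      by_cases hz0 : z = 0
      · rw [hz0, add_zero, hBN _ y hy, smul_zero]
      · exact hcz z hz hz0
  -- step 2c
  have s2c : ∀ a ∈ uT e, ∀ x : E, (B a).1 x = 0 := by
    intro a ha x
    have hx : x = (x - e x) + e x := (sub_add_cancel _ _).symm
    by_cases hx0 : x - e x = 0
    · by_cases hNz : ∃ y : E, e y = 0 ∧ y ≠ 0
      · obtain ⟨y, hy, hy0⟩ := hNz
        have hg : Continuous fun t : ℝ => (B a).1 (t • y + e x) :=
          (lt_cont (B a)).comp (by fun_prop)
        have h1 := lt_limit hg (c := 0) (fun t ht => by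
          exact s2b (t • y) (by rw [map_smul, hy, smul_zero]) (smul_ne_zero ht hy0) a ha (e x)
            (he.idem x))
        rw [zero_smul] at h1
        rw [hx, hx0]
        exact h1
      · push Not at hNz
        have ha0 : a = 0 := by
          ext z
          have h1 : a z = a (z - e z) := by rw [map_sub, ha.2 z, sub_zero]
          rw [h1, hNz (z - e z) (hN z), map_zero]
          rfl
        rw [ha0, lt_val_zero]
    · rw [hx]
      exact s2b (x - e x) (hN x) hx0 a ha (e x) (he.idem x)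
  refine ⟨w, fun a ha => ?_⟩
  ext x
  rw [hxd a ha x]
  have h1 := s2c a ha x
  rw [hBv] at h1
  exact sub_eq_zero.1 h1

end
end LatLin
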