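import Pool.Agent.Lib.MP_2392aa_gt.L.HFin

/-!
MP_2392aa_gt, formal linearization, module Uni (about 350 lines): cocycles on abelian groups of
unipotent elements `1 + a`, `a ∈ u`, where all products `a a'`, `a, a' ∈ u`, are zero.

NOTATION. `P s a := pj (1 + s a) (1 - s a)` is the action of `tw (s • a)`, `a ∘ a = 0`; it is `IsPoly`
in `s` on every vector (`poly_pj`), `P (s + t) a = P s a ∘ P t a`, and for `x : E` the derivative of
`s ↦ (P s a w) x` at `0` is `(xd a w) x` (product and chain rule).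
PROOFS.
`xd_of_pi`: if `pi k (tw a) w = w` then `P m a w = w` for all natural `m`, so `P s a w = w` for all
real `s` (`IsPoly.eq_of_nat`); derivative at `0`.
`pi_of_xd`: if `xd a w = 0`, then `s ↦ P s a w` has derivative `0` everywhere (at `s` it is
`P s a (xd a w)`, pointwise at `x`), so it is constant.
`uni_one`: `b (tw (m • a)) = ∑ j < m, P j a (b (tw a))` for natural `m` (cocycle identity,
`tw (m • a) = (tw a) ^ m ∈ G`); the right side is a polynomial in `m` (`IsPoly.sum_nat`, `poly_pj`):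
call it `f`. `f (s + t) = f s + P s a (f t)`: both sides are polynomials in `t` for fixed `s`, and in
`s` for fixed natural `t`, equal for naturals (use `IsPoly.of_dual`, `ev_dual` to see that
`s ↦ P s a (f t)` and `t ↦ P s a (f t)` are polynomials).
`uni_main`: for `a ∈ u` with `tw a ∈ G` let `f_a` be as in `uni_one` and `d a := f_a'(0)` (`IsPoly.deriv0`
with the evaluations). If also `tw a' ∈ G`: `f_(a + a') s = f_a s + P s a (f_a' s)` (equal for
naturals: `tw (m (a + a')) = tw (m a) tw (m a')`), so `d (a + a') = d a + d a'`; `d (m a) = m d a`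
(`f_(m a) s = f_a (m s)`), also for negative `m`. So on the integer span of the `c i` (all its
elements `a` satisfy `tw a ∈ G`) `d` is additive; let `β` be the linear map with `β (c i) = d (c i)` on
`u` (`LinearIndependent` extends: `LinearIndependent.extend`/`Module.Basis.constr`, or
`exists_extend`); then `β a = d a` for `a` in the integer span, and for every `a ∈ u` with `tw a ∈ G`
(use `M • a` in the integer span, divide by `M`).
(1) if `β a = - xd a w` for all `a ∈ u`: let `tw a ∈ G`, `g s := f_a s - (w - P s a w)`; then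
`g (s + t) = g s + P s a (g t)`, `g 0 = 0` and `g'(0) = β a + xd a w = 0`; so `g'(s) = P s a (g'(0)) = 0`
(pointwise), `g = 0`, and at `s = 1`: `b (tw a) = w - pi k (tw a) w`.
(2) for `a = c i`, `a' = c j`: `f_a s + P s a (f_a' t) = f_a' t + P t a' (f_a s)` for natural `s, t`
(both are `b (tw (s a + t a'))`), so for all real `s, t`; derivative in `s` at `0`, then in `t` at `0`:
`xd a (β a') = xd a' (β a)`; then bilinearity on `u`.
(3) `g ∈ G` normalizing `u`: for `a = c i`, `a' := g a g⁻¹`, `tw a' = g (tw a) g⁻¹ ∈ G`: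
`b (tw (m a')) = b g + g b (tw (m a)) - tw (m a') b g` (cocycle identity, `b g⁻¹ = - g⁻¹ b g`), so
`f_a' s = g f_a s + b g - P s a' (b g)`; derivative at `0`: `β a' = g β a - xd a' (b g)`.
`kil_of_lat`: `w` with `pi k g w = w` for all `g ∈ G ∩ tws u` is in `kil k u`: `xd_of_pi` for the `c i`,
linearity of `xd` in `a`.
-/

open scoped ContDiff Topology

namespace LatLin

section aux
variable {E : Type*} [NormedAddCommGroup E] [InnerProductSpace ℝ E] {k : ℕ}

/-- the action of `1 + a` -/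
private noncomputable def Q (a : E →L[ℝ] E) : HM E k →ₗ[ℝ] HM E k :=
  pj (ContinuousLinearMap.id ℝ E + a) (ContinuousLinearMap.id ℝ E - a)

private theorem Q_apply (a : E →L[ℝ] E) (p : HM E k) (x : E) :
    (Q a p).1 x = p.1 (x - a x) + a (p.1 (x - a x)) := rfl

private theorem Q_zero (p : HM E k) : Q (0 : E →L[ℝ] E) p = p := by
  ext x
  rw [Q_apply]
  simp

private theorem Q_add {a a' : E →L[ℝ] E} (h : a ∘L a' = 0) (h' : a' ∘L a = 0) (p : HM E k) :
    Q a (Q a' p) = Q (a + a') p := by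
  ext x
  have e1 : ∀ y, a (a' y) = 0 := fun y => by simpa using congrArg (fun f => f y) h
  have e2 : ∀ y, a' (a y) = 0 := fun y => by simpa using congrArg (fun f => f y) h'
  have e3 : x - a x - a' (x - a x) = x - (a + a') x := by
    rw [map_sub, e2]
    simp only [add_apply]
    abel
  rw [Q_apply, Q_apply, Q_apply, e3, map_add, e1]
  simp only [add_apply]
  abel

private theorem smul_sq {a : E →L[ℝ] E} (h : a ∘L a = 0) (s t : ℝ) : (s • a) ∘L (t • a) = 0 := by
  ext x
  have e1 : ∀ y, a (a y) = 0 := fun y => by simpa using congrArg (fun f => f y) h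
  simp [e1]

private theorem Q_deriv0 (a : E →L[ℝ] E) (p : HM E k) (x : E) :
    HasDerivAt (fun s : ℝ => (Q (s • a) p).1 x) ((xd a p).1 x) 0 := by
  have hp : Differentiable ℝ p.1 := p.2.1.differentiable (by simp)
  have h1 : HasDerivAt (fun s : ℝ => p.1 (x - s • a x)) (fderiv ℝ p.1 x (-(a x))) 0 := by
    have h2 : HasDerivAt (fun s : ℝ => x - s • a x) (-(a x)) 0 := by
      simpa using ((hasDerivAt_id (0 : ℝ)).smul_const (a x)).const_sub x
    have h3 : HasFDerivAt p.1 (fderiv ℝ p.1 x) (x - (0 : ℝ) • a x) := by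
      simpa using (hp x).hasFDerivAt
    exact h3.comp_hasDerivAt (0 : ℝ) h2
  have h4 : HasDerivAt (fun s : ℝ => a (p.1 (x - s • a x))) (a (fderiv ℝ p.1 x (-(a x)))) 0 :=
    a.hasFDerivAt.comp_hasDerivAt (0 : ℝ) h1
  have h5 : HasDerivAt (fun s : ℝ => s • a (p.1 (x - s • a x)))
      ((0 : ℝ) • a (fderiv ℝ p.1 x (-(a x))) + (1 : ℝ) • a (p.1 (x - (0 : ℝ) • a x))) 0 :=
    (hasDerivAt_id (0 : ℝ)).smul h4
  have h6 := h1.add h5
  have h7 : (xd a p).1 x = fderiv ℝ p.1 x (-(a x)) +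
      ((0 : ℝ) • a (fderiv ℝ p.1 x (-(a x))) + (1 : ℝ) • a (p.1 (x - (0 : ℝ) • a x))) := by
    rw [xd_apply]
    simp only [map_neg, zero_smul, one_smul, sub_zero, zero_add]
    abel
  rw [h7]
  exact h6

private theorem Q_deriv {a : E →L[ℝ] E} (h : a ∘L a = 0) (p : HM E k) (x : E) (s : ℝ) :
    HasDerivAt (fun s' : ℝ => (Q (s' • a) p).1 x) ((Q (s • a) (xd a p)).1 x) s := by
  have h1 := Q_deriv0 a p (x - (s • a) x)
  have h2 : HasDerivAt (fun t : ℝ => (Q (s • a) (Q (t • a) p)).1 x)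
      ((Q (s • a) (xd a p)).1 x) 0 := by
    have h3 := (ContinuousLinearMap.id ℝ E + s • a).hasFDerivAt.comp_hasDerivAt (0 : ℝ) h1
    exact h3
  have h4 : HasDerivAt (fun s' : ℝ => s' - s) 1 s := by
    simpa using (hasDerivAt_id s).sub_const s
  have h5 : HasDerivAt (fun t : ℝ => (Q (s • a) (Q (t • a) p)).1 x)
      ((Q (s • a) (xd a p)).1 x) (s - s) := by
    rw [sub_self]
    exact h2
  have h6 := HasDerivAt.scomp (h := fun s' : ℝ => s' - s) s h5 h4
  rw [one_smul] at h6
  refine h6.congr_of_eventuallyEq (Filter.Eventually.of_forall fun s' => ?_)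
  simp only [Function.comp_apply]
  rw [Q_add (smul_sq h _ _) (smul_sq h _ _), ← add_smul]
  ring_nf

private theorem tw_add {a a' : E →L[ℝ] E} (h : a ∘L a = 0) (h' : a' ∘L a' = 0)
    (h1 : a ∘L a' = 0) (h2 : a' ∘L a = 0) : tw (a + a') = tw a * tw a' := by
  ext x
  have e1 : ∀ y, a (a' y) = 0 := fun y => by simpa using congrArg (fun f => f y) h1
  have h3 : (a + a') ∘L (a + a') = 0 := by
    ext y
    have e2 : ∀ y, a' (a y) = 0 := fun y => by simpa using congrArg (fun f => f y) h2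
    have e3 : ∀ y, a (a y) = 0 := fun y => by simpa using congrArg (fun f => f y) h
    have e4 : ∀ y, a' (a' y) = 0 := fun y => by simpa using congrArg (fun f => f y) h'
    simp [e1, e2, e3, e4]
  have e5 : (tw a * tw a') x = tw a (tw a' x) := rfl
  rw [e5, tw_apply h3, tw_apply h', tw_apply h, map_add, e1]
  simp only [add_apply]
  abel

private theorem tw_zero : tw (0 : E →L[ℝ] E) = 1 := by
  ext x
  rw [tw_apply (by simp)]
  have : (1 : GE E) x = x := rfl
  rw [this]
  simp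

private theorem tw_nat {a : E →L[ℝ] E} (h : a ∘L a = 0) (m : ℕ) :
    tw ((m : ℝ) • a) = tw a ^ m := by
  induction m with
  | zero => simp [tw_zero]
  | succ m ih =>
    have h1 : ((m + 1 : ℕ) : ℝ) • a = (m : ℝ) • a + a := by
      push_cast
      rw [add_smul, one_smul]
    have h2 : a = (1 : ℝ) • a := (one_smul _ _).symm
    rw [h1, tw_add (smul_sq h _ _) h ?_ ?_, ih, pow_succ]
    · have := smul_sq h (m : ℝ) 1
      rwa [one_smul] at this
    · have := smul_sq h 1 (m : ℝ)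
      rwa [one_smul] at this

private theorem coc_one {G : Subgroup (GE E)} {b : GE E → HM E k} (hb : IsCoc G b) :
    b 1 = 0 := by
  have h := hb 1 G.one_mem 1 G.one_mem
  rw [mul_one, map_one] at h
  simpa using h

private theorem xd_add (a a' : E →L[ℝ] E) (w : HM E k) : xd (a + a') w = xd a w + xd a' w := by
  ext x
  rw [xd_apply]
  have : (xd a w + xd a' w).1 x = (xd a w).1 x + (xd a' w).1 x := rfl
  rw [this, xd_apply, xd_apply]
  simp only [add_apply, map_add]
  abel

private theorem xd_smul (c : ℝ) (a : E →L[ℝ] E) (w : HM E k) : xd (c • a) w = c • xd a w := by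
  ext x
  rw [xd_apply]
  have : (c • xd a w).1 x = c • (xd a w).1 x := rfl
  rw [this, xd_apply]
  simp only [smul_apply, map_smul, smul_sub]

private theorem xd_zero (w : HM E k) : xd (0 : E →L[ℝ] E) w = 0 := by
  have := xd_smul (0 : ℝ) (0 : E →L[ℝ] E) w
  rwa [zero_smul, zero_smul] at this

/-- evaluation at a point -/
private def ev (x : E) : HM E k →ₗ[ℝ] E where
  toFun p := p.1 x
  map_add' _ _ := rfl
  map_smul' _ _ := rfl

private theorem ev_apply (x : E) (p : HM E k) : ev x p = p.1 x := rfl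

end aux

section
variable {E : Type*} [NormedAddCommGroup E] [InnerProductSpace ℝ E] [FiniteDimensional ℝ E] {k : ℕ}

private theorem poly_Q (p : HM E k) (a : E →L[ℝ] E) : IsPoly (fun s : ℝ => Q (s • a) p) :=
  poly_pj p a

private theorem Q_nat {a : E →L[ℝ] E} (h : a ∘L a = 0) (w : HM E k) (hw : Q a w = w) (m : ℕ) :
    Q ((m : ℝ) • a) w = w := by
  induction m with
  | zero => simp [Q_zero]
  | succ m ih =>
    have h1 : ((m + 1 : ℕ) : ℝ) • a = (m : ℝ) • a + (1 : ℝ) • a := by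
      push_cast
      rw [add_smul]
    rw [h1, ← Q_add (smul_sq h _ _) (smul_sq h _ _), one_smul, hw, ih]

theorem xd_of_pi {a : E →L[ℝ] E} (h : a ∘L a = 0) (w : HM E k) (hw : pi k (tw a) w = w) :
    xd a w = 0 := by
  have h1 : Q a w = w := by
    rw [← hw]
    have := pi_tw h (pi k (tw a) w)
    rw [hw] at this ⊢
    exact (this.symm.trans hw)
  have h2 : ∀ s : ℝ, Q (s • a) w = w := fun s =>
    IsPoly.eq_of_nat (poly_Q w a) (IsPoly.const w) (fun m => Q_nat h w h1 m) s
  ext x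
  have h3 := Q_deriv0 a w x
  have h4 : (fun s : ℝ => (Q (s • a) w).1 x) = fun _ => w.1 x := by
    funext s
    rw [h2]
  rw [h4] at h3
  have h5 := h3.unique (hasDerivAt_const (0 : ℝ) (w.1 x))
  rw [h5]
  rfl

theorem pi_of_xd {a : E →L[ℝ] E} (h : a ∘L a = 0) (w : HM E k) (hw : xd a w = 0) :
    pi k (tw a) w = w := by
  rw [pi_tw h]
  ext x
  have h1 : ∀ s : ℝ, HasDerivAt (fun s' : ℝ => (Q (s' • a) w).1 x) 0 s := by
    intro s
    have h2 := Q_deriv h w x s
    rw [hw, map_zero] at h2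
    exact h2
  have h3 := is_const_of_deriv_eq_zero (fun s => (h1 s).differentiableAt) (fun s => (h1 s).deriv)
    1 0
  simp only [one_smul, zero_smul, Q_zero] at h3
  exact h3

theorem kil_of_lat (G : Subgroup (GE E)) (u : Submodule ℝ (E →L[ℝ] E))
    (hu : ∀ a ∈ u, ∀ a' ∈ u, a ∘L a' = 0) (hL : Lat G u) (w : HM E k)
    (hw : ∀ g ∈ G, g ∈ tws u → pi k g w = w) : w ∈ kil k u := by
  obtain ⟨n, c, hc, hspan, hG, -⟩ := hL
  have hcu : ∀ i, c i ∈ u := fun i => by
    rw [← hspan]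
    exact Submodule.subset_span ⟨i, rfl⟩
  intro a ha
  rw [← hspan] at ha
  induction ha using Submodule.span_induction with
  | mem x hx =>
    obtain ⟨i, rfl⟩ := hx
    exact xd_of_pi (hu _ (hcu i) _ (hcu i)) w (hw _ (hG i) ⟨c i, hcu i, rfl⟩)
  | zero => exact xd_zero w
  | add x y _ _ hx hy => rw [xd_add, hx, hy, add_zero]
  | smul t x _ hx => rw [xd_smul, hx, smul_zero]

theorem uni_one (G : Subgroup (GE E)) (b : GE E → HM E k) (hb : IsCoc G b) {a : E →L[ℝ] E}
    (h : a ∘L a = 0) (hG : tw a ∈ G) :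
    ∃ f : ℝ → HM E k, IsPoly f ∧ (∀ m : ℕ, b (tw ((m : ℝ) • a)) = f m) ∧
      ∀ s t : ℝ, f (s + t) = f s +
        pj (ContinuousLinearMap.id ℝ E + s • a) (ContinuousLinearMap.id ℝ E - s • a) (f t) := by
  have hGm : ∀ m : ℕ, tw ((m : ℝ) • a) ∈ G := fun m => by
    rw [tw_nat h]
    exact G.pow_mem hG m
  obtain ⟨f, hf, hfm⟩ := IsPoly.sum_nat (poly_Q (b (tw a)) a)
  have h1 : ∀ m : ℕ, b (tw ((m : ℝ) • a)) = f m := by
    intro m
    rw [hfm]
    induction m with
    | zero => simp [tw_zero, coc_one hb]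
    | succ m ih =>
      rw [Finset.sum_range_succ, ← ih, tw_nat h, pow_succ, ← tw_nat h, hb _ (hGm m) _ hG,
        pi_tw (smul_sq h _ _)]
      rfl
  have h2 : ∀ m n : ℕ, f (m + n) = f m + Q ((m : ℝ) • a) (f n) := by
    intro m n
    have h3 : tw (((m + n : ℕ) : ℝ) • a) = tw ((m : ℝ) • a) * tw ((n : ℝ) • a) := by
      rw [tw_nat h, tw_nat h, tw_nat h, pow_add]
    have h4 := h1 (m + n)
    rw [h3, hb _ (hGm m) _ (hGm n), pi_tw (smul_sq h _ _), h1, h1] at h4
    push_cast at h4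
    exact h4.symm
  have h3 : ∀ (s : ℝ) (n : ℕ), f (s + n) = f s + Q (s • a) (f n) := by
    intro s n
    have e1 : IsPoly (fun s : ℝ => f (s + n)) := by
      have := hf.comp_aff 1 n
      simpa using this
    exact IsPoly.eq_of_nat e1 (hf.add (poly_Q (f n) a)) (fun m => h2 m n) s
  refine ⟨f, hf, h1, fun s t => ?_⟩
  have e1 : IsPoly (fun t : ℝ => f (s + t)) := by
    have := hf.comp_aff 1 s
    simpa [add_comm] using this
  exact IsPoly.eq_of_nat e1 ((IsPoly.const (f s)).add (hf.lin (Q (s • a)))) (fun n => h3 s n) t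

/-- the data attached to `a`: the polynomial `f` and its derivative `d` at `0` -/
private structure Inf (b : GE E → HM E k) (a : E →L[ℝ] E) (f : ℝ → HM E k) (d : HM E k) : Prop where
  poly : IsPoly f
  nat : ∀ m : ℕ, b (tw ((m : ℝ) • a)) = f m
  coc : ∀ s t : ℝ, f (s + t) = f s + Q (s • a) (f t)
  der : ∀ L : HM E k →ₗ[ℝ] E, HasDerivAt (fun s => L (f s)) (L d) 0

private theorem exists_inf (G : Subgroup (GE E)) (b : GE E → HM E k) (hb : IsCoc G b)
    {a : E →L[ℝ] E} (h : a ∘L a = 0) (hG : tw a ∈ G) : ∃ f d, Inf b a f d := by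
  obtain ⟨f, hf, h1, h2⟩ := uni_one G b hb h hG
  obtain ⟨d, hd⟩ := hf.deriv0 (fun L : HM E k →ₗ[ℝ] E => L)
  exact ⟨f, d, hf, h1, h2, hd⟩

private theorem Inf.zero {b : GE E → HM E k} {a : E →L[ℝ] E} {f : ℝ → HM E k} {d : HM E k}
    (h : Inf b a f d) : f 0 = 0 := by
  have := h.coc 0 0
  rw [zero_smul, Q_zero, add_zero] at this
  simpa using this

/-- uniqueness of the derivative -/
private theorem der_unique {f g : ℝ → HM E k} {d d' : HM E k}
    (h : ∀ L : HM E k →ₗ[ℝ] E, HasDerivAt (fun s => L (f s)) (L d) 0)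
    (h' : ∀ L : HM E k →ₗ[ℝ] E, HasDerivAt (fun s => L (g s)) (L d') 0) (he : ∀ s, f s = g s) :
    d = d' := by
  obtain rfl : f = g := funext he
  ext x
  exact (h (ev x)).unique (h' (ev x))

/-- a polynomial which vanishes at `0` is `s • g s` -/
private theorem factor {X : Type*} [AddCommGroup X] [Module ℝ X] {f : ℝ → X} (hf : IsPoly f)
    (h0 : f 0 = 0) : ∃ (K : ℕ) (c : ℕ → X), ∀ s, f s = s • ∑ i ∈ Finset.range K, s ^ i • c i := by
  obtain ⟨K, c, hc⟩ := hf
  rcases K with _ | K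
  · exact ⟨0, c, fun s => by simp [hc]⟩
  · refine ⟨K, fun i => c (i + 1), fun s => ?_⟩
    have h1 := hc 0
    rw [h0, Finset.sum_range_succ'] at h1
    simp at h1
    rw [hc, Finset.sum_range_succ', ← h1, smul_zero, add_zero, Finset.smul_sum]
    refine Finset.sum_congr rfl fun i _ => ?_
    rw [smul_smul, pow_succ']

private theorem poly_sum {X : Type*} [AddCommGroup X] [Module ℝ X] (K : ℕ) (f : ℕ → ℝ → X)
    (hf : ∀ i, IsPoly (f i)) : IsPoly (fun s => ∑ i ∈ Finset.range K, f i s) := by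
  induction K with
  | zero => simpa using IsPoly.const (0 : X)
  | succ K ih =>
    simp only [Finset.sum_range_succ]
    exact ih.add (hf K)

private theorem poly_pow (i : ℕ) : IsPoly (fun s : ℝ => s ^ i) := by
  have := IsPoly.of_eval (Polynomial.X ^ i : Polynomial ℝ)
  simpa using this

/-- the product rule -/
private theorem der_Q {b : GE E → HM E k} {a' : E →L[ℝ] E} {f : ℝ → HM E k} {d : HM E k}
    (h : Inf b a' f d) (a : E →L[ℝ] E) :
    IsPoly (fun s : ℝ => Q (s • a) (f s)) ∧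
      ∀ L : HM E k →ₗ[ℝ] E, HasDerivAt (fun s => L (Q (s • a) (f s))) (L d) 0 := by
  obtain ⟨K, c, hc⟩ := factor h.poly h.zero
  set g : ℝ → HM E k := fun s => ∑ i ∈ Finset.range K, s ^ i • Q (s • a) (c i) with hg
  have hgp : IsPoly g := poly_sum K _ fun i => (poly_pow i).smul (poly_Q (c i) a)
  have h1 : ∀ s, Q (s • a) (f s) = s • g s := by
    intro s
    rw [hc, map_smul, map_sum, hg]
    simp only [map_smul]
  have h2 : IsPoly (fun s : ℝ => s • g s) := by
    have := (poly_pow 1).smul hgp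
    simpa using this
  have h3 : ∀ (g' : ℝ → HM E k), IsPoly g' → ∀ L : HM E k →ₗ[ℝ] E,
      HasDerivAt (fun s => L (s • g' s)) (L (g' 0)) 0 := by
    intro g' hg' L
    obtain ⟨e, he⟩ := hg'.deriv0 (fun L : HM E k →ₗ[ℝ] E => L)
    have h4 := (hasDerivAt_id (0 : ℝ)).smul (he L)
    simp only [id_eq, zero_smul, zero_add, one_smul] at h4
    refine h4.congr_of_eventuallyEq (Filter.Eventually.of_forall fun s => ?_)
    simp
  have h5 : d = g 0 := by
    have h6 : IsPoly (fun s : ℝ => ∑ i ∈ Finset.range K, s ^ i • c i) := ⟨K, c, fun s => rfl⟩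
    have h7 := der_unique h.der (h3 _ h6) hc
    rw [h7, hg]
    simp [Q_zero]
  refine ⟨?_, fun L => ?_⟩
  · simp only [h1]
    exact h2
  · simp only [h1]
    rw [h5]
    exact h3 g hgp L

private theorem Inf.add {b : GE E → HM E k} {G : Subgroup (GE E)} (hb : IsCoc G b)
    {a a' : E →L[ℝ] E} {f f' f'' : ℝ → HM E k}
    {d d' d'' : HM E k} (h : Inf b a f d) (h' : Inf b a' f' d') (h'' : Inf b (a + a') f'' d'')
    (h0 : a ∘L a = 0) (h0' : a' ∘L a' = 0) (h1 : a ∘L a' = 0) (h2 : a' ∘L a = 0)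
    (hG : tw a ∈ G) (hG' : tw a' ∈ G) : d'' = d + d' := by
  obtain ⟨h3, h4⟩ := der_Q h' a
  have h5 : ∀ m : ℕ, f'' m = f m + Q ((m : ℝ) • a) (f' m) := by
    intro m
    have e1 : ((m : ℝ) • a) ∘L ((m : ℝ) • a') = 0 := by
      ext x
      have : ∀ y, a (a' y) = 0 := fun y => by simpa using congrArg (fun f => f y) h1
      simp [this]
    have e2 : ((m : ℝ) • a') ∘L ((m : ℝ) • a) = 0 := by
      ext x
      have : ∀ y, a' (a y) = 0 := fun y => by simpa using congrArg (fun f => f y) h2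
      simp [this]
    have e3 : tw ((m : ℝ) • a) ∈ G := by
      rw [tw_nat h0]
      exact G.pow_mem hG m
    have e4 : tw ((m : ℝ) • a') ∈ G := by
      rw [tw_nat h0']
      exact G.pow_mem hG' m
    rw [← h''.nat, ← h.nat, ← h'.nat, smul_add, tw_add (smul_sq h0 _ _) (smul_sq h0' _ _) e1 e2,
      hb _ e3 _ e4, pi_tw (smul_sq h0 _ _)]
    rfl
  have h6 := IsPoly.eq_of_nat h''.poly (h.poly.add h3) h5
  refine der_unique h''.der (g := fun s => f s + Q (s • a) (f' s)) (fun L => ?_) h6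
  simp only [map_add]
  exact (h.der L).add (h4 L)

private theorem tw_conj (g : GE E) {a : E →L[ℝ] E} (h : a ∘L a = 0) :
    (((g : E →L[ℝ] E) ∘L a ∘L ((g⁻¹ : GE E) : E →L[ℝ] E)) ∘L
      ((g : E →L[ℝ] E) ∘L a ∘L ((g⁻¹ : GE E) : E →L[ℝ] E)) = 0) ∧
    tw ((g : E →L[ℝ] E) ∘L a ∘L ((g⁻¹ : GE E) : E →L[ℝ] E)) = g * tw a * g⁻¹ := by
  have e1 : ∀ y, a (a y) = 0 := fun y => by simpa using congrArg (fun f => f y) h
  have e2 : ∀ y : E, (g⁻¹ : GE E) (g y) = y := fun y => g.symm_apply_apply y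
  have e3 : ∀ y : E, g ((g⁻¹ : GE E) y) = y := fun y => g.apply_symm_apply y
  have h0 : (((g : E →L[ℝ] E) ∘L a ∘L ((g⁻¹ : GE E) : E →L[ℝ] E)) ∘L
      ((g : E →L[ℝ] E) ∘L a ∘L ((g⁻¹ : GE E) : E →L[ℝ] E)) = 0) := by
    ext y
    show g (a ((g⁻¹ : GE E) (g (a ((g⁻¹ : GE E) y))))) = 0
    rw [e2, e1, map_zero]
  refine ⟨h0, ?_⟩
  ext x
  rw [tw_apply h0]
  show x + g (a ((g⁻¹ : GE E) x)) = g (tw a ((g⁻¹ : GE E) x))
  rw [tw_apply h, map_add, e3]

private theorem coc_conj {G : Subgroup (GE E)} {b : GE E → HM E k} (hb : IsCoc G b) {g T : GE E}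
    (hg : g ∈ G) (hT : T ∈ G) :
    b (g * T * g⁻¹) = b g + pi k g (b T) - pi k (g * T * g⁻¹) (b g) := by
  have h1 := hb g hg g⁻¹ (G.inv_mem hg)
  rw [mul_inv_cancel, coc_one hb] at h1
  have h2 : pi k g (b g⁻¹) = - b g := by
    have := h1.symm
    rw [add_comm] at this
    exact eq_neg_of_add_eq_zero_left this
  rw [mul_assoc, hb g hg _ (G.mul_mem hT (G.inv_mem hg)), hb T hT _ (G.inv_mem hg), map_add]
  have h3 : pi k (g * (T * g⁻¹)) (b g) = - pi k g (pi k T (b g⁻¹)) := by
    rw [map_mul, map_mul]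
    have h4 : b g = - pi k g (b g⁻¹) := by rw [h2, neg_neg]
    have h5 : pi k g⁻¹ (b g) = - b g⁻¹ := by
      rw [h4, map_neg]
      have h6 : pi k g⁻¹ (pi k g (b g⁻¹)) = (pi k (g⁻¹ * g)) (b g⁻¹) := by
        rw [map_mul]
        rfl
      rw [h6, inv_mul_cancel, map_one]
      rfl
    show pi k g (pi k T (pi k g⁻¹ (b g))) = _
    rw [h5, map_neg, map_neg]
  rw [h3]
  abel

theorem uni_main (G : Subgroup (GE E)) (b : GE E → HM E k) (hb : IsCoc G b)
    (u : Submodule ℝ (E →L[ℝ] E)) (hu : ∀ a ∈ u, ∀ a' ∈ u, a ∘L a' = 0) (hL : Lat G u) :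
    ∃ β : (E →L[ℝ] E) →ₗ[ℝ] HM E k,
      (∀ w : HM E k, (∀ a ∈ u, β a = - xd a w) → ∀ a ∈ u, tw a ∈ G →
        b (tw a) = w - pi k (tw a) w) ∧
      (∀ a ∈ u, ∀ a' ∈ u, xd a (β a') = xd a' (β a)) ∧
      (∀ g ∈ G, (∀ a ∈ u, (g : E →L[ℝ] E) ∘L a ∘L ((g⁻¹ : GE E) : E →L[ℝ] E) ∈ u) → ∀ a ∈ u,
        β ((g : E →L[ℝ] E) ∘L a ∘L ((g⁻¹ : GE E) : E →L[ℝ] E)) = pi k g (β a) -
          xd ((g : E →L[ℝ] E) ∘L a ∘L ((g⁻¹ : GE E) : E →L[ℝ] E)) (b g)) := by
  obtain ⟨n, c, hc, hspan, hG, hM⟩ := hL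
  have hcu : ∀ i, c i ∈ u := fun i => by
    rw [← hspan]
    exact Submodule.subset_span ⟨i, rfl⟩
  have hex : ∀ a : E →L[ℝ] E, a ∈ u ∧ tw a ∈ G → ∃ f d, Inf b a f d := fun a ha =>
    exists_inf G b hb (hu a ha.1 a ha.1) ha.2
  choose! F D hF using hex
  have hGadd : ∀ a ∈ u, tw a ∈ G → ∀ a' ∈ u, tw a' ∈ G → tw (a + a') ∈ G := by
    intro a ha hGa a' ha' hGa'
    rw [tw_add (hu a ha a ha) (hu a' ha' a' ha') (hu a ha a' ha') (hu a' ha' a ha)]
    exact G.mul_mem hGa hGa'
  have hadd : ∀ a ∈ u, tw a ∈ G → ∀ a' ∈ u, tw a' ∈ G → D (a + a') = D a + D a' := by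
    intro a ha hGa a' ha' hGa'
    exact Inf.add hb (hF a ⟨ha, hGa⟩) (hF a' ⟨ha', hGa'⟩)
      (hF (a + a') ⟨u.add_mem ha ha', hGadd a ha hGa a' ha' hGa'⟩) (hu a ha a ha)
      (hu a' ha' a' ha') (hu a ha a' ha') (hu a' ha' a ha) hGa hGa'
  have hG0 : tw (0 : E →L[ℝ] E) ∈ G := by
    rw [tw_zero]
    exact G.one_mem
  have hD0 : D 0 = 0 := by
    have := hadd 0 u.zero_mem hG0 0 u.zero_mem hG0
    rw [add_zero] at this
    simpa using this
  have hGneg : ∀ a ∈ u, tw a ∈ G → tw (-a) ∈ G := by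
    intro a ha hGa
    have h1 := tw_add (hu a ha a ha) (hu (-a) (u.neg_mem ha) (-a) (u.neg_mem ha))
      (hu a ha (-a) (u.neg_mem ha)) (hu (-a) (u.neg_mem ha) a ha)
    rw [add_neg_cancel, tw_zero] at h1
    rw [← inv_eq_of_mul_eq_one_right h1.symm]
    exact G.inv_mem hGa
  obtain ⟨β, hβ⟩ : ∃ β : (E →L[ℝ] E) →ₗ[ℝ] HM E k, ∀ i, β (c i) = D (c i) := by
    obtain ⟨β, hβ⟩ := LinearMap.exists_extend
      ((Module.Basis.span hc).constr ℝ (fun i => D (c i)))
    refine ⟨β, fun i => ?_⟩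
    have h1 := congrArg (fun f => f ⟨c i, Submodule.subset_span ⟨i, rfl⟩⟩) hβ
    simp only [LinearMap.comp_apply, Submodule.subtype_apply] at h1
    rw [h1]
    have h2 : (⟨c i, Submodule.subset_span ⟨i, rfl⟩⟩ : Submodule.span ℝ (Set.range c)) =
        Module.Basis.span hc i := by
      apply Subtype.ext
      rw [Module.Basis.span_apply]
    rw [h2, Module.Basis.constr_basis]
  have hβ1 : ∀ a ∈ u, tw a ∈ G → β a = D a := by
    let H : AddSubgroup (E →L[ℝ] E) :=
      { carrier := {a | a ∈ u ∧ tw a ∈ G ∧ D a = β a}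
        add_mem' := by
          rintro a a' ⟨h1, h2, h3⟩ ⟨h1', h2', h3'⟩
          exact ⟨u.add_mem h1 h1', hGadd a h1 h2 a' h1' h2', by
            rw [hadd a h1 h2 a' h1' h2', h3, h3', map_add]⟩
        zero_mem' := ⟨u.zero_mem, hG0, by rw [hD0, map_zero]⟩
        neg_mem' := by
          rintro a ⟨h1, h2, h3⟩
          refine ⟨u.neg_mem h1, hGneg a h1 h2, ?_⟩
          have h4 := hadd a h1 h2 (-a) (u.neg_mem h1) (hGneg a h1 h2)
          rw [add_neg_cancel, hD0, h3] at h4
          rw [map_neg]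
          exact (neg_eq_of_add_eq_zero_right h4.symm).symm }
    have hH : Submodule.span ℤ (Set.range c) ≤ AddSubgroup.toIntSubmodule H := by
      rw [Submodule.span_le]
      rintro _ ⟨i, rfl⟩
      exact ⟨hcu i, hG i, (hβ i).symm⟩
    have hmul : ∀ a ∈ u, tw a ∈ G → ∀ m : ℕ, tw (m • a) ∈ G ∧ D (m • a) = m • D a := by
      intro a ha hGa m
      induction m with
      | zero => simp [hG0, hD0]
      | succ m ih =>
        rw [succ_nsmul, succ_nsmul]
        exact ⟨hGadd _ (u.nsmul_mem ha m) ih.1 a ha hGa, by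
          rw [hadd _ (u.nsmul_mem ha m) ih.1 a ha hGa, ih.2]⟩
    intro a ha hGa
    obtain ⟨M, hM0, hM1⟩ := hM a ha hGa
    have h1 : D ((M : ℤ) • a) = β ((M : ℤ) • a) := (hH hM1).2.2
    rw [natCast_zsmul, (hmul a ha hGa M).2, map_nsmul, ← Nat.cast_smul_eq_nsmul ℝ,
      ← Nat.cast_smul_eq_nsmul ℝ] at h1
    exact (smul_right_injective _ (Nat.cast_ne_zero.2 hM0 : (M : ℝ) ≠ 0) h1).symm
  refine ⟨β, ?_, ?_, ?_⟩
  · -- (1)
    intro w hw a ha hGa
    have h := hF a ⟨ha, hGa⟩
    have haa := hu a ha a ha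
    set f := F a with hf
    have hd : D a = - xd a w := by rw [← hβ1 a ha hGa, hw a ha]
    have hcoc : ∀ s t : ℝ, f (s + t) - w + Q ((s + t) • a) w =
        (f s - w + Q (s • a) w) + Q (s • a) (f t - w + Q (t • a) w) := by
      intro s t
      rw [h.coc, map_add, map_sub, Q_add (smul_sq haa _ _) (smul_sq haa _ _), add_smul]
      abel
    have hder0 : ∀ x, HasDerivAt (fun t => (f t - w + Q (t • a) w).1 x) 0 0 := by
      intro x
      have h1 := h.der (ev x)
      have h2 := (h1.sub_const (w.1 x)).add (Q_deriv0 a w x)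
      have h3 : ev x (D a) + (xd a w).1 x = 0 := by
        rw [hd, ev_apply]
        show - (xd a w).1 x + (xd a w).1 x = 0
        exact neg_add_cancel _
      rw [h3] at h2
      exact h2
    have hder : ∀ x s, HasDerivAt (fun s' => (f s' - w + Q (s' • a) w).1 x) 0 s := by
      intro x s
      have h1 := hder0 (x - (s • a) x)
      have h2 := (ContinuousLinearMap.id ℝ E + s • a).hasFDerivAt.comp_hasDerivAt (0 : ℝ) h1
      rw [map_zero] at h2
      have h3 : HasDerivAt (fun t => (f (s + t) - w + Q ((s + t) • a) w).1 x) 0 0 := by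
        have h4 := h2.const_add ((f s - w + Q (s • a) w).1 x)
        refine h4.congr_of_eventuallyEq (Filter.Eventually.of_forall fun t => ?_)
        exact congrArg (fun p => p.1 x) (hcoc s t)
      have h4 : HasDerivAt (fun s' : ℝ => s' - s) 1 s := by
        simpa using (hasDerivAt_id s).sub_const s
      have h5 : HasDerivAt (fun t => (f (s + t) - w + Q ((s + t) • a) w).1 x) 0 (s - s) := by
        rw [sub_self]
        exact h3
      have h6 := HasDerivAt.scomp (h := fun s' : ℝ => s' - s) s h5 h4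
      rw [smul_zero] at h6
      refine h6.congr_of_eventuallyEq (Filter.Eventually.of_forall fun s' => ?_)
      simp only [Function.comp_apply, add_sub_cancel]
    have h1 : f 1 - w + Q a w = 0 := by
      ext x
      have h2 := is_const_of_deriv_eq_zero (fun s => (hder x s).differentiableAt)
        (fun s => (hder x s).deriv) 1 0
      simp only [one_smul, zero_smul, Q_zero, h.zero, zero_sub, neg_add_cancel] at h2
      exact h2
    have h2 := h.nat 1
    rw [Nat.cast_one, one_smul] at h2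
    rw [h2, pi_tw haa]
    have h3 : f 1 = w - Q a w := by
      have : f 1 = (f 1 - w + Q a w) + (w - Q a w) := by abel
      rw [h1, zero_add] at this
      exact this
    exact h3
  · -- (2)
    have key : ∀ a ∈ u, tw a ∈ G → ∀ a' ∈ u, tw a' ∈ G → xd a (D a') = xd a' (D a) := by
      intro a ha hGa a' ha' hGa'
      have h := hF a ⟨ha, hGa⟩
      have h' := hF a' ⟨ha', hGa'⟩
      have hGm : ∀ m : ℕ, tw ((m : ℝ) • a) ∈ G := fun m => by
        rw [tw_nat (hu a ha a ha)]
        exact G.pow_mem hGa m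
      have hGm' : ∀ m : ℕ, tw ((m : ℝ) • a') ∈ G := fun m => by
        rw [tw_nat (hu a' ha' a' ha')]
        exact G.pow_mem hGa' m
      have h1 : ∀ m n : ℕ, F a m + Q ((m : ℝ) • a) (F a' n) = F a' n + Q ((n : ℝ) • a') (F a m) := by
        intro m n
        have hm := u.smul_mem (m : ℝ) ha
        have hn := u.smul_mem (n : ℝ) ha'
        have e1 : tw ((m : ℝ) • a) * tw ((n : ℝ) • a') = tw ((n : ℝ) • a') * tw ((m : ℝ) • a) := by
          rw [← tw_add (hu _ hm _ hm) (hu _ hn _ hn) (hu _ hm _ hn) (hu _ hn _ hm),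
            ← tw_add (hu _ hn _ hn) (hu _ hm _ hm) (hu _ hn _ hm) (hu _ hm _ hn), add_comm]
        have e2 := congrArg b e1
        rw [hb _ (hGm m) _ (hGm' n), hb _ (hGm' n) _ (hGm m), pi_tw (hu _ hm _ hm),
          pi_tw (hu _ hn _ hn), h.nat, h'.nat] at e2
        exact e2
      have h2 : ∀ (s : ℝ) (n : ℕ), F a s + Q (s • a) (F a' n) =
          F a' n + Q ((n : ℝ) • a') (F a s) := by
        intro s n
        exact IsPoly.eq_of_nat (h.poly.add (poly_Q (F a' n) a))
          ((IsPoly.const (F a' n)).add (h.poly.lin (Q ((n : ℝ) • a')))) (fun m => h1 m n) s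
      have h3 : ∀ s t : ℝ, F a s + Q (s • a) (F a' t) = F a' t + Q (t • a') (F a s) := by
        intro s t
        exact IsPoly.eq_of_nat ((IsPoly.const (F a s)).add (h'.poly.lin (Q (s • a))))
          (h'.poly.add (poly_Q (F a s) a')) (fun n => h2 s n) t
      have h4 : ∀ t : ℝ, D a + xd a (F a' t) = Q (t • a') (D a) := by
        intro t
        ext x
        have e1 := (h.der (ev x)).add (Q_deriv0 a (F a' t) x)
        have e2 := (h.der (ev x ∘ₗ Q (t • a'))).const_add ((F a' t).1 x)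
        have e3 : (fun s => (F a' t).1 x + (ev x ∘ₗ Q (t • a')) (F a s)) =
            (fun s => ev x (F a s)) + fun s => (Q (s • a) (F a' t)).1 x := by
          funext s
          exact (congrArg (fun p => p.1 x) (h3 s t)).symm
        rw [e3] at e2
        exact e1.unique e2
      ext x
      have e1 := (h'.der (ev x ∘ₗ xd a)).const_add ((D a).1 x)
      have e2 := Q_deriv0 a' (D a) x
      have e3 : (fun t => (D a).1 x + (ev x ∘ₗ xd a) (F a' t)) = fun t : ℝ => (Q (t • a') (D a)).1 x := by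
        funext t
        exact congrArg (fun p => p.1 x) (h4 t)
      rw [e3] at e1
      exact e1.unique e2
    have h1 : ∀ i, ∀ a' ∈ u, xd (c i) (β a') = xd a' (β (c i)) := by
      intro i a' ha'
      rw [← hspan] at ha'
      induction ha' using Submodule.span_induction with
      | mem x hx =>
        obtain ⟨j, rfl⟩ := hx
        rw [hβ, hβ]
        exact key _ (hcu i) (hG i) _ (hcu j) (hG j)
      | zero => rw [map_zero, map_zero, xd_zero]
      | add x y _ _ hx hy => rw [map_add, map_add, xd_add, hx, hy]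
      | smul t x _ hx => rw [map_smul, map_smul, xd_smul, hx]
    intro a ha a' ha'
    rw [← hspan] at ha
    induction ha using Submodule.span_induction with
    | mem x hx =>
      obtain ⟨j, rfl⟩ := hx
      exact h1 j a' ha'
    | zero => rw [map_zero, map_zero, xd_zero]
    | add x y _ _ hx hy => rw [map_add, map_add, xd_add, hx, hy]
    | smul t x _ hx => rw [map_smul, map_smul, xd_smul, hx]
  · -- (3)
    intro g hg hgu a ha
    have key : ∀ i, D ((g : E →L[ℝ] E) ∘L c i ∘L ((g⁻¹ : GE E) : E →L[ℝ] E)) =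
        pi k g (D (c i)) - xd ((g : E →L[ℝ] E) ∘L c i ∘L ((g⁻¹ : GE E) : E →L[ℝ] E)) (b g) := by
      intro i
      have hci := hu _ (hcu i) _ (hcu i)
      obtain ⟨hsq, htw⟩ := tw_conj g hci
      set a' := (g : E →L[ℝ] E) ∘L c i ∘L ((g⁻¹ : GE E) : E →L[ℝ] E) with ha'
      have ha'u : a' ∈ u := hgu _ (hcu i)
      have ha'G : tw a' ∈ G := by
        rw [htw]
        exact G.mul_mem (G.mul_mem hg (hG i)) (G.inv_mem hg)
      have h := hF (c i) ⟨hcu i, hG i⟩
      have h' := hF a' ⟨ha'u, ha'G⟩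
      have h1 : ∀ m : ℕ, F a' m = b g + pi k g (F (c i) m) - Q ((m : ℝ) • a') (b g) := by
        intro m
        have hGm : tw ((m : ℝ) • c i) ∈ G := by
          rw [tw_nat hci]
          exact G.pow_mem (hG i) m
        have e1 : tw ((m : ℝ) • a') = g * tw ((m : ℝ) • c i) * g⁻¹ := by
          rw [← (tw_conj g (smul_sq hci (m : ℝ) (m : ℝ))).2, ha']
          congr 1
          ext x
          simp
        rw [← h'.nat, ← h.nat, e1, coc_conj hb hg hGm, ← e1, pi_tw (smul_sq hsq _ _)]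
        rfl
      have h2 : ∀ s : ℝ, F a' s = b g + pi k g (F (c i) s) - Q (s • a') (b g) := by
        intro s
        have e1 : IsPoly (fun s : ℝ => b g + pi k g (F (c i) s) - Q (s • a') (b g)) := by
          have e2 := ((IsPoly.const (b g)).add (h.poly.lin (pi k g))).add
            ((poly_Q (b g) a').lin (- LinearMap.id))
          simpa [sub_eq_add_neg] using e2
        exact IsPoly.eq_of_nat h'.poly e1 h1 s
      ext x
      have e1 := h'.der (ev x)
      have e2 := ((h.der (ev x ∘ₗ pi k g)).const_add ((b g).1 x)).sub (Q_deriv0 a' (b g) x)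
      have e3 : (fun s => ev x (F a' s)) = (fun s => (b g).1 x + (ev x ∘ₗ pi k g) (F (c i) s)) -
          fun s : ℝ => (Q (s • a') (b g)).1 x := by
        funext s
        exact congrArg (fun p => p.1 x) (h2 s)
      rw [e3] at e1
      exact e1.unique e2
    have hcl : ∀ a₁ : E →L[ℝ] E, ∀ a₂, (g : E →L[ℝ] E) ∘L (a₁ + a₂) ∘L ((g⁻¹ : GE E) : E →L[ℝ] E) =
        (g : E →L[ℝ] E) ∘L a₁ ∘L ((g⁻¹ : GE E) : E →L[ℝ] E) +
        (g : E →L[ℝ] E) ∘L a₂ ∘L ((g⁻¹ : GE E) : E →L[ℝ] E) := by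
      intro a₁ a₂
      ext x
      simp
    have hcs : ∀ (t : ℝ) (a₁ : E →L[ℝ] E), (g : E →L[ℝ] E) ∘L (t • a₁) ∘L
        ((g⁻¹ : GE E) : E →L[ℝ] E) =
        t • ((g : E →L[ℝ] E) ∘L a₁ ∘L ((g⁻¹ : GE E) : E →L[ℝ] E)) := by
      intro t a₁
      ext x
      simp
    rw [← hspan] at ha
    induction ha using Submodule.span_induction with
    | mem x hx =>
      obtain ⟨i, rfl⟩ := hx
      have ha'u : (g : E →L[ℝ] E) ∘L c i ∘L ((g⁻¹ : GE E) : E →L[ℝ] E) ∈ u := hgu _ (hcu i)
      have ha'G : tw ((g : E →L[ℝ] E) ∘L c i ∘L ((g⁻¹ : GE E) : E →L[ℝ] E)) ∈ G := by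
        rw [(tw_conj g (hu _ (hcu i) _ (hcu i))).2]
        exact G.mul_mem (G.mul_mem hg (hG i)) (G.inv_mem hg)
      rw [hβ1 _ ha'u ha'G, hβ, key]
    | zero =>
      have h0 : (g : E →L[ℝ] E) ∘L (0 : E →L[ℝ] E) ∘L ((g⁻¹ : GE E) : E →L[ℝ] E) = 0 := by
        ext x
        simp
      rw [h0, map_zero, map_zero, xd_zero, sub_zero]
    | add x y _ _ hx hy =>
      rw [hcl, map_add, map_add, map_add, xd_add, hx, hy]
      abel
    | smul t x _ hx =>
      rw [hcs, map_smul, map_smul, map_smul, xd_smul, hx, smul_sub]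

end
end LatLin
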