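import Pool.Agent.Lib.MP_2392aa_gt.L.CR
import Pool.Agent.Lib.MP_2392aa_gt.L.Uni
import Pool.Agent.Lib.MP_2392aa_gt.L.LemT
import Pool.Agent.Lib.MP_2392aa_gt.L.LemS

/-!
MP_2392aa_gt, formal linearization, module Fix (about 250 lines): a cocycle is trivial on the
unipotent elements `1 + a`, `a ∈ uT e` (or `uS e`).

PROOF (T; S is the same with the obvious changes). `u := uT e`, all products of elements of `u` vanish.
`uni_main` gives `β`. Let `p : (E →L E) →ₗ (E →L E)`, `p a := e ∘ a ∘ (1 - e)` (for S: `(1 - e) ∘ a ∘ e`), the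
projection onto `u` (`p a = a` for `a ∈ u`), and `z := β ∘ₗ p`, an element of
`X := (E →L E) →ₗ HM E k`. `B :=` the submodule of `X` of all `a ↦ xd (p a) w`, `w ∈ HM E k` (range of a
linear map `HM E k → X`). For `g ∈ blk e`: `g` commutes with `e` (both `g` and `g⁻¹` preserve range and
kernel of `e`: `g = e g e + (1 - e)`), so `p (g⁻¹ a g) = g⁻¹ (p a) g`, and
`piH k g (a ↦ xd (p a) w) = (a ↦ xd (p a) (pi k g w))`, because
`pi k g (xd (g⁻¹ a g) w) = xd a (pi k g w)` (chain rule). So `B` is stable under `blk e`. For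
`γ ∈ G ∩ blk e`: (3) of `uni_main` with `g = γ` and `a` replaced by `γ⁻¹ a γ`: for `a ∈ u`,
`(piH k γ z) a = pi k γ (β (γ⁻¹ a γ)) = β a + xd a (b γ)`; so `piH k γ z - z ∈ B`. By `Dn G e` (with
`X`, `π := piH k`, `prep_piH`) the same holds for all transvections `tv q u'` with `q, u'` in the range of
`e`. `cr_H` with `P := {(q, u') | e q = q, e u' = u', ⟪q, u'⟫ = 0}` gives `w1` such that
`z' := z - (a ↦ xd (p a) w1)` is fixed by all `piH k (tv q u')`. `β' := z'` satisfies `hc` of `lemT`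
(`xd a (xd a' w1) = xd a' (xd a w1)` for `a, a' ∈ u`, as `a a' = a' a = 0`) and `heq`: for `a ∈ u`, with
`ℓ = tv q u'`: `z' a = piH k ℓ z' a = pi k ℓ (z' (ℓ⁻¹ a ℓ))`; replace `a` by `ℓ a ℓ⁻¹ = ℓ a` (`tv_T`; for S:
`= a ℓ⁻¹`, `tv_S`). `lemT` gives `w2` with `z' a = xd a w2` on `u`, so `β a = xd a (w1 + w2)`. Take
`w := - (w1 + w2)` in (1) of `uni_main`.
-/

open scoped ContDiff Topology

namespace LatLin

universe u
variable {E : Type u} [NormedAddCommGroup E] [InnerProductSpace ℝ E] [FiniteDimensional ℝ E] {k : ℕ}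

theorem xd_comm {a a' : E →L[ℝ] E} (h : a ∘L a' = 0) (h' : a' ∘L a = 0) (w : HM E k) :
    xd a (xd a' w) = xd a' (xd a w) := by
  have key : ∀ {a a' : E →L[ℝ] E}, a ∘L a' = 0 → a' ∘L a = 0 → ∀ x : E,
      (xd a (xd a' w)).1 x = - a (fderiv ℝ w.1 x (a' x)) - a' (fderiv ℝ w.1 x (a x)) +
        fderiv ℝ (fderiv ℝ w.1) x (a x) (a' x) := by
    intro a a' h h' x
    have hw1 : Differentiable ℝ w.1 := w.2.1.differentiable (by simp)
    have hw2 : Differentiable ℝ (fderiv ℝ w.1) :=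
      (w.2.1.fderiv_right (m := ∞) (by simp)).differentiable (by simp)
    have haa : ∀ y, a (a' y) = 0 := fun y => by simpa using congrArg (fun f => f y) h
    have haa' : ∀ y, a' (a y) = 0 := fun y => by simpa using congrArg (fun f => f y) h'
    have h1 : HasFDerivAt (xd a' w).1
        (a' ∘L (fderiv ℝ w.1 x) - ((fderiv ℝ w.1 x) ∘L a' +
          (fderiv ℝ (fderiv ℝ w.1) x).flip (a' x))) x := by
      have h2 : HasFDerivAt (fun y => a' (w.1 y)) (a' ∘L (fderiv ℝ w.1 x)) x :=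
        a'.hasFDerivAt.comp x (hw1 x).hasFDerivAt
      have h3 : HasFDerivAt (fun y => fderiv ℝ w.1 y (a' y)) ((fderiv ℝ w.1 x) ∘L a' +
          (fderiv ℝ (fderiv ℝ w.1) x).flip (a' x)) x :=
        (hw2 x).hasFDerivAt.clm_apply a'.hasFDerivAt
      exact h2.sub h3
    rw [xd_apply, h1.fderiv, xd_apply, map_sub, haa]
    simp only [sub_apply, add_apply, ContinuousLinearMap.comp_apply,
      ContinuousLinearMap.flip_apply, haa', map_zero]
    abel
  ext x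
  rw [key h h' x, key h' h x]
  have hsym : fderiv ℝ (fderiv ℝ w.1) x (a x) (a' x) = fderiv ℝ (fderiv ℝ w.1) x (a' x) (a x) :=
    (w.2.1.contDiffAt.isSymmSndFDerivAt (by
      rw [minSmoothness_of_isRCLikeNormedField]
      exact WithTop.coe_le_coe.2 le_top)) _ _
  rw [hsym]
  abel

theorem pi_xd (g : GE E) (a : E →L[ℝ] E) (w : HM E k) :
    pi k g (xd (((g⁻¹ : GE E) : E →L[ℝ] E) ∘L a ∘L (g : E →L[ℝ] E)) w) = xd a (pi k g w) := by
  have hg : ∀ y : E, g ((g⁻¹ : GE E) y) = y := fun y => g.apply_symm_apply y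
  ext x
  have hw1 : Differentiable ℝ w.1 := w.2.1.differentiable (by simp)
  have h1 : HasFDerivAt (pi k g w).1 ((g : E →L[ℝ] E) ∘L (fderiv ℝ w.1 ((g⁻¹ : GE E) x)) ∘L
      ((g⁻¹ : GE E) : E →L[ℝ] E)) x := by
    have h2 : HasFDerivAt (fun y => w.1 (((g⁻¹ : GE E) : E →L[ℝ] E) y))
        ((fderiv ℝ w.1 ((g⁻¹ : GE E) x)) ∘L ((g⁻¹ : GE E) : E →L[ℝ] E)) x :=
      (hw1 ((g⁻¹ : GE E) x)).hasFDerivAt.comp x
        ((g⁻¹ : GE E) : E →L[ℝ] E).hasFDerivAt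
    exact (g : E →L[ℝ] E).hasFDerivAt.comp x h2
  rw [xd_apply, h1.fderiv, pi_apply, pi_apply, xd_apply]
  show g ((g⁻¹ : GE E) (a (g (w.1 ((g⁻¹ : GE E) x)))) -
      fderiv ℝ w.1 ((g⁻¹ : GE E) x) ((g⁻¹ : GE E) (a (g ((g⁻¹ : GE E) x))))) =
    a (g (w.1 ((g⁻¹ : GE E) x))) -
      g (fderiv ℝ w.1 ((g⁻¹ : GE E) x) ((g⁻¹ : GE E) (a x)))
  rw [map_sub, hg, hg]

/-- `a ↦ xd a w` -/
private noncomputable def fx_xdL (w : HM E k) : (E →L[ℝ] E) →ₗ[ℝ] HM E k where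
  toFun a := xd a w
  map_add' a a' := by
    ext x
    show (a + a') (w.1 x) - fderiv ℝ w.1 x ((a + a') x) =
      (a (w.1 x) - fderiv ℝ w.1 x (a x)) + (a' (w.1 x) - fderiv ℝ w.1 x (a' x))
    rw [add_apply, add_apply, map_add]
    abel
  map_smul' c a := by
    ext x
    show (c • a) (w.1 x) - fderiv ℝ w.1 x ((c • a) x) =
      c • (a (w.1 x) - fderiv ℝ w.1 x (a x))
    rw [smul_apply, smul_apply, map_smul, smul_sub]

/-- `w ↦ (a ↦ xd (p a) w)` -/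
private noncomputable def fx_W (p : (E →L[ℝ] E) →ₗ[ℝ] (E →L[ℝ] E)) :
    HM E k →ₗ[ℝ] ((E →L[ℝ] E) →ₗ[ℝ] HM E k) where
  toFun w := (fx_xdL w) ∘ₗ p
  map_add' w w' := by
    apply LinearMap.ext
    intro a
    show xd (p a) (w + w') = xd (p a) w + xd (p a) w'
    rw [map_add]
  map_smul' c w := by
    apply LinearMap.ext
    intro a
    show xd (p a) (c • w) = c • xd (p a) w
    rw [map_smul]

private theorem fx_W_apply (p : (E →L[ℝ] E) →ₗ[ℝ] (E →L[ℝ] E)) (w : HM E k) (a : E →L[ℝ] E) :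
    fx_W p w a = xd (p a) w := rfl

private theorem fx_inv_apply (g : GE E) (y : E) : g ((g⁻¹ : GE E) y) = y := g.apply_symm_apply y

private theorem fx_inv_apply' (g : GE E) (y : E) : (g⁻¹ : GE E) (g y) = y := g.symm_apply_apply y

private theorem fx_blk_inv {e : E →L[ℝ] E} (he : IsPr e) {g : GE E} (hg : g ∈ blk e) :
    g⁻¹ ∈ blk e := by
  refine ⟨fun x => ?_, fun x hx => ?_⟩
  · set s : E := (g⁻¹ : GE E) (e x) with hs
    have h1 : g s = e x := fx_inv_apply g (e x)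
    have h2 : e (s - e s) = 0 := by rw [map_sub, he.idem, sub_self]
    have h3 : g (s - e s) = s - e s := hg.2 _ h2
    have h4 : s - e s = e x - g (e s) := by rw [← h3, map_sub, h1]
    have h5 : e (e x - g (e s)) = e x - g (e s) := by rw [map_sub, he.idem, hg.1]
    have h6 : s - e s = 0 := by rw [h4, ← h5, ← h4, h2]
    exact (sub_eq_zero.1 h6).symm
  · have h1 : g x = x := hg.2 x hx
    conv_lhs => rw [← h1]
    exact fx_inv_apply' g x

private theorem fx_blk_comm {e : E →L[ℝ] E} (he : IsPr e) {g : GE E} (hg : g ∈ blk e) (x : E) :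
    e (g x) = g (e x) := by
  have h2 : e (x - e x) = 0 := by rw [map_sub, he.idem, sub_self]
  have h3 : g (x - e x) = x - e x := hg.2 _ h2
  have h4 : g x = g (e x) + (x - e x) := by
    rw [← h3, ← map_add, add_sub_cancel]
  rw [h4, map_add, h2, add_zero, hg.1]

private theorem fx_tv_blk {e : E →L[ℝ] E} (he : IsPr e) {q u : E} (h : inner ℝ q u = (0 : ℝ))
    (hq : e q = q) (hu : e u = u) : tv q u ∈ blk e := by
  refine ⟨fun x => ?_, fun x hx => ?_⟩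
  · rw [tv_apply h, map_add, map_smul, he.idem, hu]
  · rw [tv_apply h, ← hq, he.sym, hx, inner_zero_right, zero_smul, add_zero]

private theorem fx_main {e : E →L[ℝ] E} (he : IsPr e) (G : Subgroup (GE E))
    (b : GE E → HM E k) (hb : IsCoc G b) (hD : Dn G e) (u : Submodule ℝ (E →L[ℝ] E))
    (hL : Lat G u) (hu : ∀ a ∈ u, ∀ a' ∈ u, a ∘L a' = 0)
    (p : (E →L[ℝ] E) →ₗ[ℝ] (E →L[ℝ] E)) (hp1 : ∀ a, p a ∈ u) (hp2 : ∀ a ∈ u, p a = a)
    (hp3 : ∀ g ∈ blk e, ∀ a : E →L[ℝ] E, p (((g⁻¹ : GE E) : E →L[ℝ] E) ∘L a ∘L (g : E →L[ℝ] E)) =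
      ((g⁻¹ : GE E) : E →L[ℝ] E) ∘L p a ∘L (g : E →L[ℝ] E))
    (hlem : ∀ β : (E →L[ℝ] E) →ₗ[ℝ] HM E k,
      (∀ a ∈ u, ∀ a' ∈ u, xd a (β a') = xd a' (β a)) →
      (∀ q u' : E, inner ℝ q u' = (0 : ℝ) → e q = q → e u' = u' → ∀ a ∈ u,
        β (((tv q u' : GE E) : E →L[ℝ] E) ∘L a ∘L (((tv q u')⁻¹ : GE E) : E →L[ℝ] E)) =
          pi k (tv q u') (β a)) → ∃ w : HM E k, ∀ a ∈ u, β a = xd a w) :
    ∃ w : HM E k, Triv b w {g | g ∈ G ∧ g ∈ tws u} := by
  obtain ⟨β, h1, h2, h3⟩ := uni_main G b hb u hu hL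
  have hconj : ∀ (g : GE E) (a : E →L[ℝ] E), (g : E →L[ℝ] E) ∘L
      (((g⁻¹ : GE E) : E →L[ℝ] E) ∘L a ∘L (g : E →L[ℝ] E)) ∘L ((g⁻¹ : GE E) : E →L[ℝ] E) = a := by
    intro g a
    ext x
    show g ((g⁻¹ : GE E) (a (g ((g⁻¹ : GE E) x)))) = a x
    rw [fx_inv_apply, fx_inv_apply]
  have hconj' : ∀ (g : GE E) (a : E →L[ℝ] E), ((g⁻¹ : GE E) : E →L[ℝ] E) ∘L
      ((g : E →L[ℝ] E) ∘L a ∘L ((g⁻¹ : GE E) : E →L[ℝ] E)) ∘L (g : E →L[ℝ] E) = a := by
    intro g a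
    ext x
    show (g⁻¹ : GE E) (g (a ((g⁻¹ : GE E) (g x)))) = a x
    rw [fx_inv_apply', fx_inv_apply']
  have hnorm : ∀ γ ∈ blk e, ∀ a ∈ u,
      (γ : E →L[ℝ] E) ∘L a ∘L ((γ⁻¹ : GE E) : E →L[ℝ] E) ∈ u := by
    intro γ hγ a ha
    have h4 := hp3 γ⁻¹ (fx_blk_inv he hγ) a
    rw [inv_inv, hp2 a ha] at h4
    rw [← h4]
    exact hp1 _
  have hstab : ∀ g ∈ blk e, ∀ y ∈ LinearMap.range (fx_W (k := k) p),
      piH k g y ∈ LinearMap.range (fx_W (k := k) p) := by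
    rintro g hg _ ⟨w, rfl⟩
    refine ⟨pi k g w, ?_⟩
    apply LinearMap.ext
    intro a
    rw [piH_apply, fx_W_apply, fx_W_apply, hp3 g hg, pi_xd]
  have hz : ∀ γ ∈ G, γ ∈ blk e →
      piH k γ (β ∘ₗ p) - β ∘ₗ p ∈ LinearMap.range (fx_W (k := k) p) := by
    intro γ hγ hγb
    refine ⟨b γ, ?_⟩
    apply LinearMap.ext
    intro a
    rw [LinearMap.sub_apply, piH_apply, fx_W_apply, LinearMap.comp_apply, LinearMap.comp_apply]
    have h4 := h3 γ hγ (hnorm γ hγb)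
      (p (((γ⁻¹ : GE E) : E →L[ℝ] E) ∘L a ∘L (γ : E →L[ℝ] E))) (hp1 _)
    rw [hp3 γ hγb, hconj] at h4
    rw [hp3 γ hγb, h4]
    abel
  have hfd : FiniteDimensional ℝ ((E →L[ℝ] E) →ₗ[ℝ] HM E k) := inferInstance
  have htv : ∀ q u' : E, inner ℝ q u' = (0 : ℝ) → e q = q → e u' = u' →
      piH k (tv q u') (β ∘ₗ p) - β ∘ₗ p ∈ LinearMap.range (fx_W (k := k) p) :=
    hD ((E →L[ℝ] E) →ₗ[ℝ] HM E k) (piH k) prep_piH (LinearMap.range (fx_W (k := k) p)) hstab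
      (β ∘ₗ p) hz
  obtain ⟨b1, ⟨w1, rfl⟩, hb1⟩ := cr_H (k := k)
    {x : E × E | inner ℝ x.1 x.2 = (0 : ℝ) ∧ e x.1 = x.1 ∧ e x.2 = x.2}
    (fun x hx => hx.1) (fun x hx => ⟨by rw [real_inner_comm]; exact hx.1, hx.2.2, hx.2.1⟩)
    (LinearMap.range (fx_W (k := k) p))
    (fun x hx y hy => hstab _ (fx_tv_blk he hx.1 hx.2.1 hx.2.2) y hy)
    (β ∘ₗ p) (fun x hx => htv x.1 x.2 hx.1 hx.2.1 hx.2.2)
  have hval : ∀ a ∈ u, (β ∘ₗ p - fx_W p w1) a = β a - xd a w1 := by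
    intro a ha
    rw [LinearMap.sub_apply, LinearMap.comp_apply, fx_W_apply, hp2 a ha]
  obtain ⟨w2, hw2⟩ := hlem (β ∘ₗ p - fx_W p w1) (by
      intro a ha a' ha'
      rw [hval a ha, hval a' ha', map_sub, map_sub, h2 a ha a' ha',
        xd_comm (hu a ha a' ha') (hu a' ha' a ha)]) (by
      intro q u' hqu hq hu' a ha
      have h4 := hb1 (q, u') ⟨hqu, hq, hu'⟩
      have h5 := congrArg (fun f => f (((tv q u' : GE E) : E →L[ℝ] E) ∘L a ∘L
        (((tv q u')⁻¹ : GE E) : E →L[ℝ] E))) h4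
      dsimp only at h5
      rw [piH_apply, hconj'] at h5
      exact h5.symm)
  refine ⟨-(w1 + w2), ?_⟩
  rintro g ⟨hgG, a, ha, rfl⟩
  refine h1 _ (fun a ha => ?_) a ha hgG
  have h4 := hw2 a ha
  rw [hval a ha] at h4
  rw [map_neg, neg_neg, map_add, ← h4]
  abel

theorem fix_T {e : E →L[ℝ] E} (he : IsPr e) (hbig : Big e) (G : Subgroup (GE E))
    (b : GE E → HM E k) (hb : IsCoc G b) (hD : Dn G e) (hL : Lat G (uT e)) :
    ∃ w : HM E k, Triv b w {g | g ∈ G ∧ g ∈ tws (uT e)} := by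
  let p : (E →L[ℝ] E) →ₗ[ℝ] (E →L[ℝ] E) :=
    { toFun := fun a => e ∘L a ∘L (ContinuousLinearMap.id ℝ E - e)
      map_add' := fun a a' => by
        ext x
        simp only [ContinuousLinearMap.comp_apply, add_apply, map_add]
      map_smul' := fun c a => by
        ext x
        simp only [ContinuousLinearMap.comp_apply, smul_apply, map_smul, RingHom.id_apply] }
  have hp : ∀ (a : E →L[ℝ] E) (x : E), p a x = e (a (x - e x)) := fun _ _ => rfl
  refine fx_main he G b hb hD (uT e) hL ?_ p ?_ ?_ ?_ ?_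
  · intro a ha a' ha'
    ext x
    show a (a' x) = 0
    rw [← ha'.1 x]
    exact ha.2 _
  · intro a
    refine ⟨fun x => ?_, fun x => ?_⟩
    · rw [hp, he.idem]
    · rw [hp, he.idem, sub_self, map_zero, map_zero]
  · intro a ha
    ext x
    rw [hp, ha.1, map_sub, ha.2, sub_zero]
  · intro g hg a
    ext x
    rw [hp]
    show e ((g⁻¹ : GE E) (a (g (x - e x)))) = (g⁻¹ : GE E) (p a (g x))
    rw [hp, fx_blk_comm he (fx_blk_inv he hg), fx_blk_comm he hg, map_sub]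
  · intro β hc heq
    refine lemT he hbig β hc ?_
    intro q u hqu hq hu a ha
    have h1 := heq q u hqu hq hu a ha
    rw [(tv_T he hqu hq hu ha).1] at h1
    exact h1

theorem fix_S (hk : 2 ≤ k) {e : E →L[ℝ] E} (he : IsPr e) (hbig : Big e) (G : Subgroup (GE E))
    (b : GE E → HM E k) (hb : IsCoc G b) (hD : Dn G e) (hL : Lat G (uS e)) :
    ∃ w : HM E k, Triv b w {g | g ∈ G ∧ g ∈ tws (uS e)} := by
  let p : (E →L[ℝ] E) →ₗ[ℝ] (E →L[ℝ] E) :=
    { toFun := fun a => (ContinuousLinearMap.id ℝ E - e) ∘L a ∘L e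
      map_add' := fun a a' => by
        ext x
        simp only [ContinuousLinearMap.comp_apply, add_apply, map_add]
      map_smul' := fun c a => by
        ext x
        simp only [ContinuousLinearMap.comp_apply, smul_apply, map_smul, RingHom.id_apply] }
  have hp : ∀ (a : E →L[ℝ] E) (x : E), p a x = a (e x) - e (a (e x)) := fun _ _ => rfl
  refine fx_main he G b hb hD (uS e) hL ?_ p ?_ ?_ ?_ ?_
  · intro a ha a' ha'
    ext x
    show a (a' x) = 0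
    rw [← ha.2, ha'.1, map_zero]
  · intro a
    refine ⟨fun x => ?_, fun x => ?_⟩
    · rw [hp, map_sub, he.idem, sub_self]
    · rw [hp, hp, he.idem]
  · intro a ha
    ext x
    rw [hp, ha.1, sub_zero, ha.2]
  · intro g hg a
    ext x
    rw [hp]
    show (g⁻¹ : GE E) (a (g (e x))) - e ((g⁻¹ : GE E) (a (g (e x)))) = (g⁻¹ : GE E) (p a (g x))
    rw [hp, fx_blk_comm he (fx_blk_inv he hg), fx_blk_comm he hg, map_sub]
  · intro β hc heq
    refine lemS hk he hbig β hc ?_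
    intro q u hqu hq hu a ha
    have h1 := heq q u hqu hq hu a ha
    rw [← ContinuousLinearMap.comp_assoc, (tv_S he hqu hq hu ha).1] at h1
    exact h1

end LatLin
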