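import Pool.Agent.Lib.MP_2392aa_gt.L.Poly

/-!
MP_2392aa_gt, formal linearization, module HFin (about 280 lines): the space of homogeneous maps is
finite dimensional, its functionals are finite sums of evaluations, polynomial dependence.

PROOFS.
`hm_taylor`: `p x = (k !)⁻¹ • iteratedFDeriv ℝ k p 0 (fun _ => x)`: for fixed `x` the function
`t ↦ p (t • x) = t ^ k • p x` has `k`-th derivative `k ! • p x` at `0`, which is also
`iteratedFDeriv ℝ k p 0 (fun _ => x)` (chain rule with the linear map `t ↦ t • x`: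
`ContinuousLinearMap.iteratedFDeriv_comp_right`, `iteratedDeriv_eq_iteratedFDeriv`).
`hm_fin`: `p ↦ (iteratedFDeriv ℝ k p 0).toMultilinearMap` is linear (`iteratedFDeriv_add_apply`, ...)
and injective (`hm_taylor`) into `MultilinearMap ℝ (fun _ : Fin k => E) E`, which is finite
dimensional (instance for finite index type and finite free modules).
`ev_dual`: the evaluations `p ↦ ⟪y, p x⟫` separate the points of the finite dimensional space
`HM E k`, so they span its dual (`Subspace.dualCoannihilator...`, or: `Submodule.span` of the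
evaluations has zero `dualCoannihilator`, hence is everything by finite dimension; e.g. via
`Subspace.dualAnnihilator_dualCoannihilator_eq`). A linear combination `∑ c_i ⟪y_i, p x_i⟫` is of the
required form (absorb `c_i` in `y_i`), use `Submodule.mem_span_range_iff_exists_fun`-like lemmas or
induction on the span (`Submodule.span_induction`; sums via `Fin.append`).
`poly_line`: from `hm_taylor`: `p (x + s • y) = (k !)⁻¹ • T (fun _ => x + s • y)` with
`T = iteratedFDeriv ℝ k p 0`, expand by multilinearity (`MultilinearMap.map_add_univ`,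
`map_smul_univ`-like: each term is `s ^ j • T (..)`), use `IsPoly.add`, finite sums.
`poly_pj`: `IsPoly.of_dual` and `ev_dual`:
`⟪y_i, (x' ↦ (1 + s a) p ((1 - s a) x_i))⟫ = ⟪y_i, p (x_i - s a x_i)⟫ + s ⟪a† y_i, p (x_i - s a x_i)⟫`.
`bdd_pj`: by `ev_dual`, and `‖p z‖ ≤ C ‖z‖ ^ k` (bounded on the closed ball of radius `R ‖x_i‖`, compact):
`|⟪y_i, g (p (h x_i))⟫| ≤ ‖y_i‖ R sup ‖p‖`.
`prep_pi`: `poly` from `poly_pj` (for `a ∘ a = 0` also `(s a) ∘ (s a) = 0`, and
`pi k (tw (s • a)) p = pj (id + s • a) (id - s • a) p`), `bdd` from `bdd_pj`.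
`pj_tw`: definition of `tw`.
-/

open scoped ContDiff Topology Nat

namespace LatLin

section
variable {E : Type*} [NormedAddCommGroup E] [InnerProductSpace ℝ E] [FiniteDimensional ℝ E] {k : ℕ}

theorem hm_taylor (p : HM E k) (x : E) :
    p.1 x = ((k ! : ℝ))⁻¹ • iteratedFDeriv ℝ k p.1 0 (fun _ => x) := by
  have hp : ContDiff ℝ k p.1 := p.2.1.of_le (by exact_mod_cast le_top)
  have h1 : iteratedDeriv k (fun t : ℝ => p.1 (t • x)) 0 =
      iteratedFDeriv ℝ k p.1 0 (fun _ => x) := by
    have h2 := (ContinuousLinearMap.toSpanSingleton ℝ x).iteratedFDeriv_comp_right hp (0 : ℝ)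
      le_rfl
    have h3 : p.1 ∘ (ContinuousLinearMap.toSpanSingleton ℝ x) = fun t : ℝ => p.1 (t • x) := rfl
    rw [h3] at h2
    rw [iteratedDeriv_eq_iteratedFDeriv, h2]
    simp
  have h4 : (fun t : ℝ => p.1 (t • x)) = fun t : ℝ => t ^ k • p.1 x := by
    funext t
    exact p.2.2 t x
  have h5 : iteratedDeriv k (fun t : ℝ => t ^ k • p.1 x) 0 = (k ! : ℝ) • p.1 x := by
    rw [iteratedDeriv_smul_const (contDiff_id.pow k).contDiffAt, iteratedDeriv_fun_pow_zero,
      if_pos rfl]
  rw [← h1, h4, h5, smul_smul, inv_mul_cancel₀ (by positivity), one_smul]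

/-- the `k`-th derivative at `0`, a linear map -/
private noncomputable def hf_der : HM E k →ₗ[ℝ] MultilinearMap ℝ (fun _ : Fin k => E) E where
  toFun p := (iteratedFDeriv ℝ k p.1 0).toMultilinearMap
  map_add' p q := by
    have hp : ContDiffAt ℝ k p.1 0 := (p.2.1.of_le (by exact_mod_cast le_top)).contDiffAt
    have hq : ContDiffAt ℝ k q.1 0 := (q.2.1.of_le (by exact_mod_cast le_top)).contDiffAt
    have h : iteratedFDeriv ℝ k (p.1 + q.1) 0 = _ := iteratedFDeriv_add_apply hp hq
    have h2 : (p + q).1 = p.1 + q.1 := rfl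
    rw [h2, h]
    rfl
  map_smul' c p := by
    have hp : ContDiffAt ℝ k p.1 0 := (p.2.1.of_le (by exact_mod_cast le_top)).contDiffAt
    have h : iteratedFDeriv ℝ k (c • p.1) 0 = _ := iteratedFDeriv_const_smul_apply hp
    have h2 : (c • p).1 = c • p.1 := rfl
    rw [h2, h]
    rfl

instance hm_fin : FiniteDimensional ℝ (HM E k) := by
  refine FiniteDimensional.of_injective (hf_der (E := E) (k := k)) ?_
  intro p q h
  apply Subtype.ext
  funext x
  rw [hm_taylor p x, hm_taylor q x]
  have h1 : iteratedFDeriv ℝ k p.1 0 (fun _ => x) = iteratedFDeriv ℝ k q.1 0 (fun _ => x) :=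
    congrArg (fun T : MultilinearMap ℝ (fun _ : Fin k => E) E => T (fun _ => x)) h
  rw [h1]

/-- the evaluation `p ↦ ⟪y, p x⟫` -/
private noncomputable def hf_ev (z : E × E) : HM E k →ₗ[ℝ] ℝ where
  toFun p := inner ℝ z.2 (p.1 z.1)
  map_add' p q := by
    have h : (p + q).1 z.1 = p.1 z.1 + q.1 z.1 := rfl
    rw [h, inner_add_right]
  map_smul' c p := by
    have h : (c • p).1 z.1 = c • p.1 z.1 := rfl
    rw [h, inner_smul_right]
    rfl

private theorem hf_span (f : HM E k →ₗ[ℝ] ℝ) :
    f ∈ Submodule.span ℝ (Set.range (hf_ev (E := E) (k := k))) := by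
  have h1 : (Submodule.span ℝ (Set.range (hf_ev (E := E) (k := k)))).dualCoannihilator = ⊥ := by
    rw [eq_bot_iff]
    intro p hp
    rw [Submodule.mem_bot]
    rw [Submodule.mem_dualCoannihilator] at hp
    apply Subtype.ext
    funext x
    have h2 := hp _ (Submodule.subset_span ⟨(x, p.1 x), rfl⟩)
    exact inner_self_eq_zero.1 h2
  have h2 := Subspace.dualCoannihilator_dualAnnihilator_eq
    (W := Submodule.span ℝ (Set.range (hf_ev (E := E) (k := k))))
  rw [h1, Submodule.dualAnnihilator_bot] at h2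
  rw [← h2]
  exact Submodule.mem_top

theorem ev_dual (f : HM E k →ₗ[ℝ] ℝ) :
    ∃ (n : ℕ) (x y : Fin n → E), ∀ p : HM E k, f p = ∑ i, inner ℝ (y i) (p.1 (x i)) := by
  obtain ⟨c, hc⟩ := Finsupp.mem_span_range_iff_exists_finsupp.1 (hf_span f)
  have e := c.support.equivFin.symm
  refine ⟨c.support.card, fun i => (e i).1.1, fun i => c (e i).1 • (e i).1.2, fun p => ?_⟩
  rw [← hc, Finsupp.sum, LinearMap.sum_apply, ← Finset.sum_coe_sort c.support, ← e.sum_comp]
  refine Finset.sum_congr rfl fun i _ => ?_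
  rw [inner_smul_left]
  rfl

private theorem hf_mono {X : Type*} [AddCommGroup X] [Module ℝ X] (n : ℕ) (c : X) :
    IsPoly (fun s : ℝ => s ^ n • c) := by
  refine ⟨n + 1, fun i => if i = n then c else 0, fun s => ?_⟩
  rw [Finset.sum_eq_single n]
  · simp
  · intro i _ hi
    simp [hi]
  · intro h
    exact absurd (Finset.mem_range.2 (Nat.lt_succ_self n)) h

private theorem hf_sum {X : Type*} [AddCommGroup X] [Module ℝ X] {ι : Type*} (S : Finset ι)
    (f : ι → ℝ → X) (h : ∀ i ∈ S, IsPoly (f i)) : IsPoly (fun s => ∑ i ∈ S, f i s) := by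
  classical
  induction S using Finset.induction_on with
  | empty => simpa using IsPoly.const (0 : X)
  | insert i S hi ih =>
    have h1 := (h i (Finset.mem_insert_self _ _)).add
      (ih fun j hj => h j (Finset.mem_insert_of_mem hj))
    simpa only [Finset.sum_insert hi] using h1

theorem poly_line (p : HM E k) (x y : E) : IsPoly (fun s : ℝ => p.1 (x + s • y)) := by
  classical
  have h1 : ∀ s : ℝ, p.1 (x + s • y) = ∑ S : Finset (Fin k), s ^ S.card • ((k ! : ℝ)⁻¹ •
      iteratedFDeriv ℝ k p.1 0 (S.piecewise (fun _ => y) (fun _ => x))) := by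
    intro s
    have h2 : (fun _ : Fin k => x + s • y) = (fun _ => s • y) + (fun _ => x) := by
      funext i
      exact add_comm _ _
    rw [hm_taylor, h2, ContinuousMultilinearMap.map_add_univ, Finset.smul_sum]
    refine Finset.sum_congr rfl fun S _ => ?_
    have h3 : (S.piecewise (fun _ => s • y) (fun _ => x) : Fin k → E) =
        S.piecewise (fun i => (fun _ : Fin k => s) i • (S.piecewise (fun _ => y) (fun _ => x) :
          Fin k → E) i) (S.piecewise (fun _ => y) (fun _ => x)) := by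
      funext i
      by_cases hi : i ∈ S
      · simp [Finset.piecewise_eq_of_mem _ _ _ hi]
      · simp [Finset.piecewise_eq_of_notMem _ _ _ hi]
    rw [h3, ContinuousMultilinearMap.map_piecewise_smul, Finset.prod_const, smul_comm]
  simp only [h1]
  exact hf_sum _ _ fun S _ => hf_mono _ _

/-- the functional `z ↦ ⟪y, z⟫` -/
private noncomputable def hf_in (y : E) : E →ₗ[ℝ] ℝ where
  toFun z := inner ℝ y z
  map_add' _ _ := inner_add_right _ _ _
  map_smul' c z := by
    rw [inner_smul_right]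
    rfl

private theorem hf_id : IsPoly (fun s : ℝ => s) := by
  have h := hf_mono (X := ℝ) 1 1
  simpa using h

theorem poly_pj (p : HM E k) (a : E →L[ℝ] E) : IsPoly (fun s : ℝ =>
    pj (ContinuousLinearMap.id ℝ E + s • a) (ContinuousLinearMap.id ℝ E - s • a) p) := by
  refine IsPoly.of_dual fun f' => ?_
  obtain ⟨n, x, y, h⟩ := ev_dual f'
  simp only [h]
  refine hf_sum _ _ fun i _ => ?_
  have h1 : ∀ s : ℝ, (inner ℝ (y i) ((pj (ContinuousLinearMap.id ℝ E + s • a)
      (ContinuousLinearMap.id ℝ E - s • a) p).1 (x i)) : ℝ) =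
      hf_in (y i) (p.1 (x i + s • -a (x i))) +
        s • (hf_in (y i) ∘ₗ a.toLinearMap) (p.1 (x i + s • -a (x i))) := by
    intro s
    have h2 : (ContinuousLinearMap.id ℝ E - s • a) (x i) = x i + s • -a (x i) := by
      simp [sub_eq_add_neg]
    rw [pj_apply, h2]
    simp only [hf_in, LinearMap.coe_mk, AddHom.coe_mk, LinearMap.comp_apply, add_apply,
      ContinuousLinearMap.id_apply, smul_apply, inner_add_right, inner_smul_right, smul_eq_mul]
    rfl
  simp only [h1]
  exact ((poly_line p _ _).lin _).add (hf_id.smul ((poly_line p _ _).lin _))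

theorem bdd_pj (R : ℝ) (f : HM E k →ₗ[ℝ] ℝ) (p : HM E k) :
    ∃ C : ℝ, ∀ g h : E →L[ℝ] E, ‖g‖ ≤ R → ‖h‖ ≤ R → |f (pj g h p)| ≤ C := by
  obtain ⟨n, x, y, hf⟩ := ev_dual f
  have h1 : ∀ i, ∃ C : ℝ, ∀ z ∈ Metric.closedBall (0 : E) (R * ‖x i‖), ‖p.1 z‖ ≤ C := fun i =>
    (isCompact_closedBall _ _).exists_bound_of_continuousOn p.2.1.continuous.continuousOn
  choose C hC using h1
  refine ⟨∑ i, ‖y i‖ * (R * C i), fun g h hg hh => ?_⟩
  have hR : 0 ≤ R := (norm_nonneg _).trans hg
  rw [hf]
  refine (Finset.abs_sum_le_sum_abs _ _).trans (Finset.sum_le_sum fun i _ => ?_)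
  rw [pj_apply]
  have hz : h (x i) ∈ Metric.closedBall (0 : E) (R * ‖x i‖) := by
    rw [mem_closedBall_zero_iff]
    exact (h.le_opNorm _).trans (mul_le_mul_of_nonneg_right hh (norm_nonneg _))
  refine (abs_real_inner_le_norm _ _).trans (mul_le_mul_of_nonneg_left ?_ (norm_nonneg _))
  exact (g.le_opNorm _).trans (mul_le_mul hg (hC i _ hz) (norm_nonneg _) hR)

theorem pi_tw {a : E →L[ℝ] E} (h : a ∘L a = 0) (p : HM E k) :
    pi k (tw a) p = pj (ContinuousLinearMap.id ℝ E + a) (ContinuousLinearMap.id ℝ E - a) p := by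
  apply Subtype.ext
  funext x
  rw [pi_apply, tw_inv_apply h, tw_apply h]
  rfl

theorem prep_pi : PRep (pi (E := E) k) := by
  refine ⟨fun a ha f x => ?_, fun R f x => ?_⟩
  · have h1 : ∀ s : ℝ, pi k (tw (s • a)) x =
        pj (ContinuousLinearMap.id ℝ E + s • a) (ContinuousLinearMap.id ℝ E - s • a) x := by
      intro s
      refine pi_tw ?_ x
      rw [ContinuousLinearMap.smul_comp, ContinuousLinearMap.comp_smul, ha, smul_zero, smul_zero]
    simp only [h1]
    exact (poly_pj x a).lin f
  · obtain ⟨C, hC⟩ := bdd_pj R f x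
    exact ⟨C, fun g hg hg' => hC _ _ hg hg'⟩

end
end LatLin
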