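import Pool.Agent.Lib.MP_2392aa_gt.L.HFin

/-!
MP_2392aa_gt, formal linearization, module Ip (about 220 lines): inner products for which the adjoint
of the action of `g` is the action of the adjoint of `g`.

PROOFS. Let `b` be an orthonormal basis of `E` (`stdOrthonormalBasis ℝ E`, index `Fin n`), and
`D p := iteratedFDeriv ℝ k p 0`, a multilinear map; `D (g ∘ p ∘ h) (v) = g (D p (h v_1, .., h v_k))`
(`ContinuousLinearMap.iteratedFDeriv_comp_left`, `..comp_right`).
`exists_ip`: `ip p q := ∑ I : Fin k → Fin n, ⟪D p (b ∘ I), D q (b ∘ I)⟫`. Symmetric, bilinear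
(`iteratedFDeriv_add_apply`, `iteratedFDeriv_const_smul_apply`); positive: if `ip p p = 0` then
`D p (b ∘ I) = 0` for all `I`, so `D p = 0` (`Module.Basis.ext_multilinear`), so `p = 0` (`hm_taylor`).
Adjoint: for multilinear `P`, `Q`: `∑_I ⟪g P (h b_I), Q b_I⟫ = ∑_I ⟪P b_I, g† Q (h† b_I)⟫`, because
`P (h b_I) = ∑_J ∏_s ⟪b_(J s), h b_(I s)⟫ • P b_J` (`h b_i = ∑_j ⟪b_j, h b_i⟫ b_j`,
`MultilinearMap.map_sum`, `map_smul_univ`), `Q (h† b_J) = ∑_I ∏_s ⟪b_(I s), h† b_(J s)⟫ • Q b_I` and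
`⟪b_i, h† b_j⟫ = ⟪h b_i, b_j⟫`.
`exists_ipH`: `ipH β γ := ∑_(i,j) ip (β (E i j)) (γ (E i j))` with `E i j := ro (b j) (b i)` (rank one
operators, a basis of `E →L[ℝ] E`: `a = ∑ ⟪b_i, a b_j⟫ E i j`). Adjoint: expand
`g' ∘ E i j ∘ h' = ∑_(p,q) ⟪b_p, g' b_i⟫ ⟪b_j, h' b_q⟫ E p q` (since `g' (b_i) ⟪b_j, h' x⟫`), and
`g'† ∘ E p q ∘ h'† = ∑_(i,j) ⟪b_i, g'† b_p⟫ ⟪b_q, h'† b_j⟫ E i j`, the same coefficients.
-/

open scoped ContDiff Topology

namespace LatLin

section
variable {E : Type*} [NormedAddCommGroup E] [InnerProductSpace ℝ E] [FiniteDimensional ℝ E]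

/-- the `k`-th derivative at `0`, a linear map -/
private noncomputable def ipD {k : ℕ} : HM E k →ₗ[ℝ] MultilinearMap ℝ (fun _ : Fin k => E) E where
  toFun p := (iteratedFDeriv ℝ k p.1 0).toMultilinearMap
  map_add' p q := by
    have hp : ContDiffAt ℝ k p.1 0 := (p.2.1.of_le (by exact_mod_cast le_top)).contDiffAt
    have hq : ContDiffAt ℝ k q.1 0 := (q.2.1.of_le (by exact_mod_cast le_top)).contDiffAt
    have h : iteratedFDeriv ℝ k (p.1 + q.1) 0 = _ := iteratedFDeriv_add_apply hp hq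
    have h2 : (p + q).1 = p.1 + q.1 := rfl
    rw [h2, h]
    rfl
  map_smul' c p := by
    have hp : ContDiffAt ℝ k p.1 0 := (p.2.1.of_le (by exact_mod_cast le_top)).contDiffAt
    have h : iteratedFDeriv ℝ k (c • p.1) 0 = _ := iteratedFDeriv_const_smul_apply hp
    have h2 : (c • p).1 = c • p.1 := rfl
    rw [h2, h]
    rfl

private theorem ipD_zero {k : ℕ} {p : HM E k} (h : ipD p = 0) : p = 0 := by
  apply Subtype.ext
  funext x
  rw [hm_taylor p x]
  have h1 : iteratedFDeriv ℝ k p.1 0 (fun _ => x) = 0 :=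
    congrArg (fun T : MultilinearMap ℝ (fun _ : Fin k => E) E => T (fun _ => x)) h
  rw [h1, smul_zero]
  rfl

private theorem ipD_pj {k : ℕ} (g h : E →L[ℝ] E) (p : HM E k) (v : Fin k → E) :
    ipD (pj g h p) v = g (ipD p (fun i => h (v i))) := by
  have hp : ContDiff ℝ k p.1 := p.2.1.of_le (by exact_mod_cast le_top)
  have h1 : (pj g h p).1 = g ∘ (p.1 ∘ h) := rfl
  change iteratedFDeriv ℝ k (pj g h p).1 0 v = g (iteratedFDeriv ℝ k p.1 0 (fun i => h (v i)))
  rw [h1, g.iteratedFDeriv_comp_left (hp.comp h.contDiff).contDiffAt le_rfl]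
  rw [h.iteratedFDeriv_comp_right hp (0 : E) le_rfl, map_zero]
  rfl

private theorem ip_expand {ι : Type*} [Fintype ι] {k : ℕ} (b : OrthonormalBasis ι ℝ E)
    (P : MultilinearMap ℝ (fun _ : Fin k => E) E) (v : Fin k → E) :
    P v = ∑ J : Fin k → ι, (∏ s, (inner ℝ (b (J s)) (v s) : ℝ)) • P (fun s => b (J s)) := by
  classical
  have h1 : v = fun s => ∑ j, (inner ℝ (b j) (v s) : ℝ) • b j := by
    funext s
    exact (b.sum_repr' (v s)).symm
  conv_lhs => rw [h1]
  rw [P.map_sum]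
  refine Finset.sum_congr rfl fun J _ => ?_
  exact P.map_smul_univ (fun s => (inner ℝ (b (J s)) (v s) : ℝ)) (fun s => b (J s))

private theorem ip_adj {ι : Type*} [Fintype ι] {k : ℕ} (b : OrthonormalBasis ι ℝ E)
    (P Q : MultilinearMap ℝ (fun _ : Fin k => E) E) (g h : E →L[ℝ] E) :
    ∑ I : Fin k → ι, (inner ℝ (g (P (fun s => h (b (I s))))) (Q (fun s => b (I s))) : ℝ) =
      ∑ I : Fin k → ι, (inner ℝ (P (fun s => b (I s)))
        (ContinuousLinearMap.adjoint g (Q (fun s => ContinuousLinearMap.adjoint h (b (I s))))) : ℝ) := by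
  classical
  have h1 : ∀ I : Fin k → ι,
      (inner ℝ (g (P (fun s => h (b (I s))))) (Q (fun s => b (I s))) : ℝ) =
      ∑ J : Fin k → ι, (∏ s, (inner ℝ (b (J s)) (h (b (I s))) : ℝ)) *
        (inner ℝ (g (P (fun s => b (J s)))) (Q (fun s => b (I s))) : ℝ) := by
    intro I
    rw [ip_expand b P (fun s => h (b (I s))), map_sum, sum_inner]
    refine Finset.sum_congr rfl fun J _ => ?_
    rw [map_smul, real_inner_smul_left]
  have h2 : ∀ J : Fin k → ι, (inner ℝ (P (fun s => b (J s)))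
        (ContinuousLinearMap.adjoint g (Q (fun s => ContinuousLinearMap.adjoint h (b (J s))))) : ℝ) =
      ∑ I : Fin k → ι, (∏ s, (inner ℝ (b (J s)) (h (b (I s))) : ℝ)) *
        (inner ℝ (g (P (fun s => b (J s)))) (Q (fun s => b (I s))) : ℝ) := by
    intro J
    rw [ContinuousLinearMap.adjoint_inner_right,
      ip_expand b Q (fun s => ContinuousLinearMap.adjoint h (b (J s))), inner_sum]
    refine Finset.sum_congr rfl fun I _ => ?_
    rw [real_inner_smul_right]
    congr 1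
    refine Finset.prod_congr rfl fun s _ => ?_
    rw [ContinuousLinearMap.adjoint_inner_right, real_inner_comm]
  simp only [h1, h2]
  exact Finset.sum_comm

theorem exists_ip (k : ℕ) : ∃ ip : HM E k →ₗ[ℝ] HM E k →ₗ[ℝ] ℝ,
    (∀ p q, ip p q = ip q p) ∧ (∀ p, p ≠ 0 → 0 < ip p p) ∧
    ∀ (g h : E →L[ℝ] E) (p q : HM E k), ip (pj g h p) q =
      ip p (pj (ContinuousLinearMap.adjoint g) (ContinuousLinearMap.adjoint h) q) := by
  classical
  let b := stdOrthonormalBasis ℝ E
  refine ⟨LinearMap.mk₂ ℝ (fun p q : HM E k => ∑ I : Fin k → Fin (Module.finrank ℝ E),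
    (inner ℝ (ipD p (fun s => b (I s))) (ipD q (fun s => b (I s))) : ℝ)) ?_ ?_ ?_ ?_, ?_, ?_, ?_⟩
  · intro p p' q
    rw [← Finset.sum_add_distrib]
    refine Finset.sum_congr rfl fun I _ => ?_
    rw [map_add, MultilinearMap.add_apply, inner_add_left]
  · intro c p q
    rw [smul_eq_mul, Finset.mul_sum]
    refine Finset.sum_congr rfl fun I _ => ?_
    rw [map_smul, MultilinearMap.smul_apply, real_inner_smul_left]
  · intro p q q'
    rw [← Finset.sum_add_distrib]
    refine Finset.sum_congr rfl fun I _ => ?_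
    rw [map_add, MultilinearMap.add_apply, inner_add_right]
  · intro c p q
    rw [smul_eq_mul, Finset.mul_sum]
    refine Finset.sum_congr rfl fun I _ => ?_
    rw [map_smul, MultilinearMap.smul_apply, real_inner_smul_right]
  · intro p q
    rw [LinearMap.mk₂_apply, LinearMap.mk₂_apply]
    exact Finset.sum_congr rfl fun I _ => real_inner_comm _ _
  · intro p hp
    rw [LinearMap.mk₂_apply]
    have h0 : ∀ I ∈ (Finset.univ : Finset (Fin k → Fin (Module.finrank ℝ E))),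
        0 ≤ (inner ℝ (ipD p (fun s => b (I s))) (ipD p (fun s => b (I s))) : ℝ) :=
      fun I _ => real_inner_self_nonneg
    refine lt_of_le_of_ne (Finset.sum_nonneg h0) fun hc => hp (ipD_zero ?_)
    have h1 := (Finset.sum_eq_zero_iff_of_nonneg h0).mp hc.symm
    apply MultilinearMap.ext
    intro v
    rw [ip_expand b (ipD p) v, MultilinearMap.zero_apply]
    refine Finset.sum_eq_zero fun J _ => ?_
    rw [inner_self_eq_zero.mp (h1 J (Finset.mem_univ _)), smul_zero]
  · intro g h p q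
    rw [LinearMap.mk₂_apply, LinearMap.mk₂_apply]
    simp only [ipD_pj]
    exact ip_adj b (ipD p) (ipD q) g h

/-- `β ↦ (a ↦ g ∘ β (g' ∘ a ∘ h') ∘ h)` -/
noncomputable def opH {k : ℕ} (g h g' h' : E →L[ℝ] E) (β : (E →L[ℝ] E) →ₗ[ℝ] HM E k) :
    (E →L[ℝ] E) →ₗ[ℝ] HM E k where
  toFun a := pj g h (β (g' ∘L a ∘L h'))
  map_add' a b := by
    have h1 : g' ∘L (a + b) ∘L h' = g' ∘L a ∘L h' + g' ∘L b ∘L h' := by
      ext x
      simp
    rw [h1, map_add, map_add]
  map_smul' c a := by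
    have h1 : g' ∘L (c • a) ∘L h' = c • (g' ∘L a ∘L h') := by
      ext x
      simp
    rw [h1, map_smul, map_smul]
    rfl

private theorem ip_ro {ι : Type*} [Fintype ι] (b : OrthonormalBasis ι ℝ E) (a : E →L[ℝ] E) :
    a = ∑ z : ι × ι, (inner ℝ (b z.1) (a (b z.2)) : ℝ) • ro (b z.2) (b z.1) := by
  apply ContinuousLinearMap.ext
  intro x
  rw [sum_apply]
  have h1 : ∀ z : ι × ι, ((inner ℝ (b z.1) (a (b z.2)) : ℝ) • ro (b z.2) (b z.1)) x =
      (inner ℝ (b z.2) x : ℝ) • ((inner ℝ (b z.1) (a (b z.2)) : ℝ) • b z.1) := by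
    intro z
    rw [smul_apply, ro_apply, smul_comm]
  simp only [h1]
  rw [Fintype.sum_prod_type_right]
  have h2 : ∀ j : ι, ∑ i : ι, (inner ℝ (b j) x : ℝ) • ((inner ℝ (b i) (a (b j)) : ℝ) • b i) =
      a ((inner ℝ (b j) x : ℝ) • b j) := by
    intro j
    rw [← Finset.smul_sum, b.sum_repr', map_smul]
  rw [Finset.sum_congr rfl fun j _ => h2 j, ← map_sum, b.sum_repr']

private theorem ip_roc {ι : Type*} [Fintype ι] (b : OrthonormalBasis ι ℝ E) {k : ℕ}
    (g' h' : E →L[ℝ] E) (β : (E →L[ℝ] E) →ₗ[ℝ] HM E k) (w : ι × ι) :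
    β (g' ∘L ro (b w.2) (b w.1) ∘L h') =
      ∑ z : ι × ι, ((inner ℝ (b w.2) (h' (b z.2)) : ℝ) * (inner ℝ (b z.1) (g' (b w.1)) : ℝ)) •
        β (ro (b z.2) (b z.1)) := by
  conv_lhs => rw [ip_ro b (g' ∘L ro (b w.2) (b w.1) ∘L h')]
  rw [map_sum]
  refine Finset.sum_congr rfl fun z _ => ?_
  rw [map_smul]
  congr 1
  rw [ContinuousLinearMap.comp_apply, ContinuousLinearMap.comp_apply, ro_apply, map_smul,
    real_inner_smul_right]

theorem exists_ipH (k : ℕ) : ∃ ip : ((E →L[ℝ] E) →ₗ[ℝ] HM E k) →ₗ[ℝ]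
      ((E →L[ℝ] E) →ₗ[ℝ] HM E k) →ₗ[ℝ] ℝ,
    (∀ p q, ip p q = ip q p) ∧ (∀ p, p ≠ 0 → 0 < ip p p) ∧
    ∀ (g h g' h' : E →L[ℝ] E) (β γ : (E →L[ℝ] E) →ₗ[ℝ] HM E k), ip (opH g h g' h' β) γ =
      ip β (opH (ContinuousLinearMap.adjoint g) (ContinuousLinearMap.adjoint h)
        (ContinuousLinearMap.adjoint g') (ContinuousLinearMap.adjoint h') γ) := by
  classical
  obtain ⟨ip, hs, hp, ha⟩ := exists_ip (E := E) k
  let b := stdOrthonormalBasis ℝ E
  refine ⟨LinearMap.mk₂ ℝ (fun β γ : (E →L[ℝ] E) →ₗ[ℝ] HM E k =>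
    ∑ z : Fin (Module.finrank ℝ E) × Fin (Module.finrank ℝ E),
      ip (β (ro (b z.2) (b z.1))) (γ (ro (b z.2) (b z.1)))) ?_ ?_ ?_ ?_, ?_, ?_, ?_⟩
  · intro p p' q
    rw [← Finset.sum_add_distrib]
    refine Finset.sum_congr rfl fun z _ => ?_
    rw [LinearMap.add_apply, map_add, LinearMap.add_apply]
  · intro c p q
    rw [smul_eq_mul, Finset.mul_sum]
    refine Finset.sum_congr rfl fun z _ => ?_
    rw [LinearMap.smul_apply, map_smul, LinearMap.smul_apply, smul_eq_mul]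
  · intro p q q'
    rw [← Finset.sum_add_distrib]
    refine Finset.sum_congr rfl fun z _ => ?_
    rw [LinearMap.add_apply, map_add]
  · intro c p q
    rw [smul_eq_mul, Finset.mul_sum]
    refine Finset.sum_congr rfl fun z _ => ?_
    rw [LinearMap.smul_apply, map_smul, smul_eq_mul]
  · intro p q
    rw [LinearMap.mk₂_apply, LinearMap.mk₂_apply]
    exact Finset.sum_congr rfl fun z _ => hs _ _
  · intro β hβ
    rw [LinearMap.mk₂_apply]
    have h0 : ∀ z ∈ (Finset.univ : Finset (Fin (Module.finrank ℝ E) × Fin (Module.finrank ℝ E))),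
        0 ≤ ip (β (ro (b z.2) (b z.1))) (β (ro (b z.2) (b z.1))) := by
      intro z _
      by_cases h1 : β (ro (b z.2) (b z.1)) = 0
      · rw [h1, map_zero]
      · exact (hp _ h1).le
    refine lt_of_le_of_ne (Finset.sum_nonneg h0) fun hc => hβ ?_
    have h1 := (Finset.sum_eq_zero_iff_of_nonneg h0).mp hc.symm
    apply LinearMap.ext
    intro a
    rw [ip_ro b a, map_sum, LinearMap.zero_apply]
    refine Finset.sum_eq_zero fun z _ => ?_
    have h2 : β (ro (b z.2) (b z.1)) = 0 := by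
      by_contra h3
      exact (hp _ h3).ne' (h1 z (Finset.mem_univ _))
    rw [map_smul, h2, smul_zero]
  · intro g h g' h' β γ
    rw [LinearMap.mk₂_apply, LinearMap.mk₂_apply]
    have h1 : ∀ w : Fin (Module.finrank ℝ E) × Fin (Module.finrank ℝ E),
        ip (opH g h g' h' β (ro (b w.2) (b w.1))) (γ (ro (b w.2) (b w.1))) =
        ∑ z : Fin (Module.finrank ℝ E) × Fin (Module.finrank ℝ E),
          ((inner ℝ (b w.2) (h' (b z.2)) : ℝ) * (inner ℝ (b z.1) (g' (b w.1)) : ℝ)) *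
          ip (pj g h (β (ro (b z.2) (b z.1)))) (γ (ro (b w.2) (b w.1))) := by
      intro w
      change ip (pj g h (β (g' ∘L ro (b w.2) (b w.1) ∘L h'))) (γ (ro (b w.2) (b w.1))) = _
      rw [ip_roc b g' h' β w, map_sum, map_sum, LinearMap.sum_apply]
      refine Finset.sum_congr rfl fun z _ => ?_
      rw [map_smul, map_smul, LinearMap.smul_apply, smul_eq_mul]
    have h2 : ∀ z : Fin (Module.finrank ℝ E) × Fin (Module.finrank ℝ E),
        ip (β (ro (b z.2) (b z.1))) (opH (ContinuousLinearMap.adjoint g)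
          (ContinuousLinearMap.adjoint h) (ContinuousLinearMap.adjoint g')
          (ContinuousLinearMap.adjoint h') γ (ro (b z.2) (b z.1))) =
        ∑ w : Fin (Module.finrank ℝ E) × Fin (Module.finrank ℝ E),
          ((inner ℝ (b w.2) (h' (b z.2)) : ℝ) * (inner ℝ (b z.1) (g' (b w.1)) : ℝ)) *
          ip (pj g h (β (ro (b z.2) (b z.1)))) (γ (ro (b w.2) (b w.1))) := by
      intro z
      change ip (β (ro (b z.2) (b z.1))) (pj (ContinuousLinearMap.adjoint g)
          (ContinuousLinearMap.adjoint h) (γ (ContinuousLinearMap.adjoint g' ∘L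
            ro (b z.2) (b z.1) ∘L ContinuousLinearMap.adjoint h'))) = _
      rw [← ha, ip_roc b (ContinuousLinearMap.adjoint g') (ContinuousLinearMap.adjoint h') γ z,
        map_sum]
      refine Finset.sum_congr rfl fun w _ => ?_
      rw [map_smul, smul_eq_mul]
      congr 1
      rw [ContinuousLinearMap.adjoint_inner_right, ContinuousLinearMap.adjoint_inner_right,
        real_inner_comm (h' (b z.2)), real_inner_comm (g' (b w.1))]
    simp only [h1, h2]
    exact Finset.sum_comm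

end
end LatLin
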