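import Pool.Agent.Lib.MP_2392aa_gt.L.Defs

/-!
MP_2392aa_gt, formal linearization, module Poly (about 220 lines): vector valued polynomials of one
variable.

PROOFS. `IsPoly f` means `f s = ∑ i < K, s ^ i • c i`.
`const`: `K = 1`. `add`: pad both to the maximum of the lengths. `lin`: apply `L` to the coefficients.
`smul`: product with a scalar polynomial: write the scalar one as `Polynomial.eval`. `comp_aff`:
expand `(a * s + b) ^ i` by the binomial theorem (or: `s ↦ a * s + b` is a scalar polynomial, powers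
and products of scalar polynomials are polynomials). `of_dual`: choose a finite basis of `X`; the
coordinates of `f` are polynomials. `of_eval`: a polynomial `P : Polynomial ℝ` gives
`IsPoly (fun s => P.eval s)`, and conversely (`exists_eval`), `Polynomial.eval_eq_sum_range`.
`eq_of_nat`: apply functionals... simplest: if `f m = g m` for all natural `m`, the difference is
`∑ i < K, s ^ i • c i` and vanishes at the `K` points `0, .., K-1`; by the invertibility of the
Vandermonde matrix (`Matrix.det_vandermonde_ne_zero_iff`) all `c i` vanish. (Alternatively: for each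
linear functional `φ` use that a real polynomial with infinitely many roots is zero, and that
functionals separate the points of a real vector space: `Module.forall_dual_apply_eq_zero_iff`.)
`const_of_bdd`: a bounded real polynomial is constant: `Polynomial.tendsto_abs_atTop` /
`Polynomial.isBoundedUnder_abs_atTop_iff` (degree `≤ 0`).
`sum_nat`: by linearity for `f s = s ^ i • c`: there is a real polynomial `S` with
`S m = ∑ j < m, j ^ i` for natural `m` (`sum_range_pow`, Faulhaber, in Mathlib over `ℚ`, or by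
induction on `i` with the telescoping sum of `(j + 1) ^ (i + 1) - j ^ (i + 1)`).
`deriv0`: the coefficient of `s` (with `0` if `K ≤ 1`): `HasDerivAt` at `0` for `L (f s)`, where `L` is
linear into a normed space: finite sum of `s ^ i • L (c i)`.
-/

open scoped ContDiff Topology

namespace LatLin
namespace IsPoly

variable {X Y : Type*} [AddCommGroup X] [Module ℝ X] [AddCommGroup Y] [Module ℝ Y]

private theorem pad (K K' : ℕ) (h : K ≤ K') (c : ℕ → X) (s : ℝ) :
    ∑ i ∈ Finset.range K, s ^ i • c i =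
      ∑ i ∈ Finset.range K', s ^ i • (if i < K then c i else 0) := by
  rw [← Finset.sum_subset (Finset.range_mono h)]
  · refine Finset.sum_congr rfl fun i hi => ?_
    rw [if_pos (Finset.mem_range.1 hi)]
  · intro i _ hi
    rw [if_neg (fun h' => hi (Finset.mem_range.2 h')), smul_zero]

theorem const (x : X) : IsPoly (fun _ : ℝ => x) :=
  ⟨1, fun _ => x, fun s => by simp⟩

theorem add {f g : ℝ → X} (hf : IsPoly f) (hg : IsPoly g) : IsPoly (fun s => f s + g s) := by
  obtain ⟨K, c, hc⟩ := hf
  obtain ⟨L, d, hd⟩ := hg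
  refine ⟨max K L, fun i => (if i < K then c i else 0) + (if i < L then d i else 0), fun s => ?_⟩
  dsimp only
  rw [hc, hd, pad K _ (le_max_left K L), pad L _ (le_max_right K L), ← Finset.sum_add_distrib]
  exact Finset.sum_congr rfl fun i _ => (smul_add _ _ _).symm

private theorem sum {ι : Type*} (S : Finset ι) {f : ι → ℝ → X} (h : ∀ i ∈ S, IsPoly (f i)) :
    IsPoly (fun s => ∑ i ∈ S, f i s) := by
  classical
  induction S using Finset.induction_on with
  | empty => simpa using const (0 : X)
  | @insert a S ha ih =>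
    have h1 := (h a (Finset.mem_insert_self _ _)).add
      (ih fun i hi => h i (Finset.mem_insert_of_mem hi))
    simpa only [Finset.sum_insert ha] using h1

private theorem mono (i : ℕ) (x : X) : IsPoly (fun s : ℝ => s ^ i • x) := by
  refine ⟨i + 1, fun j => if j = i then x else 0, fun s => ?_⟩
  dsimp only
  rw [Finset.sum_eq_single i]
  · rw [if_pos rfl]
  · intro j _ hj
    rw [if_neg hj, smul_zero]
  · intro h
    exact absurd (Finset.mem_range.2 (Nat.lt_succ_self i)) h

theorem lin {f : ℝ → X} (hf : IsPoly f) (L : X →ₗ[ℝ] Y) : IsPoly (fun s => L (f s)) := by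
  obtain ⟨K, c, hc⟩ := hf
  refine ⟨K, fun i => L (c i), fun s => ?_⟩
  dsimp only
  rw [hc, map_sum]
  exact Finset.sum_congr rfl fun i _ => L.map_smul _ _

theorem of_eval (P : Polynomial ℝ) : IsPoly (fun s : ℝ => P.eval s) := by
  refine ⟨P.natDegree + 1, fun i => P.coeff i, fun s => ?_⟩
  dsimp only
  rw [Polynomial.eval_eq_sum_range]
  exact Finset.sum_congr rfl fun i _ => mul_comm _ _

theorem exists_eval {f : ℝ → ℝ} (hf : IsPoly f) : ∃ P : Polynomial ℝ, ∀ s, f s = P.eval s := by
  obtain ⟨K, c, hc⟩ := hf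
  refine ⟨∑ i ∈ Finset.range K, Polynomial.C (c i) * Polynomial.X ^ i, fun s => ?_⟩
  rw [hc, Polynomial.eval_finsetSum]
  refine Finset.sum_congr rfl fun i _ => ?_
  rw [Polynomial.eval_mul, Polynomial.eval_C, Polynomial.eval_pow, Polynomial.eval_X, smul_eq_mul,
    mul_comm]

theorem smul {f : ℝ → ℝ} {g : ℝ → X} (hf : IsPoly f) (hg : IsPoly g) :
    IsPoly (fun s => f s • g s) := by
  obtain ⟨K, c, hc⟩ := hf
  obtain ⟨L, d, hd⟩ := hg
  have h1 : IsPoly (fun s : ℝ => ∑ i ∈ Finset.range K, ∑ j ∈ Finset.range L,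
      s ^ (i + j) • (c i • d j)) :=
    sum _ fun i _ => sum _ fun j _ => mono (i + j) _
  have h2 : (fun s => f s • g s) = fun s : ℝ => ∑ i ∈ Finset.range K, ∑ j ∈ Finset.range L,
      s ^ (i + j) • (c i • d j) := by
    funext s
    rw [hc, hd, Finset.sum_smul]
    refine Finset.sum_congr rfl fun i _ => ?_
    rw [Finset.smul_sum]
    refine Finset.sum_congr rfl fun j _ => ?_
    rw [smul_smul, smul_smul, smul_eq_mul, pow_add]
    congr 1
    ring
  rw [h2]
  exact h1

theorem comp_aff {f : ℝ → X} (hf : IsPoly f) (a b : ℝ) : IsPoly (fun s => f (a * s + b)) := by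
  obtain ⟨K, c, hc⟩ := hf
  have h1 : (fun s => f (a * s + b)) = fun s : ℝ => ∑ i ∈ Finset.range K,
      ((Polynomial.C a * Polynomial.X + Polynomial.C b) ^ i : Polynomial ℝ).eval s • c i := by
    funext s
    rw [hc]
    refine Finset.sum_congr rfl fun i _ => ?_
    simp
  rw [h1]
  exact sum _ fun i _ => (of_eval _).smul (const _)

theorem of_dual [FiniteDimensional ℝ X] {f : ℝ → X}
    (h : ∀ φ : X →ₗ[ℝ] ℝ, IsPoly (fun s => φ (f s))) : IsPoly f := by
  let b := Module.finBasis ℝ X
  have h1 : f = fun s => ∑ i, b.coord i (f s) • b i := by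
    funext s
    exact (b.sum_repr (f s)).symm
  rw [h1]
  exact sum _ fun i _ => (h (b.coord i)).smul (const _)

theorem eq_of_nat {f g : ℝ → X} (hf : IsPoly f) (hg : IsPoly g) (h : ∀ m : ℕ, f m = g m) (s : ℝ) :
    f s = g s := by
  rw [← sub_eq_zero, ← Module.forall_dual_apply_eq_zero_iff ℝ]
  intro φ
  obtain ⟨P, hP⟩ := (hf.lin φ).exists_eval
  obtain ⟨Q, hQ⟩ := (hg.lin φ).exists_eval
  have h1 : P - Q = 0 := by
    apply Polynomial.eq_zero_of_infinite_isRoot
    refine (Set.infinite_range_of_injective (f := fun m : ℕ => (m : ℝ)) Nat.cast_injective).mono ?_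
    rintro _ ⟨m, rfl⟩
    change (P - Q).eval (m : ℝ) = 0
    rw [Polynomial.eval_sub, ← hP, ← hQ]
    change φ (f m) - φ (g m) = 0
    rw [h m, sub_self]
  change φ (f s - g s) = 0
  rw [map_sub]
  have h2 := hP s
  have h3 := hQ s
  rw [h2, h3, ← Polynomial.eval_sub, h1, Polynomial.eval_zero]

/-- equality on the multiples of a positive integer suffices -/
theorem eq_of_mul {f g : ℝ → X} (hf : IsPoly f) (hg : IsPoly g) (M : ℕ) (hM : M ≠ 0)
    (h : ∀ m : ℕ, f (M * m) = g (M * m)) (s : ℝ) : f s = g s := by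
  have hM' : (M : ℝ) ≠ 0 := Nat.cast_ne_zero.2 hM
  have h1 := eq_of_nat (hf.comp_aff (M : ℝ) 0) (hg.comp_aff (M : ℝ) 0)
    (fun m => by simpa using h m) (s / M)
  have h2 : (M : ℝ) * (s / M) + 0 = s := by
    rw [add_zero]
    field_simp
  simpa only [h2] using h1

theorem const_of_bdd {f : ℝ → ℝ} (hf : IsPoly f) (C : ℝ) (h : ∀ s, |f s| ≤ C) (s : ℝ) :
    f s = f 0 := by
  obtain ⟨P, hP⟩ := hf.exists_eval
  have h1 : P.degree ≤ 0 := by
    rw [← Polynomial.isBoundedUnder_abs_atTop_iff]
    refine ⟨C, ?_⟩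
    rw [Filter.eventually_map]
    refine Filter.Eventually.of_forall fun x => ?_
    rw [← hP]
    exact h x
  rw [hP, hP, Polynomial.eq_C_of_degree_le_zero h1, Polynomial.eval_C, Polynomial.eval_C]

private theorem faul (p : ℕ) : ∃ S : Polynomial ℝ, ∀ m : ℕ,
    S.eval (m : ℝ) = ∑ j ∈ Finset.range m, (j : ℝ) ^ p := by
  refine ⟨∑ i ∈ Finset.range (p + 1),
    Polynomial.C (((bernoulli i * ((p + 1).choose i) / (p + 1) : ℚ)) : ℝ) *
      Polynomial.X ^ (p + 1 - i), fun m => ?_⟩
  have h1 := congrArg (fun q : ℚ => (q : ℝ)) (sum_range_pow m p)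
  push_cast at h1
  rw [h1, Polynomial.eval_finsetSum]
  refine Finset.sum_congr rfl fun i _ => ?_
  rw [Polynomial.eval_mul, Polynomial.eval_C, Polynomial.eval_pow, Polynomial.eval_X]
  push_cast
  ring

theorem sum_nat {f : ℝ → X} (hf : IsPoly f) :
    ∃ g : ℝ → X, IsPoly g ∧ ∀ m : ℕ, g m = ∑ j ∈ Finset.range m, f j := by
  obtain ⟨K, c, hc⟩ := hf
  choose S hS using faul
  refine ⟨fun s => ∑ i ∈ Finset.range K, (S i).eval s • c i,
    sum _ fun i _ => (of_eval _).smul (const _), fun m => ?_⟩
  simp only [hS, hc, Finset.sum_smul]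
  exact Finset.sum_comm

theorem deriv0 {E : Type*} [NormedAddCommGroup E] [NormedSpace ℝ E] {f : ℝ → X} (hf : IsPoly f)
    {J : Type*} (L : J → X →ₗ[ℝ] E) :
    ∃ x : X, ∀ j, HasDerivAt (fun s => L j (f s)) (L j x) 0 := by
  obtain ⟨K, c, hc⟩ := hf
  refine ⟨∑ i ∈ Finset.range K, (if i = 1 then c i else 0), fun j => ?_⟩
  have h1 : (fun s => L j (f s)) = fun s : ℝ => ∑ i ∈ Finset.range K, s ^ i • L j (c i) := by
    funext s
    rw [hc, map_sum]
    exact Finset.sum_congr rfl fun i _ => (L j).map_smul _ _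
  rw [h1, map_sum]
  refine HasDerivAt.fun_sum fun i _ => ?_
  have h2 := (hasDerivAt_pow i (0 : ℝ)).smul_const (L j (c i))
  by_cases hi : i = 1
  · subst hi
    simpa using h2
  · rw [if_neg hi, map_zero]
    rcases Nat.eq_zero_or_pos i with rfl | hi0
    · simpa using h2
    · have h3 : i - 1 ≠ 0 := by omega
      simpa [h3] using h2

end IsPoly
end LatLin
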